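import Mathlib

/-!
An endomorphism that commutes with all endomorphisms up to finite rank is a scalar up to finite
rank.

Plan: suppose every `T - l` has infinite rank.  For a finite dimensional `W ≤ V` there is `v` with
`v, T v` independent modulo `W`: otherwise each `v ∉ W` has `T v - l(v) • v ∈ W`; `l(v)` does not
depend on `v` (compare `v1, v2, v1 + v2` when they are independent modulo `W`, and pass through a
third vector outside `W + span {v1, v2}` otherwise), every vector is a difference of two vectors
outside `W`, so `T - l` has range in `W`.  Build `v n` by recursion with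
`v 0, T (v 0), v 1, T (v 1), ...` linearly independent, extend to a basis, and define `S` with
`S (v n) = 0`, `S (T (v n)) = v n`.  Then `(T S - S T) (v n) = - v n` has infinite rank.
-/

namespace Pool.Agent.Work.MP_c4093f_al

theorem BaseE2_pair {k V : Type} [Field k] [AddCommGroup V] [Module k V] (T : Module.End k V)
    (h : ∀ l : k, ¬ FiniteDimensional k (LinearMap.range (T - algebraMap k (Module.End k V) l)))
    (W : Submodule k V) [FiniteDimensional k W] :
    ∃ v, ∀ a b : k, a • v + b • T v ∈ W → a = 0 ∧ b = 0 := by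
  obtain ⟨s, hs⟩ := W.mkQ.exists_rightInverse_of_surjective W.range_mkQ
  have h0 : ∀ q, W.mkQ (s q) = q := LinearMap.congr_fun hs
  by_contra hv
  obtain ⟨l, hl⟩ := (W.mkQ ∘ₗ T ∘ₗ s).exists_eq_smul_id_of_forall_notLinearIndependent
    fun q hq => hv ⟨s q, fun a b hab => LinearIndependent.pair_iff.1 hq a b (by
      have h1 := (Submodule.Quotient.mk_eq_zero W).2 hab
      rwa [← W.mkQ_apply, map_add, map_smul, map_smul, h0] at h1)⟩
  refine h l (Submodule.finiteDimensional_of_le
    (S₂ := W ⊔ W.map (T - algebraMap k (Module.End k V) l)) ?_)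
  rintro _ ⟨v, rfl⟩
  have h1 : v - s (W.mkQ v) ∈ W := by
    rw [← Submodule.Quotient.mk_eq_zero, ← W.mkQ_apply, map_sub, h0, sub_self]
  have h2 : (T - algebraMap k (Module.End k V) l) (s (W.mkQ v)) ∈ W := by
    rw [← Submodule.Quotient.mk_eq_zero, ← W.mkQ_apply, LinearMap.sub_apply, map_sub,
      Module.algebraMap_end_apply, map_smul, h0, sub_eq_zero]
    exact LinearMap.congr_fun hl _
  have h3 := Submodule.add_mem_sup h2
    (Submodule.mem_map_of_mem (f := T - algebraMap k (Module.End k V) l) h1)
  rwa [← map_add, add_sub_cancel] at h3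

theorem cen_end {k V : Type} [Field k] [AddCommGroup V] [Module k V] (T : Module.End k V)
    (h : ∀ S : Module.End k V, FiniteDimensional k (LinearMap.range (T * S - S * T))) :
    ∃ l : k, FiniteDimensional k (LinearMap.range (T - algebraMap k (Module.End k V) l)) := by
  classical
  by_contra hT
  obtain ⟨x, h1, h2⟩ := exists_seq_of_forall_finset_exists (α := Submodule k V × V)
    (fun x => ∀ a b : k, a • x.2 + b • T x.2 ∈ x.1 → a = 0 ∧ b = 0)
    (fun x y => x.2 ∈ y.1 ∧ T x.2 ∈ y.1) fun s _ => by
      obtain ⟨v, hv⟩ := BaseE2_pair T (not_exists.1 hT)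
        (Submodule.span k ↑(s.image (·.2) ∪ s.image fun x => T x.2))
      refine ⟨(_, v), hv, fun x hx => ⟨Submodule.subset_span ?_, Submodule.subset_span ?_⟩⟩
      · exact Finset.mem_union_left _ (Finset.mem_image_of_mem _ hx)
      · exact Finset.mem_union_right _ (Finset.mem_image_of_mem _ hx)
  let e : ℕ → k × k →ₗ[k] V := fun n =>
    (LinearMap.toSpanSingleton k V (x n).2).coprod (LinearMap.toSpanSingleton k V (T (x n).2))
  have he : ∀ n c, e n c = c.1 • (x n).2 + c.2 • T (x n).2 := fun _ _ => rfl
  obtain ⟨g, hg⟩ := (Finsupp.lsum k e).exists_leftInverse_of_injective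
    (LinearMap.ker_eq_bot'.2 fun c hc => by
      by_contra h0
      have hn := Finsupp.support_nonempty_iff.2 h0
      have h3 := c.support.max'_mem hn
      rw [Finsupp.lsum_apply, Finsupp.sum, ← Finset.add_sum_erase _ _ h3,
        add_eq_zero_iff_eq_neg] at hc
      refine Finsupp.mem_support_iff.1 h3 (Prod.ext_iff.2 (h1 (c.support.max' hn) _ _ ?_))
      rw [← he, hc]
      refine neg_mem (Submodule.sum_mem _ fun m hm => ?_)
      have h4 := h2 m _ (c.support.lt_max'_of_mem_erase_max' hn hm)
      exact add_mem (Submodule.smul_mem _ _ h4.1) (Submodule.smul_mem _ _ h4.2))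
  have g1 : ∀ n c, g (e n c) = Finsupp.single n c := fun n c => by
    simpa using LinearMap.congr_fun hg (Finsupp.single n c)
  have g2 : ∀ n, g (x n).2 = Finsupp.single n (1, 0) := fun n => by simp [← g1, he]
  have g3 : ∀ n, g (T (x n).2) = Finsupp.single n (0, 1) := fun n => by simp [← g1, he]
  let S : Module.End k V := Finsupp.lsum k
    (fun n => LinearMap.toSpanSingleton k V (x n).2 ∘ₗ LinearMap.snd k k k) ∘ₗ g
  have := h S
  have s2 : ∀ n, S (x n).2 = 0 := fun n => by simp [S, g2]
  have s3 : ∀ n, S (T (x n).2) = (x n).2 := fun n => by simp [S, g3]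
  have h3 : ∀ n, (x n).2 ∈ LinearMap.range (T * S - S * T) := fun n =>
    ⟨-(x n).2, by simp [s2, s3]⟩
  refine Module.Finite.not_linearIndependent_of_infinite (R := k)
    (fun n => (⟨_, h3 n⟩ : LinearMap.range (T * S - S * T))) (LinearIndependent.of_comp
    (Finsupp.mapRange.linearMap (LinearMap.fst k k k) ∘ₗ g ∘ₗ Submodule.subtype _) ?_)
  have h4 := (Finsupp.basisSingleOne (R := k) (ι := ℕ)).linearIndependent
  rw [Finsupp.coe_basisSingleOne] at h4
  refine (congrArg (fun w : ℕ → ℕ →₀ k => LinearIndependent k w) (funext fun n => ?_)).mp h4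
  simp [g2]

end Pool.Agent.Work.MP_c4093f_al
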