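import Pool.Agent.Work.MP_c4093f_al.Basic
import Pool.Agent.Work.MP_c4093f_al.BaseE2

/-!
The base ring: endomorphisms of `V = List ℕ →₀ k` modulo finite rank.

Plan.  The finite rank maps form a two sided ideal; `E` is the quotient (`Ideal.Quotient` with
`Ideal.IsTwoSided`, or `RingCon.Quotient`).  `PI`: if `T` has infinite rank, its range has rank
`ℵ₀`, so there is an isomorphism `e : range T ≃ V`; `T = x * y` with `y = e ∘ T` onto and
`x = subtype ∘ e.symm` injective; use `LinearMap.exists_leftInverse_of_injective`,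
`LinearMap.exists_rightInverse_of_surjective`.  `Cen` from `cen_end`.  Letters: `c b` sends the word
`w` to `b :: w`, `n a` sends `a :: w` to `w` and other words to `0`.  Leavitt pair by `PI.lv` for
the idempotent `c 0 * n 0`.  Model matrices: lift the entries to the span of the `n a` in the
endomorphism ring; each such map strictly lowers the maximal length of the support, so `1 + N` is
injective on `Fin m → V` and has a linear left inverse, whose entries give `M`.
-/

namespace Pool.Agent.Work.MP_c4093f_al
section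
variable (k V : Type) [Field k] [AddCommGroup V] [Module k V]

/-- the finite rank maps -/
def BaseE_F : Ideal (Module.End k V) where
  carrier := {T | T.HasNoetherianRange}
  zero_mem' := LinearMap.HasNoetherianRange.zero
  add_mem' := fun hx hy => hx.add hy
  smul_mem' := fun r _ hx => hx.comp_left r

instance BaseE_two : (BaseE_F k V).IsTwoSided := ⟨fun b ha => ha.comp_right b⟩

theorem BaseE_mem {T : Module.End k V} :
    T ∈ BaseE_F k V ↔ FiniteDimensional k (LinearMap.range T) :=
  LinearMap.hasNoetherianRange_iff_range.trans IsNoetherian.iff_fg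

theorem BaseE_nt (hV : Module.rank k V = Cardinal.aleph0) :
    Nontrivial (Module.End k V ⧸ BaseE_F k V) := by
  refine Ideal.Quotient.nontrivial_iff.2 ((Ideal.ne_top_iff_one _).2 fun h => ?_)
  have h1 := Module.rank_lt_aleph0_iff.2 ((BaseE_mem k V).1 h)
  rw [Module.End.one_eq_id, LinearMap.range_id, rank_top, hV] at h1
  exact lt_irrefl _ h1

theorem BaseE_pi (hV : Module.rank k V = Cardinal.aleph0) :
    PI (Module.End k V ⧸ BaseE_F k V) := by
  intro b hb
  obtain ⟨T, rfl⟩ := Ideal.Quotient.mk_surjective b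
  have h1 : ¬ Module.rank k (LinearMap.range T) < Cardinal.aleph0 := fun h =>
    hb (Ideal.Quotient.eq_zero_iff_mem.2 ((BaseE_mem k V).2 (Module.rank_lt_aleph0_iff.1 h)))
  obtain ⟨e⟩ := nonempty_linearEquiv_of_rank_eq (R := k) (M := LinearMap.range T)
    (M₁ := V) (le_antisymm (Submodule.rank_le _) (hV.trans_le (not_lt.1 h1)))
  obtain ⟨x', hx⟩ := LinearMap.exists_leftInverse_of_injective
    ((LinearMap.range T).subtype ∘ₗ e.symm.toLinearMap)
    (LinearMap.ker_eq_bot.2 (Subtype.val_injective.comp e.symm.injective))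
  obtain ⟨y', hy⟩ := LinearMap.exists_rightInverse_of_surjective (e.toLinearMap ∘ₗ T.rangeRestrict)
    (LinearMap.range_eq_top.2 (e.surjective.comp T.surjective_rangeRestrict))
  refine ⟨Ideal.Quotient.mk _ ((LinearMap.range T).subtype ∘ₗ e.symm.toLinearMap),
    Ideal.Quotient.mk _ (e.toLinearMap ∘ₗ T.rangeRestrict), Ideal.Quotient.mk _ x',
    Ideal.Quotient.mk _ y', ?_, ?_, ?_⟩
  · rw [← map_mul]
    congr 1
    ext v : 1
    simp
  · rw [← map_mul, ← map_one (Ideal.Quotient.mk _)]
    exact congrArg _ hx
  · rw [← map_mul, ← map_one (Ideal.Quotient.mk _)]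
    exact congrArg _ hy

theorem BaseE_cen : Cen k (Module.End k V ⧸ BaseE_F k V) := by
  intro z hz
  obtain ⟨T, rfl⟩ := Ideal.Quotient.mk_surjective z
  obtain ⟨l, hl⟩ := cen_end T fun S => (BaseE_mem k V).1 (Ideal.Quotient.eq.1 (by
    rw [map_mul, map_mul]
    exact hz _))
  exact ⟨l, Ideal.Quotient.eq.2 ((BaseE_mem k V).2 hl)⟩

theorem BaseE_gen (hV : Module.rank k V = Cardinal.aleph0) (n c : ℕ → Module.End k V)
    (h1 : ∀ a b, n a * c b = if a = b then 1 else 0)
    (ma : ∀ (m : ℕ) (N : Fin m → Fin m → Module.End k V),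
      (∀ i j, N i j ∈ Submodule.span k (Set.range n)) → ∃ M : Fin m → Fin m → Module.End k V,
        ∀ i l, ∑ j, M i j * ((if j = l then 1 else 0) + N j l) = if i = l then 1 else 0) :
    ∃ (E : Type) (_ : Ring E) (_ : Algebra k E),
      Nontrivial E ∧ PI E ∧ Cen k E ∧ Nonempty (Base k E) := by
  have := BaseE_nt k V hV
  let f := Ideal.Quotient.mkₐ k (BaseE_F k V)
  have hnc : ∀ a b, f (n a) * f (c b) = if a = b then 1 else 0 := fun a b => by
    rw [← map_mul, h1]
    split_ifs <;> simp
  have h0 := (hnc 0 0).trans (if_pos rfl)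
  obtain ⟨lv⟩ := (BaseE_pi k V hV).lv (e := f (c 0) * f (n 0))
    (by rw [mul_assoc, ← mul_assoc (f (n 0)), h0, one_mul])
    (fun h => by
      have h1 := congrArg (fun t => f (n 0) * t * f (c 0)) h
      simp only [← mul_assoc, h0, one_mul, mul_zero, zero_mul] at h1
      exact one_ne_zero h1)
    (fun h => by
      have h1 := congrArg (fun t => f (n 1) * t * f (c 1)) h
      simp only [← mul_assoc, hnc, mul_one, one_ne_zero, if_false, if_true, zero_mul] at h1
      exact zero_ne_one h1)
  refine ⟨_, inferInstance, inferInstance, this, BaseE_pi k V hV, BaseE_cen k V,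
    ⟨⟨lv, fun a => f (n a), fun a => f (c a), hnc, fun m N hN => ?_⟩⟩⟩
  have h1 : ∀ i j, ∃ N0 ∈ Submodule.span k (Set.range n), f N0 = N i j := fun i j => by
    have h1 := hN i j
    have h2 : Set.range (fun a => f (n a)) = f.toLinearMap '' Set.range n := by
      rw [← Set.range_comp]; rfl
    rw [h2, ← Submodule.map_span] at h1
    exact h1
  choose N0 h1 h2 using h1
  obtain ⟨M, hM⟩ := ma m N0 h1
  refine ⟨fun i j => f (M i j), fun i l => ?_⟩
  have h3 := congrArg f (hM i l)
  rw [map_sum] at h3
  simp only [map_mul, map_add, h2, apply_ite f, map_one, map_zero] at h3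
  exact h3

end

section
variable (k : Type) [Field k]

/-- the space with the words as a basis -/
abbrev BaseE_V := List ℕ →₀ k

/-- add a letter -/
noncomputable def BaseE_c (b : ℕ) : Module.End k (BaseE_V k) := Finsupp.lmapDomain k k (b :: ·)

/-- remove a letter -/
noncomputable def BaseE_n (a : ℕ) : Module.End k (BaseE_V k) :=
  Finsupp.lcomapDomain (a :: ·) List.cons_injective

theorem BaseE_n_apply (a : ℕ) (v : BaseE_V k) (w : List ℕ) : BaseE_n k a v w = v (a :: w) := rfl

theorem BaseE_nc (a b : ℕ) : BaseE_n k a * BaseE_c k b = if a = b then 1 else 0 := by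
  refine LinearMap.ext fun v => Finsupp.ext fun w => ?_
  change Finsupp.mapDomain (b :: ·) v (a :: w) = _
  split_ifs with h
  · subst h
    exact Finsupp.mapDomain_apply List.cons_injective v w
  · exact Finsupp.mapDomain_of_notMem_range _ _ fun ⟨_, h'⟩ => h (List.cons.inj h').1.symm

theorem BaseE_low {T : Module.End k (BaseE_V k)} (hT : T ∈ Submodule.span k (Set.range (BaseE_n k)))
    {d : ℕ} {v : BaseE_V k} (hv : ∀ w : List ℕ, d + 1 ≤ w.length → v w = 0) {w : List ℕ}
    (hw : d ≤ w.length) : T v w = 0 := by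
  induction hT using Submodule.span_induction with
  | mem T h =>
    obtain ⟨a, rfl⟩ := h
    exact hv (a :: w) (Nat.succ_le_succ hw)
  | zero => rfl
  | add S T _ _ h1 h2 => rw [LinearMap.add_apply, Finsupp.add_apply, h1, h2, add_zero]
  | smul l T _ h => rw [LinearMap.smul_apply, Finsupp.smul_apply, h, smul_zero]

theorem BaseE_ma (m : ℕ) (N : Fin m → Fin m → Module.End k (BaseE_V k))
    (hN : ∀ i j, N i j ∈ Submodule.span k (Set.range (BaseE_n k))) :
    ∃ M : Fin m → Fin m → Module.End k (BaseE_V k), ∀ i l,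
      ∑ j, M i j * ((if j = l then 1 else 0) + N j l) = if i = l then 1 else 0 := by
  let L : (Fin m → BaseE_V k) →ₗ[k] Fin m → BaseE_V k :=
    LinearMap.id + LinearMap.pi fun j => ∑ l, N j l ∘ₗ LinearMap.proj l
  have hL : ∀ v j, L v j = v j + ∑ l, N j l (v l) := fun v j => by simp [L]
  obtain ⟨G, hG⟩ := LinearMap.exists_leftInverse_of_injective L (LinearMap.ker_eq_bot'.2 fun v hv => by
    obtain ⟨D, hD⟩ : ∃ D, ∀ j (w : List ℕ), D ≤ w.length → v j w = 0 := by
      refine ⟨(Finset.univ.sup fun j => (v j).support.sup List.length) + 1, fun j w hw => ?_⟩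
      by_contra h
      have h1 := Finset.le_sup (f := List.length) (Finsupp.mem_support_iff.2 h)
      have h2 := Finset.le_sup (f := fun j => (v j).support.sup List.length) (Finset.mem_univ j)
      omega
    induction D with
    | zero => exact funext fun j => Finsupp.ext fun w => hD j w (Nat.zero_le _)
    | succ D ih =>
      refine ih fun j w hw => ?_
      have h1 := DFunLike.congr_fun ((hL v j).symm.trans (congrFun hv j)) w
      rwa [Finsupp.add_apply, Finsupp.finsetSum_apply,
        Finset.sum_eq_zero fun l _ => BaseE_low k (hN j l) (hD l) hw, add_zero] at h1)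
  refine ⟨fun i j => LinearMap.proj i ∘ₗ G ∘ₗ LinearMap.single k (fun _ => BaseE_V k) j, fun i l =>
    LinearMap.ext fun x => ?_⟩
  have h1 : L (Pi.single l x) = ∑ j, Pi.single j (((if j = l then 1 else 0) + N j l) x) := by
    funext j
    rw [Finset.univ_sum_single, hL, Finset.sum_eq_single l (fun b _ hb => by
      rw [Pi.single_eq_of_ne hb, map_zero]) (by simp), Pi.single_eq_same, Pi.single_apply]
    split_ifs <;> simp
  have h2 := congrFun (LinearMap.congr_fun hG (Pi.single l x)) i
  rw [LinearMap.comp_apply, h1, map_sum, Finset.sum_apply, LinearMap.id_apply,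
    Pi.single_apply] at h2
  rw [LinearMap.sum_apply]
  refine h2.trans ?_
  split_ifs <;> rfl

end


theorem baseE (k : Type) [Field k] : ∃ (E : Type) (_ : Ring E) (_ : Algebra k E),
    Nontrivial E ∧ PI E ∧ Cen k E ∧ Nonempty (Base k E) := by
  exact BaseE_gen k (BaseE_V k) (by rw [rank_finsupp_self', Cardinal.mk_eq_aleph0]) (BaseE_n k)
    (BaseE_c k) (BaseE_nc k) (BaseE_ma k)

end Pool.Agent.Work.MP_c4093f_al
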