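import Pool.Agent.Work.MP_c4093f_al.Free2

/-!
A countable base ring with its simple module and its two left ideals.

* `closure_sub`: `S 0 = adjoin s`, `S (n + 1) = adjoin (S n ∪ ⋃ i, g i '' S n)`, take the union
  (`Algebra.cardinalMk_adjoin_le` for countability).
* `baseC`: close under the four witnesses of `PI`, a witness `a` with `a z ≠ z a` for non scalar
  `z`, starting from the Leavitt pair, the letters and, for each `m` and each matrix `N` with
  entries in the (countable) span of the letters, the entries of one `M`.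
* `baseP1`: enumerate `A`.  Build right invertible `x n` with `x (n + 1) = u * x n`,
  `P = ⋃ {h | x n * h = 0}`.  For `b`: if `x b ≠ 0`, `u (x b) y' = 1` (`PI.one`), new row `u x`,
  `d = y' * (u x)`, so `u x (b d - 1) = 0`.  Next, if `x, x b` are dependent then `x (b - l) = 0`;
  otherwise `fr` gives `u x c = 0`, `u x b c = 1`, so `c ∈ P` and `b c ∉ P` for ever.
* `baseP2`: build left invertible `c1 n, c2 n` with `ci (n + 1) = ci n * _`,
  `Li = ⋃ {h | h * ci n = 0}`.  For `b`: `c1' c1 = 1`; `sm` gives `u c1' b c2 ω = 0`; put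
  `1 - l = c1 u' u c1'`, new `c1 = c1 u'`, new `c2 = c2 ω`.
-/

namespace Pool.Agent.Work.MP_c4093f_al

variable {k A : Type} [Field k] [Ring A] [Algebra k A]

theorem adj_BaseP [Countable k] (s : Set A) (hs : s.Countable) :
    ((Algebra.adjoin k s : Subalgebra k A) : Set A).Countable := by
  have : Countable s := hs
  have h := Algebra.cardinalMk_adjoin_le k s
  have h2 : Cardinal.mk (Algebra.adjoin k s) ≤ Cardinal.aleph0 :=
    h.trans (sup_le (sup_le Cardinal.mk_le_aleph0 Cardinal.mk_le_aleph0) le_rfl)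
  exact Cardinal.mk_le_aleph0_iff.1 h2

theorem chain_BaseP {σ β : Type} [Countable β] [Nonempty β] (r : σ → σ → Prop)
    (h0 : ∀ x, r x x) (ht : ∀ x y z, r x y → r y z → r x z) (Q : β → σ → Prop) (x0 : σ)
    (h : ∀ x b, ∃ y, r x y ∧ Q b y) :
    ∃ x : ℕ → σ, (∀ m n, m ≤ n → r (x m) (x n)) ∧ ∀ b, ∃ n, Q b (x n) := by
  obtain ⟨e, he⟩ := exists_surjective_nat β
  choose f h1 h2 using h
  let x : ℕ → σ := fun n => Nat.rec x0 (fun n y => f y (e n)) n
  refine ⟨x, fun m n hmn => ?_, fun b => ?_⟩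
  · induction hmn with
    | refl => exact h0 _
    | step _ ih => exact ht _ _ _ ih (h1 _ _)
  · obtain ⟨n, rfl⟩ := he b
    exact ⟨n + 1, h2 _ _⟩

theorem closure_sub [Countable k] {ι : Type} [Countable ι] (g : ι → A → A) (s : Set A)
    (hs : s.Countable) :
    ∃ R : Subalgebra k A, Countable R ∧ s ⊆ R ∧ ∀ i, ∀ x ∈ R, g i x ∈ R := by
  obtain ⟨S, h0, hS⟩ : ∃ S : ℕ → Subalgebra k A, S 0 = Algebra.adjoin k s ∧
      ∀ n, S (n + 1) = Algebra.adjoin k ((S n : Set A) ∪ ⋃ i, g i '' (S n : Set A)) :=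
    ⟨fun n => (fun T : Subalgebra k A =>
      Algebra.adjoin k ((T : Set A) ∪ ⋃ i, g i '' (T : Set A)))^[n] (Algebra.adjoin k s), rfl,
      fun n => Function.iterate_succ_apply' _ _ _⟩
  have hc : ∀ n, (S n : Set A).Countable := by
    intro n
    induction n with
    | zero => rw [h0]; exact adj_BaseP s hs
    | succ n ih =>
      rw [hS]
      exact adj_BaseP (k := k) _ (ih.union (Set.countable_iUnion fun i => ih.image _))
  have hm : Monotone S := monotone_nat_of_le_succ fun n x hx => by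
    rw [hS]; exact Algebra.subset_adjoin (Or.inl hx)
  have hU := Subalgebra.coe_iSup_of_directed (K := S) hm.directed_le
  refine ⟨iSup S, ?_, fun x hx => le_iSup S 0 (h0 ▸ Algebra.subset_adjoin hx), fun i x hx => ?_⟩
  · have : ((iSup S : Subalgebra k A) : Set A).Countable := by
      rw [hU]; exact Set.countable_iUnion hc
    exact this
  · have h1 : x ∈ ((iSup S : Subalgebra k A) : Set A) := hx
    rw [hU] at h1
    obtain ⟨n, hn⟩ := Set.mem_iUnion.1 h1
    refine le_iSup S (n + 1) ?_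
    rw [hS]
    exact Algebra.subset_adjoin (Or.inr (Set.mem_iUnion.2 ⟨i, x, hn, rfl⟩))

theorem baseC [Countable k] [Nontrivial A] (hP : PI A) (hC : Cen k A) (B : Base k A) :
    ∃ (A0 : Type) (_ : Ring A0) (_ : Algebra k A0),
      Countable A0 ∧ Nontrivial A0 ∧ PI A0 ∧ Cen k A0 ∧ Nonempty (Base k A0) := by
  classical
  have hP' : ∀ b : A, ∃ x y x' y' : A, b ≠ 0 → b = x * y ∧ x' * x = 1 ∧ y * y' = 1 := fun b => by
    by_cases hb : b = 0
    · exact ⟨0, 0, 0, 0, fun h => absurd hb h⟩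
    · obtain ⟨x, y, x', y', h⟩ := hP b hb
      exact ⟨x, y, x', y', fun _ => h⟩
  have hC' : ∀ z : A, ∃ a, z * a = a * z → ∃ l : k, z = algebraMap k A l := fun z => by
    by_cases hz : ∀ a, z * a = a * z
    · exact ⟨0, fun _ => hC z hz⟩
    · obtain ⟨a, ha⟩ := not_forall.1 hz
      exact ⟨a, fun h => absurd h ha⟩
  choose x y x' y' hxy using hP'
  choose a ha using hC'
  choose M hM using fun (m : ℕ) (N : Fin m → Fin m → Submodule.span k (Set.range B.n)) =>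
    B.ma m (fun i j => N i j) fun i j => (N i j).2
  obtain ⟨R, hR, hs, hg⟩ := closure_sub (k := k) ![x, y, x', y', a]
    (Set.range ![B.lv.x1, B.lv.x2, B.lv.y1, B.lv.y2] ∪ Set.range B.n ∪ Set.range B.c ∪
      Set.range fun t : Σ m : ℕ,
        (Fin m → Fin m → Submodule.span k (Set.range B.n)) × Fin m × Fin m =>
          M t.1 t.2.1 t.2.2.1 t.2.2.2)
    ((((Set.countable_range _).union (Set.countable_range _)).union (Set.countable_range _)).union
      (Set.countable_range _))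
  refine ⟨R, inferInstance, inferInstance, hR, inferInstance, fun b hb => ?_, fun z hz => ?_,
    ⟨{ lv :=
        { x1 := ⟨B.lv.x1, hs (.inl (.inl (.inl ⟨0, rfl⟩)))⟩
          x2 := ⟨B.lv.x2, hs (.inl (.inl (.inl ⟨1, rfl⟩)))⟩
          y1 := ⟨B.lv.y1, hs (.inl (.inl (.inl ⟨2, rfl⟩)))⟩
          y2 := ⟨B.lv.y2, hs (.inl (.inl (.inl ⟨3, rfl⟩)))⟩
          h11 := Subtype.ext B.lv.h11
          h12 := Subtype.ext B.lv.h12
          h21 := Subtype.ext B.lv.h21
          h22 := Subtype.ext B.lv.h22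
          hs := Subtype.ext B.lv.hs }
       n := fun i => ⟨B.n i, hs (.inl (.inl (.inr ⟨i, rfl⟩)))⟩
       c := fun i => ⟨B.c i, hs (.inl (.inr ⟨i, rfl⟩))⟩
       hnc := fun i j => Subtype.ext ?_
       ma := fun m N hN => ?_ }⟩⟩
  · obtain ⟨h1, h2, h3⟩ := hxy b fun h => hb (Subtype.ext h)
    exact ⟨⟨x b, hg 0 b b.2⟩, ⟨y b, hg 1 b b.2⟩, ⟨x' b, hg 2 b b.2⟩, ⟨y' b, hg 3 b b.2⟩,
      Subtype.ext h1, Subtype.ext h2, Subtype.ext h3⟩
  · obtain ⟨l, hl⟩ := ha z (congrArg Subtype.val (hz ⟨a z, hg 4 z z.2⟩))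
    exact ⟨l, Subtype.ext hl⟩
  · change B.n i * B.c j = _
    rw [B.hnc]
    split_ifs <;> rfl
  · have h1 : ∀ i j, (N i j : A) ∈ Submodule.span k (Set.range B.n) := fun i j => by
      have h2 := Submodule.mem_map_of_mem (f := R.val.toLinearMap) (hN i j)
      rw [Submodule.map_span, ← Set.range_comp] at h2
      exact h2
    refine ⟨fun i j => ⟨M m (fun i j => ⟨N i j, h1 i j⟩) i j,
      hs (.inr ⟨⟨m, fun i j => ⟨N i j, h1 i j⟩, i, j⟩, rfl⟩)⟩, fun i l => Subtype.ext ?_⟩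
    have h3 := hM m (fun i j => ⟨N i j, h1 i j⟩) i l
    change R.val _ = R.val _
    rw [map_sum]
    simp only [map_mul, map_add, apply_ite R.val, map_one, map_zero]
    exact h3

theorem baseP1 [Countable A] [Nontrivial A] (hP : PI A) (lv : Lv A) (hC : Cen k A) :
    ∃ P : RI A, SimpK k P := by
  obtain ⟨x, hx, hQ⟩ := chain_BaseP (σ := {x : A // ∃ x', x * x' = 1}) (β := A ⊕ A)
    (fun x y => ∃ u, y.1 = u * x.1) (fun x => ⟨1, (one_mul _).symm⟩)
    (fun x y z ⟨u, hu⟩ ⟨v, hv⟩ => ⟨v * u, by rw [hv, hu, mul_assoc]⟩)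
    (Sum.elim (fun b y => y.1 * b = 0 ∨ ∃ d, y.1 * (b * d - 1) = 0)
      fun b y => (∃ l : k, y.1 * (b - algebraMap k A l) = 0) ∨
        ∃ c, y.1 * c = 0 ∧ y.1 * (b * c) = 1) ⟨1, 1, one_mul 1⟩ (by
      rintro x (b | b)
      · by_cases h : x.1 * b = 0
        · exact ⟨x, ⟨1, (one_mul _).symm⟩, Or.inl h⟩
        obtain ⟨p, q, hpq⟩ := hP.one h
        have h1 : p * x.1 * (b * q) = 1 := by simpa only [mul_assoc] using hpq
        refine ⟨⟨p * x.1, _, h1⟩, ⟨p, rfl⟩, Or.inr ⟨q * (p * x.1), ?_⟩⟩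
        change p * x.1 * _ = 0
        rw [mul_sub, ← mul_assoc b, ← mul_assoc, h1, one_mul, mul_one, sub_self]
      · by_cases h : x.1 * b ∈ Submodule.span k (Set.range fun _ : Unit => x.1)
        · rw [Set.range_const, Submodule.mem_span_singleton] at h
          obtain ⟨l, hl⟩ := h
          refine ⟨x, ⟨1, (one_mul _).symm⟩, Or.inl ⟨l, ?_⟩⟩
          rw [mul_sub, ← hl, Algebra.smul_def, Algebra.commutes, sub_self]
        obtain ⟨u, c, h1, h2⟩ := frspan hP lv hC _ h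
        have h3 : u * x.1 * (b * c) = 1 := by simpa only [mul_assoc] using h1
        exact ⟨⟨u * x.1, _, h3⟩, ⟨u, rfl⟩, Or.inr ⟨c, h2 (), h3⟩⟩)
  have up : ∀ {m n h}, m ≤ n → (x m).1 * h = 0 → (x n).1 * h = 0 := fun hmn hh => by
    obtain ⟨u, hu⟩ := hx _ _ hmn
    rw [hu, mul_assoc, hh, mul_zero]
  have ne : ∀ n, (x n).1 ≠ 0 := fun n h => by
    obtain ⟨w, hw⟩ := (x n).2
    rw [h, zero_mul] at hw
    exact zero_ne_one hw
  let P : RI A :=
    { carrier := {h | ∃ n, (x n).1 * h = 0}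
      zero_mem' := ⟨0, mul_zero _⟩
      add_mem' := fun ⟨m, hm⟩ ⟨n, hn⟩ => ⟨max m n, by
        rw [mul_add, up (le_max_left _ _) hm, up (le_max_right _ _) hn, add_zero]⟩
      smul_mem' := fun r h ⟨n, hn⟩ => ⟨n, by
        rw [MulOpposite.smul_eq_mul_unop, ← mul_assoc, hn, zero_mul]⟩ }
  refine ⟨P, ⟨fun ⟨n, hn⟩ => ne n (by rwa [mul_one] at hn), fun b hb => ?_⟩, fun b hb => ?_⟩
  · obtain ⟨n, h | ⟨d, h⟩⟩ := hQ (.inl b)
    · exact absurd ⟨n, h⟩ hb
    · exact ⟨d, n, h⟩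
  · obtain ⟨n, ⟨l, h⟩ | ⟨c, h1, h2⟩⟩ := hQ (.inr b)
    · exact ⟨l, n, h⟩
    · obtain ⟨m, hm⟩ := hb c ⟨n, h1⟩
      have h3 := up (le_max_left m n) hm
      obtain ⟨u, hu⟩ := hx _ _ (le_max_right m n)
      rw [hu, mul_assoc, h2, mul_one] at h3
      rw [h3, zero_mul] at hu
      exact absurd hu (ne _)

theorem baseP2 [Countable A] [Nontrivial A] (hP : PI A) (lv : Lv A) :
    ∃ L1 L2 : Ideal A, Perp L1 L2 := by
  obtain ⟨x, hx, hQ⟩ := chain_BaseP
    (σ := {c : A × A // (∃ a, a * c.1 = 1) ∧ ∃ a, a * c.2 = 1}) (β := A)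
    (fun c d => (∃ w, d.1.1 = c.1.1 * w) ∧ ∃ w, d.1.2 = c.1.2 * w)
    (fun x => ⟨⟨1, (mul_one _).symm⟩, 1, (mul_one _).symm⟩)
    (fun x y z ⟨⟨u, hu⟩, u', hu'⟩ ⟨⟨v, hv⟩, v', hv'⟩ =>
      ⟨⟨u * v, by rw [hv, hu, mul_assoc]⟩, u' * v', by rw [hv', hu', mul_assoc]⟩)
    (fun b d => ∃ l, l * d.1.1 = 0 ∧ (b - l * b) * d.1.2 = 0)
    ⟨(1, 1), ⟨1, one_mul 1⟩, 1, one_mul 1⟩ (by
      rintro ⟨⟨c1, c2⟩, ⟨a1, h1⟩, a2, h2⟩ b
      dsimp only at h1 h2
      obtain ⟨u, u', w, w', hu, hw, h⟩ := sm hP lv fun _ : Unit => a1 * b * c2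
      have h3 : u * a1 * (c1 * u') = 1 := by
        rw [mul_assoc, ← mul_assoc a1, h1, one_mul, hu]
      have h4 : w' * a2 * (c2 * w) = 1 := by
        rw [mul_assoc, ← mul_assoc a2, h2, one_mul, hw]
      refine ⟨⟨(c1 * u', c2 * w), ⟨_, h3⟩, _, h4⟩, ⟨⟨u', rfl⟩, w, rfl⟩,
        1 - c1 * u' * (u * a1), ?_, ?_⟩
      · change _ * (c1 * u') = 0
        rw [sub_mul, one_mul, mul_assoc (c1 * u'), h3, mul_one, sub_self]
      · change _ * (c2 * w) = 0
        calc _ = c1 * u' * (u * (a1 * b * c2) * w) := by noncomm_ring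
          _ = 0 := by rw [h (), mul_zero])
  have key : ∀ c : ℕ → A, (∀ n, ∃ a, a * c n = 1) → (∀ m n, m ≤ n → ∃ w, c n = c m * w) →
      ∃ L : Ideal A, (1 : A) ∉ L ∧ ∀ h n, h * c n = 0 → h ∈ L := fun c hc hm => by
    have up : ∀ {m n h}, m ≤ n → h * c m = 0 → h * c n = 0 := fun hmn hh => by
      obtain ⟨u, hu⟩ := hm _ _ hmn
      rw [hu, ← mul_assoc, hh, zero_mul]
    refine ⟨{ carrier := {h | ∃ n, h * c n = 0}
              zero_mem' := ⟨0, zero_mul _⟩
              add_mem' := fun ⟨m, hm⟩ ⟨n, hn⟩ => ⟨max m n, by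
                rw [add_mul, up (le_max_left _ _) hm, up (le_max_right _ _) hn, add_zero]⟩
              smul_mem' := fun r h ⟨n, hn⟩ => ⟨n, by
                rw [smul_eq_mul, mul_assoc, hn, mul_zero]⟩ }, fun ⟨n, hn⟩ => ?_, fun h n hn => ⟨n, hn⟩⟩
    obtain ⟨a, ha⟩ := hc n
    rw [one_mul] at hn
    rw [hn, mul_zero] at ha
    exact zero_ne_one ha
  obtain ⟨L1, h1, h1'⟩ := key (fun n => (x n).1.1) (fun n => (x n).2.1) fun m n h => (hx m n h).1
  obtain ⟨L2, h2, h2'⟩ := key (fun n => (x n).1.2) (fun n => (x n).2.2) fun m n h => (hx m n h).2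
  refine ⟨L1, L2, h1, h2, fun b => ?_⟩
  obtain ⟨n, l, h3, h4⟩ := hQ b
  exact ⟨l, h1' l n h3, h2' _ n h4⟩

end Pool.Agent.Work.MP_c4093f_al
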