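import Pool.Agent.Work.MP_c4093f_al.Defs

/-!
Basic facts on purely infinite rings, Leavitt families, colon ideals and admissible pairs.
-/

namespace Pool.Agent.Work.MP_c4093f_al

open MulOpposite

variable {A : Type} [Ring A]

theorem rmul (K : RI A) {x : A} (hx : x ∈ K) (a : A) : x * a ∈ K := K.smul_mem (op a) hx

theorem ksmul {k : Type} [Field k] [Algebra k A] (K : RI A) {x : A} (hx : x ∈ K) (l : k) :
    l • x ∈ K := by
  rw [Algebra.smul_def, Algebra.commutes]; exact rmul K hx _

@[simp] theorem mem_lq {I : RI A} {a h : A} : h ∈ lq I a ↔ a * h ∈ I := Iff.rfl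

theorem lq_lq (I : RI A) (a b : A) : lq (lq I a) b = lq I (a * b) := by
  ext h; simp [mul_assoc]

theorem lq_one (I : RI A) : lq I 1 = I := by ext h; simp

theorem PI.reg (hP : PI A) (b : A) : ∃ g, b * g * b = b ∧ g * b * g = g := by
  by_cases hb : b = 0
  · exact ⟨0, by simp [hb], by simp⟩
  obtain ⟨x, y, x', y', rfl, hx, hy⟩ := hP b hb
  refine ⟨y' * x', ?_, ?_⟩
  · calc x * y * (y' * x') * (x * y) = x * (y * y') * (x' * x) * y := by simp only [mul_assoc]
      _ = x * y := by rw [hx, hy, mul_one, mul_one]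
  · calc y' * x' * (x * y) * (y' * x') = y' * (x' * x) * (y * y') * x' := by simp only [mul_assoc]
      _ = y' * x' := by rw [hx, hy, mul_one, mul_one]

theorem PI.one (hP : PI A) {b : A} (hb : b ≠ 0) : ∃ p q, p * b * q = 1 := by
  obtain ⟨x, y, x', y', rfl, hx, hy⟩ := hP b hb
  refine ⟨x', y', ?_⟩
  calc x' * (x * y) * y' = (x' * x) * (y * y') := by simp only [mul_assoc]
    _ = 1 := by rw [hx, hy, mul_one]

theorem PI.op (hP : PI A) : PI Aᵐᵒᵖ := by
  intro b hb
  obtain ⟨x, y, x', y', h, hx, hy⟩ := hP b.unop (by simpa using hb)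
  refine ⟨MulOpposite.op y, MulOpposite.op x, MulOpposite.op y', MulOpposite.op x', ?_, ?_, ?_⟩
  · rw [← op_mul, ← h, op_unop]
  · rw [← op_mul, hy, op_one]
  · rw [← op_mul, hx, op_one]

/-- the Leavitt pair of the opposite ring -/
def Lv.op (lv : Lv A) : Lv Aᵐᵒᵖ where
  x1 := MulOpposite.op lv.y1
  x2 := MulOpposite.op lv.y2
  y1 := MulOpposite.op lv.x1
  y2 := MulOpposite.op lv.x2
  h11 := by rw [← op_mul, lv.h11, op_one]
  h12 := by rw [← op_mul, lv.h21, op_zero]
  h21 := by rw [← op_mul, lv.h12, op_zero]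
  h22 := by rw [← op_mul, lv.h22, op_one]
  hs := by rw [← op_mul, ← op_mul, ← op_add, lv.hs, op_one]

theorem PI.dir2 (hP : PI A) (K : RI A) {a b : A} (ha : a ∈ K) (hb : b ∈ K) :
    ∃ g ∈ K, g * g = g ∧ g * a = a ∧ g * b = b := by
  obtain ⟨s, hs, -⟩ := hP.reg a
  obtain ⟨t, ht, ht'⟩ := hP.reg ((1 - a * s) * b)
  have hb' : (1 - a * s) * b ∈ K := by
    rw [sub_mul, one_mul, mul_assoc]; exact K.sub_mem hb (rmul K ha _)
  set e := a * s with he
  set u := (1 - e) * b * t with hu
  have hee : e * e = e := by rw [he, ← mul_assoc, hs]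
  have heu : e * u = 0 := by
    rw [hu, ← mul_assoc, ← mul_assoc, mul_sub, mul_one, hee, sub_self, zero_mul, zero_mul]
  have huu : u * u = u := by
    calc u * u = (1 - e) * b * t * ((1 - e) * b) * t := by simp only [hu, mul_assoc]
      _ = u := by rw [ht]
  have hea : e * a = a := hs
  refine ⟨e + u * (1 - e), K.add_mem (rmul K ha _) (rmul K (rmul K hb' _) _), ?_, ?_, ?_⟩
  · have h1 : (1 - e) * u = u := by rw [sub_mul, one_mul, heu, sub_zero]
    have h2 : (1 - e) * e = 0 := by rw [sub_mul, one_mul, hee, sub_self]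
    calc (e + u * (1 - e)) * (e + u * (1 - e))
        = e * e + e * u * (1 - e) + u * ((1 - e) * e) + u * ((1 - e) * u) * (1 - e) := by
          noncomm_ring
      _ = e + u * (1 - e) := by rw [hee, heu, h2, h1, huu]; simp
  · have : (1 - e) * a = 0 := by rw [sub_mul, one_mul, hea, sub_self]
    rw [add_mul, hea, mul_assoc, this, mul_zero, add_zero]
  · have : u * ((1 - e) * b) = (1 - e) * b := ht
    rw [add_mul, mul_assoc u, this, sub_mul, one_mul]; abel

/-- a finite family in a right ideal is fixed by an idempotent of the ideal -/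
theorem PI.dirR (hP : PI A) (K : RI A) {ι : Type} [Finite ι] (h : ι → A) (hh : ∀ i, h i ∈ K) :
    ∃ g ∈ K, g * g = g ∧ ∀ i, g * h i = h i := by
  classical
  have key : ∀ s : Finset ι, ∃ g ∈ K, g * g = g ∧ ∀ i ∈ s, g * h i = h i := by
    intro s
    induction s using Finset.induction_on with
    | empty => exact ⟨0, K.zero_mem, by simp, by simp⟩
    | insert j s _ ih =>
      obtain ⟨g, hg, -, h2⟩ := ih
      obtain ⟨g', hg', h3, h4, h5⟩ := hP.dir2 K hg (hh j)
      refine ⟨g', hg', h3, fun i hi => ?_⟩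
      rcases Finset.mem_insert.1 hi with rfl | hi
      · exact h5
      · rw [← h2 i hi, ← mul_assoc, h4]
  have := Fintype.ofFinite ι
  obtain ⟨g, hg, h1, h2⟩ := key Finset.univ
  exact ⟨g, hg, h1, fun i => h2 i (Finset.mem_univ i)⟩

/-- a finite family in a left ideal is fixed by an idempotent of the ideal -/
theorem PI.dirL (hP : PI A) (L : Ideal A) {ι : Type} [Finite ι] (h : ι → A) (hh : ∀ i, h i ∈ L) :
    ∃ g ∈ L, g * g = g ∧ ∀ i, h i * g = h i := by
  let K : RI Aᵐᵒᵖ :=
    { carrier := {x | x.unop ∈ L}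
      zero_mem' := L.zero_mem
      add_mem' := fun hx hy => L.add_mem hx hy
      smul_mem' := fun r x hx => L.mul_mem_left r.unop.unop hx }
  obtain ⟨g, hg, h1, h2⟩ := hP.op.dirR K (fun i => MulOpposite.op (h i)) hh
  exact ⟨g.unop, hg, congrArg unop h1, fun i => congrArg unop (h2 i)⟩

theorem PI.idem (hP : PI A) {e : A} (he : e * e = e) (h0 : e ≠ 0) :
    ∃ α α', α' * α = 1 ∧ α * α' = e := by
  obtain ⟨x, y, x', y', rfl, hx, hy⟩ := hP e h0
  refine ⟨x, y, ?_, rfl⟩
  calc y * x = (x' * x) * y * x * (y * y') := by rw [hx, hy, one_mul, mul_one]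
    _ = x' * (x * y * (x * y)) * y' := by simp only [mul_assoc]
    _ = (x' * x) * (y * y') := by rw [he]; simp only [mul_assoc]
    _ = 1 := by rw [hx, hy, mul_one]

/-- a nonzero right ideal contains a left invertible element -/
theorem PI.linv (hP : PI A) {c : A} (hc : c ≠ 0) : ∃ d c', c' * (c * d) = 1 := by
  obtain ⟨p, q, h⟩ := hP.one hc
  exact ⟨q, p, by rw [← mul_assoc, h]⟩

/-- a nonzero left ideal contains a right invertible element -/
theorem PI.rinv (hP : PI A) {c : A} (hc : c ≠ 0) : ∃ d c', d * c * c' = 1 := hP.one hc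

theorem PI.inj (hP : PI A) {A' : Type} [Ring A'] [Nontrivial A'] (f : A →+* A') :
    Function.Injective f := by
  refine (injective_iff_map_eq_zero f).2 fun a ha => ?_
  by_contra h
  obtain ⟨p, q, h1⟩ := hP.one h
  have := congrArg f h1
  rw [map_mul, map_mul, ha, mul_zero, zero_mul, map_one] at this
  exact zero_ne_one this

/-- a purely infinite ring with a proper idempotent has a Leavitt pair -/
theorem PI.lv (hP : PI A) {e : A} (he : e * e = e) (h0 : e ≠ 0) (h1 : e ≠ 1) : Nonempty (Lv A) := by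
  obtain ⟨α, α', ha, hb⟩ := hP.idem he h0
  have he' : (1 - e) * (1 - e) = 1 - e := by
    rw [sub_mul, one_mul, mul_sub, mul_one, he, sub_self, sub_zero]
  obtain ⟨β, β', hc, hd⟩ := hP.idem he' (sub_ne_zero.2 h1.symm)
  have h2 : α' * e = α' := by rw [← hb, ← mul_assoc, ha, one_mul]
  have h3 : (1 - e) * β = β := by rw [← hd, mul_assoc, hc, mul_one]
  have h4 : β' * (1 - e) = β' := by rw [← hd, ← mul_assoc, hc, one_mul]
  have h5 : e * α = α := by rw [← hb, mul_assoc, ha, mul_one]
  refine ⟨⟨α, β, α', β', ha, ?_, ?_, hc, by rw [hb, hd]; abel⟩⟩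
  · rw [← h2, ← h3, mul_assoc, ← mul_assoc e, mul_sub, mul_one, he, sub_self, zero_mul, mul_zero]
  · rw [← h4, ← h5, mul_assoc, ← mul_assoc (1 - e), sub_mul, one_mul, he, sub_self, zero_mul,
      mul_zero]

/-- the infinite Leavitt family of columns -/
def Lv.xs (lv : Lv A) (t : ℕ) : A := lv.x2 ^ t * lv.x1

/-- the infinite Leavitt family of rows -/
def Lv.ys (lv : Lv A) (t : ℕ) : A := lv.y1 * lv.y2 ^ t

theorem Lv.ys_xs (lv : Lv A) (s t : ℕ) : lv.ys s * lv.xs t = if s = t then 1 else 0 := by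
  induction s generalizing t with
  | zero =>
    cases t with
    | zero => simp [Lv.ys, Lv.xs, lv.h11]
    | succ t =>
      simp only [Lv.ys, Lv.xs, pow_zero, mul_one, pow_succ', ← mul_assoc, lv.h12, zero_mul]
      simp
  | succ s ih =>
    cases t with
    | zero =>
      simp only [Lv.ys, Lv.xs, pow_zero, one_mul, pow_succ, mul_assoc, lv.h21, mul_zero]
      simp
    | succ t =>
      have : lv.ys (s + 1) * lv.xs (t + 1) = lv.ys s * lv.xs t := by
        simp only [Lv.ys, Lv.xs]
        rw [pow_succ, pow_succ' lv.x2]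
        calc lv.y1 * (lv.y2 ^ s * lv.y2) * (lv.x2 * lv.x2 ^ t * lv.x1)
            = lv.y1 * lv.y2 ^ s * (lv.y2 * lv.x2) * (lv.x2 ^ t * lv.x1) := by
              simp only [mul_assoc]
          _ = _ := by rw [lv.h22, mul_one]
      rw [this, ih]; simp

/-- Leavitt families on any countable index type -/
theorem Lv.fam (lv : Lv A) (ι : Type) [Countable ι] [DecidableEq ι] :
    ∃ x y : ι → A, ∀ i j, y i * x j = if i = j then 1 else 0 := by
  obtain ⟨e, he⟩ := exists_injective_nat ι
  refine ⟨fun i => lv.xs (e i), fun i => lv.ys (e i), fun i j => ?_⟩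
  rw [lv.ys_xs]; simp [he.eq_iff]

theorem MaxR.nontrivial {P : RI A} (h : MaxR P) : Nontrivial A :=
  ⟨⟨1, 0, fun h1 => h.1 (h1 ▸ P.zero_mem)⟩⟩

theorem MaxR.lq {P : RI A} (h : MaxR P) {a : A} (ha : a ∉ P) : MaxR (lq P a) := by
  refine ⟨by simpa using ha, fun b hb => ?_⟩
  obtain ⟨d, hd⟩ := h.2 _ hb
  refine ⟨d * a, ?_⟩
  have := rmul P hd a
  rw [mem_lq]
  convert this using 1
  noncomm_ring

theorem MaxR.eq_of_le {P N : RI A} (h : MaxR P) (hN : P ≤ N) (h1 : (1 : A) ∉ N) : N = P := by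
  refine le_antisymm (fun b hb => ?_) hN
  by_contra hb'
  obtain ⟨d, hd⟩ := h.2 b hb'
  exact h1 (by simpa using N.sub_mem (rmul N hb d) (hN hd))

theorem MaxR.unif {P : RI A} (h : MaxR P) : Unif P := by
  intro x y hx hy
  obtain ⟨c, hc⟩ := h.2 x hx
  obtain ⟨d, hd⟩ := h.2 y hy
  refine ⟨c, d, by simpa using P.sub_mem hc hd, fun h1 => h.1 ?_⟩
  simpa using P.sub_mem h1 hc

theorem SFree.lq_right {I K : RI A} (h : SFree I K) (a : A) : SFree I (lq K a) :=
  fun v hv => h (a * v) fun p hp => by rw [mul_assoc]; exact hv p hp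

theorem SFree.mono {I J K : RI A} (h : SFree I K) (hJ : I ≤ J) : SFree J K :=
  fun v hv => h v fun p hp => hv p (hJ hp)

theorem SFree.lq_left {P K : RI A} (h : SFree P K) (hP : MaxR P) (w : A) :
    SFree (lq P w) K := by
  intro v hv
  by_cases hw : w ∈ P
  · simpa using hv 1 (by simpa using hw)
  obtain ⟨d, hd⟩ := hP.2 w hw
  have h1 : v * d ∈ K := h _ fun p hp => by
    rw [mul_assoc]
    refine hv _ ?_
    rw [mem_lq]
    have := P.add_mem (rmul P hd p) hp
    convert this using 1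
    noncomm_ring
  have h2 : v * (1 - d * w) ∈ K := hv _ (by
    rw [mem_lq]
    have := P.neg_mem (rmul P hd w)
    convert this using 1
    noncomm_ring)
  have := K.add_mem h2 (rmul K h1 w)
  convert this using 1
  noncomm_ring

theorem SFree.of_lq {P K : RI A} {w : A} (h : SFree (Pool.Agent.Work.MP_c4093f_al.lq P w) K)
    (hP : MaxR P) (hw : w ∉ P) : SFree P K := by
  obtain ⟨d, hd⟩ := hP.2 w hw
  have h1 := h.lq_left (hP.lq hw) d
  rw [lq_lq] at h1
  refine h1.mono fun p hp => ?_
  have := P.sub_mem hp (rmul P hd p)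
  convert this using 1
  noncomm_ring

theorem SFree.symm {P K : RI A} (h : SFree P K) (hP : MaxR P) (hK : MaxR K) : SFree K P := by
  intro v hv
  by_contra hv'
  have h1 : Pool.Agent.Work.MP_c4093f_al.lq P v = K := hK.eq_of_le hv (by simpa using hv')
  have := h.lq_left hP v
  rw [h1] at this
  exact hK.1 (this 1 fun p hp => by simpa using hp)

theorem SFree.inf {I J K : RI A} (hI : MaxR I) (h1 : SFree I K) (h2 : SFree J K) :
    SFree (I ⊓ J) K := by
  intro v hv
  refine h2 v fun w hw => h1.lq_left hI w _ fun p hp => ?_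
  rw [mul_assoc]
  exact hv _ ⟨hp, rmul J hw p⟩

/-- the socle vanishes -/
theorem sfree_bot (hP : PI A) (lv : Lv A) {I : RI A} (hI : MaxR I) : SFree I ⊥ := by
  intro v hv
  by_contra hv0
  obtain ⟨x, y, x', y', rfl, hx, hy⟩ := hP v hv0
  have hyI : ∀ p ∈ I, y * p = 0 := fun p hp => by
    have : x * y * p = 0 := hv p hp
    rw [← one_mul y, ← hx, mul_assoc, mul_assoc, ← mul_assoc x, this, mul_zero]
  have := hI.nontrivial
  have hb : y' * lv.x1 ∉ I := fun h => by
    have := hyI _ h
    rw [← mul_assoc, hy, one_mul] at this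
    have h2 := lv.h11
    rw [this, mul_zero] at h2
    exact zero_ne_one h2
  obtain ⟨d, hd⟩ := hI.2 _ hb
  have h3 := hyI _ hd
  rw [mul_sub, ← mul_assoc, ← mul_assoc, hy, one_mul, mul_one, sub_eq_zero] at h3
  have h4 : lv.y2 = 0 := by
    rw [← mul_one lv.y2, ← hy, ← h3, ← mul_assoc, ← mul_assoc, lv.h21, zero_mul, zero_mul]
  have h5 := lv.h22
  rw [h4, zero_mul] at h5
  exact zero_ne_one h5

theorem MaxR.exists_linv (hP : PI A) (lv : Lv A) {I : RI A} (hI : MaxR I) :
    ∃ c ∈ I, ∃ c', c' * c = 1 := by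
  by_contra h
  push Not at h
  refine hI.1 ?_
  have : (1 : A) ∈ (⊥ : RI A) := sfree_bot hP lv hI 1 fun p hp => by
    rw [one_mul]
    by_contra hp0
    obtain ⟨d, c', h1⟩ := hP.linv hp0
    exact h _ (rmul I hp d) c' h1
  rw [(Submodule.mem_bot _).1 this]
  exact I.zero_mem

theorem Adm.not_mem {I : RI A} {α α' : A} (h : Adm I α α') (h1 : (1 : A) ∉ I) : α ∉ I :=
  fun ha => h1 (by simpa using I.add_mem h.2 (rmul I ha α'))

theorem Adm.comp {I : RI A} {α α' β β' : A} (h : Adm I α α') (h' : Adm (lq I α) β β') :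
    Adm I (α * β) (β' * α') := by
  refine ⟨by rw [mul_assoc, ← mul_assoc α', h.1, one_mul, h'.1], ?_⟩
  have := I.add_mem h.2 (rmul I h'.2 α')
  convert this using 1
  noncomm_ring

theorem Adm.mem_lq {I : RI A} {α α' : A} (h : Adm I α α') {x : A} :
    α' * x ∈ lq I α ↔ x ∈ I := by
  have e : α * (α' * x) = x - (1 - α * α') * x := by noncomm_ring
  rw [Pool.Agent.Work.MP_c4093f_al.mem_lq, e]
  exact ⟨fun h1 => by simpa using I.add_mem h1 (rmul I h.2 x), fun h1 => I.sub_mem h1 (rmul I h.2 x)⟩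

/-- an admissible pair inside any right ideal that is not contained in `I` -/
theorem exists_adm (hP : PI A) {I N : RI A} (hI : MaxR I) (hN : ¬ N ≤ I) :
    ∃ α ∈ N, ∃ α', Adm I α α' := by
  obtain ⟨c, hc, hcI⟩ := SetLike.not_le_iff_exists.1 hN
  obtain ⟨d, hd⟩ := hI.2 c hcI
  obtain ⟨s, hs, -⟩ := hP.reg (c * d)
  set g := c * d * s with hg
  set h := 1 - c * d with hh
  have hhI : h ∈ I := by simpa [hh] using I.neg_mem hd
  have h1 : (1 - g) * h = 1 - g := by
    rw [hh, mul_sub, mul_one, sub_mul, one_mul, hs, sub_self, sub_zero]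
  set e := 1 - h * (1 - g) with he
  have h2 : h * (1 - g) * (h * (1 - g)) = h * (1 - g) := by
    have hgg : (1 - g) * (1 - g) = 1 - g := by
      have : g * g = g := by rw [hg, ← mul_assoc, hs]
      rw [sub_mul, one_mul, mul_sub, mul_one, this, sub_self, sub_zero]
    rw [mul_assoc, ← mul_assoc (1 - g), h1, hgg]
  have hee : e * e = e := by
    rw [he, sub_mul, one_mul, mul_sub (h * (1 - g)), mul_one, h2, sub_self, sub_zero]
  have he0 : e ≠ 0 := fun h0 => hI.1 (by
    rw [he, sub_eq_zero] at h0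
    rw [h0]; exact rmul I hhI _)
  have hge : g * e = e := by
    have hgg : (1 - g) * (1 - g) = 1 - g := by
      have : g * g = g := by rw [hg, ← mul_assoc, hs]
      rw [sub_mul, one_mul, mul_sub, mul_one, this, sub_self, sub_zero]
    have : (1 - g) * e = 0 := by
      rw [he, mul_sub, mul_one, ← mul_assoc, h1, hgg, sub_self]
    rw [sub_mul, one_mul, sub_eq_zero] at this
    exact this.symm
  obtain ⟨α, α', h3, h4⟩ := hP.idem hee he0
  refine ⟨α, ?_, α', h3, ?_⟩
  · have : α = c * (d * s * e * α) := by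
      rw [← mul_assoc, ← mul_assoc, ← mul_assoc, hge, ← h4, mul_assoc, h3, mul_one]
    rw [this]; exact rmul N hc _
  · rw [h4, he, sub_sub_cancel]; exact rmul I hhI _

/-- an admissible pair with nonzero complement whose row kills given elements of `I` -/
theorem exists_adm_kill (hP : PI A) (lv : Lv A) {I : RI A} (hI : MaxR I) {ι : Type} [Finite ι]
    (h : ι → A) (hh : ∀ i, h i ∈ I) :
    ∃ α α', Adm I α α' ∧ α * α' ≠ 1 ∧ ∀ i, α' * h i = 0 := by
  obtain ⟨c, hc, c', hc'⟩ := hI.exists_linv hP lv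
  have := hI.nontrivial
  obtain ⟨g, hg, h1, h2⟩ := hP.dirR I (fun o : Option ι => o.elim c h) (by
    rintro (_ | i)
    · exact hc
    · exact hh i)
  have he' : (1 - g) * (1 - g) = 1 - g := by
    rw [sub_mul, one_mul, mul_sub, mul_one, h1, sub_self, sub_zero]
  obtain ⟨α, α', h3, h4⟩ := hP.idem he' (fun h0 => hI.1 (by rw [sub_eq_zero] at h0; rw [h0]; exact hg))
  refine ⟨α, α', ⟨h3, by rw [h4, sub_sub_cancel]; exact hg⟩, fun h5 => ?_, fun i => ?_⟩
  · rw [h4, sub_eq_self] at h5
    have h6 : g * c = c := h2 none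
    rw [h5, zero_mul] at h6
    rw [← h6, mul_zero] at hc'
    exact zero_ne_one hc'
  · have h6 : g * h i = h i := h2 (some i)
    have h7 : α' * (1 - g) = α' := by rw [← h4, ← mul_assoc, h3, one_mul]
    rw [← h7, mul_assoc, sub_mul, one_mul, h6, sub_self, mul_zero]

section
variable {k : Type} [Field k] [Algebra k A]

theorem SimpK.lq {P : RI A} (h : SimpK k P) {a : A} (ha : a ∉ P) : SimpK k (lq P a) := by
  refine ⟨h.1.lq ha, fun b hb => ?_⟩
  obtain ⟨d, hd⟩ := h.1.2 a ha
  obtain ⟨l, hl⟩ := h.2 (a * b * d) fun p hp => by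
    have : d * p ∈ Pool.Agent.Work.MP_c4093f_al.lq P a := by
      rw [mem_lq]
      have := P.add_mem (rmul P hd p) hp
      convert this using 1
      noncomm_ring
    have := hb _ this
    rw [mem_lq] at this
    convert this using 1
    noncomm_ring
  refine ⟨l, ?_⟩
  have h1 : 1 - d * a ∈ Pool.Agent.Work.MP_c4093f_al.lq P a := by
    rw [mem_lq]
    have := P.neg_mem (rmul P hd a)
    convert this using 1
    noncomm_ring
  have h2 := hb _ h1
  rw [mem_lq] at h2 ⊢
  have h3 := P.add_mem h2 (rmul P hl a)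
  convert h3 using 1
  rw [mul_sub a b, ← Algebra.commutes l a]
  noncomm_ring

theorem cen_of_simpK (hP : PI A) {P : RI A} (h : SimpK k P) : Cen k A := by
  intro z hz
  obtain ⟨l, hl⟩ := h.2 z fun p hp => by rw [hz]; exact rmul P hp z
  refine ⟨l, ?_⟩
  by_contra hne
  obtain ⟨p, q, h1⟩ := hP.one (sub_ne_zero.2 hne)
  refine h.1.1 ?_
  have : p * (z - algebraMap k A l) = (z - algebraMap k A l) * p := by
    rw [mul_sub, sub_mul, hz, Algebra.commutes]
  rw [← h1, this, mul_assoc]
  exact rmul P hl _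

theorem IndK.of_mul {ι : Type} [Fintype ι] {K : RI A} {v : ι → A} {w : A}
    (h : IndK k K (fun i => v i * w)) : IndK k K v := fun l hl => h l (by
  have := rmul K hl w
  simpa only [Finset.sum_mul, smul_mul_assoc] using this)

theorem indK_one {K : RI A} {w : A} : IndK k K (fun _ : Unit => w) ↔ w ∉ K := by
  constructor
  · intro h hw
    have := congrFun (h (fun _ => 1) (by simpa using hw)) ()
    simp at this
  · intro hw l hl
    funext u
    by_contra hl0
    refine hw ?_
    have h1 : l () • w ∈ K := by simpa using hl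
    have := ksmul K h1 (l ())⁻¹
    rwa [smul_smul, inv_mul_cancel₀ hl0, one_smul] at this

/-- the model matrices on any finite index type -/
theorem Base.ma' (B : Base k A) {ι : Type} [Fintype ι] [DecidableEq ι] (N : ι → ι → A)
    (hN : ∀ i j, N i j ∈ Submodule.span k (Set.range B.n)) :
    ∃ M : ι → ι → A, ∀ i l,
      ∑ j, M i j * ((if j = l then 1 else 0) + N j l) = if i = l then 1 else 0 := by
  let e := Fintype.equivFin ι
  obtain ⟨M, hM⟩ := B.ma _ (fun i j => N (e.symm i) (e.symm j)) fun i j => hN _ _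
  refine ⟨fun i j => M (e i) (e j), fun i l => ?_⟩
  have := hM (e i) (e l)
  rw [← e.sum_comp] at this
  simpa [e.injective.eq_iff] using this

/-- image of the base data -/
def Base.map {A' : Type} [Ring A'] [Algebra k A'] (B : Base k A) (f : A →ₐ[k] A') :
    Base k A' where
  lv := B.lv.map f.toRingHom
  n := fun a => f (B.n a)
  c := fun a => f (B.c a)
  hnc := fun a b => by rw [← map_mul, B.hnc]; split_ifs <;> simp
  ma := fun m N hN => by
    have : ∀ i j, ∃ N0 ∈ Submodule.span k (Set.range B.n), f N0 = N i j := fun i j => by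
      have h1 := hN i j
      have h2 : Set.range (fun a => f (B.n a)) = f.toLinearMap '' Set.range B.n := by
        rw [← Set.range_comp]; rfl
      rw [h2, ← Submodule.map_span] at h1
      exact h1
    choose N0 h1 h2 using this
    obtain ⟨M, hM⟩ := B.ma m N0 h1
    refine ⟨fun i j => f (M i j), fun i l => ?_⟩
    have := congrArg f (hM i l)
    rw [map_sum] at this
    simp only [map_mul, map_add, h2, apply_ite f, map_one, map_zero] at this
    exact this

end

theorem InK.mem {D : Type} {K : RI A} {H : D → A} (h : InK K H) (δ : D) : H δ ∈ K := by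
  obtain ⟨g, hg, h1⟩ := h
  rw [← h1 δ]; exact rmul K hg _

theorem InK.zero {D : Type} (K : RI A) : InK K (fun _ : D => 0) := ⟨0, K.zero_mem, by simp⟩

theorem InK.congr {D : Type} {K : RI A} {H H' : D → A} (h : InK K H) (e : ∀ δ, H' δ = H δ) :
    InK K H' := by
  rw [funext e]; exact h

theorem InK.comp {D D' : Type} {K : RI A} {H : D → A} (h : InK K H) (σ : D' → D) :
    InK K (fun δ => H (σ δ)) := by
  obtain ⟨g, hg, h1⟩ := h
  exact ⟨g, hg, fun δ => h1 _⟩

theorem InK.mul {D : Type} {K : RI A} {H : D → A} (h : InK K H) (G : D → A) :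
    InK K (fun δ => H δ * G δ) := by
  obtain ⟨g, hg, h1⟩ := h
  exact ⟨g, hg, fun δ => by rw [← mul_assoc, h1]⟩

theorem InK.neg {D : Type} {K : RI A} {H : D → A} (h : InK K H) : InK K (fun δ => - H δ) := by
  obtain ⟨g, hg, h1⟩ := h
  exact ⟨g, hg, fun δ => by rw [mul_neg, h1]⟩

theorem InK.add (hP : PI A) {D : Type} {K : RI A} {H G : D → A} (h : InK K H) (h' : InK K G) :
    InK K (fun δ => H δ + G δ) := by
  obtain ⟨g, hg, h1⟩ := h
  obtain ⟨g', hg', h2⟩ := h'
  obtain ⟨e, he, -, h3, h4⟩ := hP.dir2 K hg hg'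
  refine ⟨e, he, fun δ => ?_⟩
  show e * (H δ + G δ) = H δ + G δ
  rw [mul_add, ← h1, ← h2, ← mul_assoc, ← mul_assoc, h3, h4]

theorem InK.sub (hP : PI A) {D : Type} {K : RI A} {H G : D → A} (h : InK K H) (h' : InK K G) :
    InK K (fun δ => H δ - G δ) := by
  simpa only [sub_eq_add_neg] using h.add hP h'.neg

theorem InK.const_mul (hP : PI A) {D : Type} {K : RI A} {p : A} (hp : p ∈ K) (G : D → A) :
    InK K (fun δ => p * G δ) := by
  obtain ⟨s, hs, -⟩ := hP.reg p
  exact ⟨p * s, rmul K hp s, fun δ => by rw [← mul_assoc, hs]⟩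

theorem InK.const (hP : PI A) {D : Type} {K : RI A} {p : A} (hp : p ∈ K) :
    InK K (fun _ : D => p) := by
  simpa using InK.const_mul hP hp (fun _ : D => 1)

theorem InK.sum (hP : PI A) {D ι : Type} {K : RI A} (s : Finset ι) {H : ι → D → A}
    (h : ∀ i ∈ s, InK K (H i)) : InK K (fun δ => ∑ i ∈ s, H i δ) := by
  classical
  induction s using Finset.induction_on with
  | empty => simpa using InK.zero K
  | insert j s hj ih =>
    simp only [Finset.sum_insert hj]
    exact (h j (Finset.mem_insert_self _ _)).add hP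
      (ih fun i hi => h i (Finset.mem_insert_of_mem hi))

end Pool.Agent.Work.MP_c4093f_al
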