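import Pool.Agent.Work.MP_c4093f_al.Final

/-!
A well-founded model of ZFC in which the isolation condition is not preserved by elementary
duality: there is a von Neumann regular ring `A` of the model whose right Ziegler spectrum `X`
satisfies the isolation condition while `DX`, the left spectrum, does not.

The model is well-founded (so its finite matrices are the standard ones) and the members of each
of its elements form a small type (so every ring and module of the model is presented on a type in
`Type`).
-/

namespace Pool.Agent.Work.MP_c4093f_al.ConResult
open Pool.Agent.Lib.ZFModel Pool.Agent.Work.MP_c4093f_al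

theorem result : ∃ (M : Type 1) (E : M → M → Prop), IsZFC E ∧ WellFounded E ∧
    (∀ a, Small.{0} {x // E x a}) ∧ ∃ (A : Type) (_ : Ring A) (c : A → M), CodedRing E c ∧
      (∀ a : A, ∃ g, a * g * a = a) ∧ ∃ X : Set (Pt E fun r : Aᵐᵒᵖ => c r.unop),
        X = Set.univ ∧ DualSet X = Set.univ ∧ Closed X ∧ IC X ∧ ¬ IC (DualSet X) :=
  final_con

end Pool.Agent.Work.MP_c4093f_al.ConResult
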