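import Mathlib

/-!
Ring-level definitions for the construction of a simple regular ring with one indecomposable
injective right module.
-/

namespace Pool.Agent.Work.MP_c4093f_al

open MulOpposite

/-- right ideals -/
abbrev RI (A : Type) [Ring A] := Submodule Aᵐᵒᵖ A

/-- a Leavitt pair: `A ≅ A ⊕ A` -/
structure Lv (A : Type) [Ring A] where
  x1 : A
  x2 : A
  y1 : A
  y2 : A
  h11 : y1 * x1 = 1
  h12 : y1 * x2 = 0
  h21 : y2 * x1 = 0
  h22 : y2 * x2 = 1
  hs : x1 * y1 + x2 * y2 = 1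

/-- every nonzero element is a left invertible times a right invertible element -/
def PI (A : Type) [Ring A] : Prop :=
  ∀ b : A, b ≠ 0 → ∃ x y x' y' : A, b = x * y ∧ x' * x = 1 ∧ y * y' = 1

/-- the centre consists of scalars -/
def Cen (k A : Type) [Field k] [Ring A] [Algebra k A] : Prop :=
  ∀ z : A, (∀ a, z * a = a * z) → ∃ l : k, z = algebraMap k A l

/-- a Leavitt pair and a model system of free letters -/
structure Base (k A : Type) [Field k] [Ring A] [Algebra k A] where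
  lv : Lv A
  n : ℕ → A
  c : ℕ → A
  hnc : ∀ a b, n a * c b = if a = b then 1 else 0
  ma : ∀ (m : ℕ) (N : Fin m → Fin m → A), (∀ i j, N i j ∈ Submodule.span k (Set.range n)) →
    ∃ M : Fin m → Fin m → A, ∀ i l,
      ∑ j, M i j * ((if j = l then 1 else 0) + N j l) = if i = l then 1 else 0

section
variable {A : Type} [Ring A]

/-- `(I : a)`, the elements `h` with `a * h ∈ I` -/
def lq (I : RI A) (a : A) : RI A where
  carrier := {h | a * h ∈ I}
  zero_mem' := by simp
  add_mem' := fun {x y} hx hy => by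
    simp only [Set.mem_ofPred_eq, mul_add] at *
    exact I.add_mem hx hy
  smul_mem' := fun r x hx => by
    simp only [Set.mem_ofPred_eq, smul_eq_mul_unop, ← mul_assoc] at *
    exact I.smul_mem r hx

/-- a maximal right ideal -/
def MaxR (P : RI A) : Prop := (1 : A) ∉ P ∧ ∀ b ∉ P, ∃ d, b * d - 1 ∈ P

/-- `A / K` has no nonzero element killed by `I` -/
def SFree (I K : RI A) : Prop := ∀ v, (∀ p ∈ I, v * p ∈ K) → v ∈ K

/-- `A / K` is uniform (or zero) -/
def Unif (K : RI A) : Prop :=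
  ∀ x y, x ∉ K → y ∉ K → ∃ c d, x * c - y * d ∈ K ∧ x * c ∉ K

/-- two proper left ideals such that no nonzero element of a quotient of `A / L2` is killed
by `L1` -/
def Perp (L1 L2 : Ideal A) : Prop :=
  (1 : A) ∉ L1 ∧ (1 : A) ∉ L2 ∧ ∀ b, ∃ l ∈ L1, b - l * b ∈ L2

/-- the pin by jumps -/
def JPin (P K : RI A) (J : Set (A × A)) : Prop :=
  (∀ vc ∈ J, ∀ e, vc.1 * e ∈ K → vc.2 * e ∈ P) ∧
    ∀ b ∉ K, ∃ vc ∈ J, ∃ d, b - vc.1 * d ∈ K ∧ vc.2 * d ∉ P

/-- certificate that `A / K` is not uniform; `K0` is a set of generators of `K` -/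
def NUc (K0 : Set A) (K : RI A) (x1 x2 : A) : Prop :=
  ∀ κ ∈ K0, (∃ Z, Z * κ = 0 ∧ Z * x2 = 0 ∧ x1 - Z * x1 ∈ K) ∧
    ∃ y, y * κ = 0 ∧ y * x1 ≠ 0 ∧ y * x2 ≠ 0

/-- extension of a right ideal along a ring map -/
def ext {A' : Type} [Ring A'] (f : A →+* A') (K : RI A) : RI A' :=
  Submodule.span A'ᵐᵒᵖ (f '' K)

/-- extension of a left ideal along a ring map -/
def extL {A' : Type} [Ring A'] (f : A →+* A') (L : Ideal A) : Ideal A' :=
  Ideal.span (f '' L)

end

section
variable (k : Type) [Field k] {A : Type} [Ring A] [Algebra k A]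

/-- `A / P` is simple with scalar endomorphisms -/
def SimpK (P : RI A) : Prop :=
  MaxR P ∧ ∀ b, (∀ p ∈ P, b * p ∈ P) → ∃ l : k, b - algebraMap k A l ∈ P

/-- the pin by an endomorphism -/
def BPin (K : RI A) (a : A) : Prop :=
  (1 : A) ∉ K ∧ (∀ x ∈ K, a * x ∈ K) ∧ (∀ m : k, ∃ w, (a - algebraMap k A m) * w - 1 ∈ K) ∧
    ∀ N : RI A, K ≤ N → (∀ x ∈ N, a * x ∈ N) → N = K ∨ (1 : A) ∈ N

/-- linear independence modulo a right ideal -/
def IndK {ι : Type} [Fintype ι] (K : RI A) (v : ι → A) : Prop :=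
  ∀ l : ι → k, ∑ i, l i • v i ∈ K → l = 0

/-- the invariants of every ring of the chain -/
def Good (P : RI A) (L1 L2 : Ideal A) : Prop := PI A ∧ SimpK k P ∧ Perp L1 L2

end

/-- the data of a pin -/
structure Pin (A : Type) [Ring A] where
  K : RI A
  J : Set (A × A)
  a : A
  tJ : Bool

/-- the promise attached to a pin -/
def Pin.ok (k : Type) [Field k] {A : Type} [Ring A] [Algebra k A] (P : RI A) (π : Pin A) : Prop :=
  (π.tJ = true → JPin P π.K π.J) ∧ (π.tJ = false → BPin k π.K π.a)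

/-- extension of a pin along a ring map -/
def Pin.map {A A' : Type} [Ring A] [Ring A'] (f : A →+* A') (π : Pin A) : Pin A' :=
  ⟨ext f π.K, Prod.map f f '' π.J, f π.a, π.tJ⟩

/-- the reduced power modulo the cofinite filter -/
abbrev Gm (A : Type) := Filter.Germ (Filter.atTop : Filter ℕ) A

/-- constant germs -/
def cst {A : Type} (a : A) : Gm A := (a : Filter.Germ (Filter.atTop : Filter ℕ) A)

/-- countable saturation of `M` over `j`, for equations -/
def Sat {A M : Type} [Ring A] [Ring M] (j : A →+* M) : Prop :=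
  ∀ C : Subring (Gm A), Countable C →
    ∃ Θ : C →+* M, ∀ (a : A) (h : cst a ∈ C), Θ ⟨_, h⟩ = j a

/-- `Φ` holds for every nontrivial quotient of some countable ring of germs over `A` -/
def Ach (k A : Type) [Field k] [Ring A] [Algebra k A]
    (Φ : ∀ (A' : Type) [Ring A'] [Algebra k A'], (A →ₐ[k] A') → Prop) : Prop :=
  ∃ C : Subring (Gm A), Countable C ∧ ∃ hc : ∀ a : A, cst a ∈ C,
    ∀ (A' : Type) [Ring A'] [Algebra k A'] [Nontrivial A'] (f : A →ₐ[k] A') (q : C →+* A'),
      Function.Surjective q → (∀ a, q ⟨cst a, hc a⟩ = f a) → Φ A' f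

/-- the invariants survive in the extension -/
def Concl (k : Type) [Field k] {A : Type} [Ring A] [Algebra k A] {ι : Type} (P : RI A)
    (L1 L2 : Ideal A) (pins : ι → Pin A) (A' : Type) [Ring A'] [Algebra k A']
    (f : A →ₐ[k] A') : Prop :=
  Good k (ext f.toRingHom P) (extL f.toRingHom L1) (extL f.toRingHom L2) ∧
    ∀ i, ((pins i).map f.toRingHom).ok k (ext f.toRingHom P)

section
variable {A : Type} [Ring A]

/-- image of a Leavitt pair -/
def Lv.map {A' : Type} [Ring A'] (lv : Lv A) (f : A →+* A') : Lv A' where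
  x1 := f lv.x1
  x2 := f lv.x2
  y1 := f lv.y1
  y2 := f lv.y2
  h11 := by rw [← map_mul, lv.h11, map_one]
  h12 := by rw [← map_mul, lv.h12, map_zero]
  h21 := by rw [← map_mul, lv.h21, map_zero]
  h22 := by rw [← map_mul, lv.h22, map_one]
  hs := by rw [← map_mul, ← map_mul, ← map_add, lv.hs, map_one]

/-- `a ⊕ 1` -/
def Lv.pl (lv : Lv A) (a : A) : A := lv.x1 * a * lv.y1 + lv.x2 * lv.y2

/-- a two by two matrix, seen as an element -/
def Lv.mat (lv : Lv A) (a b c d : A) : A :=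
  lv.x1 * a * lv.y1 + lv.x1 * b * lv.y2 + lv.x2 * c * lv.y1 + lv.x2 * d * lv.y2

/-- equivalence by units of the subring `S` -/
def EqvIn (S : Subring A) (a b : A) : Prop :=
  ∃ U ∈ S, ∃ U' ∈ S, ∃ V ∈ S, ∃ V' ∈ S,
    U * U' = 1 ∧ U' * U = 1 ∧ V * V' = 1 ∧ V' * V = 1 ∧ U * a * V = b

/-- `α` embeds `A` as a summand whose complement lies in `I` -/
def Adm (I : RI A) (α α' : A) : Prop := α' * α = 1 ∧ 1 - α * α' ∈ I

/-- all values of `H` lie in one principal right ideal inside `K` -/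
def InK {D : Type} (K : RI A) (H : D → A) : Prop := ∃ g ∈ K, ∀ δ, g * H δ = H δ

/-- polynomial functions of degree at most `n` in the functions `X i` -/
inductive Deg {D ι : Type} (X : ι → D → A) : ℕ → (D → A) → Prop
  | const (n : ℕ) (a : A) : Deg X n (fun _ => a)
  | step (n : ℕ) (F : D → A) (p : A) (i : ι) (G : D → A) :
      Deg X (n + 1) F → Deg X n G → Deg X (n + 1) (fun δ => F δ + p * X i δ * G δ)

/-- the jump pairs of `K` -/
def allJ (P K : RI A) : Set (A × A) := {vc | ∀ e, vc.1 * e ∈ K → vc.2 * e ∈ P}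

end

end Pool.Agent.Work.MP_c4093f_al
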