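import Pool.Agent.Work.MP_c4093f_al.Defs

/-!
The bookkeeping engine, and saturation of the reduced power.

* `engine`.  Enumerate the triples `(t, n, F) : T × ℕ × S` by `e : ℕ → _` so that each triple is
  `e m` for some `m ≥ n` (if `T` is empty use only identity moves, or replace `T` by `Option T`).
  Define moves `σ m : D → D` by recursion, keeping `Inv (σ 0 ∘ ... ∘ σ (m - 1))` and that every
  `σ i` pulls `S` into `S`; at stage `m` with `e m = (t, n, F)` and `n ≤ m` apply `hstep` to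
  `F ∘ σ n ∘ ... ∘ σ (m - 1)`.  Fix `δ0 : D`.  Let `χ n : S →+* Gm A` send `F` to the germ of
  `m ↦ F (σ n (σ (n + 1) ... (σ (n + m - 1) δ0)))` shifted so that
  `χ (n + 1) (F ∘ σ n) = χ n F` (for instance evaluate at `pt n m`, defined for all `m` with
  `pt n m = σ n (pt (n + 1) m)` when `n < m` and `pt n m = δ0` when `m ≤ n`).  The ranges increase;
  `C` is their union (countable).
* `sat_germ`.  Choose for each `c ∈ C` a representative `ℕ → A` (constant for constants; `cst` is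
  injective) and for each `a : A` a representative `ℕ → A0` of `j a`.  There are countably many
  equations (`c + c' = c''`, `c * c' = c''`, `c = 1`) true in `C`; equation number `i` holds in
  `Gm A0` after `j` for all `m ≥ M i`, hence at `n ≥ N i m`.  Choose `μ n → ∞` so slowly that at
  `(μ n, n)` all equations `i ≤ μ n` with `M i ≤ μ n` hold (`μ n` = the largest `m ≤ n` with
  `N i m ≤ n` for all such `i`, `Nat.findGreatest`).  `Θ c` is the germ of `n ↦ rep (rep c (μ n)) n`.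
-/

namespace Pool.Agent.Work.MP_c4093f_al

open Filter

theorem Engine_diag {X : Type} [Countable X] {E : X → ℕ → ℕ → Prop}
    (h : ∀ i, ∀ᶠ m in atTop, ∀ᶠ n in atTop, E i m n) :
    ∃ μ : ℕ → ℕ, ∀ i, ∀ᶠ n in atTop, E i (μ n) n := by
  classical
  obtain ⟨f, hf⟩ := exists_injective_nat X
  have fin : ∀ k, (f ⁻¹' Set.Iic k).Finite := fun k => (Set.finite_Iic k).preimage hf.injOn
  have h1 : ∀ k, ∃ m N, ∀ n ≥ N, ∀ i ∈ f ⁻¹' Set.Iic k, E i m n := fun k => by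
    obtain ⟨m, hm⟩ := ((eventually_all_finite (fin k)).2 fun i _ => h i).exists
    exact ⟨m, eventually_atTop.1 ((eventually_all_finite (fin k)).2 hm)⟩
  choose m N hN using h1
  refine ⟨fun n => m (Nat.findGreatest (fun k => N k ≤ n) n), fun i => ?_⟩
  filter_upwards [eventually_ge_atTop (f i), eventually_ge_atTop (N (f i))] with n h2 h3
  exact hN _ n (Nat.findGreatest_spec (P := fun k => N k ≤ n) h2 h3) i
    (Nat.le_findGreatest (P := fun k => N k ≤ n) h2 h3)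

theorem engine {A D T : Type} [Ring A] [Nonempty D] [Countable T] (S : Subring (D → A))
    [Countable S] (hc : ∀ a, (fun _ => a) ∈ S) (Inv : (D → D) → Prop)
    (Done : T → (D → D) → (D → A) → Prop) (h0 : Inv fun δ => δ)
    (hstep : ∀ τ, Inv τ → ∀ t, ∀ F ∈ S, ∃ σ : D → D, (∀ G ∈ S, (fun δ => G (σ δ)) ∈ S) ∧
      Inv (fun δ => τ (σ δ)) ∧ Done t (fun δ => τ (σ δ)) (fun δ => F (σ δ))) :
    ∃ C : Subring (Gm A), Countable C ∧ ∃ hC : ∀ a : A, cst a ∈ C,
      ∀ (A' : Type) [Ring A'] (q : C →+* A'), Function.Surjective q →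
        ∃ χ0 : S →+* A', (∀ a, χ0 ⟨fun _ => a, hc a⟩ = q ⟨cst a, hC a⟩) ∧
          ∀ (t : T) (b : A'), ∃ (χ : S →+* A') (τ : D → D)
            (hτ : ∀ G ∈ S, (fun δ => G (τ δ)) ∈ S), Inv τ ∧
            (∀ G : S, χ ⟨fun δ => G.1 (τ δ), hτ G.1 G.2⟩ = χ0 G) ∧
            ∃ F : S, χ F = b ∧ Done t τ F.1 := by
  obtain ⟨e, he⟩ := exists_surjective_nat (Option T × ℕ × S)
  have h1 : ∀ (m : ℕ) (p : {p : ℕ → D → D // Inv (p 0) ∧ ∀ n, ∀ G ∈ S, (fun δ => G (p n δ)) ∈ S}),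
      ∃ (p' : {p : ℕ → D → D // Inv (p 0) ∧ ∀ n, ∀ G ∈ S, (fun δ => G (p n δ)) ∈ S}) (σ : D → D),
        (∀ n, p'.1 n = if n ≤ m then fun δ => p.1 n (σ δ) else fun δ => δ) ∧
        ∀ t n F, e m.unpair.1 = (some t, n, F) →
          Done t (fun δ => p.1 0 (σ δ)) fun δ => F.1 (p.1 n (σ δ)) := by
    intro m p
    obtain ⟨σ, s1, s2, s3⟩ : ∃ σ : D → D, (∀ G ∈ S, (fun δ => G (σ δ)) ∈ S) ∧
        Inv (fun δ => p.1 0 (σ δ)) ∧ ∀ t n F, e m.unpair.1 = (some t, n, F) →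
          Done t (fun δ => p.1 0 (σ δ)) fun δ => F.1 (p.1 n (σ δ)) := by
      obtain ⟨_ | t, n, F⟩ := e m.unpair.1
      · exact ⟨fun δ => δ, fun G hG => hG, p.2.1, fun _ _ _ h => by simp at h⟩
      · obtain ⟨σ, s1, s2, s3⟩ := hstep _ p.2.1 t _ (p.2.2 n _ F.2)
        refine ⟨σ, s1, s2, fun _ _ _ h => ?_⟩
        obtain ⟨⟩ := h
        exact s3
    refine ⟨⟨fun n => if n ≤ m then fun δ => p.1 n (σ δ) else fun δ => δ, ?_, fun n G hG => ?_⟩, σ,
      fun _ => rfl, s3⟩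
    · simpa only [if_pos m.zero_le] using s2
    · dsimp only
      split_ifs
      · exact s1 _ (p.2.2 n G hG)
      · exact hG
  choose nx σ n1 n2 using h1
  obtain ⟨P, p0, p1⟩ : ∃ P : ℕ → {p : ℕ → D → D //
      Inv (p 0) ∧ ∀ n, ∀ G ∈ S, (fun δ => G (p n δ)) ∈ S},
      (∀ n, (P 0).1 n = fun δ => δ) ∧ ∀ m, P (m + 1) = nx m (P m) :=
    ⟨fun m => Nat.rec ⟨fun _ δ => δ, h0, fun _ _ hG => hG⟩ nx m, fun _ => rfl, fun _ => rfl⟩
  have p2 : ∀ {n l m}, n ≤ l → l ≤ m → ∀ δ, (P l).1 n ((P m).1 l δ) = (P m).1 n δ := by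
    intro n l m h1 h2
    induction m, h2 using Nat.le_induction with
    | base =>
      refine fun δ => congrArg _ ?_
      cases l with
      | zero => rw [p0]
      | succ l => rw [p1, n1, if_neg l.not_succ_le_self]
    | succ m h2 ih =>
      intro δ
      rw [p1, n1, n1, if_pos h2, if_pos (h1.trans h2)]
      exact ih _
  obtain ⟨δ0⟩ := ‹Nonempty D›
  obtain ⟨χ, hχ⟩ : ∃ χ : ℕ → S →+* Gm A, ∀ n F,
      χ n F = ((fun m => F.1 ((P m).1 n δ0) : ℕ → A) : Gm A) :=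
    ⟨fun n => (Germ.coeRingHom atTop).comp ((RingHom.pi fun m =>
      Pi.evalRingHom (fun _ => A) ((P m).1 n δ0)).comp S.subtype), fun _ _ => rfl⟩
  have p3 : ∀ {n l}, n ≤ l → ∀ F : S, χ l ⟨_, (P l).2.2 n F.1 F.2⟩ = χ n F := fun {n l} h F => by
    rw [hχ, hχ, Germ.coe_eq]
    filter_upwards [eventually_ge_atTop l] with m hm using congrArg F.1 (p2 h hm δ0)
  have hd : Directed (· ≤ ·) fun n => (χ n).range := Monotone.directed_le fun n l h => by
    rintro _ ⟨F, rfl⟩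
    exact ⟨_, p3 h F⟩
  have hm : ∀ n F, χ n F ∈ ⨆ n, (χ n).range := fun n F =>
    (Subring.mem_iSup_of_directed hd).2 ⟨n, F, rfl⟩
  have h2 : ∀ a, χ 0 ⟨_, hc a⟩ = cst a := fun a => hχ _ _
  refine ⟨⨆ n, (χ n).range, ?_, fun a => h2 a ▸ hm 0 _, fun A' _ q hq =>
    ⟨q.comp ((χ 0).codRestrict _ (hm 0)), fun a => congrArg q (Subtype.ext (h2 a)), fun t b => ?_⟩⟩
  · refine Set.Countable.to_subtype (s := ((⨆ n, (χ n).range : Subring (Gm A)) : Set (Gm A))) ?_
    rw [Subring.coe_iSup_of_directed hd]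
    exact Set.countable_iUnion fun n => Set.countable_range _
  · obtain ⟨⟨c, hc'⟩, rfl⟩ := hq b
    obtain ⟨n, F, rfl⟩ := (Subring.mem_iSup_of_directed hd).1 hc'
    obtain ⟨a, ha⟩ := he (some t, n, F)
    have h3 := Nat.right_le_pair a n
    refine ⟨q.comp ((χ (a.pair n + 1)).codRestrict _ (hm _)), _, (P (a.pair n + 1)).2.2 0,
      (P _).2.1, fun G => congrArg q (Subtype.ext (p3 (Nat.zero_le _) G)),
      ⟨_, (P (a.pair n + 1)).2.2 n F.1 F.2⟩,
      congrArg q (Subtype.ext (p3 (Nat.le_succ_of_le h3) F)), ?_⟩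
    simp only [p1, n1, if_pos h3, if_pos (Nat.zero_le _)]
    exact n2 _ _ t n F (by rwa [Nat.unpair_pair])

theorem sat_germ {A A0 : Type} [Ring A] [Ring A0] (j : A →+* Gm A0) : Sat j := by
  intro C _
  have h1 : ∀ c : C, ∃ r : ℕ → A, (r : Gm A) = c.1 ∧ ∀ a, c.1 = cst a → r = fun _ => a := by
    intro c
    by_cases h : ∃ a, c.1 = cst a
    · obtain ⟨a, ha⟩ := h
      exact ⟨fun _ => a, ha.symm, fun b hb => by
        rw [Germ.const_inj.1 (ha.symm.trans hb)]⟩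
    · obtain ⟨r, hr⟩ := Quotient.exists_rep c.1
      exact ⟨r, hr, fun a ha => absurd ⟨a, ha⟩ h⟩
  choose r r1 r2 using h1
  have h2 : ∀ a, ∃ s : ℕ → A0, (s : Gm A0) = j a := fun a => Quotient.exists_rep (j a)
  choose s s1 using h2
  obtain ⟨μ, hμ⟩ := Engine_diag (E := fun (i : C × C) m n =>
      s (r (i.1 + i.2) m) n = s (r i.1 m) n + s (r i.2 m) n ∧
      s (r (i.1 * i.2) m) n = s (r i.1 m) n * s (r i.2 m) n) fun i => by
    have e1 : r (i.1 + i.2) =ᶠ[atTop] r i.1 + r i.2 := by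
      rw [← Germ.coe_eq, Germ.coe_add, r1, r1, r1, Subring.coe_add]
    have e2 : r (i.1 * i.2) =ᶠ[atTop] r i.1 * r i.2 := by
      rw [← Germ.coe_eq, Germ.coe_mul, r1, r1, r1, Subring.coe_mul]
    filter_upwards [e1, e2] with m e3 e4
    have e5 : s (r (i.1 + i.2) m) =ᶠ[atTop] s (r i.1 m) + s (r i.2 m) := by
      rw [← Germ.coe_eq, Germ.coe_add, s1, s1, s1, e3, Pi.add_apply, map_add]
    have e6 : s (r (i.1 * i.2) m) =ᶠ[atTop] s (r i.1 m) * s (r i.2 m) := by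
      rw [← Germ.coe_eq, Germ.coe_mul, s1, s1, s1, e4, Pi.mul_apply, map_mul]
    exact e5.and e6
  have h3 : ∀ (c : C) a, c.1 = cst a → ((fun n => s (r c (μ n)) n : ℕ → A0) : Gm A0) = j a :=
    fun c a h => by
      rw [r2 c a h]
      exact s1 a
  exact ⟨RingHom.mk' ⟨⟨fun c => ((fun n => s (r c (μ n)) n : ℕ → A0) : Gm A0),
    (h3 1 1 rfl).trans j.map_one⟩, fun c c' => Germ.coe_eq.2 ((hμ (c, c')).mono fun n h => h.2)⟩
    fun c c' => Germ.coe_eq.2 ((hμ (c, c')).mono fun n h => h.1), fun a h => h3 _ a rfl⟩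

end Pool.Agent.Work.MP_c4093f_al
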