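import Pool.Agent.Work.MP_c4093f_al.Basic

/-!
Extension of right ideals, left ideals and pins along `f : A → A'`.

Plan.  `mem_ext`: span induction, two elements of `K` are fixed by one `g ∈ K` (`PI.dir2`).
`ext_contr`: `f a = f κ * d`, `κ s κ = κ` (`PI.reg`), so `f ((1 - κ s) a) = 0`, `f` is injective
(`PI.inj`).  Left versions with `PI.dirL`.
* `simpK_ext`: contraction gives `1 ∉`, maximality and the scalar come from `A`.
* `simpK_ext2`: write `P = I true`, `K = I false`, `P' = ext f P`.  Let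
  `S0 = {b | ∃ z q, b - f z - r false * f q ∈ P'}`.  The set of `t` with `S0 * t ⊆ S0` is a subring
  with `f a` and `r ε` (use `hb`, `ha`, and `r false * ext f K ⊆ P'` from `hkill`), so it is `⊤` and
  `S0` is everything.  If `z ∉ P` there is `d` with `z d - 1 ∈ P`, `q d ∈ K` (from
  `(hF false).lq_left`); if `z ∈ P`, `q ∉ K` take `q d - 1 ∈ K`, then `b * f d * r true - 1 ∈ P'`.
  Hence maximality, and `f z + r false * f q ∈ P' → z ∈ P ∧ q ∈ K`.  If `b P' ⊆ P'` then
  `z P ⊆ P` and `q P ⊆ K`, so `z` is a scalar modulo `P` and `q ∈ K`.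
* `perp_ext`: `(1 - f l') (1 - f l) b = f (a - l' a)`, and `1 - (1 - l') (1 - l) ∈ L1`.
* `jpin_ext`, first half: `f v * e = f κ * d`; with `g = κ s`, `w = (1 - g) v`, `w t w = w`, put
  `h = 1 - t w`; then `e = f h * e`, `v h ∈ K`, so `c h ∈ P`.
* `bpin_ext`: contract `N` to `A` (a right ideal containing `K`, stable under `a`, containing `z`).
-/

namespace Pool.Agent.Work.MP_c4093f_al

variable {A A' : Type} [Ring A] [Ring A']

theorem mem_ext_of (f : A →+* A') {K : RI A} {a : A} (ha : a ∈ K) : f a ∈ ext f K :=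
  Submodule.subset_span ⟨a, ha, rfl⟩

theorem mem_extL_of (f : A →+* A') {L : Ideal A} {a : A} (ha : a ∈ L) : f a ∈ extL f L :=
  Ideal.subset_span ⟨a, ha, rfl⟩

theorem mem_ext (hP : PI A) (f : A →+* A') {K : RI A} {b : A'} :
    b ∈ ext f K ↔ ∃ κ ∈ K, ∃ d, b = f κ * d := by
  refine ⟨fun hb => ?_, fun ⟨κ, hκ, d, e⟩ => e ▸ rmul _ (mem_ext_of f hκ) d⟩
  induction hb using Submodule.span_induction with
  | mem x hx =>
    obtain ⟨a, ha, rfl⟩ := hx
    exact ⟨a, ha, 1, (mul_one _).symm⟩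
  | zero => exact ⟨0, K.zero_mem, 0, (mul_zero _).symm⟩
  | add x y _ _ hx hy =>
    obtain ⟨a, ha, d, rfl⟩ := hx
    obtain ⟨b, hb, e, rfl⟩ := hy
    obtain ⟨g, hg, -, h1, h2⟩ := hP.dir2 K ha hb
    refine ⟨g, hg, f a * d + f b * e, ?_⟩
    rw [mul_add, ← mul_assoc, ← mul_assoc, ← map_mul, ← map_mul, h1, h2]
  | smul r x _ hx =>
    obtain ⟨a, ha, d, rfl⟩ := hx
    exact ⟨a, ha, d * r.unop, mul_assoc _ _ _⟩

theorem ext_contr (hP : PI A) [Nontrivial A'] (f : A →+* A') {K : RI A} {a : A} :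
    f a ∈ ext f K ↔ a ∈ K := by
  refine ⟨fun h => ?_, mem_ext_of f⟩
  obtain ⟨κ, hκ, d, e⟩ := (mem_ext hP f).1 h
  obtain ⟨s, hs, -⟩ := hP.reg κ
  have h1 : a = κ * (s * a) := hP.inj f (by
    rw [← mul_assoc, map_mul, e, ← mul_assoc, ← map_mul, hs])
  rw [h1]
  exact rmul K hκ _

theorem mem_extL (hP : PI A) (f : A →+* A') {L : Ideal A} {b : A'} :
    b ∈ extL f L ↔ ∃ l ∈ L, ∃ d, b = d * f l := by
  refine ⟨fun hb => ?_, fun ⟨l, hl, d, e⟩ => e ▸ Ideal.mul_mem_left _ d (mem_extL_of f hl)⟩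
  induction hb using Submodule.span_induction with
  | mem x hx =>
    obtain ⟨a, ha, rfl⟩ := hx
    exact ⟨a, ha, 1, (one_mul _).symm⟩
  | zero => exact ⟨0, L.zero_mem, 0, (zero_mul _).symm⟩
  | add x y _ _ hx hy =>
    obtain ⟨a, ha, d, rfl⟩ := hx
    obtain ⟨b, hb, e, rfl⟩ := hy
    obtain ⟨g, hg, -, h1⟩ := hP.dirL L (fun t : Bool => cond t a b) (by
      rintro (_ | _)
      · exact hb
      · exact ha)
    have h2 : a * g = a := h1 true
    have h3 : b * g = b := h1 false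
    refine ⟨g, hg, d * f a + e * f b, ?_⟩
    rw [add_mul, mul_assoc, mul_assoc, ← map_mul, ← map_mul, h2, h3]
  | smul r x _ hx =>
    obtain ⟨a, ha, d, rfl⟩ := hx
    exact ⟨a, ha, r * d, (mul_assoc _ _ _).symm⟩

theorem extL_contr (hP : PI A) [Nontrivial A'] (f : A →+* A') {L : Ideal A} {a : A} :
    f a ∈ extL f L ↔ a ∈ L := by
  refine ⟨fun h => ?_, mem_extL_of f⟩
  obtain ⟨l, hl, d, e⟩ := (mem_extL hP f).1 h
  obtain ⟨s, hs, -⟩ := hP.reg l
  have h1 : a = a * s * l := hP.inj f (by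
    rw [mul_assoc, map_mul, e, mul_assoc, ← map_mul, ← mul_assoc, hs])
  rw [h1]
  exact L.mul_mem_left _ hl

theorem ext_stable (f : A →+* A') {K : RI A} {N : RI A'} {r : A'}
    (h : ∀ κ ∈ K, r * f κ ∈ N) {b : A'} (hb : b ∈ ext f K) : r * b ∈ N := by
  induction hb using Submodule.span_induction with
  | mem x hx =>
    obtain ⟨a, ha, rfl⟩ := hx
    exact h a ha
  | zero => rw [mul_zero]; exact N.zero_mem
  | add x y _ _ hx hy => rw [mul_add]; exact N.add_mem hx hy
  | smul s x _ hx =>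
    have := rmul N hx s.unop
    rw [mul_assoc] at this
    exact this

theorem inK_ext {D : Type} (f : A →+* A') {S : Subring (D → A)} (hc : ∀ a, (fun _ => a) ∈ S)
    (χ : S →+* A') (hχ : ∀ a, χ ⟨fun _ => a, hc a⟩ = f a) {K : RI A} {H : D → A} (hH : H ∈ S)
    (h : InK K H) : χ ⟨H, hH⟩ ∈ ext f K := by
  obtain ⟨g, hg, h1⟩ := h
  have e : (⟨H, hH⟩ : S) = ⟨fun _ => g, hc g⟩ * ⟨H, hH⟩ :=
    Subtype.ext (funext fun δ => (h1 δ).symm)
  rw [e, map_mul, hχ]
  exact rmul _ (mem_ext_of f hg) _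

theorem perp_ext (hP : PI A) [Nontrivial A'] (f : A →+* A') {L1 L2 : Ideal A} (h : Perp L1 L2)
    (ht : ∀ b, ∃ l ∈ L1, ∃ a, (1 - f l) * b = f a) : Perp (extL f L1) (extL f L2) := by
  refine ⟨fun h1 => h.1 ((extL_contr hP f).1 (by rwa [map_one])),
    fun h1 => h.2.1 ((extL_contr hP f).1 (by rwa [map_one])), fun b => ?_⟩
  obtain ⟨l, hl, a, e⟩ := ht b
  obtain ⟨l', hl', h1⟩ := h.2.2 a
  refine ⟨_, mem_extL_of f (L1.sub_mem (L1.add_mem hl hl') (L1.mul_mem_left l' hl)), ?_⟩
  have h2 := mem_extL_of f h1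
  rw [map_sub, map_mul, ← e] at h2
  rw [map_sub, map_add, map_mul]
  convert h2 using 1
  noncomm_ring

theorem jpin_ext (hP : PI A) [Nontrivial A'] (f : A →+* A') {P K : RI A} {J : Set (A × A)}
    (h : JPin P K J)
    (ht : ∀ b, b ∈ ext f K ∨ ∃ vc ∈ J, ∃ d e, ∃ z ∉ P,
      b - f vc.1 * d ∈ ext f K ∧ f vc.2 * d * e - f z ∈ ext f P) :
    JPin (ext f P) (ext f K) (Prod.map f f '' J) := by
  constructor
  · rintro _ ⟨⟨v, c⟩, hvc, rfl⟩ e he
    obtain ⟨κ, hκ, d, h1⟩ := (mem_ext hP f).1 he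
    change f v * e = _ at h1
    change f c * e ∈ _
    obtain ⟨s, hs, -⟩ := hP.reg κ
    obtain ⟨t, ht, -⟩ := hP.reg ((1 - κ * s) * v)
    have h2 : f ((1 - κ * s) * v) * e = 0 := by
      rw [map_mul, mul_assoc, h1, ← mul_assoc, ← map_mul, sub_mul, one_mul, hs, sub_self, map_zero,
        zero_mul]
    have h3 : f (1 - t * ((1 - κ * s) * v)) * e = e := by
      rw [map_sub, map_one, map_mul, sub_mul, one_mul, mul_assoc, h2, mul_zero, sub_zero]
    have h4 : v * (1 - t * ((1 - κ * s) * v)) = κ * (s * (v * (1 - t * ((1 - κ * s) * v)))) := by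
      have h5 : (1 - κ * s) * v * (1 - t * ((1 - κ * s) * v)) = 0 := by
        rw [mul_sub, mul_one, ← mul_assoc, ht, sub_self]
      rw [mul_assoc, sub_mul, one_mul, sub_eq_zero, mul_assoc] at h5
      exact h5
    have h5 := h.1 (v, c) hvc _ (by rw [h4]; exact rmul K hκ _)
    rw [← h3, ← mul_assoc, ← map_mul]
    exact rmul _ (mem_ext_of f h5) _
  · intro b hb
    obtain ⟨vc, hvc, d, e, z, hz, h1, h2⟩ := (ht b).resolve_left hb
    refine ⟨_, ⟨vc, hvc, rfl⟩, d, h1, fun h3 => hz ((ext_contr hP f).1 ?_)⟩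
    have h4 := (ext f P).sub_mem (rmul _ h3 e) h2
    rwa [Prod.map_snd, sub_sub_cancel] at h4

variable {k : Type} [Field k] [Algebra k A] [Algebra k A']

theorem simpK_ext (hP : PI A) [Nontrivial A'] (f : A →ₐ[k] A') {P : RI A} (h : SimpK k P)
    (ht : ∀ b, ∃ a, b - f a ∈ ext f.toRingHom P) : SimpK k (ext f.toRingHom P) := by
  have hm : ∀ {a}, a ∈ P → f a ∈ ext f.toRingHom P := fun ha => mem_ext_of f.toRingHom ha
  have hc : ∀ {a}, f a ∈ ext f.toRingHom P → a ∈ P := fun ha => (ext_contr hP f.toRingHom).1 ha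
  refine ⟨⟨fun h1 => h.1.1 (hc (by rwa [map_one])), fun b hb => ?_⟩, fun b hb => ?_⟩
  · obtain ⟨a, ha⟩ := ht b
    obtain ⟨d, hd⟩ := h.1.2 a fun h1 => hb (by simpa using Submodule.add_mem _ ha (hm h1))
    refine ⟨f d, ?_⟩
    have h1 := Submodule.add_mem _ (rmul _ ha (f d)) (hm hd)
    rw [map_sub, map_mul, map_one] at h1
    convert h1 using 1
    noncomm_ring
  · obtain ⟨a, ha⟩ := ht b
    obtain ⟨l, hl⟩ := h.2 a fun p hp => hc (by
      have h1 := Submodule.sub_mem _ (hb _ (hm hp)) (rmul _ ha (f p))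
      rw [map_mul]
      convert h1 using 1
      noncomm_ring)
    refine ⟨l, ?_⟩
    have h1 := Submodule.add_mem _ ha (hm hl)
    rw [map_sub, f.commutes] at h1
    convert h1 using 1
    noncomm_ring

/-- the elements that preserve an additive subgroup under right multiplication -/
def Ext_mulS (p : A' → Prop) (h0 : p 0) (hs : ∀ x y, p x → p y → p (x - y)) : Subring A' where
  carrier := {t | ∀ b, p b → p (b * t)}
  one_mem' := fun b hb => by rwa [mul_one]
  mul_mem' := fun hx hy b hb => by rw [← mul_assoc]; exact hy _ (hx _ hb)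
  zero_mem' := fun b _ => by rwa [mul_zero]
  neg_mem' := fun {x} hx b hb => by simpa using hs _ _ h0 (hx b hb)
  add_mem' := fun {x y} hx hy b hb => by
    simpa [mul_add] using hs _ _ (hx b hb) (hs _ _ h0 (hy b hb))

theorem simpK_ext2 (hP : PI A) [Nontrivial A'] (f : A →ₐ[k] A') {I : Bool → RI A}
    (hI : ∀ ε, SimpK k (I ε)) (hF : ∀ ε, SFree (I ε) (I (!ε))) (r : Bool → A')
    (hr : ∀ ε, r ε * r (!ε) = 1)
    (hkill : ∀ ε, ∀ h ∈ I ε, r ε * f h ∈ ext f.toRingHom (I (!ε)))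
    (hb : ∀ z ε, ∃ z', f z * r ε - f z' ∈ ext f.toRingHom (I ε))
    (ha : ∀ z ε, ∃ z', ∃ l : k, f z * r (!ε) - f z' - l • r (!ε) ∈ ext f.toRingHom (I ε))
    (hgen : ∀ S : Subring A', (∀ a, f a ∈ S) → (∀ ε, r ε ∈ S) → ∀ b, b ∈ S) :
    SimpK k (ext f.toRingHom (I true)) := by
  have hm : ∀ {a}, a ∈ I true → f a ∈ ext f.toRingHom (I true) :=
    fun ha => mem_ext_of f.toRingHom ha
  have hc : ∀ {a}, f a ∈ ext f.toRingHom (I true) → a ∈ I true :=
    fun ha => (ext_contr hP f.toRingHom).1 ha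
  have hk0 : ∀ {a}, a ∈ I false → r false * f a ∈ ext f.toRingHom (I true) :=
    fun ha => hkill false _ ha
  have hk : ∀ {b}, b ∈ ext f.toRingHom (I false) → r false * b ∈ ext f.toRingHom (I true) :=
    fun hb => ext_stable f.toRingHom (hkill false) hb
  have hr0 : r false * r true = 1 := hr false
  have hb1 := fun z => hb z true
  have hb0 := fun z => hb z false
  have ha1 : ∀ z, ∃ z', ∃ l : k, f z * r false - f z' - l • r false ∈ ext f.toRingHom (I true) :=
    fun z => ha z true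
  have ha0 : ∀ z, ∃ z', ∃ l : k, f z * r true - f z' - l • r true ∈ ext f.toRingHom (I false) :=
    fun z => ha z false
  have hF1 : SFree (I true) (I false) := hF true
  have hF0 : SFree (I false) (I true) := hF false
  generalize ext f.toRingHom (I true) = P' at *
  generalize ext f.toRingHom (I false) = K' at *
  have one : (1 : A') ∉ P' := fun h1 => (hI true).1.1 (hc (by rwa [map_one]))
  have all : ∀ b, ∃ z q, b - f z - r false * f q ∈ P' := by
    intro b
    have h1 := hgen (Ext_mulS (fun b => ∃ z q, b - f z - r false * f q ∈ P') ⟨0, 0, by simp⟩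
      (by
        rintro x y ⟨z, q, h1⟩ ⟨z', q', h2⟩
        refine ⟨z - z', q - q', ?_⟩
        rw [map_sub, map_sub]
        convert P'.sub_mem h1 h2 using 1
        noncomm_ring)) (by
        rintro a x ⟨z, q, h1⟩
        refine ⟨z * a, q * a, ?_⟩
        rw [map_mul, map_mul]
        convert rmul P' h1 (f a) using 1
        noncomm_ring) (by
        rintro (_ | _) x ⟨z, q, h1⟩
        · obtain ⟨z', l, h2⟩ := ha1 z
          obtain ⟨q', h3⟩ := hb0 q
          refine ⟨z', algebraMap k A l + q', ?_⟩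
          rw [Algebra.smul_def, Algebra.commutes] at h2
          rw [map_add, f.commutes]
          convert P'.add_mem (P'.add_mem (rmul P' h1 (r false)) h2) (hk h3) using 1
          noncomm_ring
        · obtain ⟨z', h2⟩ := hb1 z
          obtain ⟨q', l, h3⟩ := ha0 q
          refine ⟨z' + algebraMap k A l, q', ?_⟩
          have h4 := hk h3
          rw [mul_sub, mul_smul_comm, hr0, ← Algebra.algebraMap_eq_smul_one] at h4
          rw [map_add, f.commutes]
          convert P'.add_mem (P'.add_mem (rmul P' h1 (r true)) h2) h4 using 1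
          noncomm_ring) b 1 ⟨1, 0, by simp⟩
    rwa [one_mul] at h1
  have key : ∀ b z q, b - f z - r false * f q ∈ P' →
      (z ∈ I true ∧ q ∈ I false) ∨ ∃ d, b * d - 1 ∈ P' := by
    intro b z q h1
    by_cases hz : z ∈ I true
    · by_cases hq : q ∈ I false
      · exact Or.inl ⟨hz, hq⟩
      obtain ⟨d, hd⟩ := (hI false).1.2 q hq
      refine Or.inr ⟨f d * r true, ?_⟩
      have h2 := rmul P' (hk0 hd) (r true)
      rw [map_sub, map_mul, map_one, mul_sub, mul_one, sub_mul, hr0] at h2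
      convert P'.add_mem (rmul P' (P'.add_mem h1 (hm hz)) (f d * r true)) h2 using 1
      noncomm_ring
    · have h2 := mt (hF0.lq_left (hI false).1 q z) hz
      push Not at h2
      obtain ⟨p, hp, hzp⟩ := h2
      obtain ⟨d, hd⟩ := (hI true).1.2 _ hzp
      refine Or.inr ⟨f p * f d, ?_⟩
      have h3 := hm hd
      have h4 := rmul P' (hk0 (mem_lq.1 hp)) (f d)
      rw [map_sub, map_mul, map_mul, map_one] at h3
      rw [map_mul] at h4
      convert P'.add_mem (P'.add_mem (rmul P' h1 (f p * f d)) h3) h4 using 1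
      noncomm_ring
  refine ⟨⟨one, fun b hb => ?_⟩, fun b hb => ?_⟩
  · obtain ⟨z, q, h1⟩ := all b
    refine (key b z q h1).resolve_left fun h2 => hb ?_
    convert P'.add_mem (P'.add_mem h1 (hm h2.1)) (hk0 h2.2) using 1
    noncomm_ring
  · obtain ⟨z, q, h1⟩ := all b
    have h2 : ∀ p ∈ I true, z * p ∈ I true ∧ q * p ∈ I false := fun p hp => by
      refine (key (b * f p) _ _ ?_).resolve_right fun ⟨d, hd⟩ => one ?_
      · rw [map_mul, map_mul]
        convert rmul P' h1 (f p) using 1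
        noncomm_ring
      · simpa using P'.sub_mem (rmul P' (hb _ (hm hp)) d) hd
    obtain ⟨l, hl⟩ := (hI true).2 z fun p hp => (h2 p hp).1
    refine ⟨l, ?_⟩
    have h3 := hm hl
    rw [map_sub, f.commutes] at h3
    convert P'.add_mem (P'.add_mem h1 h3) (hk0 (hF1 q fun p hp => (h2 p hp).2)) using 1
    noncomm_ring

theorem bpin_ext (hP : PI A) [Nontrivial A'] (f : A →ₐ[k] A') {K : RI A} {a : A}
    (h : BPin k K a)
    (ht : ∀ b, b ∈ ext f.toRingHom K ∨ ∃ z ∉ K, ∀ N : RI A', ext f.toRingHom K ≤ N →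
      (∀ x ∈ N, f a * x ∈ N) → b ∈ N → f z ∈ N) :
    BPin k (ext f.toRingHom K) (f a) := by
  have hm : ∀ {x}, x ∈ K → f x ∈ ext f.toRingHom K := fun ha => mem_ext_of f.toRingHom ha
  refine ⟨fun h1 => h.1 ((ext_contr hP f.toRingHom).1 (by rwa [map_one])),
    fun x hx => ext_stable f.toRingHom (fun κ hκ => ?_) hx, fun m => ?_, fun N hN hs => ?_⟩
  · have h1 := hm (h.2.1 κ hκ)
    rwa [map_mul] at h1
  · obtain ⟨w, hw⟩ := h.2.2.1 m
    have h1 := hm hw
    rw [map_sub, map_mul, map_sub, f.commutes, map_one] at h1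
    exact ⟨_, h1⟩
  · refine or_iff_not_imp_left.2 fun hne => ?_
    obtain ⟨b, hb, hb'⟩ := SetLike.not_le_iff_exists.1 fun h1 => hne (le_antisymm h1 hN)
    obtain ⟨z, hz, h1⟩ := (ht b).resolve_left hb'
    let N0 : RI A :=
      { carrier := {x | f x ∈ N}
        zero_mem' := by simp
        add_mem' := fun {x y} hx hy => by
          change f (x + y) ∈ N
          rw [map_add]
          exact N.add_mem hx hy
        smul_mem' := fun s x hx => by
          change f (x * s.unop) ∈ N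
          rw [map_mul]
          exact rmul N hx _ }
    rcases h.2.2.2 N0 (fun x hx => hN (hm hx)) (fun x hx => by
      change f (a * x) ∈ N
      rw [map_mul]
      exact hs _ hx) with h2 | h2
    · exact absurd (h2 ▸ (h1 N hN hs hb : z ∈ N0)) hz
    · have h3 : f 1 ∈ N := h2
      rwa [map_one] at h3

end Pool.Agent.Work.MP_c4093f_al
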