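import Pool.Agent.Work.MP_c4093f_al.Union

/-!
The end game: a handled uniform right ideal has a nonzero element killed by `P`.

* `Amb.final`.  Let `Ks = Subtype.val '' K`, `R, R', π` from `Hand`, `KR` the contraction of `K` to
  `R`.  It is proper; `SFree` at `R` because `v P0 ⊆ K` gives `v (genR T P0) ⊆ K`.  If `K` is
  maximal so is `KR` (`Cl.max`); otherwise `KR` is uniform (`Cl.unif`) and pinned by all jumps
  (`Cl.jump`, take `d = 1`, `Amb.inP_iff`).  Three cases of `Cert`.  (1) `r P0 ⊆ K`, so `r ∈ K`, so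
  `1 ∈ K`.  (2) `a K ⊆ K` by `Cl.idl`, so the pin gives `K = genR T (Ks ∩ R)`.  (3) members of `J`
  are jumps for `K` in `T` by `Cl.nj`, so the pin gives `K = genR T (Ks ∩ R)` again.  In (2), (3)
  `NU` and `mem_genR_up` show `x1, x2 ∉ K` (use `0 ∈ Ks ∩ R` if needed) and
  `x1 c - x2 d ∈ K → x1 c ∈ K`, against uniformity (`MaxR.unif` in the maximal case).
* `Amb.special`.  Suppose `SFree`.  For `b ∉ K` take `K' ≥ lq K b` maximal in the class; by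
  `final` (first alternative) there is `v ∉ K'` with `v P ⊆ K'`; `lq K' v = P`
  (`MaxR.eq_of_le`), `v d - 1 ∈ K'`; then `c = d` is a jump for `b`.  Apply `final` again.
-/

namespace Pool.Agent.Work.MP_c4093f_al

variable {k Ω : Type} [Field k] [Ring Ω] [Algebra k Ω]

theorem Fin_mem {T : Subalgebra k Ω} (K : RI T) (x : T) :
    x.1 ∈ Subtype.val '' (K : Set T) ↔ x ∈ K :=
  Subtype.val_injective.mem_set_image

theorem Fin_mul {T : Subalgebra k Ω} {K : RI T} {κ d : Ω} (hκ : κ ∈ Subtype.val '' (K : Set T))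
    (hd : d ∈ T) : κ * d ∈ Subtype.val '' (K : Set T) := by
  obtain ⟨x, hx, rfl⟩ := hκ
  exact ⟨x * ⟨d, hd⟩, rmul K hx _, rfl⟩

/-- the certificate contradicts uniformity -/
theorem Fin_nu {R R' T : Subalgebra k Ω} (h' : R' ≤ T) {K : RI T} (hU : Unif K)
    (hK : ∀ b ∈ K, ∃ κ ∈ Subtype.val '' (K : Set T) ∩ R, ∃ d ∈ T, b.1 = κ * d)
    (hN : NU R' (Subtype.val '' (K : Set T) ∩ R)) : False := by
  obtain ⟨x1, h1, x2, h2, hN⟩ := hN
  obtain ⟨c, d, h3, h4⟩ := hU ⟨x1, h' h1⟩ ⟨x2, h' h2⟩ (fun h => by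
      obtain ⟨κ, hκ, d, -, e⟩ := hK _ h
      obtain ⟨-, y, -, a1, a2, -⟩ := hN κ hκ
      exact a2 (by rw [show x1 = κ * d from e, ← mul_assoc, a1, zero_mul])) fun h => by
    obtain ⟨κ, hκ, d, -, e⟩ := hK _ h
    obtain ⟨-, y, -, a1, -, a2⟩ := hN κ hκ
    exact a2 (by rw [show x2 = κ * d from e, ← mul_assoc, a1, zero_mul])
  obtain ⟨κ, hκ, e, -, he⟩ := hK _ h3
  obtain ⟨⟨Z, -, a1, a2, κ', hκ', d', hd', a3⟩, -⟩ := hN κ hκ
  replace he : x1 * c.1 - x2 * d.1 = κ * e := he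
  refine h4 ((Fin_mem K _).1 ?_)
  have a4 : x1 * c.1 = κ' * d' * c.1 := by
    rw [← a3, sub_mul, mul_assoc Z, sub_eq_iff_eq_add.1 he, mul_add, ← mul_assoc Z κ,
      ← mul_assoc Z x2, a1, a2]
    simp
  change x1 * c.1 ∈ _
  rw [a4]
  exact Fin_mul (Fin_mul hκ'.1 (h' hd')) c.2

theorem Amb.final [Nontrivial Ω] (am : Amb k Ω) {T : Subalgebra k Ω} (hT : am.Gd T) (K : RI T)
    (hH : am.Hand T (Subtype.val '' (K : Set T))) (h1 : (1 : T) ∉ K)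
    (hS : SFree (genR T am.P0) K)
    (h : MaxR K ∨ (Unif K ∧ ∀ b ∉ K, ∃ c ∉ genR T am.P0, (b, c) ∈ allJ (genR T am.P0) K)) :
    False := by
  obtain ⟨R, R', π, hRR', hR'T, hR, hCl, hCert, hok⟩ := hH
  have hRT : R ≤ T := hRR'.trans hR'T
  set Ks : Set Ω := Subtype.val '' (K : Set T) with hKs
  have hm : ∀ x : T, x.1 ∈ Ks ↔ x ∈ K := Fin_mem K
  let KR : RI R :=
    { carrier := {x | (⟨x.1, hRT x.2⟩ : T) ∈ K}
      zero_mem' := K.zero_mem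
      add_mem' := fun hx hy => K.add_mem hx hy
      smul_mem' := fun r x hx => rmul K hx ⟨r.unop.1, hRT r.unop.2⟩ }
  have hKR : ∀ x : R, x ∈ KR ↔ x.1 ∈ Ks := fun x => (hm ⟨x.1, hRT x.2⟩).symm
  have hA : ∀ v : T, (∀ p ∈ am.P0, v.1 * p ∈ Ks) → v ∈ K := fun v hv =>
    hS v fun p hp => (Submodule.span_le (p := lq K v)).2
      (fun x hx => (hm (v * x)).1 (hv _ hx)) hp
  have hG : genR T (Ks ∩ R) ≤ K := Submodule.span_le.2 fun x hx => (hm x).1 hx.1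
  have hU : Unif K := h.elim MaxR.unif And.left
  have hfin : K ≤ genR T (Ks ∩ R) → NU R' (Ks ∩ R) → False := fun hle =>
    Fin_nu hR'T hU fun b hb => (mem_genR_up hRT hR.2.1 hKR b).1 (hle hb)
  have hS' : SFree (genR R am.P0) KR := fun v hv => hA ⟨v.1, hRT v.2⟩ fun p hp =>
    (hKR (v * ⟨p, hR.1 (am.hP0 hp)⟩)).1 (hv _ (Submodule.subset_span hp))
  have h' : MaxR KR ∨ (Unif KR ∧ JPin (genR R am.P0) KR (allJ (genR R am.P0) KR)) := by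
    refine h.imp (fun h => ⟨h1, fun b hb => ?_⟩) fun h => ⟨fun x y hx hy => ?_, fun _ h => h,
      fun b hb => ?_⟩
    · obtain ⟨d, hd⟩ := h.2 ⟨b.1, hRT b.2⟩ hb
      obtain ⟨e, he, h2⟩ := hCl.max b.1 b.2 ⟨d.1, d.2, (hm _).2 hd⟩
      exact ⟨⟨e, he⟩, (hKR _).2 h2⟩
    · obtain ⟨c, d, h2, h3⟩ := hU ⟨x.1, hRT x.2⟩ ⟨y.1, hRT y.2⟩ hx hy
      obtain ⟨c', hc', d', hd', h4, h5⟩ := hCl.unif x.1 x.2 y.1 y.2
        ⟨c.1, c.2, d.1, d.2, (hm _).2 h2, fun h => h3 ((hm _).1 h)⟩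
      exact ⟨⟨c', hc'⟩, ⟨d', hd'⟩, (hKR _).2 h4, fun h => h5 ((hKR _).1 h)⟩
    · obtain ⟨c, hc, h2⟩ := h.2 ⟨b.1, hRT b.2⟩ hb
      obtain ⟨c', hc', h3, h4⟩ := hCl.jump b.1 b.2 ⟨c.1, c.2,
        fun h => hc ((am.inP_iff hT c).1 h), fun e he h =>
          (am.inP_iff hT (c * ⟨e, he⟩)).2 (h2 ⟨e, he⟩ ((hm _).1 h))⟩
      refine ⟨(b, ⟨c', hc'⟩), fun e he => (am.inP_iff hR _).1
        (h4 e.1 (hRT e.2) ((hKR _).1 he)), 1, by simp, fun h => h3 ?_⟩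
      rw [mul_one] at h
      exact (am.inP_iff hR _).2 h
  rcases hCert KR hKR h1 hS' h' with ⟨r, hr, r', hr', e, h2⟩ | ⟨h2, h3, h4, h5, h6⟩ |
    ⟨h2, h3, h4, h6⟩
  · have h3 := hA ⟨r, hR'T hr⟩ fun p hp => by
      obtain ⟨κ, hκ, d, hd, e⟩ := h2 p hp
      exact e ▸ Fin_mul hκ.1 (hR'T hd)
    have h4 : r * r' ∈ Ks := Fin_mul ((hm _).2 h3) (hR'T hr')
    rw [e] at h4
    exact h1 ((hm 1).1 h4)
  · have hB := hok.2.2 h2 (hRT h4)
    rw [h3] at hB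
    refine hfin ((hB.2.2.2 K hG fun x hx => ?_).resolve_right h1).le h6
    by_contra hn
    obtain ⟨z, hz, a1, a2⟩ := hCl.idl π.a h4 ⟨x.1, x.2, (hm x).2 hx, fun h => hn ((hm _).1 h)⟩
    exact a2 (h5 z ⟨a1, hz⟩)
  · have hJ := hok.2.1 h2
    rw [h3] at hJ
    refine hfin (fun b hb => ?_) h6
    by_contra hn
    obtain ⟨vc, hvc, d, a1, a2⟩ := hJ.2 b hn
    obtain ⟨b1, b2, b3⟩ := h4 _ hvc
    have a3 : vc.1 * d ∈ K := by simpa using K.sub_mem hb (hG a1)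
    obtain ⟨e, he, a4, a5⟩ := hCl.nj _ b1 _ b2
      ⟨d.1, d.2, (hm _).2 a3, fun h => a2 ((am.inP_iff hT _).1 h)⟩
    exact a5 (b3 e he a4)

theorem Amb.special [Nontrivial Ω] (am : Amb k Ω) {T : Subalgebra k Ω} (hT : am.Gd T)
    (C : RI T → Prop) (hH : ∀ K, C K → am.Hand T (Subtype.val '' (K : Set T)))
    (hZ : ∀ K, C K → ∀ b ∉ K, ∃ K', C K' ∧ MaxR K' ∧ lq K b ≤ K') :
    ∀ K, C K → (1 : T) ∉ K → Unif K → ¬ SFree (genR T am.P0) K := by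
  intro K hK h1 hU hS
  refine am.final hT K (hH K hK) h1 hS (Or.inr ⟨hU, fun b hb => ?_⟩)
  obtain ⟨K', hK', hM, hle⟩ := hZ K hK b hb
  have h2 : ¬ SFree (genR T am.P0) K' := fun h => am.final hT K' (hH K' hK') hM.1 h (Or.inl hM)
  obtain ⟨v, hv⟩ := not_forall.1 h2
  obtain ⟨hv, hv'⟩ := Classical.not_imp.1 hv
  have h3 : lq K' v = genR T am.P0 := hT.2.2.1.1.eq_of_le hv (by simpa using hv')
  obtain ⟨d, hd⟩ := hM.2 v hv'
  rw [← h3]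
  refine ⟨d, fun h => hM.1 (by simpa using K'.sub_mem h hd), fun e he => ?_⟩
  have := K'.add_mem (rmul K' hd e) (hle he)
  rw [mem_lq]
  convert this using 1
  noncomm_ring

end Pool.Agent.Work.MP_c4093f_al
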