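import Pool.Agent.Work.MP_c4093f_al.MHull2

/-!
The isolation condition on both sides.

* `opn_triv`: `pp_le_all` and `π.le`.  `closed_univ`: the empty family (`exists_empty`).
* `ic_of_two`: if `π` isolates `N` in a closed `Y`, each open set of the family misses `N`, so is
  empty, so `Y = univ`; `π.Opn = univ`; both points are isomorphic to `N`.
* `not_ic_dual`: `DualSet univ = univ` by `pp_dual_eq` at the point `L0`; `pp_top_bot` isolates
  `N0`; a minimal pair contradicts `pp_split`.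
* `main_M`: `A = Tᵐᵒᵖ`.  Left ideals of `A` are right ideals of `T` (`toL`, `ofL` below; codedness
  moves along `op`, `unop`).  `max_ext` gives `max_ext_R`.  For a point `N` of `A` and `x ≠ 0`,
  `K = {r | op r • x = 0}` is coded, proper and uniform (`pt_unif`), so there is `v ∉ K` with
  `v P ⊆ K`; `op v • x` has annihilator `P` (`MaxR.eq_of_le`); `pt_iso` with the point from
  `point_of_max`.  On the other side move `L1, L2` to `Tᵐᵒᵖᵐᵒᵖ` along `unop ∘ unop`, use `max_ext`,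
  `point_of_max`, `pt_not_iso`, and `PI.op`, `Lv.op` twice.
-/

namespace Pool.Agent.Work.MP_c4093f_al
open Pool.Agent.Lib.ZFModel MulOpposite

set_option synthInstance.maxSize 100000

variable {M : Type 1} {E : M → M → Prop} [hE : Fact (IsZFC E)]

instance CT.mop {T : Type} [CT E T] : CT E Tᵐᵒᵖ where
  code r := CT.code E r.unop
  inj := fun _ _ h => unop_injective (CT.inj h)
  set := by
    obtain ⟨a, ha⟩ := CT.set (E := E) (T := T)
    exact ⟨a, fun x => (ha x).trans ⟨fun ⟨t, h⟩ => ⟨op t, h⟩, fun ⟨t, h⟩ => ⟨t.unop, h⟩⟩⟩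

theorem CF.unop0 {T : Type} [CT E T] : CF E (unop : Tᵐᵒᵖ → T) := by
  obtain ⟨a, ha⟩ := (CF.id (E := E) (T := T)).out.out
  exact ⟨a, fun p => ha (p.1.unop, p.2)⟩

theorem CF.op0 {T : Type} [CT E T] : CF E (op : T → Tᵐᵒᵖ) := by
  obtain ⟨a, ha⟩ := (CF.id (E := E) (T := T)).out.out
  exact ⟨a, fun p => unop_injective.eq_iff.symm.trans (ha (p.1, p.2.unop))⟩

instance CF.unop {T T' : Type} [CT E T] [CT E T'] (f : T → T'ᵐᵒᵖ) [CF E f] :
    CF E fun t => (f t).unop := CF.comp _ f (hg := CF.unop0)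

instance CF.op {T T' : Type} [CT E T] [CT E T'] (f : T → T') [CF E f] :
    CF E fun t => op (f t) := CF.comp _ f (hg := CF.op0)

variable {S : Type} [Ring S] [CT E S]

instance CAdd.mop [CAdd E S] : CAdd E Sᵐᵒᵖ :=
  ⟨(inferInstance : CF E fun p : Sᵐᵒᵖ × Sᵐᵒᵖ => op (p.1.unop + p.2.unop))⟩

instance CSm.mop [CSm E S S] : CSm E Sᵐᵒᵖ Sᵐᵒᵖ :=
  ⟨(inferInstance : CF E fun p : Sᵐᵒᵖ × Sᵐᵒᵖ => op (p.2.unop * p.1.unop))⟩

theorem opn_triv (hP : PI S) (lv : Lv S) (π : Pair E (CT.code E : S → M))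
    {N : Pt E (CT.code E : S → M)} (h : N ∈ π.Opn) : π.Opn = Set.univ := by
  refine Set.eq_univ_of_forall fun N' he => h ?_
  have := N'.2.2.1
  exact Set.Subset.antisymm (pp_le_all hP lv _ _ N'.1.N he.subset _) (π.le N.1)

theorem closed_univ : Closed (Set.univ : Set (Pt E (CT.code E : S → M))) := by
  obtain ⟨e, he⟩ := Pool.Agent.Work.MP_63c7e0_lc.exists_empty (zf' E)
  refine ⟨∅, ⟨e, fun x => ⟨fun h => (he x h).elim, ?_⟩⟩, by simp⟩
  rintro ⟨π, hπ, -⟩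
  exact hπ.elim

theorem ic_of_two (hP : PI S) (lv : Lv S) (N1 N2 : Pt E (CT.code E : S → M))
    (h : ¬ Iso N1 N2) : IC (Set.univ : Set (Pt E (CT.code E : S → M))) := by
  rintro Y ⟨O, -, rfl⟩ - N ⟨π, h1, h2, h3⟩
  have hY : ∀ N', N' ∈ (⋃ π ∈ O, Pair.Opn π)ᶜ := fun N' hN' => by
    obtain ⟨π', hπ', h4⟩ := Set.mem_iUnion₂.1 hN'
    exact h1 (Set.mem_iUnion₂.2 ⟨π', hπ', opn_triv hP lv π' h4 ▸ Set.mem_univ _⟩)
  have h5 := opn_triv hP lv π h2
  exact (h ((h3 N1 (hY _) (h5 ▸ Set.mem_univ _)).trans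
    (h3 N2 (hY _) (h5 ▸ Set.mem_univ _)).symm)).elim

theorem dual_univ (hP : PI S) (lv : Lv S) (L0 : Pt E (CT.code E : Sᵐᵒᵖ → M)) :
    DualSet (E := E) (c := (CT.code E : S → M)) Set.univ = Set.univ := by
  refine Set.eq_univ_of_forall fun L π hπ => ?_
  have h1 : π.φ.ev L0.1.N = π.ψ.ev L0.1.N := by
    by_contra h2
    have h3 : L0 ∈ π.Opn ∩ Set.univ := ⟨h2, Set.mem_univ _⟩
    rw [hπ] at h3
    exact h3
  have := L0.2.2.1
  exact pp_dual_eq hP lv π.φ π.ψ L0.1.N h1 L.1.N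

theorem not_ic_dual (hP : PI S) (lv : Lv S) (N0 : Pt E (CT.code E : S → M))
    (h : ∀ N, Iso N N0) (L0 : Pt E (CT.code E : Sᵐᵒᵖ → M)) :
    ¬ IC (DualSet (E := E) (c := (CT.code E : S → M)) Set.univ) := by
  rw [dual_univ hP lv L0]
  intro hI
  obtain ⟨φ, ψ, hφ⟩ := pp_top_bot (S := S)
  let π0 : Pair E (CT.code E : S → M) :=
    ⟨1, φ, ψ, fun N => by rw [(hφ N.N).1]; exact Set.subset_univ _⟩
  have h0 : N0 ∈ π0.Opn := by
    intro he
    have h1 : φ.ev N0.1.N = ψ.ev N0.1.N := he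
    rw [(hφ _).1, (hφ _).2] at h1
    have := N0.2.2.1
    obtain ⟨x, hx⟩ := exists_ne (0 : N0.1.N)
    have h2 : (fun _ : Fin 1 => x) ∈ ({0} : Set (Fin 1 → N0.1.N)) := h1 ▸ Set.mem_univ _
    exact hx (congrFun h2 0)
  obtain ⟨π, ⟨⟨N, -, hN⟩, hm⟩, -⟩ := hI Set.univ closed_univ subset_rfl N0
    ⟨π0, Set.mem_univ _, h0, fun N' _ _ => h N'⟩
  obtain ⟨θ, h1, h2, h3⟩ := pp_split hP lv π.φ π.ψ N.1.N fun h4 =>
    hN (Set.Subset.antisymm h4 (π.le N.1))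
  rcases hm θ (fun N' => (h1 N'.N).2 (π.le N')) (fun N' => (h1 N'.N).1) with h4 | h4
  · exact h2 (h4 N (Set.mem_univ _))
  · exact h3 (h4 N (Set.mem_univ _))

/-- a right ideal as a left ideal of the opposite ring -/
def toLMZg {T : Type} [Ring T] (K : RI T) : Ideal Tᵐᵒᵖ where
  carrier := {r | r.unop ∈ K}
  zero_mem' := K.zero_mem
  add_mem' := fun hx hy => K.add_mem hx hy
  smul_mem' := fun r _ hx => K.smul_mem r hx

/-- a left ideal of the opposite ring as a right ideal -/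
def ofLMZg {T : Type} [Ring T] (L : Ideal Tᵐᵒᵖ) : RI T where
  carrier := {t | op t ∈ L}
  zero_mem' := L.zero_mem
  add_mem' := fun hx hy => L.add_mem hx hy
  smul_mem' := fun r _ hx => L.smul_mem r hx

/-- a left ideal moved to the double opposite -/
def mvMZg {T : Type} [Ring T] (L : Ideal T) : Ideal Tᵐᵒᵖᵐᵒᵖ where
  carrier := {r | r.unop.unop ∈ L}
  zero_mem' := L.zero_mem
  add_mem' := fun hx hy => L.add_mem hx hy
  smul_mem' := fun r _ hx => L.smul_mem r.unop.unop hx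

/-- the annihilator of an element of a right module -/
def annMZg {T N : Type} [Ring T] [AddCommGroup N] [Module Tᵐᵒᵖ N] (x : N) : RI T where
  carrier := {r | op r • x = 0}
  zero_mem' := by simp
  add_mem' := fun {a b} ha hb => by
    simp only [Set.mem_ofPred_eq] at *
    rw [op_add, add_smul, ha, hb, add_zero]
  smul_mem' := fun r a ha => by
    simp only [Set.mem_ofPred_eq] at *
    rw [smul_eq_mul_unop, op_mul, op_unop, mul_smul, ha, smul_zero]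

variable {T : Type} [Ring T] [CT E T] [CAdd E T] [CSm E T T]

theorem max_ext_R (K : RI T) (hK : CM E (T := T) K) {b : T} (hb : b ∉ K) :
    ∃ K' : RI T, CM E (T := T) K' ∧ MaxR K' ∧ lq K b ≤ K' := by
  have u0 := CF.unop0 (E := E) (T := T)
  have o0 := CF.op0 (E := E) (T := T)
  have h1 : CM E (T := Tᵐᵒᵖ) (toLMZg (lq K b)) :=
    ⟨(inferInstance : CS E fun r : Tᵐᵒᵖ => b * r.unop ∈ K)⟩
  obtain ⟨L, h2, h3, h4, h5⟩ := max_ext (E := E) (toLMZg (lq K b)) (by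
    intro h
    have h' : b * 1 ∈ K := h
    rw [mul_one] at h'
    exact hb h')
  refine ⟨ofLMZg L, ⟨(inferInstance : CS E fun t : T => op t ∈ L)⟩, ⟨h4, fun c hc => ?_⟩,
    fun t ht => h3 (show op t ∈ toLMZg (lq K b) from ht)⟩
  obtain ⟨d, hd⟩ := h5 (op c) hc
  exact ⟨d.unop, hd⟩

theorem main_M (hP : PI T) (lv : Lv T) (R0 : Subring T) [CM E (T := T) R0]
    (hR : ∀ x ∈ R0, x ≠ 0 → ∃ y ∈ R0, y * x = 1 ∧ x * y = 1) (P : RI T) [CM E (T := T) P]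
    (hM : MaxR P) (hU : ∀ K : RI T, CM E (T := T) K → (1 : T) ∉ K → Unif K → ¬ SFree P K)
    (L1 L2 : Ideal T) [CM E (T := T) L1] [CM E (T := T) L2] (hL : Perp L1 L2) :
    CodedRing E (CT.code E : Tᵐᵒᵖ → M) ∧
      ∃ X : Set (Pt E fun r : Tᵐᵒᵖᵐᵒᵖ => (CT.code E : Tᵐᵒᵖ → M) r.unop),
        X = Set.univ ∧ DualSet X = Set.univ ∧ Closed X ∧ IC X ∧ ¬ IC (DualSet X) := by
  have u0 := CF.unop0 (E := E) (T := T)
  have u1 := CF.unop0 (E := E) (T := Tᵐᵒᵖ)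
  have o0 := CF.op0 (E := E) (T := T)
  refine ⟨codedRing_iff.2 ⟨inferInstance, inferInstance⟩, Set.univ, ?_⟩
  have c1 : CM E (T := Tᵐᵒᵖ) R0.op := ⟨(inferInstance : CS E fun r : Tᵐᵒᵖ => r.unop ∈ R0)⟩
  have c2 : CM E (T := Tᵐᵒᵖᵐᵒᵖ) R0.op.op :=
    ⟨(inferInstance : CS E fun r : Tᵐᵒᵖᵐᵒᵖ => r.unop.unop ∈ R0)⟩
  have c3 : CM E (T := Tᵐᵒᵖ) (toLMZg P) := ⟨(inferInstance : CS E fun r : Tᵐᵒᵖ => r.unop ∈ P)⟩
  have c4 : CM E (T := Tᵐᵒᵖᵐᵒᵖ) (mvMZg L1) :=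
    ⟨(inferInstance : CS E fun r : Tᵐᵒᵖᵐᵒᵖ => r.unop.unop ∈ L1)⟩
  have c5 : CM E (T := Tᵐᵒᵖᵐᵒᵖ) (mvMZg L2) :=
    ⟨(inferInstance : CS E fun r : Tᵐᵒᵖᵐᵒᵖ => r.unop.unop ∈ L2)⟩
  have r1 : ∀ x ∈ R0.op, x ≠ 0 → ∃ y ∈ R0.op, y * x = 1 := fun x hx h0 => by
    obtain ⟨y, hy, -, h2⟩ := hR x.unop hx fun h => h0 (unop_injective h)
    exact ⟨op y, hy, unop_injective h2⟩
  have r2 : ∀ x ∈ R0.op.op, x ≠ 0 → ∃ y ∈ R0.op.op, y * x = 1 := fun x hx h0 => by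
    obtain ⟨y, hy, h2, -⟩ := hR x.unop.unop hx fun h => h0 (unop_injective (unop_injective h))
    exact ⟨op (op y), hy, unop_injective (unop_injective h2)⟩
  have p1 : (1 : Tᵐᵒᵖ) ∉ toLMZg P := hM.1
  have p2 : ∀ b ∉ toLMZg P, ∃ d, d * b - 1 ∈ toLMZg P := fun b hb => by
    obtain ⟨d, hd⟩ := hM.2 b.unop hb
    exact ⟨op d, hd⟩
  obtain ⟨N0, s0, hs0⟩ := point_of_max (E := E) hP.op lv.op R0.op r1 (toLMZg P) p1 p2
  have hall : ∀ N : Pt E (CT.code E : Tᵐᵒᵖ → M), Iso N N0 := fun N => by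
    have := N.2.2.1
    obtain ⟨x, hx⟩ := exists_ne (0 : N.1.N)
    have hK : ∀ r : T, r ∈ annMZg x ↔ op r • x = 0 := fun _ => Iff.rfl
    have k1 : CM E (T := T) (annMZg x) := ⟨(inferInstance : CS E fun r : T => op r • x = 0)⟩
    have k2 : (1 : T) ∉ annMZg x := by
      rw [hK, op_one, one_smul]
      exact hx
    have k3 : Unif (annMZg (T := T) x) := fun a b ha hb => by
      obtain ⟨r, r', h1, h2⟩ := pt_unif hP.op lv.op N (x := op a • x) (y := op b • x) ha hb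
      refine ⟨r.unop, r'.unop, ?_, ?_⟩
      · rw [hK, op_sub, op_mul, op_mul, op_unop, op_unop, sub_smul, mul_smul, mul_smul, h1, sub_self]
      · rw [hK, op_mul, op_unop, mul_smul]
        exact h2
    have k4 := hU _ k1 k2 k3
    simp only [SFree, not_forall] at k4
    obtain ⟨v, hv1, hv2⟩ := k4
    have k5 : lq (annMZg x) v = P := hM.eq_of_le (fun p hp => hv1 p hp) (by
      rw [mem_lq, mul_one]
      exact hv2)
    refine pt_iso hP.op lv.op p1 p2 N N0 (op v • x) s0 (fun r => ?_) hs0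
    have k6 : r ∈ toLMZg P ↔ r.unop ∈ P := Iff.rfl
    rw [k6, ← k5, mem_lq, hK, op_mul, op_unop, mul_smul]
  have q : Perp (mvMZg L1) (mvMZg L2) := by
    refine ⟨hL.1, hL.2.1, fun b => ?_⟩
    obtain ⟨l, h1, h2⟩ := hL.2.2 b.unop.unop
    exact ⟨op (op l), h1, h2⟩
  obtain ⟨L1', d1, d2, d3, d4⟩ := max_ext (E := E) (mvMZg L1) q.1
  obtain ⟨L2', e1, e2, e3, e4⟩ := max_ext (E := E) (mvMZg L2) q.2.1
  obtain ⟨N1, s1, hs1⟩ := point_of_max (E := E) hP.op.op lv.op.op R0.op.op r2 L1' d3 d4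
  obtain ⟨N2, s2, hs2⟩ := point_of_max (E := E) hP.op.op lv.op.op R0.op.op r2 L2' e3 e4
  have hn := pt_not_iso hP.op.op lv.op.op q d2 e2 d3 e3 d4 N1 N2 s1 s2 hs1 hs2
  exact ⟨rfl, dual_univ hP.op lv.op N1, closed_univ (S := Tᵐᵒᵖᵐᵒᵖ),
    ic_of_two hP.op.op lv.op.op N1 N2 hn,
    not_ic_dual hP.op lv.op N0 hall N1⟩

end Pool.Agent.Work.MP_c4093f_al
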