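import Pool.Agent.Work.MP_c4093f_al.ForceB
import Pool.Agent.Work.MP_c4093f_al.MZg
import Pool.Agent.Work.MP_c4093f_al.Fin

/-! Assembly: the generic ring is a counterexample inside the generic model. -/

namespace Pool.Agent.Work.MP_c4093f_al
open Pool.Agent.Lib.ZFModel

theorem exists_countable_closed : ∃ (k : Type) (_ : Field k), IsAlgClosed k ∧ Countable k := by
  have key : ∀ (F : Type) [Field F] [Countable F], Countable (AlgebraicClosure F) := fun F _ _ =>
    Cardinal.mk_le_aleph0_iff.1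
      ((Algebra.IsAlgebraic.cardinalMk_le_max F (AlgebraicClosure F)).trans (by simp))
  exact ⟨AlgebraicClosure ℚ, inferInstance, inferInstance, key ℚ⟩

theorem final_con : ∃ (M : Type 1) (E : M → M → Prop), IsZFC E ∧ WellFounded E ∧
    (∀ a, Small.{0} {x // E x a}) ∧ ∃ (A : Type) (_ : Ring A) (c : A → M), CodedRing E c ∧
      (∀ a : A, ∃ g, a * g * a = a) ∧ ∃ X : Set (Pt E fun r : Aᵐᵒᵖ => c r.unop),
        X = Set.univ ∧ DualSet X = Set.univ ∧ Closed X ∧ IC X ∧ ¬ IC (DualSet X) := by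
  obtain ⟨k, _, _, _⟩ := exists_countable_closed
  obtain ⟨Ω, _, _, _, -, ⟨am⟩⟩ := exists_amb k
  let S : ℕ → Set Ω := fun n => match n with
    | 0 => Set.range (algebraMap k Ω)
    | 1 => {x | am.InP x}
    | 2 => Ideal.span am.L1
    | _ => Ideal.span am.L2
  obtain ⟨M, E, hE, h1, h2, T, ct, h3, h4, h5, hG, hH⟩ := exists_generic_model am S
  have hP : PI T := hG.2.1
  let lv : Lv T := am.base.lv.map (Subalgebra.inclusion hG.1).toRingHom
  let R0 : Subring T := (algebraMap k T).range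
  have : CM E (T := T) R0 := ⟨(h5 0).congr fun x =>
    ⟨fun ⟨l, hl⟩ => ⟨l, congrArg Subtype.val hl⟩, fun ⟨l, hl⟩ => ⟨l, Subtype.ext hl⟩⟩⟩
  have : CM E (T := T) (genR T am.P0) := ⟨(h5 1).congr fun x => (am.inP_iff hG x).symm⟩
  have : CM E (T := T) (genL T am.L1) := ⟨(h5 2).congr fun x => (am.inL1_iff hG x).symm⟩
  have : CM E (T := T) (genL T am.L2) := ⟨(h5 3).congr fun x => (am.inL2_iff hG x).symm⟩
  have hR : ∀ x ∈ R0, x ≠ 0 → ∃ y ∈ R0, y * x = 1 ∧ x * y = 1 := by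
    rintro _ ⟨l, rfl⟩ h
    have hl : l ≠ 0 := fun e => h (by rw [e, map_zero])
    exact ⟨_, ⟨l⁻¹, rfl⟩, by rw [← map_mul, inv_mul_cancel₀ hl, map_one],
      by rw [← map_mul, mul_inv_cancel₀ hl, map_one]⟩
  obtain ⟨h6, h7⟩ := main_M hP lv R0 hR (genR T am.P0) hG.2.2.1.1
    (am.special hG (fun K => CM E (T := T) K) (fun K hK => hH K hK.out)
      fun K hK b hb => max_ext_R K hK hb) (genL T am.L1) (genL T am.L2) hG.2.2.2
  exact ⟨M, E, hE.out, h1, h2, Tᵐᵒᵖ, inferInstance, _, h6,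
    fun a => (hP.op.reg a).imp fun _ h => h.1, h7⟩

end Pool.Agent.Work.MP_c4093f_al
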