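import Pool.Agent.Work.MP_c4093f_al.Step

/-!
The forcing of countable stages, and the density argument.

* `Cond.limit`: the union of the chain (`Subalgebra.coe_iSup_of_directed` or a hand made
  subalgebra), with `Amb.gd_union`, `Amb.ok_union` (a finite set lies in one stage; for a pin of
  stage `n` use stages `≥ n`).
* `exists_closed`: first, for a condition `p` enumerate the countably many `(i, x, y)` with
  `x, y ∈ p.R` and strengthen step by step (if some extension has `Ψ i x y` move to it); the limit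
  `p'` decides all of them.  Iterate this `ω` times and take the limit.
* `dense_Hd`: apply `exists_closed` to six monotone requirements (`pos x`, and the five right
  hand sides of `ClF`), then `Amb.step` for the guess `{x | pos x p}` and add the new pin.
* `gd_of_generic`, `hand_of_generic`: finitely many elements of `T` lie in one `r.R` with
  `r ∈ PN`, `G r` (`dir`, `below`), below any given member of `G`.  On `p.R` the set `K` agrees with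
  `{x | pos x p}` (`ClF.dec`), use `Amb.Cert.congr`.  Each clause of `Cl`: collect the witnesses and
  the conditions given by `h1, h2, h3` below one member of `G` below `p`, apply `ClF`, go back with
  `h1` (`Ng` at a member of `G` excludes membership in `K`; `Jm` at `p` gives the jump on `T`).
-/

namespace Pool.Agent.Work.MP_c4093f_al

variable {k Ω : Type} [Field k] [Ring Ω] [Algebra k Ω]

/-- forcing conditions -/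
structure Cond (am : Amb k Ω) where
  R : Subalgebra k Ω
  pins : Set (SPin Ω)
  cR : Countable R
  gd : am.Gd R
  cp : pins.Countable
  ok : ∀ π ∈ pins, am.ok R π

variable {am : Amb k Ω}

instance : Preorder (Cond am) where
  le q p := p.R ≤ q.R ∧ p.pins ⊆ q.pins
  le_refl _ := ⟨le_rfl, le_rfl⟩
  le_trans _ _ _ h h' := ⟨h'.1.trans h.1, h'.2.trans h.2⟩

theorem Cond.le_def {p q : Cond am} : q ≤ p ↔ p.R ≤ q.R ∧ p.pins ⊆ q.pins := Iff.rfl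

variable (am) in
/-- the first condition -/
def Cond.top : Cond am := ⟨am.A0, ∅, am.cnt, am.gd_A0, Set.countable_empty, fun _ h => h.elim⟩

theorem ForceA_sub (S : Set (Cond am)) (hne : S.Nonempty)
    (dir : ∀ p ∈ S, ∀ q ∈ S, ∃ r ∈ S, r ≤ p ∧ r ≤ q) :
    ∃ T : Subalgebra k Ω, ∀ x, x ∈ T ↔ ∃ p ∈ S, x ∈ p.R := by
  refine ⟨{ carrier := {x | ∃ p ∈ S, x ∈ p.R}
            mul_mem' := ?_, add_mem' := ?_, algebraMap_mem' := fun l => ?_ }, fun _ => Iff.rfl⟩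
  · rintro x y ⟨p, hp, hx⟩ ⟨q, hq, hy⟩
    obtain ⟨r, hr, h1, h2⟩ := dir p hp q hq
    exact ⟨r, hr, r.R.mul_mem (h1.1 hx) (h2.1 hy)⟩
  · rintro x y ⟨p, hp, hx⟩ ⟨q, hq, hy⟩
    obtain ⟨r, hr, h1, h2⟩ := dir p hp q hq
    exact ⟨r, hr, r.R.add_mem (h1.1 hx) (h2.1 hy)⟩
  · obtain ⟨p, hp⟩ := hne
    exact ⟨p, hp, p.R.algebraMap_mem l⟩

theorem ForceA_fin {S : Set (Cond am)} (dir : ∀ p ∈ S, ∀ q ∈ S, ∃ r ∈ S, r ≤ p ∧ r ≤ q)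
    {T : Subalgebra k Ω} (hT : ∀ x, x ∈ T ↔ ∃ p ∈ S, x ∈ p.R) {p0 : Cond am} (h0 : p0 ∈ S)
    (s : Finset Ω) (hs : (s : Set Ω) ⊆ T) : ∃ r ∈ S, r ≤ p0 ∧ (s : Set Ω) ⊆ r.R := by
  classical
  induction s using Finset.induction_on with
  | empty => exact ⟨p0, h0, le_rfl, by simp⟩
  | insert a s _ ih =>
    rw [Finset.coe_insert, Set.insert_subset_iff] at hs
    obtain ⟨r, hr, h1, h2⟩ := ih hs.2
    obtain ⟨q, hq, ha⟩ := (hT a).1 hs.1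
    obtain ⟨t, ht, h3, h4⟩ := dir r hr q hq
    refine ⟨t, ht, h3.trans h1, ?_⟩
    rw [Finset.coe_insert, Set.insert_subset_iff]
    exact ⟨h4.1 ha, fun x hx => h3.1 (h2 hx)⟩

theorem ForceA_gd [Nontrivial Ω] {S : Set (Cond am)}
    (dir : ∀ p ∈ S, ∀ q ∈ S, ∃ r ∈ S, r ≤ p ∧ r ≤ q) {T : Subalgebra k Ω}
    (hT : ∀ x, x ∈ T ↔ ∃ p ∈ S, x ∈ p.R) (hne : S.Nonempty) : am.Gd T :=
  am.gd_union fun s hs => by
    obtain ⟨p0, h0⟩ := hne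
    obtain ⟨r, hr, -, h⟩ := ForceA_fin dir hT h0 s hs
    exact ⟨r.R, fun x hx => (hT x).2 ⟨r, hr, hx⟩, h, r.gd⟩

theorem ForceA_ok [Nontrivial Ω] {S : Set (Cond am)}
    (dir : ∀ p ∈ S, ∀ q ∈ S, ∃ r ∈ S, r ≤ p ∧ r ≤ q) {T : Subalgebra k Ω}
    (hT : ∀ x, x ∈ T ↔ ∃ p ∈ S, x ∈ p.R) {p0 : Cond am} (h0 : p0 ∈ S) {π : SPin Ω}
    (hπ : π ∈ p0.pins) : am.ok T π :=
  am.ok_union fun s hs => by
    obtain ⟨r, hr, h1, h⟩ := ForceA_fin dir hT h0 s hs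
    exact ⟨r.R, fun x hx => (hT x).2 ⟨r, hr, hx⟩, h, r.gd, r.ok π (h1.2 hπ)⟩

theorem Cond.limit [Nontrivial Ω] (p : ℕ → Cond am) (h : ∀ n, p (n + 1) ≤ p n) :
    ∃ q : Cond am, (∀ n, q ≤ p n) ∧ ∀ x ∈ q.R, ∃ n, x ∈ (p n).R := by
  have ha : Antitone p := antitone_nat_of_succ_le h
  have dir : ∀ a ∈ Set.range p, ∀ b ∈ Set.range p, ∃ r ∈ Set.range p, r ≤ a ∧ r ≤ b := by
    rintro _ ⟨n, rfl⟩ _ ⟨m, rfl⟩
    exact ⟨_, ⟨max n m, rfl⟩, ha (le_max_left _ _), ha (le_max_right _ _)⟩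
  obtain ⟨T, hT⟩ := ForceA_sub _ (Set.range_nonempty p) dir
  have hc : (T : Set Ω).Countable := by
    refine (Set.countable_iUnion fun n =>
      (Set.countable_coe_iff.1 (p n).cR : ((p n).R : Set Ω).Countable)).mono fun x hx => ?_
    obtain ⟨_, ⟨n, rfl⟩, hx⟩ := (hT x).1 hx
    exact Set.mem_iUnion.2 ⟨n, hx⟩
  refine ⟨⟨T, ⋃ n, (p n).pins, hc.to_subtype, ForceA_gd dir hT (Set.range_nonempty p),
    Set.countable_iUnion fun n => (p n).cp, fun π hπ => ?_⟩,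
    fun n => ⟨fun x hx => (hT x).2 ⟨_, ⟨n, rfl⟩, hx⟩, Set.subset_iUnion (fun n => (p n).pins) n⟩,
    fun x hx => ?_⟩
  · obtain ⟨n, hn⟩ := Set.mem_iUnion.1 hπ
    exact ForceA_ok dir hT ⟨n, rfl⟩ hn
  · obtain ⟨_, ⟨n, rfl⟩, hx⟩ := (hT x).1 hx
    exact ⟨n, hx⟩

theorem ForceA_dec [Nontrivial Ω] {τ : Type} [Countable τ] (Ψ : τ → Cond am → Prop)
    (hΨ : ∀ t p q, Ψ t p → q ≤ p → Ψ t q) (p0 : Cond am) :
    ∃ p ≤ p0, ∀ t, (∃ q ≤ p, Ψ t q) → Ψ t p := by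
  obtain ⟨e, he⟩ := exists_injective_nat τ
  have st : ∀ (n : ℕ) (r : Cond am), ∃ r' ≤ r, ∀ t, e t = n → (∃ q ≤ r, Ψ t q) → Ψ t r' := by
    intro n r
    by_cases h : ∃ t, e t = n ∧ ∃ q ≤ r, Ψ t q
    · obtain ⟨t, ht, q, hq, h⟩ := h
      exact ⟨q, hq, fun t' ht' _ => he (ht.trans ht'.symm) ▸ h⟩
    · exact ⟨r, le_rfl, fun t ht h' => (h ⟨t, ht, h'⟩).elim⟩
  choose f h1 h2 using st
  let s : ℕ → Cond am := fun n => Nat.rec p0 f n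
  obtain ⟨p, hp, -⟩ := Cond.limit s fun n => h1 n (s n)
  refine ⟨p, hp 0, fun t ⟨q, hq, h⟩ => ?_⟩
  exact hΨ t _ _ (h2 (e t) (s (e t)) t rfl ⟨q, hq.trans (hp _), h⟩) (hp (e t + 1))

theorem exists_closed [Nontrivial Ω] {ι : Type} [Countable ι] (Ψ : ι → Ω → Ω → Cond am → Prop)
    (hΨ : ∀ i x y p q, Ψ i x y p → q ≤ p → Ψ i x y q) (p0 : Cond am) :
    ∃ p ≤ p0, ∀ i, ∀ x ∈ p.R, ∀ y ∈ p.R, (∃ q ≤ p, Ψ i x y q) → Ψ i x y p := by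
  have st : ∀ r : Cond am, ∃ p ≤ r, ∀ i, ∀ x ∈ r.R, ∀ y ∈ r.R,
      (∃ q ≤ p, Ψ i x y q) → Ψ i x y p := fun r => by
    have := r.cR
    obtain ⟨p, hp, h⟩ := ForceA_dec (τ := ι × r.R × r.R) (fun t => Ψ t.1 t.2.1.1 t.2.2.1)
      (fun t => hΨ _ _ _) r
    exact ⟨p, hp, fun i x hx y hy => h (i, ⟨x, hx⟩, ⟨y, hy⟩)⟩
  choose f h1 h2 using st
  let s : ℕ → Cond am := fun n => Nat.rec p0 (fun _ => f) n
  have hs : ∀ n, s (n + 1) ≤ s n := fun n => h1 (s n)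
  have ha : Antitone s := antitone_nat_of_succ_le hs
  obtain ⟨p, hp, hp'⟩ := Cond.limit s hs
  refine ⟨p, hp 0, fun i x hx y hy ⟨q, hq, h⟩ => ?_⟩
  obtain ⟨n, hn⟩ := hp' x hx
  obtain ⟨m, hm⟩ := hp' y hy
  exact hΨ i x y _ _ (h2 (s (max n m)) i x ((ha (le_max_left _ _)).1 hn) y
    ((ha (le_max_right _ _)).1 hm) ⟨q, hq.trans (hp (max n m + 1)), h⟩) (hp (max n m + 1))

variable (pos : Ω → Cond am → Prop)

/-- no extension puts `x` in -/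
def Ng (x : Ω) (p : Cond am) : Prop := ∀ q ≤ p, ¬ pos x q

/-- `(b, c)` is forced to be a jump -/
def Jm (b c : Ω) (p : Cond am) : Prop := ∀ q ≤ p, ∀ e ∈ q.R, pos (b * e) q → am.InP (c * e)

/-- existentially closed conditions -/
structure ClF (p : Cond am) : Prop where
  dec : ∀ x ∈ p.R, pos x p ∨ Ng pos x p
  max : ∀ b ∈ p.R, (∃ q ≤ p, ∃ d ∈ q.R, pos (b * d - 1) q) → ∃ d ∈ p.R, pos (b * d - 1) p
  unif : ∀ x ∈ p.R, ∀ y ∈ p.R,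
    (∃ q ≤ p, ∃ c ∈ q.R, ∃ d ∈ q.R, pos (x * c - y * d) q ∧ Ng pos (x * c) q) →
    ∃ c ∈ p.R, ∃ d ∈ p.R, pos (x * c - y * d) p ∧ Ng pos (x * c) p
  idl : ∀ a ∈ p.R, (∃ q ≤ p, ∃ x ∈ q.R, pos x q ∧ Ng pos (a * x) q) →
    ∃ x ∈ p.R, pos x p ∧ Ng pos (a * x) p
  nj : ∀ v ∈ p.R, ∀ c ∈ p.R, (∃ q ≤ p, ∃ e ∈ q.R, pos (v * e) q ∧ ¬ am.InP (c * e)) →
    ∃ e ∈ p.R, pos (v * e) p ∧ ¬ am.InP (c * e)
  jump : ∀ b ∈ p.R, (∃ q ≤ p, ∃ c ∈ q.R, ¬ am.InP c ∧ Jm pos b c q) →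
    ∃ c ∈ p.R, ¬ am.InP c ∧ Jm pos b c p

/-- the condition has handled the set described by `pos` -/
def Hd (q : Cond am) : Prop :=
  ∃ p π, q ≤ p ∧ ClF pos p ∧ am.Cert p.R {x | pos x p} q.R π ∧ π ∈ q.pins

theorem ForceA_Ng {x : Ω} {p q : Cond am} (h : Ng pos x p) (hq : q ≤ p) : Ng pos x q :=
  fun r hr => h r (hr.trans hq)

theorem ForceA_Jm {b c : Ω} {p q : Cond am} (h : Jm pos b c p) (hq : q ≤ p) : Jm pos b c q :=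
  fun r hr => h r (hr.trans hq)

/-- the six requirements -/
def ForceA_req : ℕ → Ω → Ω → Cond am → Prop
  | 0, x, _, p => pos x p
  | 1, x, _, p => ∃ d ∈ p.R, pos (x * d - 1) p
  | 2, x, y, p => ∃ c ∈ p.R, ∃ d ∈ p.R, pos (x * c - y * d) p ∧ Ng pos (x * c) p
  | 3, x, _, p => ∃ z ∈ p.R, pos z p ∧ Ng pos (x * z) p
  | 4, x, y, p => ∃ e ∈ p.R, pos (x * e) p ∧ ¬ am.InP (y * e)
  | _ + 5, x, _, p => ∃ c ∈ p.R, ¬ am.InP c ∧ Jm pos x c p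

theorem ForceA_req_mono (hm : ∀ x p q, pos x p → q ≤ p → pos x q) :
    ∀ i x y p q, ForceA_req pos i x y p → q ≤ p → ForceA_req pos i x y q
  | 0, _, _, _, _, h, hq => hm _ _ _ h hq
  | 1, _, _, _, _, ⟨d, h1, h2⟩, hq => ⟨d, hq.1 h1, hm _ _ _ h2 hq⟩
  | 2, _, _, _, _, ⟨c, h1, d, h2, h3, h4⟩, hq =>
    ⟨c, hq.1 h1, d, hq.1 h2, hm _ _ _ h3 hq, ForceA_Ng pos h4 hq⟩
  | 3, _, _, _, _, ⟨z, h1, h2, h3⟩, hq => ⟨z, hq.1 h1, hm _ _ _ h2 hq, ForceA_Ng pos h3 hq⟩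
  | 4, _, _, _, _, ⟨e, h1, h2, h3⟩, hq => ⟨e, hq.1 h1, hm _ _ _ h2 hq, h3⟩
  | _ + 5, _, _, _, _, ⟨c, h1, h2, h3⟩, hq => ⟨c, hq.1 h1, h2, ForceA_Jm pos h3 hq⟩

theorem dense_Hd [IsAlgClosed k] [Nontrivial Ω] (hm : ∀ x p q, pos x p → q ≤ p → pos x q)
    (p0 : Cond am) : ∃ q ≤ p0, Hd pos q := by
  obtain ⟨p, hp, h⟩ := exists_closed (ForceA_req pos) (ForceA_req_mono pos hm) p0
  have cl : ClF pos p := ⟨fun x hx => by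
      by_cases k0 : ∃ q ≤ p, pos x q
      · exact Or.inl (h 0 x hx x hx k0)
      · exact Or.inr fun q hq k1 => k0 ⟨q, hq, k1⟩,
    fun b hb => h 1 b hb b hb, fun x hx y hy => h 2 x hx y hy, fun a ha => h 3 a ha a ha,
    fun v hv c hc => h 4 v hv c hc, fun b hb => h 5 b hb b hb⟩
  obtain ⟨R', π, h1, h2, h3, h4, h5, h6⟩ := am.step p.cR p.gd p.cp p.ok {x | pos x p}
  let q : Cond am := ⟨R', insert π p.pins, h2, h3, p.cp.insert π,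
    Set.forall_mem_insert.2 ⟨h5, h4⟩⟩
  have hq : q ≤ p := ⟨h1, Set.subset_insert _ _⟩
  exact ⟨q, hq.trans hp, p, π, hq, cl, h6, Set.mem_insert _ _⟩

theorem ForceA_dir {G : Cond am → Prop} {PN : Set (Cond am)}
    (dir : ∀ p q, G p → G q → ∃ r, G r ∧ r ≤ p ∧ r ≤ q)
    (below : ∀ p, G p → ∃ q ∈ PN, G q ∧ q ≤ p) :
    ∀ p ∈ {p | p ∈ PN ∧ G p}, ∀ q ∈ {p | p ∈ PN ∧ G p},
      ∃ r ∈ {p | p ∈ PN ∧ G p}, r ≤ p ∧ r ≤ q := fun p hp q hq => by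
  obtain ⟨r, hr, h1, h2⟩ := dir p q hp.2 hq.2
  obtain ⟨s, hs, h3, h4⟩ := below r hr
  exact ⟨s, ⟨hs, h3⟩, h4.trans h1, h4.trans h2⟩

theorem gd_of_generic [Nontrivial Ω] (G : Cond am → Prop) (PN : Set (Cond am))
    (dir : ∀ p q, G p → G q → ∃ r, G r ∧ r ≤ p ∧ r ≤ q)
    (below : ∀ p, G p → ∃ q ∈ PN, G q ∧ q ≤ p) (hne : ∃ p, G p) :
    ∃ T : Subalgebra k Ω, (∀ x, x ∈ T ↔ ∃ p ∈ PN, G p ∧ x ∈ p.R) ∧ am.Gd T := by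
  have hne' : {p | p ∈ PN ∧ G p}.Nonempty := by
    obtain ⟨p, hp⟩ := hne
    obtain ⟨q, h1, h2, -⟩ := below p hp
    exact ⟨q, h1, h2⟩
  obtain ⟨T, hT⟩ := ForceA_sub _ hne' (ForceA_dir dir below)
  exact ⟨T, fun x => (hT x).trans ⟨fun ⟨p, h1, h2⟩ => ⟨p, h1.1, h1.2, h2⟩,
    fun ⟨p, h1, h2, h3⟩ => ⟨p, ⟨h1, h2⟩, h3⟩⟩, ForceA_gd (ForceA_dir dir below) hT hne'⟩

theorem hand_of_generic [Nontrivial Ω] (hm : ∀ x p q, pos x p → q ≤ p → pos x q)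
    (G : Cond am → Prop) (PN : Set (Cond am)) (up : ∀ p q, G p → p ≤ q → G q)
    (dir : ∀ p q, G p → G q → ∃ r, G r ∧ r ≤ p ∧ r ≤ q)
    (below : ∀ p, G p → ∃ q ∈ PN, G q ∧ q ≤ p) (T : Subalgebra k Ω)
    (hT : ∀ x, x ∈ T ↔ ∃ p ∈ PN, G p ∧ x ∈ p.R) (K : Set Ω)
    (h1 : ∀ x ∈ T, x ∈ K ↔ ∃ p, G p ∧ pos x p)
    (h2 : ∀ x ∈ T, x ∉ K → ∃ p, G p ∧ Ng pos x p)
    (h3 : ∀ b ∈ T, ∀ c ∈ T, ∃ p ∈ PN, G p ∧
      (Jm pos b c p ∨ ∃ e ∈ p.R, pos (b * e) p ∧ ¬ am.InP (c * e)))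
    {q : Cond am} (hq : q ∈ PN) (hG : G q) (hd : Hd pos q) : am.Hand T K := by
  obtain ⟨p, π, hqp, cl, cert, hπ⟩ := hd
  have hp : G p := up q p hG hqp
  have hT' : ∀ x, x ∈ T ↔ ∃ p ∈ {p | p ∈ PN ∧ G p}, x ∈ p.R := fun x => (hT x).trans
    ⟨fun ⟨p, h1, h2, h3⟩ => ⟨p, ⟨h1, h2⟩, h3⟩, fun ⟨p, h1, h2⟩ => ⟨p, h1.1, h1.2, h2⟩⟩
  have hqT : q.R ≤ T := fun x hx => (hT x).2 ⟨q, hq, hG, hx⟩
  have hpT : p.R ≤ T := hqp.1.trans hqT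
  have ng : ∀ x ∈ T, ∀ r, G r → Ng pos x r → x ∉ K := fun x hx r hr hn hK => by
    obtain ⟨r', hr', h⟩ := (h1 x hx).1 hK
    obtain ⟨s, -, a1, a2⟩ := dir r r' hr hr'
    exact hn s a1 (hm _ _ _ h a2)
  have ps : ∀ x ∈ p.R, pos x p → x ∈ K := fun x hx h => (h1 x (hpT hx)).2 ⟨p, hp, h⟩
  have col : ∀ r r', G r → G r' → ∀ c ∈ T, ∀ d ∈ T,
      ∃ s, s ≤ p ∧ s ≤ r ∧ s ≤ r' ∧ c ∈ s.R ∧ d ∈ s.R := fun r r' hr hr' c hc d hd => by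
    obtain ⟨r1, -, b1, b2⟩ := (hT c).1 hc
    obtain ⟨r2, -, b3, b4⟩ := (hT d).1 hd
    obtain ⟨s1, c1, c2, c3⟩ := dir r r' hr hr'
    obtain ⟨s2, c4, c5, c6⟩ := dir r1 r2 b1 b3
    obtain ⟨s3, c7, c8, c9⟩ := dir s1 s2 c1 c4
    obtain ⟨s, -, e1, e2⟩ := dir p s3 hp c7
    exact ⟨s, e1, e2.trans (c8.trans c2), e2.trans (c8.trans c3),
      (e2.trans (c9.trans c5)).1 b2, (e2.trans (c9.trans c6)).1 b4⟩
  refine ⟨p.R, q.R, π, hqp.1, hqT, p.gd, ⟨?_, ?_, ?_, ?_, ?_⟩,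
    cert.congr fun x hx => ⟨ps x hx, fun hK => (cl.dec x hx).resolve_right fun hn =>
      ng x (hpT hx) p hp hn hK⟩, ForceA_ok (ForceA_dir dir below) hT' ⟨hq, hG⟩ hπ⟩
  · rintro b hb ⟨d, hd, hK⟩
    obtain ⟨r, hr, h⟩ := (h1 _ (T.sub_mem (T.mul_mem (hpT hb) hd) T.one_mem)).1 hK
    obtain ⟨s, a1, a2, -, a3, -⟩ := col r r hr hr d hd d hd
    obtain ⟨d', b1, b2⟩ := cl.max b hb ⟨s, a1, d, a3, hm _ _ _ h a2⟩
    exact ⟨d', b1, ps _ (p.R.sub_mem (p.R.mul_mem hb b1) p.R.one_mem) b2⟩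
  · rintro x hx y hy ⟨c, hc, d, hd, hK, hK'⟩
    obtain ⟨r, hr, h⟩ := (h1 _ (T.sub_mem (T.mul_mem (hpT hx) hc) (T.mul_mem (hpT hy) hd))).1 hK
    obtain ⟨r', hr', h'⟩ := h2 _ (T.mul_mem (hpT hx) hc) hK'
    obtain ⟨s, a1, a2, a3, a4, a5⟩ := col r r' hr hr' c hc d hd
    obtain ⟨c', b1, d', b2, b3, b4⟩ := cl.unif x hx y hy
      ⟨s, a1, c, a4, d, a5, hm _ _ _ h a2, ForceA_Ng pos h' a3⟩
    exact ⟨c', b1, d', b2, ps _ (p.R.sub_mem (p.R.mul_mem hx b1) (p.R.mul_mem hy b2)) b3,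
      ng _ (hpT (p.R.mul_mem hx b1)) p hp b4⟩
  · rintro a ha ⟨x, hx, hK, hK'⟩
    obtain ⟨r, hr, h⟩ := (h1 _ hx).1 hK
    obtain ⟨r', hr', h'⟩ := h2 _ (T.mul_mem (hpT ha) hx) hK'
    obtain ⟨s, a1, a2, a3, a4, -⟩ := col r r' hr hr' x hx x hx
    obtain ⟨x', b1, b2, b3⟩ := cl.idl a ha ⟨s, a1, x, a4, hm _ _ _ h a2, ForceA_Ng pos h' a3⟩
    exact ⟨x', b1, ps _ b1 b2, ng _ (hpT (p.R.mul_mem ha b1)) p hp b3⟩
  · rintro v hv c hc ⟨e, he, hK, hn⟩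
    obtain ⟨r, hr, h⟩ := (h1 _ (T.mul_mem (hpT hv) he)).1 hK
    obtain ⟨s, a1, a2, -, a3, -⟩ := col r r hr hr e he e he
    obtain ⟨e', b1, b2, b3⟩ := cl.nj v hv c hc ⟨s, a1, e, a3, hm _ _ _ h a2, hn⟩
    exact ⟨e', b1, ps _ (p.R.mul_mem hv b1) b2, b3⟩
  · rintro b hb ⟨c, hc, hn, hj⟩
    obtain ⟨r, hrP, hr, h | ⟨e, he, h, h'⟩⟩ := h3 b (hpT hb) c hc
    · obtain ⟨s, a1, a2, -, a3, -⟩ := col r r hr hr c hc c hc
      obtain ⟨c', b1, b2, b3⟩ := cl.jump b hb ⟨s, a1, c, a3, hn, ForceA_Jm pos h a2⟩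
      refine ⟨c', b1, b2, fun e he hK => ?_⟩
      obtain ⟨r', hr', h'⟩ := (h1 _ (T.mul_mem (hpT hb) he)).1 hK
      obtain ⟨s', c1, c2, -, c3, -⟩ := col r' r' hr' hr' e he e he
      exact b3 s' c1 e c3 (hm _ _ _ h' c2)
    · have heT : e ∈ T := (hT e).2 ⟨r, hrP, hr, he⟩
      exact (h' (hj e heT ((h1 _ (T.mul_mem (hpT hb) heT)).2 ⟨r, hr, h⟩))).elim

end Pool.Agent.Work.MP_c4093f_al
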