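import Pool.Agent.Work.MP_c4093f_al.ZgDefs
import Pool.Agent.Work.MP_63c7e0_lc.Basic

/-!
A calculus of coded types, coded predicates and coded functions over a model of ZFC.  First order
definable predicates over coded types are found to be coded by instance search.
-/

namespace Pool.Agent.Work.MP_c4093f_al
open Pool.Agent.Lib.ZFModel Pool.Agent.Work.MP_63c7e0_lc

set_option synthInstance.maxSize 100000

variable {M : Type 1}

/-- a type with an injection onto an element of `M` -/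
class CT (E : M → M → Prop) (T : Type) where
  code : T → M
  inj : Function.Injective code
  set : Coded E (Set.range code)

/-- coded predicates -/
class CS (E : M → M → Prop) {T : Type} [CT E T] (Q : T → Prop) : Prop where
  out : ∃ a, ∀ t, Q t ↔ E (CT.code E t) a

variable {E : M → M → Prop} [hE : Fact (IsZFC E)]

theorem zf' (E : M → M → Prop) [hE : Fact (IsZFC E)] : IsZF E := hE.out.zf

variable (E) in
/-- the ordered pair -/
noncomputable def pr (a b : M) : M := (exists_pair (zf' E) a b).choose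

theorem isPair_pr (a b : M) : IsPair E (pr E a b) a b := (exists_pair (zf' E) a b).choose_spec

theorem isPair_iff {p a b : M} : IsPair E p a b ↔ p = pr E a b :=
  ⟨fun h => pair_unique (zf' E) h (isPair_pr a b), fun h => h ▸ isPair_pr a b⟩

theorem pr_inj {a b a' b' : M} : pr E a b = pr E a' b' ↔ a = a' ∧ b = b' :=
  ⟨fun h => pair_inj (zf' E) (isPair_pr a b) (h ▸ isPair_pr a' b'), fun ⟨h1, h2⟩ => h1 ▸ h2 ▸ rfl⟩

variable {T T' T'' : Type} [CT E T] [CT E T'] [CT E T'']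

noncomputable instance CT.prod : CT E (T × T') where
  code p := pr E (CT.code E p.1) (CT.code E p.2)
  inj := fun p q h => Prod.ext (CT.inj (pr_inj.1 h).1) (CT.inj (pr_inj.1 h).2)
  set := by
    have := (zf' E).nonempty
    obtain ⟨a, ha⟩ := CT.set (E := E) (T := T)
    obtain ⟨b, hb⟩ := CT.set (E := E) (T := T')
    obtain ⟨f, h1, h2⟩ := exists_rel (zf' E) a b fun x _ => x = x
    refine ⟨f, fun p => ⟨fun hp => ?_, ?_⟩⟩
    · obtain ⟨x, y, hx, hy, h⟩ := h1 p hp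
      obtain ⟨s, rfl⟩ := (ha x).1 hx
      obtain ⟨t, rfl⟩ := (hb y).1 hy
      exact ⟨(s, t), (isPair_iff.1 h).symm⟩
    · rintro ⟨⟨s, t⟩, rfl⟩
      obtain ⟨q, hq, h⟩ := (h2 _ _).2 ⟨(ha _).2 ⟨s, rfl⟩, (hb _).2 ⟨t, rfl⟩, rfl⟩
      rw [isPair_iff.1 h] at hq
      exact hq

theorem code_prod (s : T) (t : T') :
    CT.code E (s, t) = pr E (CT.code E s) (CT.code E t) := rfl

omit hE in
theorem CS.congr {Q R : T → Prop} (h : CS E Q) (e : ∀ t, R t ↔ Q t) : CS E R := by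
  obtain ⟨a, ha⟩ := h.out
  exact ⟨a, fun t => (e t).trans (ha t)⟩

theorem CS.of_dfn {Q : T → Prop} (R : M → Prop) [Dfn E fun v => R (v 0)]
    (h : ∀ t, Q t ↔ R (CT.code E t)) : CS E Q := by
  obtain ⟨a, ha⟩ := CT.set (E := E) (T := T)
  obtain ⟨b, hb⟩ := (zf' E).sep a R
  exact ⟨b, fun t => by rw [hb, h, ha]; simp⟩

theorem cs_iff_coded {Q : T → Prop} : CS E Q ↔ Coded E (CT.code E '' {t | Q t}) := by
  have := (zf' E).nonempty
  constructor
  · rintro ⟨b, hb⟩
    obtain ⟨a, ha⟩ := CT.set (E := E) (T := T)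
    obtain ⟨d, hd⟩ := (zf' E).sep a fun x => E x b
    refine ⟨d, fun x => ?_⟩
    rw [hd, ha]
    exact ⟨fun ⟨⟨t, ht⟩, h⟩ => ⟨t, (hb t).2 (ht ▸ h), ht⟩,
      fun ⟨t, h, ht⟩ => ⟨⟨t, ht⟩, ht ▸ (hb t).1 h⟩⟩
  · rintro ⟨b, hb⟩
    exact ⟨b, fun t => by rw [hb, CT.inj.mem_set_image]; rfl⟩

/-- coded functions -/
class CF (E : M → M → Prop) [Fact (IsZFC E)] {T T' : Type} [CT E T] [CT E T'] (f : T → T') :
    Prop where
  out : CS E fun p : T × T' => p.2 = f p.1

instance (priority := 2000) CS.const (P : Prop) : CS E fun _ : T => P := by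
  have := (zf' E).nonempty
  by_cases h : P
  · exact CS.of_dfn (fun x => x = x) fun t => by simp [h]
  · exact CS.of_dfn (fun x => ¬ x = x) fun t => by simp [h]

instance CS.not (Q : T → Prop) [h : CS E Q] : CS E fun t => ¬ Q t := by
  have := (zf' E).nonempty
  obtain ⟨a, ha⟩ := h.out
  exact CS.of_dfn (fun x => ¬ E x a) fun t => by rw [ha]

instance CS.and (Q R : T → Prop) [h : CS E Q] [h' : CS E R] : CS E fun t => Q t ∧ R t := by
  have := (zf' E).nonempty
  obtain ⟨a, ha⟩ := h.out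
  obtain ⟨b, hb⟩ := h'.out
  exact CS.of_dfn (fun x => E x a ∧ E x b) fun t => by rw [ha, hb]

instance CS.or (Q R : T → Prop) [CS E Q] [CS E R] : CS E fun t => Q t ∨ R t :=
  (inferInstance : CS E fun t => ¬ (¬ Q t ∧ ¬ R t)).congr fun t => by tauto

instance (priority := low) CS.imp (Q R : T → Prop) [CS E Q] [CS E R] :
    CS E fun t => Q t → R t :=
  (inferInstance : CS E fun t => ¬ Q t ∨ R t).congr fun t => by tauto

instance CS.iff (Q R : T → Prop) [CS E Q] [CS E R] : CS E fun t => Q t ↔ R t :=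
  (inferInstance : CS E fun t => (Q t → R t) ∧ (R t → Q t)).congr fun _ =>
    iff_iff_implies_and_implies

instance CS.ex (Q : T → T' → Prop) [h : CS E fun p : T × T' => Q p.1 p.2] :
    CS E fun t => ∃ t', Q t t' := by
  have := (zf' E).nonempty
  obtain ⟨a, ha⟩ := h.out
  obtain ⟨b, hb⟩ := CT.set (E := E) (T := T')
  refine CS.of_dfn (fun x => ∃ y, E y b ∧ ∃ p, IsPair E p x y ∧ E p a) fun t => ⟨?_, ?_⟩
  · rintro ⟨t', h⟩
    exact ⟨_, (hb _).2 ⟨t', rfl⟩, _, isPair_pr _ _, (ha (t, t')).1 h⟩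
  · rintro ⟨y, hy, p, hp, h⟩
    obtain ⟨t', rfl⟩ := (hb y).1 hy
    rw [isPair_iff.1 hp] at h
    exact ⟨t', (ha (t, t')).2 h⟩

instance CS.all (Q : T → T' → Prop) [CS E fun p : T × T' => Q p.1 p.2] :
    CS E fun t => ∀ t', Q t t' :=
  (inferInstance : CS E fun t => ¬ ∃ t', ¬ Q t t').congr fun t => by simp

theorem CS.comp {Q : T' → Prop} (h : CS E Q) (f : T → T') [hf : CF E f] :
    CS E fun t => Q (f t) := by
  have := (zf' E).nonempty
  obtain ⟨a, ha⟩ := h.out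
  obtain ⟨g, hg⟩ := hf.out.out
  obtain ⟨b, hb⟩ := CT.set (E := E) (T := T')
  refine CS.of_dfn (fun x => ∃ y, E y b ∧ E y a ∧ ∃ p, IsPair E p x y ∧ E p g) fun t => ⟨?_, ?_⟩
  · intro h
    exact ⟨_, (hb _).2 ⟨f t, rfl⟩, (ha _).1 h, _, isPair_pr _ _, (hg (t, f t)).1 rfl⟩
  · rintro ⟨y, hy, h1, p, hp, h⟩
    obtain ⟨t', rfl⟩ := (hb y).1 hy
    rw [isPair_iff.1 hp] at h
    have : t' = f t := (hg (t, t')).2 h
    exact this ▸ (ha _).2 h1

instance (priority := 3000) CF.id : CF E fun t : T => t := by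
  have := (zf' E).nonempty
  refine ⟨CS.of_dfn (fun q => ∃ x, IsPair E q x x) fun p => ⟨?_, ?_⟩⟩
  · obtain ⟨s, t⟩ := p
    rintro (rfl : t = s)
    exact ⟨_, isPair_pr _ _⟩
  · obtain ⟨s, t⟩ := p
    rintro ⟨x, hx⟩
    obtain ⟨h1, h2⟩ := pr_inj.1 (isPair_iff.1 hx)
    exact CT.inj (h2.trans h1.symm)

instance (priority := 2000) CF.const (a : T') : CF E fun _ : T => a := by
  have := (zf' E).nonempty
  refine ⟨CS.of_dfn (fun q => ∃ x, IsPair E q x (CT.code E a)) fun p => ⟨?_, ?_⟩⟩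
  · obtain ⟨s, t⟩ := p
    rintro (rfl : t = a)
    exact ⟨_, isPair_pr _ _⟩
  · obtain ⟨s, t⟩ := p
    rintro ⟨x, hx⟩
    exact CT.inj (pr_inj.1 (isPair_iff.1 hx)).2

theorem CF.fst0 : CF E (Prod.fst : T × T' → T) := by
  have := (zf' E).nonempty
  refine ⟨CS.of_dfn (fun q => ∃ p x y, IsPair E q p x ∧ IsPair E p x y) fun p => ⟨?_, ?_⟩⟩
  · obtain ⟨⟨s, t⟩, u⟩ := p
    rintro (rfl : u = s)
    exact ⟨_, _, _, isPair_pr _ _, isPair_pr _ _⟩
  · obtain ⟨⟨s, t⟩, u⟩ := p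
    rintro ⟨p, x, y, h1, h2⟩
    obtain ⟨h3, h4⟩ := pr_inj.1 (isPair_iff.1 h1)
    have h5 := (pr_inj.1 (h3.trans (isPair_iff.1 h2))).1
    exact CT.inj (h4.trans h5.symm)

theorem CF.snd0 : CF E (Prod.snd : T × T' → T') := by
  have := (zf' E).nonempty
  refine ⟨CS.of_dfn (fun q => ∃ p x y, IsPair E q p y ∧ IsPair E p x y) fun p => ⟨?_, ?_⟩⟩
  · obtain ⟨⟨s, t⟩, u⟩ := p
    rintro (rfl : u = t)
    exact ⟨_, _, _, isPair_pr _ _, isPair_pr _ _⟩
  · obtain ⟨⟨s, t⟩, u⟩ := p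
    rintro ⟨p, x, y, h1, h2⟩
    obtain ⟨h3, h4⟩ := pr_inj.1 (isPair_iff.1 h1)
    have h5 := (pr_inj.1 (h3.trans (isPair_iff.1 h2))).2
    exact CT.inj (h4.trans h5.symm)

instance CF.pair (f : T → T') (g : T → T'') [hf : CF E f] [hg : CF E g] :
    CF E fun t => (f t, g t) := by
  have := (zf' E).nonempty
  obtain ⟨a, ha⟩ := hf.out.out
  obtain ⟨b, hb⟩ := hg.out.out
  refine ⟨CS.of_dfn (fun q => ∃ x p y z u w, IsPair E q x p ∧ IsPair E p y z ∧
    IsPair E u x y ∧ IsPair E w x z ∧ E u a ∧ E w b) fun p => ⟨?_, ?_⟩⟩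
  · obtain ⟨s, t⟩ := p
    rintro (rfl : t = (f s, g s))
    exact ⟨_, _, _, _, _, _, isPair_pr _ _, isPair_pr _ _, isPair_pr _ _, isPair_pr _ _,
      (ha (s, f s)).1 rfl, (hb (s, g s)).1 rfl⟩
  · obtain ⟨s, t, u⟩ := p
    rintro ⟨x, p, y, z, u', w, h1, h2, h3, h4, h5, h6⟩
    obtain ⟨rfl, rfl⟩ := pr_inj.1 (isPair_iff.1 h1)
    obtain ⟨rfl, rfl⟩ := pr_inj.1 (isPair_iff.1 h2)
    rw [isPair_iff.1 h3] at h5
    rw [isPair_iff.1 h4] at h6
    exact Prod.ext ((ha (s, t)).2 h5) ((hb (s, u)).2 h6)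

theorem CF.comp (g : T' → T'') (f : T → T') [hg : CF E g] [hf : CF E f] :
    CF E fun t => g (f t) := by
  have h1 : CF E fun p : (T × T'') × T' => (p.1.1, p.2) := by
    have := CF.fst0 (E := E) (T := T × T'') (T' := T')
    have := CF.snd0 (E := E) (T := T × T'') (T' := T')
    have : CF E fun p : (T × T'') × T' => p.1.1 := by
      have := (zf' E).nonempty
      refine ⟨CS.of_dfn (fun q => ∃ p x y r z, IsPair E q p x ∧ IsPair E p r z ∧ IsPair E r x y)
        fun p => ⟨?_, ?_⟩⟩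
      · obtain ⟨⟨⟨s, t⟩, w⟩, u⟩ := p
        rintro (rfl : u = s)
        exact ⟨_, _, _, _, _, isPair_pr _ _, isPair_pr _ _, isPair_pr _ _⟩
      · obtain ⟨⟨⟨s, t⟩, w⟩, u⟩ := p
        rintro ⟨p, x, y, r, z, h1, h2, h3⟩
        obtain ⟨rfl, rfl⟩ := pr_inj.1 (isPair_iff.1 h1)
        obtain ⟨rfl, rfl⟩ := pr_inj.1 (isPair_iff.1 h2)
        exact CT.inj (pr_inj.1 (isPair_iff.1 h3)).1.symm
    exact CF.pair _ _
  have h2 : CF E fun p : (T × T'') × T' => (p.2, p.1.2) := by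
    have := CF.snd0 (E := E) (T := T × T'') (T' := T')
    have : CF E fun p : (T × T'') × T' => p.1.2 := by
      have := (zf' E).nonempty
      refine ⟨CS.of_dfn (fun q => ∃ p x y r z, IsPair E q p y ∧ IsPair E p r z ∧ IsPair E r x y)
        fun p => ⟨?_, ?_⟩⟩
      · obtain ⟨⟨⟨s, t⟩, w⟩, u⟩ := p
        rintro (rfl : u = t)
        exact ⟨_, _, _, _, _, isPair_pr _ _, isPair_pr _ _, isPair_pr _ _⟩
      · obtain ⟨⟨⟨s, t⟩, w⟩, u⟩ := p
        rintro ⟨p, x, y, r, z, h1, h2, h3⟩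
        obtain ⟨rfl, rfl⟩ := pr_inj.1 (isPair_iff.1 h1)
        obtain ⟨rfl, rfl⟩ := pr_inj.1 (isPair_iff.1 h2)
        exact CT.inj (pr_inj.1 (isPair_iff.1 h3)).2.symm
    exact CF.pair _ _
  have h3 := hf.out.comp _ (hf := h1)
  have h4 := hg.out.comp _ (hf := h2)
  exact ⟨(inferInstance : CS E fun p : T × T'' => ∃ y : T', y = f p.1 ∧ p.2 = g y).congr
    fun p => by simp⟩

instance CF.fst (f : T → T' × T'') [CF E f] : CF E fun t => (f t).1 :=
  CF.comp Prod.fst f (hg := CF.fst0)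

instance CF.snd (f : T → T' × T'') [CF E f] : CF E fun t => (f t).2 :=
  CF.comp Prod.snd f (hg := CF.snd0)

instance CS.eq (f g : T → T') [CF E f] [CF E g] : CS E fun t => f t = g t :=
  ((CF.id (E := E) (T := T')).out.comp fun t => (g t, f t))

instance CS.ne (f g : T → T') [CF E f] [CF E g] : CS E fun t => f t ≠ g t :=
  CS.not fun t => f t = g t

theorem CF.congr {f g : T → T'} (h : CF E f) (e : ∀ t, g t = f t) : CF E g := by
  rw [funext e]; exact h

/-- a function is coded if its graph is given by a coded relation -/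
theorem CF.of_rel {f : T → T'} (r : T → T' → Prop) [h : CS E fun p : T × T' => r p.1 p.2]
    (e : ∀ t t', t' = f t ↔ r t t') : CF E f := ⟨h.congr fun p => e p.1 p.2⟩

/-- coded subsets given through a membership relation -/
class CM (E : M → M → Prop) {T α : Type} [CT E T] [Membership T α] (U : α) : Prop where
  out : CS E fun t : T => t ∈ U

instance CS.mem {α : Type} [Membership T' α] (U : α) [h : CM E (T := T') U] (f : T → T')
    [CF E f] : CS E fun t => f t ∈ U := h.out.comp f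

instance CS.notMem {α : Type} [Membership T' α] (U : α) [h : CM E (T := T') U] (f : T → T')
    [CF E f] : CS E fun t => f t ∉ U := CS.not fun t => f t ∈ U

/-- coded bundled maps -/
class CG (E : M → M → Prop) [Fact (IsZFC E)] {F T T' : Type} [CT E T] [CT E T'] [FunLike F T T']
    (g : F) : Prop where
  out : CF E fun t : T => g t

instance (priority := 95) CF.app {F : Type} [FunLike F T' T''] (g : F) [h : CG E g] (f : T → T') [CF E f] :
    CF E fun t => g (f t) := CF.comp _ f (hg := h.out)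

instance (priority := 94) CF.coe {F : Type} [FunLike F T T'] (g : F) [h : CG E g] :
    CF E (g : T → T') := h.out

/-- coded subtypes -/
instance CT.sub {α : Type} [Membership T α] (U : α) [h : CM E (T := T) U] :
    CT E {t : T // t ∈ U} where
  code t := CT.code E t.1
  inj := fun _ _ e => Subtype.ext (CT.inj e)
  set := by
    obtain ⟨a, ha⟩ := cs_iff_coded.1 h.out
    refine ⟨a, fun x => (ha x).trans ⟨?_, ?_⟩⟩
    · rintro ⟨t, ht, rfl⟩; exact ⟨⟨t, ht⟩, rfl⟩
    · rintro ⟨t, rfl⟩; exact ⟨t.1, t.2, rfl⟩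

instance CF.val {α : Type} [Membership T' α] (U : α) [CM E (T := T') U]
    (f : T → {t : T' // t ∈ U}) [CF E f] : CF E fun t => (f t).1 := by
  have := (zf' E).nonempty
  refine CF.comp Subtype.val f (hg := ⟨CS.of_dfn (fun q => ∃ x, IsPair E q x x) fun p => ⟨?_, ?_⟩⟩)
  · obtain ⟨s, t⟩ := p
    rintro (rfl : t = s.1)
    exact ⟨_, isPair_pr _ _⟩
  · obtain ⟨s, t⟩ := p
    rintro ⟨x, hx⟩
    obtain ⟨h1, h2⟩ := pr_inj.1 (isPair_iff.1 hx)
    exact CT.inj (h2.trans h1.symm)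

theorem CF.toSub {α : Type} [Membership T' α] {U : α} [CM E (T := T') U]
    (f : T → {t : T' // t ∈ U}) [CF E fun t => (f t).1] : CF E f :=
  CF.of_rel (fun t t' => t'.1 = (f t).1) (h := by
    have : CF E fun p : T × {t : T' // t ∈ U} => (f p.1).1 :=
      CF.comp (fun t => (f t).1) _ (hf := CF.fst _)
    infer_instance) fun _ _ => Subtype.ext_iff

variable (E T) in
/-- the coded subsets of `T` -/
abbrev PW : Type := {U : Set T // CS E fun t => t ∈ U}

noncomputable instance CT.pw : CT E (PW E T) where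
  code U := (cs_iff_coded.1 U.2).choose
  inj := fun U V h => Subtype.ext (Set.ext fun t => by
    have h1 := (cs_iff_coded.1 U.2).choose_spec (CT.code E t)
    have h2 := (cs_iff_coded.1 V.2).choose_spec (CT.code E t)
    rw [CT.inj.mem_set_image] at h1 h2
    have h' : (cs_iff_coded.1 U.2).choose = (cs_iff_coded.1 V.2).choose := h
    rw [h'] at h1
    exact h1.symm.trans h2)
  set := by
    obtain ⟨a, ha⟩ := CT.set (E := E) (T := T)
    obtain ⟨w, hw⟩ := (zf' E).powerset a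
    refine ⟨w, fun x => (hw x).trans ⟨fun h => ?_, ?_⟩⟩
    · have hx : CS E fun t : T => t ∈ {t | E (CT.code E t) x} := ⟨x, fun _ => Iff.rfl⟩
      refine ⟨⟨_, hx⟩, (zf' E).extensionality _ _ fun y => ?_⟩
      refine ((cs_iff_coded.1 hx).choose_spec y).trans
        ⟨fun ⟨t, ht, e⟩ => e ▸ ht, fun hy => ?_⟩
      obtain ⟨t, rfl⟩ := (ha y).1 (h y hy)
      exact ⟨t, hy, rfl⟩
    · rintro ⟨U, rfl⟩ y hy
      obtain ⟨t, -, rfl⟩ := ((cs_iff_coded.1 U.2).choose_spec y).1 hy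
      exact (ha _).2 ⟨t, rfl⟩

theorem mem_code_pw (U : PW E T) (t : T) : E (CT.code E t) (CT.code E U) ↔ t ∈ U.1 := by
  have h1 := (cs_iff_coded.1 U.2).choose_spec (CT.code E t)
  rw [CT.inj.mem_set_image] at h1
  exact h1

instance CM.pw (U : PW E T) : CM E (T := T) U.1 := ⟨U.2⟩

instance CS.memPW (f : T → T') (g : T → PW E T') [CF E f] [CF E g] :
    CS E fun t => f t ∈ (g t).1 := by
  have := (zf' E).nonempty
  have h : CS E fun p : T' × PW E T' => p.1 ∈ p.2.1 := by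
    refine CS.of_dfn (fun q => ∃ x y, IsPair E q x y ∧ E x y) fun p => ⟨fun h => ?_, ?_⟩
    · exact ⟨_, _, isPair_pr _ _, (mem_code_pw _ _).2 h⟩
    · rintro ⟨x, y, h1, h2⟩
      obtain ⟨rfl, rfl⟩ := pr_inj.1 (isPair_iff.1 h1)
      exact (mem_code_pw _ _).1 h2
  exact h.comp fun t => (f t, g t)

instance CS.notMemPW (f : T → T') (g : T → PW E T') [CF E f] [CF E g] :
    CS E fun t => f t ∉ (g t).1 := CS.not fun t => f t ∈ (g t).1

/-- a family of coded sets is coded if its membership relation is -/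
theorem CF.curry (g : T → PW E T') [CS E fun p : T × T' => p.2 ∈ (g p.1).1] : CF E g := by
  have h1 : CS E fun q : (T × PW E T') × T' => q.2 ∈ (g q.1.1).1 :=
    (inferInstance : CS E fun p : T × T' => p.2 ∈ (g p.1).1).comp
      fun q : (T × PW E T') × T' => (q.1.1, q.2)
  exact CF.of_rel (fun t U => ∀ t', t' ∈ U.1 ↔ t' ∈ (g t).1) fun t U =>
    ⟨fun h _ => h ▸ Iff.rfl, fun h => Subtype.ext (Set.ext h)⟩

/-- choice for coded relations -/
theorem CF.choice (r : T → T' → Prop) [hr : CS E fun p : T × T' => r p.1 p.2]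
    (h : ∀ t, ∃ t', r t t') : ∃ f : T → T', CF E f ∧ ∀ t, r t (f t) := by
  have hz : ∀ t, CS E fun p : T × T' => p ∈ {p : T × T' | p.1 = t ∧ r p.1 p.2} := fun t =>
    (inferInstance : CS E fun p : T × T' => p.1 = t ∧ r p.1 p.2)
  let z : T → PW E (T × T') := fun t => ⟨_, hz t⟩
  have h1 : CS E fun q : (PW E (T × T') × T) × (T × T') => r q.2.1 q.2.2 :=
    hr.comp fun q : (PW E (T × T') × T) × (T × T') => q.2
  have h2 : CS E fun U : PW E (T × T') => ∃ t, U = z t :=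
    (inferInstance : CS E fun U : PW E (T × T') => ∃ t : T, ∀ p : T × T',
      p ∈ U.1 ↔ p.1 = t ∧ r p.1 p.2).congr fun U => exists_congr fun t =>
        ⟨fun e _ => e ▸ Iff.rfl, fun e => Subtype.ext (Set.ext e)⟩
  obtain ⟨a, ha⟩ := cs_iff_coded.1 h2
  have key : ∀ t x, E x (CT.code E (z t)) ↔ ∃ t', r t t' ∧ CT.code E (t, t') = x := fun t x => by
    refine ((cs_iff_coded.1 (z t).2).choose_spec x).trans ⟨?_, ?_⟩
    · rintro ⟨⟨s, t'⟩, ⟨rfl, h⟩, rfl⟩; exact ⟨t', h, rfl⟩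
    · rintro ⟨t', h, rfl⟩; exact ⟨(t, t'), ⟨rfl, h⟩, rfl⟩
  obtain ⟨c, hc⟩ := hE.out.choice a (by
      intro y hy
      obtain ⟨_, ⟨t, rfl⟩, rfl⟩ := (ha y).1 hy
      obtain ⟨t', ht'⟩ := h t
      exact ⟨_, (key t _).2 ⟨t', ht', rfl⟩⟩)
    (by
      intro y y' x hy hy' h3 h4
      obtain ⟨_, ⟨t, rfl⟩, rfl⟩ := (ha y).1 hy
      obtain ⟨_, ⟨s, rfl⟩, rfl⟩ := (ha y').1 hy'
      obtain ⟨t', -, rfl⟩ := (key t _).1 h3
      obtain ⟨s', -, e⟩ := (key s _).1 h4
      obtain rfl : s = t := (Prod.ext_iff.1 (CT.inj e)).1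
      rfl)
  have h5 : ∀ t, ∃! t', r t t' ∧ E (CT.code E (t, t')) c := fun t => by
    obtain ⟨x, ⟨h6, h7⟩, h8⟩ := hc _ ((ha _).2 ⟨_, ⟨t, rfl⟩, rfl⟩)
    obtain ⟨t', h9, rfl⟩ := (key t _).1 h6
    refine ⟨t', ⟨h9, h7⟩, fun s ⟨h10, h11⟩ => ?_⟩
    exact (Prod.ext_iff.1 (CT.inj (h8 _ ⟨(key t _).2 ⟨s, h10, rfl⟩, h11⟩))).2
  choose f hf hu using h5
  have h6 : CS E fun p : T × T' => E (CT.code E (p.1, p.2)) c := ⟨c, fun _ => Iff.rfl⟩
  exact ⟨f, CF.of_rel (fun t t' => r t t' ∧ E (CT.code E (t, t')) c) fun t t' =>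
    ⟨fun e => e ▸ hf t, hu t t'⟩, fun t => (hf t).1⟩

theorem coded2_iff {f : T → T'} :
    Coded2 E (fun x y => ∃ a, x = CT.code E a ∧ y = CT.code E (f a)) ↔ CF E f := by
  refine Iff.trans ?_ (⟨fun h => ⟨h⟩, fun h => h.out⟩ : _ ↔ CF E f)
  rw [cs_iff_coded, Coded2]
  refine Iff.of_eq (congrArg _ (Set.ext fun p => ⟨?_, ?_⟩))
  · rintro ⟨_, _, h, a, rfl, rfl⟩
    exact ⟨(a, f a), rfl, (isPair_iff.1 h).symm⟩
  · rintro ⟨⟨a, b⟩, (rfl : b = f a), rfl⟩
    exact ⟨_, _, isPair_pr _ _, a, rfl, rfl⟩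

theorem coded3_iff {f : T → T' → T''} :
    Coded3 E (fun x y z => ∃ a b, x = CT.code E a ∧ y = CT.code E b ∧ z = CT.code E (f a b)) ↔
      CF E fun p : T × T' => f p.1 p.2 := by
  rw [← coded2_iff, Coded3]
  refine Iff.of_eq (congrArg _ (funext fun p => funext fun z => propext ⟨?_, ?_⟩))
  · rintro ⟨_, _, h, a, b, rfl, rfl, rfl⟩
    exact ⟨(a, b), isPair_iff.1 h, rfl⟩
  · rintro ⟨⟨a, b⟩, rfl, rfl⟩
    exact ⟨_, _, isPair_pr _ _, a, b, rfl, rfl, rfl⟩

/-- coded addition -/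
class CAdd (E : M → M → Prop) [Fact (IsZFC E)] (T : Type) [CT E T] [Add T] : Prop where
  out : CF E fun p : T × T => p.1 + p.2

/-- coded scalar action -/
class CSm (E : M → M → Prop) [Fact (IsZFC E)] (R T : Type) [CT E R] [CT E T] [SMul R T] :
    Prop where
  out : CF E fun p : R × T => p.1 • p.2

instance (priority := 90) CF.add [Add T'] [h : CAdd E T'] (f g : T → T') [CF E f] [CF E g] :
    CF E fun t => f t + g t := CF.comp _ (fun t => (f t, g t)) (hg := h.out)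

instance (priority := 50) CF.smul [SMul T' T''] [h : CSm E T' T''] (f : T → T') (g : T → T'') [CF E f] [CF E g] :
    CF E fun t => f t • g t := CF.comp _ (fun t => (f t, g t)) (hg := h.out)

instance (priority := 70) CF.mul [Mul T'] [h : CSm E T' T'] (f g : T → T') [CF E f] [CF E g] :
    CF E fun t => f t * g t := CF.comp _ (fun t => (f t, g t)) (hg := h.out)

instance (priority := 80) CF.sub [AddGroup T'] [CAdd E T'] (f g : T → T') [CF E f] [CF E g] :
    CF E fun t => f t - g t := by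
  have h1 : CF E fun p : T × T' => f p.1 := CF.comp f fun p : T × T' => p.1
  have h2 : CF E fun p : T × T' => g p.1 := CF.comp g fun p : T × T' => p.1
  exact CF.of_rel (fun t y => y + g t = f t) fun _ _ => eq_sub_iff_add_eq

instance (priority := 60) CF.neg [AddGroup T'] [CAdd E T'] (f : T → T') [CF E f] : CF E fun t => - f t :=
  (inferInstance : CF E fun t => 0 - f t).congr fun _ => (zero_sub _).symm

instance CAdd.prod [Add T] [Add T'] [CAdd E T] [CAdd E T'] : CAdd E (T × T') :=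
  ⟨(inferInstance : CF E fun p : (T × T') × (T × T') => (p.1.1 + p.2.1, p.1.2 + p.2.2))⟩

instance CSm.prod [SMul T T'] [SMul T T''] [CSm E T T'] [CSm E T T''] : CSm E T (T' × T'') :=
  ⟨(inferInstance : CF E fun p : T × (T' × T'') => (p.1 • p.2.1, p.1 • p.2.2))⟩

section sub
variable {S N : Type} [Ring S] [CT E S] [AddCommGroup N] [Module S N] [CT E N]

instance CAdd.sub [CAdd E N] (U : Submodule S N) [CM E (T := N) U] : CAdd E U :=
  have : CF E fun p : U × U => (p.1 + p.2).1 :=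
    (inferInstance : CF E fun p : U × U => p.1.1 + p.2.1)
  ⟨CF.toSub _⟩

instance CSm.sub [CSm E S N] (U : Submodule S N) [CM E (T := N) U] : CSm E S U :=
  have : CF E fun p : S × U => (p.1 • p.2).1 :=
    (inferInstance : CF E fun p : S × U => p.1 • p.2.1)
  ⟨CF.toSub _⟩

omit [CT E S] in
instance CG.subtype (U : Submodule S N) [CM E (T := N) U] : CG E U.subtype :=
  ⟨(inferInstance : CF E fun t : U => t.1)⟩

end sub

section mmod
variable {S : Type} [Ring S] [CT E S]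

instance MMod.ct (N : MMod E (CT.code E : S → M)) : CT E N.N := ⟨N.code, N.inj, N.set⟩

instance MMod.cadd (N : MMod E (CT.code E : S → M)) : CAdd E N.N :=
  ⟨(coded3_iff (f := fun a b : N.N => a + b)).1 N.add⟩

instance MMod.csm (N : MMod E (CT.code E : S → M)) : CSm E S N.N :=
  ⟨(coded3_iff (f := fun (r : S) (a : N.N) => r • a)).1 N.smul⟩

variable (E S) in
/-- a coded module as a module of `M` -/
@[reducible] def MMod.of (N : Type) [AddCommGroup N] [Module S N] [CT E N] [h1 : CAdd E N]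
    [h2 : CSm E S N] : MMod E (CT.code E : S → M) where
  N := N
  code := CT.code E
  inj := CT.inj
  set := CT.set
  add := (coded3_iff (f := fun a b : N => a + b)).2 h1.out
  smul := (coded3_iff (f := fun (r : S) (a : N) => r • a)).2 h2.out

theorem cMap_iff {B C : MMod E (CT.code E : S → M)} {f : B.N → C.N} : CMap B C f ↔ CF E f :=
  coded2_iff (T := B.N) (T' := C.N)

theorem cSub_iff {B : MMod E (CT.code E : S → M)} {U : Submodule S B.N} :
    CSub B U ↔ CM E (T := B.N) U :=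
  cs_iff_coded.symm.trans ⟨fun h => ⟨h⟩, fun h => h.out⟩

theorem codedRing_iff : CodedRing E (CT.code E : S → M) ↔ CAdd E S ∧ CSm E S S :=
  ⟨fun h => ⟨⟨(coded3_iff (f := fun a b : S => a + b)).1 h.2.2.1⟩,
      ⟨(coded3_iff (f := fun a b : S => a * b)).1 h.2.2.2⟩⟩,
    fun h => ⟨CT.inj, CT.set, (coded3_iff (f := fun a b : S => a + b)).2 h.1.out,
      (coded3_iff (f := fun a b : S => a * b)).2 h.2.out⟩⟩

end mmod

section test
variable {S N N' : Type} [Ring S] [CT E S] [CAdd E S] [CSm E S S] [AddCommGroup N] [Module S N]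
  [CT E N] [CAdd E N] [CSm E S N] [AddCommGroup N'] [Module S N'] [CT E N'] [CAdd E N']
  [CSm E S N']

example (U V : Submodule S N) [CM E (T := N) U] [CM E (T := N) V] (f : N →ₗ[S] N') [CG E f]
    (x : N) : CS E fun y : N' => ∃ u ∈ U, ∃ r s : S, y - f (u + (r * s) • x) = 0 ∧ - u ∉ V :=
  inferInstance

example (T0 : Set N) [CM E (T := N) T0] : CS E fun U : PW E N =>
    (0 : N) ∈ U.1 ∧ (∀ a b, a ∈ U.1 → b ∈ U.1 → a + b ∈ U.1) ∧
      (∀ (r : S) a, a ∈ U.1 → r • a ∈ U.1) ∧ ∀ a ∈ T0, a ∉ U.1 := inferInstance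

end test

end Pool.Agent.Work.MP_c4093f_al
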