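import Pool.Agent.Work.MP_c4093f_al.ForceA
import Pool.Agent.Work.MP_c4093f_al.MCalc
import Pool.Agent.Lib.ZFModel.ZFC

/-!
The generic model: the union of the generic stages is a ring of the model, and every subset of it
that is an element of the model was handled at some stage.
-/

namespace Pool.Agent.Work.MP_c4093f_al
open Pool.Agent.Lib.ZFModel Pool.Agent.Lib.ZFModel.Name Pool.Agent.Work.MP_63c7e0_lc

section names
variable {P Ω : Type}

/-- names of ordinal shape for the elements of `Ω` -/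
noncomputable def oN (P : Type) {Ω : Type} : Ω → Name P :=
  (WellOrderingRel.isWellOrder (α := Ω)).wf.fix fun x ih =>
    rName (fun y : {y // WellOrderingRel y x} => ih y.1 y.2) fun _ _ => True

theorem oN_eq (x : Ω) :
    oN P x = rName (fun y : {y // WellOrderingRel y x} => oN P y.1) fun _ _ => True :=
  WellFounded.fix_eq _ _ _

variable [Preorder P]

theorem oN_inj (x : Ω) : ∀ (y : Ω) (p : P), EqF (oN P x) (oN P y) p → x = y := by
  induction x using (WellOrderingRel.isWellOrder (α := Ω)).wf.induction with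
  | _ x ih =>
    intro y p h
    rw [oN_eq x, oN_eq y] at h
    have h1 : ∀ x', WellOrderingRel x' x → WellOrderingRel x' y := fun x' hx' => by
      obtain ⟨r, -, j, -, he⟩ := h.1 ⟨(⟨x', hx'⟩, p), trivial⟩ p le_rfl le_rfl
      rw [ih x' hx' _ _ he]
      exact j.1.1.2
    have h2 : ∀ y', WellOrderingRel y' y → WellOrderingRel y' x := fun y' hy' => by
      obtain ⟨r, -, j, -, he⟩ := h.2 ⟨(⟨y', hy'⟩, p), trivial⟩ p le_rfl le_rfl
      rw [← ih j.1.1.1 j.1.1.2 y' _ he]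
      exact j.1.1.2
    rcases trichotomous_of WellOrderingRel x y with h3 | h3 | h3
    · exact absurd (h2 x h3) (irrefl_of WellOrderingRel x)
    · exact h3
    · exact absurd (h1 y h3) (irrefl_of WellOrderingRel y)

variable (g : Gen (P := P) Unit)

theorem gen_wf : WellFounded g.E := by
  have key : ∀ x : Name P, ∀ h : x ∈ g.N, Acc g.E (g.cl ⟨x, h⟩) := by
    intro x
    induction x using Name.child_wf.induction with
    | _ x ih =>
      intro h
      refine ⟨_, fun a ha => ?_⟩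
      obtain ⟨j, hj, -, rfl⟩ := g.E_cl_child.1 ha
      exact ih _ ⟨j, rfl⟩ hj
  refine ⟨fun a => ?_⟩
  obtain ⟨x, rfl⟩ := g.cl_surj a
  exact key x.1 x.2

theorem gen_small (a : g.M) : Small.{0} {x // g.E x a} := by
  obtain ⟨y, rfl⟩ := g.cl_surj a
  refine small_of_surjective
    (f := fun j : {j : y.1.Idx // y.1.ch j ∈ g.N ∧ g.G (y.1.cond j)} =>
      (⟨g.cl ⟨_, j.2.1⟩, g.E_cl_child.2 ⟨j.1, j.2.1, j.2.2, rfl⟩⟩ : {x // g.E x (g.cl y)})) ?_
  rintro ⟨x, hx⟩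
  obtain ⟨j, hj, h1, rfl⟩ := g.E_cl_child.1 hx
  exact ⟨⟨j, hj, h1⟩, rfl⟩

theorem gen_isPair (hu : ∀ a ∈ g.N, ∀ b ∈ g.N, upairN a b ∈ g.N) {a b : Name P} (ha : a ∈ g.N)
    (hb : b ∈ g.N) (h : pairN a b ∈ g.N) :
    IsPair g.E (g.cl ⟨_, h⟩) (g.cl ⟨_, ha⟩) (g.cl ⟨_, hb⟩) := by
  intro z
  refine (g.mem_upair (hu a ha a ha) (hu a ha b hb) h z).trans (or_congr ⟨?_, ?_⟩ ⟨?_, ?_⟩)
  · rintro rfl x
    exact (g.mem_upair ha ha _ x).trans or_self_iff
  · intro hz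
    exact g.extensionality _ _ fun x =>
      (hz x).trans ((g.mem_upair ha ha _ x).trans or_self_iff).symm
  · rintro rfl x
    exact g.mem_upair ha hb _ x
  · intro hz
    exact g.extensionality _ _ fun x => (hz x).trans (g.mem_upair ha hb _ x).symm

end names

variable {k Ω : Type} [Field k] [Ring Ω] [Algebra k Ω] (am : Amb k Ω)

/-- the name of the trace of `S` on the generic ring -/
noncomputable def sN (S : Set Ω) : Name (Cond am) :=
  rName (oN (Cond am)) fun x p => x ∈ p.R ∧ x ∈ S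

/-- the name of the graph of a binary operation on the generic ring -/
noncomputable def opN (f : Ω → Ω → Ω) : Name (Cond am) :=
  rName (fun xy : Ω × Ω => pairN (pairN (oN (Cond am) xy.1) (oN (Cond am) xy.2))
    (oN (Cond am) (f xy.1 xy.2))) fun xy p => xy.1 ∈ p.R ∧ xy.2 ∈ p.R

theorem exists_generic_model [IsAlgClosed k] [Nontrivial Ω] (S : ℕ → Set Ω) :
    ∃ (M : Type 1) (E : M → M → Prop) (_ : Fact (IsZFC E)), WellFounded E ∧
      (∀ a, Small.{0} {x // E x a}) ∧ ∃ (T : Subalgebra k Ω) (_ : CT E T), CAdd E T ∧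
        CSm E T T ∧ (∀ n, CS E fun x : T => x.1 ∈ S n) ∧ am.Gd T ∧
        ∀ K : Set T, CS E (fun x : T => x ∈ K) → am.Hand T (Subtype.val '' K) := by
  have hen : ∀ p : Cond am, ∃ e : ℕ → Ω, ∀ x ∈ p.R, ∃ n, e n = x := fun p => by
    have := p.cR
    obtain ⟨e, he⟩ := exists_surjective_nat p.R
    exact ⟨fun n => (e n).1, fun x hx => by
      obtain ⟨n, hn⟩ := he ⟨x, hx⟩
      exact ⟨n, congrArg Subtype.val hn⟩⟩
  choose en hen using hen
  let S' : Option ℕ → Set Ω := fun o => o.elim Set.univ S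
  let RN : Fam (Cond am) Unit (ℕ ⊕ Option ℕ ⊕ Bool) (Name (Cond am)) := fun i _ c _ x =>
    match i with
    | .inl n => x = oN (Cond am) (en (c 0) n)
    | .inr (.inl o) => x = sN am (S' o)
    | .inr (.inr true) => x = opN am (· + ·)
    | .inr (.inr false) => x = opN am (· * ·)
  let W : Fam (Cond am) Unit (ℕ ⊕ Option ℕ ⊕ Bool) (Cond am × Unit) := fun i v _ _ q =>
    match i with
    | .inl _ => Hd (fun x p => MemF (oN (Cond am) x) (v 0) p) q.1
    | .inr _ => ∃ b c, v 1 = oN (Cond am) b ∧ v 2 = oN (Cond am) c ∧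
        (Jm (fun x p => MemF (oN (Cond am) x) (v 0) p) b c q.1 ∨
          ∃ e ∈ q.1.R, MemF (oN (Cond am) (b * e)) (v 0) q.1 ∧ ¬ am.InP (c * e))
  obtain ⟨g⟩ := exists_genW (Cond.top am) () RN W
  have hE : Fact (IsZFC g.toGen.E) := ⟨g.zfc⟩
  obtain ⟨T, hT, hG⟩ := gd_of_generic g.G g.PN g.dir g.below g.toGen.ne
  have hT' : ∀ x p, g.G p → x ∈ p.R → x ∈ T := fun x p hp hx => by
    obtain ⟨q, hq, h1, h2⟩ := g.below p hp
    exact (hT x).2 ⟨q, hq, h1, h2.1 hx⟩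
  have hN : ∀ x ∈ T, oN (Cond am) x ∈ g.N := fun x hx => by
    obtain ⟨p, hp, -, h⟩ := (hT x).1 hx
    obtain ⟨n, rfl⟩ := hen p x h
    obtain ⟨y, hy, h⟩ := g.clN (.inl n) [] [p] [] mem_list₀ (mem_list₁ hp) mem_list₀ ⟨_, rfl⟩
    exact (h : y = _) ▸ hy
  have hs : ∀ o, sN am (S' o) ∈ g.N := fun o => by
    obtain ⟨y, hy, h⟩ := g.clN (.inr (.inl o)) [] [] [] mem_list₀ mem_list₀ mem_list₀ ⟨_, rfl⟩
    exact (h : y = _) ▸ hy
  let c : T → g.toGen.M := fun x => g.toGen.cl ⟨_, hN x.1 x.2⟩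
  have hc : ∀ o a, g.toGen.E a (g.toGen.cl ⟨_, hs o⟩) ↔ ∃ x : T, x.1 ∈ S' o ∧ c x = a := by
    intro o a
    refine (g.toGen.E_rName (hs o) a).trans ⟨?_, ?_⟩
    · rintro ⟨x, p, ⟨h1, h2⟩, hp, hi, rfl⟩
      exact ⟨⟨x, hT' x p hp h1⟩, h2, rfl⟩
    · rintro ⟨x, h2, rfl⟩
      obtain ⟨p, -, hp, h1⟩ := (hT x.1).1 x.2
      exact ⟨x.1, p, ⟨h1, h2⟩, hp, _, rfl⟩
  have hinj : Function.Injective c := fun x y h => by
    obtain ⟨p, -, h⟩ := g.toGen.cl_eq.1 h
    exact Subtype.ext (oN_inj _ _ _ h)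
  let ct : CT g.toGen.E T := ⟨c, hinj, _, fun a => (hc none a).trans
    ⟨fun ⟨x, _, h⟩ => ⟨x, h⟩, fun ⟨x, h⟩ => ⟨x, trivial, h⟩⟩⟩
  have hpair : ∀ a ∈ g.N, ∀ b ∈ g.N, pairN a b ∈ g.N := fun a ha b hb =>
    g.upair_mem _ (g.upair_mem _ ha _ ha) _ (g.upair_mem _ ha _ hb)
  have hop : ∀ (f : Ω → Ω → Ω) (f' : T → T → T), (∀ x y, (f' x y).1 = f x.1 y.1) →
      opN am f ∈ g.N → CF g.toGen.E fun p : T × T => f' p.1 p.2 := by
    intro f f' hf h
    have key : ∀ x y z : T, CT.code g.toGen.E ((x, y), z) =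
        g.toGen.cl ⟨_, hpair _ (hpair _ (hN x.1 x.2) _ (hN y.1 y.2)) _ (hN z.1 z.2)⟩ := by
      intro x y z
      rw [code_prod, code_prod]
      refine (isPair_iff.1 ?_).symm
      have e : pr g.toGen.E (CT.code g.toGen.E x) (CT.code g.toGen.E y) =
          g.toGen.cl ⟨_, hpair _ (hN x.1 x.2) _ (hN y.1 y.2)⟩ :=
        (isPair_iff.1 (gen_isPair g.toGen g.upair_mem _ _ _)).symm
      rw [e]
      exact gen_isPair g.toGen g.upair_mem _ _ _
    refine ⟨g.toGen.cl ⟨_, h⟩, ?_⟩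
    rintro ⟨⟨x, y⟩, z⟩
    refine Iff.trans ⟨?_, ?_⟩ (g.toGen.E_rName h _).symm
    · rintro (rfl : z = f' x y)
      obtain ⟨p, -, hp, h1⟩ := (hT x.1).1 x.2
      obtain ⟨q, -, hq, h2⟩ := (hT y.1).1 y.2
      obtain ⟨r, hr, h3, h4⟩ := g.dir p q hp hq
      refine ⟨(x.1, y.1), r, ⟨h3.1 h1, h4.1 h2⟩, hr, ?_, ?_⟩
      · exact hpair _ (hpair _ (hN x.1 x.2) _ (hN y.1 y.2)) _ (hf x y ▸ hN _ (f' x y).2)
      · rw [key]
        exact congrArg _ (Subtype.ext (by simp only [hf]))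
    · rintro ⟨⟨x', y'⟩, p, ⟨h1, h2⟩, hp, hi, e⟩
      have e' : CT.code g.toGen.E ((x, y), z) = CT.code g.toGen.E
          (((⟨x', hT' _ p hp h1⟩ : T), (⟨y', hT' _ p hp h2⟩ : T)),
            f' ⟨x', hT' _ p hp h1⟩ ⟨y', hT' _ p hp h2⟩) := by
        rw [e, key]
        exact congrArg _ (Subtype.ext (by simp only [hf]))
      have e2 := CT.inj e'
      simp only [Prod.mk.injEq] at e2
      obtain ⟨⟨rfl, rfl⟩, rfl⟩ := e2
      rfl
  refine ⟨g.toGen.M, g.toGen.E, hE, gen_wf _, gen_small _, T, ct, ⟨?_⟩, ⟨?_⟩, fun n => ?_, hG,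
    fun K hK => ?_⟩
  · obtain ⟨y, hy, h⟩ := g.clN (.inr (.inr true)) [] [] [] mem_list₀ mem_list₀ mem_list₀ ⟨_, rfl⟩
    exact hop (· + ·) (· + ·) (fun _ _ => rfl) ((h : y = _) ▸ hy)
  · obtain ⟨y, hy, h⟩ := g.clN (.inr (.inr false)) [] [] [] mem_list₀ mem_list₀ mem_list₀ ⟨_, rfl⟩
    exact hop (· * ·) (· * ·) (fun _ _ => rfl) ((h : y = _) ▸ hy)
  · refine ⟨_, fun x => Iff.trans ⟨fun h => ⟨x, h, rfl⟩, ?_⟩ (hc (some n) _).symm⟩
    rintro ⟨y, hy, e⟩
    exact hinj e ▸ hy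
  · obtain ⟨a, ha⟩ := hK.out
    obtain ⟨⟨a, haN⟩, rfl⟩ := g.toGen.cl_surj a
    have hm : ∀ (x : Ω) (p q : Cond am), MemF (oN (Cond am) x) a p → q ≤ p →
        MemF (oN (Cond am) x) a q := fun _ _ _ h h' => h.mono h'
    have h1 : ∀ x ∈ T, x ∈ Subtype.val '' K ↔ ∃ p, g.G p ∧ MemF (oN (Cond am) x) a p :=
      fun x hx => (Subtype.val_injective.mem_set_image (a := ⟨x, hx⟩)).trans
        ((ha ⟨x, hx⟩).trans g.toGen.E_cl)
    obtain ⟨q, hq, hGq, j, -, hd⟩ := g.meet (.inl 0) [a] [] [] (mem_list₁ haN) mem_list₀ mem_list₀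
      _ g.G_p0 fun q _ => by
        obtain ⟨r, hr, h⟩ := dense_Hd (fun x p => MemF (oN (Cond am) x) a p) hm q
        exact ⟨r, hr, (), h⟩
    refine hand_of_generic (fun x p => MemF (oN (Cond am) x) a p) hm g.G g.PN g.up g.dir g.below T
      hT _ h1 (fun x hx hn => ?_) (fun b hb c' hc' => ?_) hq hGq hd
    · obtain ⟨p, hp, ⟨j, -, h2, h3⟩ | h2⟩ := g.child _ (hN x hx) a haN
      · exact absurd ((h1 x hx).2 ⟨p, hp, (memF_ch a j h2).congr_left h3.symm⟩) hn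
      · exact ⟨p, hp, h2⟩
    · obtain ⟨p, hp, hGp, j, -, b', c'', e1, e2, h⟩ := g.meet (.inr (.inl none))
        [a, oN (Cond am) b, oN (Cond am) c'] [] []
        (mem_listc haN (mem_list₂ (hN b hb) (hN c' hc'))) mem_list₀ mem_list₀ _ g.G_p0
        fun q _ => by
          by_cases h : Jm (fun x p => MemF (oN (Cond am) x) a p) b c' q
          · exact ⟨q, le_rfl, (), b, c', rfl, rfl, Or.inl h⟩
          · simp only [Jm, not_forall] at h
            obtain ⟨r, hr, e, he, h2, h3⟩ := h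
            exact ⟨r, hr, (), b, c', rfl, rfl, Or.inr ⟨e, he, h2, h3⟩⟩
      have e1' : oN (Cond am) b = oN (Cond am) b' := e1
      have e2' : oN (Cond am) c' = oN (Cond am) c'' := e2
      obtain rfl := oN_inj b b' p (e1' ▸ EqF.refl _ _)
      obtain rfl := oN_inj c' c'' p (e2' ▸ EqF.refl _ _)
      exact ⟨p, hp, hGp, h⟩

end Pool.Agent.Work.MP_c4093f_al
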