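import Pool.Agent.Work.MP_c4093f_al.Basic

/-!
Small columns that keep a finite family independent.

Write `v l = ∑ i, l i • ν i`.
* `comb`: the subspaces `V h = {l | v l * h ∈ K}` (`h ∈ I`) of the finite dimensional space
  `ι → k` meet in `0`, so finitely many `h s` do (induct on the dimension, or take a minimal finite
  intersection).  With a Leavitt family put `ω = ∑ s, h s * y s`; `v l * ω * x s = v l * h s`.
* `indep_pigeon`: infinitely many independent subspaces of a finite dimensional space; one is `0`.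
* `sh`: induct on the family (apply the case of one element to `u * g j * ω` and the family `ν ω`).
  One element `g = x y ≠ 0` (`PI`): replace it by `y = x' g` with `y y' = 1`.  Put
  `e t = y' * xs t * ys t * y` (orthogonal idempotents), `ω t = 1 - e t`; `ys t * y * ω t = 0`.
  The spaces `V t = {l | v l * ω t ∈ K}` are independent: multiply `∑ v (l t) = 0` by `e s`.
* `sm`: induct; one element `g = x y`: `u = y1 x'`, `ω = y' x2`.
* `sf`: `I = ⨅ j, lq P (p j)` has `SFree I K` (induct with `SFree.inf`, `SFree.lq_left`,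
  `MaxR.lq`; if `p j ∈ P` the factor is `⊤`); then `comb`.
* `e1`: `x = x0 y0`; if `L1 x = 0` then `L1 x0 = 0`, so `x0 ∈ L2`, so `1 ∈ L2`.
* `kill`: induct on the family (products of elements `1 - l` have the same shape).  One element
  `p = x y ≠ 0`: by `e1` and `PI.one` get `l1 ∈ L1`, `γ = l1 x`, `γ b = 1`.  For any `b'` with
  `γ b' = 1`, `l = x b' l1 ∈ L1` has `(1 - l) x b' = 0`.  If `b γ = 1` take `ω = 1`
  (then `(1 - l) x = 0`).  Else `1 - b γ = α α'` (`PI.idem`, `γ α = 0`), `b t = b + α * ys t`,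
  `ω t = (1 - y' y) y1 + y' (b t) y2`.  The spaces `{l | v l * ω t ∈ K}` are independent: there
  `v (1 - y' y) ∈ K` and `m b + m α (ys t) ∈ K` for `m = v y'`; if the `m` sum to `0`, multiply by
  `xs s` to get `m α ∈ K`, then `m b ∈ K`, `m = m (b γ + α α') ∈ K`, `v ∈ K`.
* `ess`: induct.  One `v`: if `v x1 ∈ K` or `v x2 ∈ K` done, else `v (x1 c - x2 d) ∈ K` with
  `c ≠ 0`, so `x1 c - x2 d ≠ 0`; use `PI.linv`.
-/

namespace Pool.Agent.Work.MP_c4093f_al

variable {k A : Type} [Field k] [Ring A] [Algebra k A]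

theorem Free1_sum_mul {ι : Type} [Fintype ι] (ν : ι → A) (l : ι → k) (ω : A) :
    ∑ i, l i • (ν i * ω) = (∑ i, l i • ν i) * ω := by
  simp only [Finset.sum_mul, smul_mul_assoc]

/-- the coefficient vectors whose combination is sent into `K` by `w` -/
def Free1V (k : Type) [Field k] [Algebra k A] {ι : Type} [Fintype ι] (K : RI A) (ν : ι → A)
    (w : A) : Submodule k (ι → k) where
  carrier := {l | (∑ i, l i • ν i) * w ∈ K}
  zero_mem' := by simp
  add_mem' := fun {a b} ha hb => by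
    simp only [Set.mem_ofPred_eq, Pi.add_apply, add_smul, Finset.sum_add_distrib, add_mul] at *
    exact K.add_mem ha hb
  smul_mem' := fun c a ha => by
    simp only [Set.mem_ofPred_eq, Pi.smul_apply, smul_eq_mul, mul_smul, ← Finset.smul_sum,
      smul_mul_assoc] at *
    exact ksmul K ha c

theorem comb (lv : Lv A) {ι : Type} [Fintype ι] (K I : RI A) (ν : ι → A)
    (h : ∀ l : ι → k, (∀ x ∈ I, (∑ i, l i • ν i) * x ∈ K) → l = 0) :
    ∃ ω ∈ I, IndK k K (fun i => ν i * ω) := by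
  classical
  obtain ⟨W, ⟨s, hs, rfl⟩, hW⟩ := (wellFounded_lt (α := Submodule k (ι → k))).has_min
    {W | ∃ s : Finset A, (∀ x ∈ s, x ∈ I) ∧ W = s.inf (Free1V k K ν)} ⟨_, ∅, by simp, rfl⟩
  have hbot : ∀ l ∈ s.inf (Free1V k K ν), l = 0 := fun l hl => h l fun x hx => by
    have h1 := hW ((insert x s).inf (Free1V k K ν))
      ⟨insert x s, fun z hz => by
        rcases Finset.mem_insert.mp hz with rfl | hz
        exacts [hx, hs z hz], rfl⟩
    rw [Finset.inf_insert] at h1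
    have h2 := eq_of_le_of_not_lt inf_le_right h1
    rw [← h2] at hl
    exact hl.1
  obtain ⟨x, y, hxy⟩ := lv.fam s
  refine ⟨∑ a : s, a.1 * y a, I.sum_mem fun a _ => rmul I (hs a.1 a.2) _, fun l hl => ?_⟩
  rw [Free1_sum_mul] at hl
  refine hbot l (Submodule.mem_finsetInf.mpr fun a ha => ?_)
  have h3 := rmul K hl (x ⟨a, ha⟩)
  have h4 : (∑ b : s, b.1 * y b) * x ⟨a, ha⟩ = a := by
    rw [Finset.sum_mul]
    simp only [mul_assoc, hxy, mul_ite, mul_one, mul_zero, Finset.sum_ite_eq', Finset.mem_univ,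
      if_true]
  rw [mul_assoc, h4] at h3
  exact h3

theorem indep_pigeon {ι : Type} [Fintype ι] (V : ℕ → Submodule k (ι → k))
    (h : ∀ (s : Finset ℕ) (l : ℕ → ι → k), (∀ t ∈ s, l t ∈ V t) → ∑ t ∈ s, l t = 0 →
      ∀ t ∈ s, l t = 0) : ∃ t, V t = ⊥ := by
  by_contra hne
  have h1 : ∀ t, ∃ l ∈ V t, l ≠ 0 := fun t =>
    (Submodule.ne_bot_iff _).mp fun ht => hne ⟨t, ht⟩
  choose l hl hl0 using h1
  refine Module.Finite.not_linearIndependent_of_infinite (R := k) l ?_
  rw [linearIndependent_iff']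
  intro s g hs t ht
  have h2 := h s (fun t => g t • l t) (fun t _ => (V t).smul_mem _ (hl t)) hs t ht
  exact (smul_eq_zero.mp h2).resolve_right (hl0 t)

theorem Free1_pick {ι : Type} [Fintype ι] {K : RI A} {ν : ι → A} (hν : IndK k K ν) (ω : ℕ → A)
    (h : ∀ (s : Finset ℕ) (v : ℕ → A), (∀ t ∈ s, v t * ω t ∈ K) → ∑ t ∈ s, v t = 0 →
      ∀ t ∈ s, v t ∈ K) : ∃ t, IndK k K (fun i => ν i * ω t) := by
  obtain ⟨t, ht⟩ := indep_pigeon (fun t => Free1V k K ν (ω t)) fun s l hl hs t ht => by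
    refine hν _ (h s (fun t => ∑ i, l t i • ν i) hl ?_ t ht)
    rw [Finset.sum_comm]
    refine Finset.sum_eq_zero fun i _ => ?_
    rw [← Finset.sum_smul, ← Finset.sum_apply, hs, Pi.zero_apply, zero_smul]
  refine ⟨t, fun l hl => ?_⟩
  rw [Free1_sum_mul] at hl
  have h1 : l ∈ Free1V k K ν (ω t) := hl
  rw [ht] at h1
  exact h1

theorem Free1_sh (hP : PI A) (lv : Lv A) {ι : Type} [Fintype ι] {K : RI A} {ν : ι → A}
    (hν : IndK k K ν) (g : A) :
    ∃ u u' ω, u * u' = 1 ∧ u * g * ω = 0 ∧ IndK k K (fun i => ν i * ω) := by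
  by_cases hg : g = 0
  · exact ⟨1, 1, 1, one_mul 1, by simp [hg], by simpa using hν⟩
  obtain ⟨x, y, x', y', rfl, hx, hy⟩ := hP g hg
  have hxx : ∀ a, x' * (x * a) = a := fun a => by rw [← mul_assoc, hx, one_mul]
  have hyy : ∀ a, y * (y' * a) = a := fun a => by rw [← mul_assoc, hy, one_mul]
  have hst : ∀ s t a, lv.ys s * (lv.xs t * a) = if s = t then a else 0 := fun s t a => by
    rw [← mul_assoc, lv.ys_xs]
    split_ifs <;> simp
  obtain ⟨t, ht⟩ := Free1_pick hν (fun t => 1 - y' * (lv.xs t * (lv.ys t * y))) (by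
    intro s v hv hs r hr
    have h1 : ∑ t ∈ s.erase r, v t * (y' * (lv.xs r * (lv.ys r * y))) ∈ K := by
      refine K.sum_mem fun t ht => ?_
      have h2 := rmul K (hv t (Finset.mem_of_mem_erase ht)) (y' * (lv.xs r * (lv.ys r * y)))
      have h3 := Finset.ne_of_mem_erase ht
      simpa only [mul_sub, sub_mul, mul_one, one_mul, mul_assoc, hyy, hst, if_neg h3, mul_zero,
        sub_zero] using h2
    rw [← Finset.add_sum_erase s v hr] at hs
    rw [← Finset.sum_mul, eq_neg_of_add_eq_zero_right hs, neg_mul] at h1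
    have h4 := K.sub_mem (hv r hr) h1
    rwa [mul_sub, mul_one, sub_neg_eq_add, sub_add_cancel] at h4)
  refine ⟨lv.ys t * x', x * lv.xs t, _, ?_, ?_, ht⟩
  · rw [mul_assoc, hxx, lv.ys_xs, if_pos rfl]
  · simp only [mul_sub, mul_one, mul_assoc, hxx, hyy, hst, if_true, sub_self]

theorem sh (hP : PI A) (lv : Lv A) {ι κ : Type} [Fintype ι] [Finite κ] {K : RI A} {ν : ι → A}
    (hν : IndK k K ν) (g : κ → A) :
    ∃ u u' ω, u * u' = 1 ∧ (∀ j, u * g j * ω = 0) ∧ IndK k K (fun i => ν i * ω) := by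
  classical
  have := Fintype.ofFinite κ
  have key : ∀ s : Finset κ, ∃ u u' ω, u * u' = 1 ∧ (∀ j ∈ s, u * g j * ω = 0) ∧
      IndK k K (fun i => ν i * ω) := by
    intro s
    induction s using Finset.induction_on with
    | empty => exact ⟨1, 1, 1, one_mul 1, by simp, by simpa using hν⟩
    | insert a s _ ih =>
      obtain ⟨u, u', ω, h1, h2, h3⟩ := ih
      obtain ⟨u1, u1', ω1, h4, h5, h6⟩ := Free1_sh hP lv h3 (u * g a * ω)
      refine ⟨u1 * u, u' * u1', ω * ω1, ?_, fun j hj => ?_, by simpa only [mul_assoc] using h6⟩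
      · rw [mul_assoc, ← mul_assoc u, h1, one_mul, h4]
      · have e : u1 * u * g j * (ω * ω1) = u1 * (u * g j * ω) * ω1 := by
          simp only [mul_assoc]
        rcases Finset.mem_insert.mp hj with rfl | hj
        · rw [e, h5]
        · rw [e, h2 j hj, mul_zero, zero_mul]
  obtain ⟨u, u', ω, h1, h2, h3⟩ := key Finset.univ
  exact ⟨u, u', ω, h1, fun j => h2 j (Finset.mem_univ j), h3⟩

theorem sm (hP : PI A) (lv : Lv A) {κ : Type} [Finite κ] (g : κ → A) :
    ∃ u u' ω ω', u * u' = 1 ∧ ω' * ω = 1 ∧ ∀ j, u * g j * ω = 0 := by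
  classical
  have one : ∀ g : A, ∃ u u' ω ω', u * u' = 1 ∧ ω' * ω = 1 ∧ u * g * ω = 0 := by
    intro g
    by_cases hg : g = 0
    · exact ⟨1, 1, 1, 1, one_mul 1, one_mul 1, by simp [hg]⟩
    obtain ⟨x, y, x', y', rfl, hx, hy⟩ := hP g hg
    have hxx : ∀ a, x' * (x * a) = a := fun a => by rw [← mul_assoc, hx, one_mul]
    have hyy : ∀ a, y * (y' * a) = a := fun a => by rw [← mul_assoc, hy, one_mul]
    refine ⟨lv.y1 * x', x * lv.x1, y' * lv.x2, lv.y2 * y, ?_, ?_, ?_⟩
    · rw [mul_assoc, hxx, lv.h11]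
    · rw [mul_assoc, hyy, lv.h22]
    · simp only [mul_assoc, hxx, hyy, lv.h12]
  have := Fintype.ofFinite κ
  have key : ∀ s : Finset κ, ∃ u u' ω ω', u * u' = 1 ∧ ω' * ω = 1 ∧
      ∀ j ∈ s, u * g j * ω = 0 := by
    intro s
    induction s using Finset.induction_on with
    | empty => exact ⟨1, 1, 1, 1, one_mul 1, one_mul 1, by simp⟩
    | insert a s _ ih =>
      obtain ⟨u, u', ω, ω', h1, h2, h3⟩ := ih
      obtain ⟨u1, u1', ω1, ω1', h4, h5, h6⟩ := one (u * g a * ω)
      refine ⟨u1 * u, u' * u1', ω * ω1, ω1' * ω', ?_, ?_, fun j hj => ?_⟩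
      · rw [mul_assoc, ← mul_assoc u, h1, one_mul, h4]
      · rw [mul_assoc, ← mul_assoc ω', h2, one_mul, h5]
      · have e : u1 * u * g j * (ω * ω1) = u1 * (u * g j * ω) * ω1 := by
          simp only [mul_assoc]
        rcases Finset.mem_insert.mp hj with rfl | hj
        · rw [e, h6]
        · rw [e, h3 j hj, mul_zero, zero_mul]
  obtain ⟨u, u', ω, ω', h1, h2, h3⟩ := key Finset.univ
  exact ⟨u, u', ω, ω', h1, h2, fun j => h3 j (Finset.mem_univ j)⟩

theorem sf (lv : Lv A) {ι κ : Type} [Fintype ι] [Finite κ] {P K : RI A} (hM : MaxR P)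
    (hF : SFree P K) {ν : ι → A} (hν : IndK k K ν) (p : κ → A) :
    ∃ ω, (∀ j, p j * ω ∈ P) ∧ IndK k K (fun i => ν i * ω) := by
  classical
  have := Fintype.ofFinite κ
  have key : ∀ s : Finset κ, ∃ I : RI A, SFree I K ∧ ∀ j ∈ s, ∀ x ∈ I, p j * x ∈ P := by
    intro s
    induction s using Finset.induction_on with
    | empty => exact ⟨P, hF, by simp⟩
    | insert a s _ ih =>
      obtain ⟨I, h1, h2⟩ := ih
      by_cases ha : p a ∈ P
      · refine ⟨I, h1, fun j hj x hx => ?_⟩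
        rcases Finset.mem_insert.mp hj with rfl | hj
        exacts [rmul P ha x, h2 j hj x hx]
      · refine ⟨lq P (p a) ⊓ I, SFree.inf (hM.lq ha) (hF.lq_left hM _) h1, fun j hj x hx => ?_⟩
        rcases Finset.mem_insert.mp hj with rfl | hj
        exacts [hx.1, h2 j hj x hx.2]
  obtain ⟨I, h1, h2⟩ := key Finset.univ
  obtain ⟨ω, h3, h4⟩ := comb (k := k) lv K I ν fun l hl => hν l (h1 _ hl)
  exact ⟨ω, fun j => h2 j (Finset.mem_univ j) ω h3, h4⟩

theorem e1 (hP : PI A) {L1 L2 : Ideal A} (h : Perp L1 L2) {x : A} (hx : x ≠ 0) :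
    ∃ l ∈ L1, l * x ≠ 0 := by
  by_contra hne
  push Not at hne
  obtain ⟨x0, y0, x', y', rfl, hx0, hy0⟩ := hP x hx
  obtain ⟨l, hl, h2⟩ := h.2.2 x0
  have h3 : l * x0 = 0 := by
    have h4 := congrArg (· * y') (hne l hl)
    simpa only [mul_assoc, hy0, mul_one, zero_mul] using h4
  rw [h3, sub_zero] at h2
  exact h.2.1 (hx0 ▸ L2.mul_mem_left x' h2)

theorem Free1_kill (hP : PI A) (lv : Lv A) {L1 L2 : Ideal A} (h : Perp L1 L2) {ι : Type}
    [Fintype ι] {K : RI A} {ν : ι → A} (hν : IndK k K ν) (p : A) :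
    ∃ l ∈ L1, ∃ ω, (1 - l) * p * ω = 0 ∧ IndK k K (fun i => ν i * ω) := by
  by_cases hp : p = 0
  · exact ⟨0, L1.zero_mem, 1, by simp [hp], by simpa using hν⟩
  obtain ⟨x, y, x', y', rfl, hx, hy⟩ := hP p hp
  have hx0 : x ≠ 0 := fun h0 => hp (by rw [h0, zero_mul])
  obtain ⟨l0, hl0, hl0x⟩ := e1 hP h hx0
  obtain ⟨a, b, hab⟩ := hP.one hl0x
  obtain ⟨l1, hl1, γ, hγ, hb⟩ : ∃ l1 ∈ L1, ∃ γ, γ = l1 * x ∧ γ * b = 1 :=
    ⟨a * l0, L1.mul_mem_left a hl0, _, rfl, by rw [mul_assoc a, hab]⟩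
  have hk : ∀ b', γ * b' = 1 → (1 - x * b' * l1) * x * b' = 0 := fun b' hb' => by
    have e : (1 - x * b' * l1) * x * b' = x * b' - x * b' * (l1 * x * b') := by noncomm_ring
    rw [e, ← hγ, hb', mul_one, sub_self]
  by_cases hbγ : b * γ = 1
  · refine ⟨x * b * l1, L1.mul_mem_left _ hl1, 1, ?_, by simpa using hν⟩
    have e : (1 - x * b * l1) * (x * y) * 1 = (1 - x * b * l1) * x * (b * γ) * y := by
      rw [hbγ]
      simp only [mul_one, mul_assoc]
    rw [e, ← mul_assoc _ b, hk b hb, zero_mul, zero_mul]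
  have hbb : ∀ c, γ * (b * c) = c := fun c => by rw [← mul_assoc, hb, one_mul]
  obtain ⟨α, α', hα, hαα⟩ := hP.idem (e := 1 - b * γ)
    (by simp only [mul_sub, sub_mul, mul_one, one_mul, mul_assoc, hbb, sub_self, sub_zero])
    (fun h0 => hbγ (sub_eq_zero.mp h0).symm)
  have hγα : γ * α = 0 := by
    have e : γ * α = γ * (α * α') * α := by rw [mul_assoc, mul_assoc α, hα, mul_one]
    rw [e, hαα, mul_sub, mul_one, hbb, sub_self, zero_mul]
  have hyy : ∀ a, y * (y' * a) = a := fun a => by rw [← mul_assoc, hy, one_mul]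
  obtain ⟨t, ht⟩ := Free1_pick hν
    (fun t => (1 - y' * y) * lv.y1 + y' * (b + α * lv.ys t) * lv.y2) (by
    intro s v hv hs r hr
    have h1 : ∀ t ∈ s, v t * (1 - y' * y) ∈ K := fun t ht => by
      have h2 := rmul K (hv t ht) lv.x1
      simpa only [add_mul, mul_assoc, lv.h11, lv.h21, mul_one, mul_zero, add_zero] using h2
    have h2 : ∀ t ∈ s, v t * y' * b + v t * y' * α * lv.ys t ∈ K := fun t ht => by
      have h2 := rmul K (hv t ht) lv.x2
      rw [mul_assoc, add_mul, mul_assoc, lv.h12, mul_zero, zero_add, mul_assoc, lv.h22,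
        mul_one] at h2
      simpa only [mul_add, mul_assoc] using h2
    have h3 : v r * y' * α ∈ K := by
      have h4 := rmul K (K.sum_mem h2) (lv.xs r)
      rw [Finset.sum_add_distrib, ← Finset.sum_mul, ← Finset.sum_mul, hs, zero_mul, zero_mul,
        zero_add, Finset.sum_mul] at h4
      simp only [mul_assoc _ (lv.ys _), lv.ys_xs, mul_ite, mul_one, mul_zero,
        Finset.sum_ite_eq', if_pos hr] at h4
      exact h4
    have h5 : v r * y' * b ∈ K := by
      simpa only [add_sub_cancel_right] using K.sub_mem (h2 r hr) (rmul K h3 (lv.ys r))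
    have h6 : v r * y' ∈ K := by
      have h7 := K.add_mem (rmul K h5 γ) (rmul K h3 α')
      rwa [mul_assoc _ b, mul_assoc _ α, hαα, ← mul_add, add_sub_cancel, mul_one] at h7
    have h8 := K.add_mem (h1 r hr) (rmul K h6 y)
    rwa [mul_assoc, ← mul_add, sub_add_cancel, mul_one] at h8)
  refine ⟨x * (b + α * lv.ys t) * l1, L1.mul_mem_left _ hl1, _, ?_, ht⟩
  have h9 := hk (b + α * lv.ys t) (by rw [mul_add, hb, ← mul_assoc, hγα, zero_mul, add_zero])
  have e : y * ((1 - y' * y) * lv.y1 + y' * (b + α * lv.ys t) * lv.y2) =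
      (b + α * lv.ys t) * lv.y2 := by
    rw [mul_add, ← mul_assoc, mul_sub, mul_one, hyy, sub_self, zero_mul, zero_add, mul_assoc y',
      hyy]
  rw [← mul_assoc, mul_assoc _ y, e, ← mul_assoc, h9, zero_mul]

theorem kill (hP : PI A) (lv : Lv A) {L1 L2 : Ideal A} (h : Perp L1 L2) {ι κ : Type} [Fintype ι]
    [Finite κ] {K : RI A} {ν : ι → A} (hν : IndK k K ν) (p : κ → A) :
    ∃ l ∈ L1, ∃ ω, (∀ j, (1 - l) * p j * ω = 0) ∧ IndK k K (fun i => ν i * ω) := by
  classical
  have := Fintype.ofFinite κ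
  have key : ∀ s : Finset κ, ∃ l ∈ L1, ∃ ω, (∀ j ∈ s, (1 - l) * p j * ω = 0) ∧
      IndK k K (fun i => ν i * ω) := by
    intro s
    induction s using Finset.induction_on with
    | empty => exact ⟨0, L1.zero_mem, 1, by simp, by simpa using hν⟩
    | insert a s _ ih =>
      obtain ⟨l, hl, ω, h2, h3⟩ := ih
      obtain ⟨l1, hl1, ω1, h5, h6⟩ := Free1_kill hP lv h h3 ((1 - l) * p a * ω)
      refine ⟨l1 + l - l1 * l, L1.sub_mem (L1.add_mem hl1 hl) (L1.mul_mem_left _ hl), ω * ω1,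
        fun j hj => ?_, by simpa only [mul_assoc] using h6⟩
      have e : (1 - (l1 + l - l1 * l)) * p j * (ω * ω1) =
          (1 - l1) * ((1 - l) * p j * ω) * ω1 := by
        noncomm_ring
      rcases Finset.mem_insert.mp hj with rfl | hj
      · rw [e, h5]
      · rw [e, h2 j hj, mul_zero, zero_mul]
  obtain ⟨l, hl, ω, h2, h3⟩ := key Finset.univ
  exact ⟨l, hl, ω, fun j => h2 j (Finset.mem_univ j), h3⟩

theorem ess (hP : PI A) (lv : Lv A) {κ : Type} [Finite κ] {K : RI A} (hK : Unif K) (v : κ → A) :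
    ∃ c c', c' * c = 1 ∧ ∀ j, v j * c ∈ K := by
  classical
  have one : ∀ v : A, ∃ c c', c' * c = 1 ∧ v * c ∈ K := by
    intro v
    by_cases h1 : v * lv.x1 ∈ K
    · exact ⟨_, _, lv.h11, h1⟩
    by_cases h2 : v * lv.x2 ∈ K
    · exact ⟨_, _, lv.h22, h2⟩
    obtain ⟨c, d, h3, h4⟩ := hK _ _ h1 h2
    have h5 : lv.x1 * c - lv.x2 * d ≠ 0 := fun h0 => h4 (by
      have h6 := congrArg (lv.y1 * ·) h0
      simp only [mul_sub, ← mul_assoc, lv.h11, lv.h12, one_mul, zero_mul, sub_zero,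
        mul_zero] at h6
      rw [h6, mul_zero]
      exact K.zero_mem)
    obtain ⟨d', c', h7⟩ := hP.linv h5
    refine ⟨_, _, h7, ?_⟩
    rw [← mul_assoc, mul_sub, ← mul_assoc, ← mul_assoc]
    exact rmul K h3 d'
  have := Fintype.ofFinite κ
  have key : ∀ s : Finset κ, ∃ c c', c' * c = 1 ∧ ∀ j ∈ s, v j * c ∈ K := by
    intro s
    induction s using Finset.induction_on with
    | empty => exact ⟨1, 1, one_mul 1, by simp⟩
    | insert a s _ ih =>
      obtain ⟨c, c', h1, h2⟩ := ih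
      obtain ⟨c1, c1', h3, h4⟩ := one (v a * c)
      refine ⟨c * c1, c1' * c', ?_, fun j hj => ?_⟩
      · rw [mul_assoc, ← mul_assoc c', h1, one_mul, h3]
      · rw [← mul_assoc]
        rcases Finset.mem_insert.mp hj with rfl | hj
        exacts [h4, rmul K (h2 j hj) c1]
  obtain ⟨c, c', h1, h2⟩ := key Finset.univ
  exact ⟨c, c', h1, fun j => h2 j (Finset.mem_univ j)⟩

end Pool.Agent.Work.MP_c4093f_al
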