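import Pool.Agent.Work.MP_c4093f_al.Free1

/-!
Freeness: a linearly independent family becomes free after one left multiplication.

* `scalar_of`: with `v = y1 - a y2`, `c = x1 a + x2` get `y1 z x1 a + y1 z x2 = a y2 z x1 a + a y2 z x2`;
  `y1 z x2 = 0`, `y2 z x1 = 0`; so `y1 z x1 = y2 z x2` is central, a scalar, and
  `z = (x1 y1 + x2 y2) z (x1 y1 + x2 y2)` is that scalar.
* `fr`: induction on the size (say over `Fin n`, or over finsets).  Step one (`fr1`): for
  independent `b0, b i` there are `x, c` with `x b0 c = 1`, `x (b i) c = 0`.  Suppose instead that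
  `v (b i) c = 0` for all `i` implies `v b0 c = 0`.  Take `x (b i) (c l) = δ` by induction and
  `p b0' q = 1` where `b0' = b0 - ∑ λ l • b l ≠ 0` and `λ l` is the scalar `x b0 (c l)`
  (`scalar_of`: `v c0 = 0` gives `(v x) (b i) (c l c0) = 0`).  By `sm` there are `u u' = 1`,
  `ω' ω = 1` with `u p (b i) (c l) ω = 0` and `u p b0 (c l) ω = 0`.  Put `x~ = ω' x + u p`,
  `c~ l = c l ω`.  For `y ∈ {x, x~}` with its columns `d l`: `y (b i) (d l) = δ`,
  `y b0' (d l) = 0`, and `t = 1 - ∑ d l y (b l)` has `y (b i) t = 0`, hence `y b0' t = 0` (the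
  assumption also holds for `b0'`), hence `y b0' = 0`.  So `u p b0' = 0`, `u = 0`, absurd.
  Step two (glue): given `x (b i) (c l) = δ` for all `i` and all `l` in a set `s`, and
  `x2 (b i) c0 = δ i l0`, use `sm` twice: `u1 (x (b i) c0) ω2 = 0`, then
  `u~ (ω2' x2 (b i) (c l) u1') ω~ = 0`; put `x' = ω~' u1 x + u~ ω2' x2`, `c' l = c l u1' ω~`,
  `c' l0 = c0 ω2 u~'`.  If the index type is empty take `x = 1`; else `x (b i * c i) = 1`.
* `frspan`: choose a basis of the span of `g` among the `g i` (`exists_linearIndependent`, or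
  `Module.finBasis` of the span), add `d`, apply `fr`.
* `ue`: `e = 1 - ∑ c l q l`, `e' = 1 - ∑ c' l q' l` are nonzero idempotents, `e = α α'`,
  `e' = β β'` (`PI.idem`); `U = ∑ c l q' l + α β'`, inverse `∑ c' l q l + β α'`.
* `letters`: basis `w : Fin r → A` of the span of `s`, `fr` gives `x0`; put `x = y1 x0`,
  `q l = x w l`, columns `c l x1`; room: `q l (c 0 x2) = 0`, `c 0 x2 ≠ 0` (if `r = 0` all `s j = 0`).
  The letters `B.n l`, `B.c l` have room because of `B.c r`.  Apply `ue`.
* `av2`: basis `b` of the span, `x (b i) (c l) = δ`; `u1 = y1 x`, `u2 = y2 x`,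
  `π = ∑ l, c l x1 u1 (b l)`.
-/

namespace Pool.Agent.Work.MP_c4093f_al

variable {k A : Type} [Field k] [Ring A] [Algebra k A]

theorem scalar_of (lv : Lv A) (hC : Cen k A) {z : A}
    (h : ∀ v c, v * c = 0 → v * z * c = 0) : ∃ l : k, z = algebraMap k A l := by
  have h12 := h _ _ lv.h12
  have h21 := h _ _ lv.h21
  have key : ∀ a, lv.y1 * z * lv.x1 * a = a * (lv.y2 * z * lv.x2) := fun a => by
    have h1 := h (lv.y1 - a * lv.y2) (lv.x1 * a + lv.x2) (by
      calc _ = lv.y1 * lv.x1 * a + lv.y1 * lv.x2 - a * (lv.y2 * lv.x1) * a - a * (lv.y2 * lv.x2) := by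
            noncomm_ring
        _ = 0 := by rw [lv.h11, lv.h12, lv.h21, lv.h22]; simp)
    have h2 : (lv.y1 - a * lv.y2) * z * (lv.x1 * a + lv.x2) = lv.y1 * z * lv.x1 * a
        + lv.y1 * z * lv.x2 - a * (lv.y2 * z * lv.x1) * a - a * (lv.y2 * z * lv.x2) := by
      noncomm_ring
    rw [h2, h12, h21, add_zero, mul_zero, zero_mul, sub_zero, sub_eq_zero] at h1
    exact h1
  have h1 := key 1
  rw [mul_one, one_mul] at h1
  obtain ⟨l, hl⟩ := hC (lv.y2 * z * lv.x2) fun a => by rw [← key, h1]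
  refine ⟨l, ?_⟩
  calc z = (lv.x1 * lv.y1 + lv.x2 * lv.y2) * z * (lv.x1 * lv.y1 + lv.x2 * lv.y2) := by
        rw [lv.hs, one_mul, mul_one]
    _ = lv.x1 * (lv.y1 * z * lv.x1) * lv.y1 + lv.x1 * (lv.y1 * z * lv.x2) * lv.y2
        + lv.x2 * (lv.y2 * z * lv.x1) * lv.y1 + lv.x2 * (lv.y2 * z * lv.x2) * lv.y2 := by
        noncomm_ring
    _ = algebraMap k A l * (lv.x1 * lv.y1 + lv.x2 * lv.y2) := by
        rw [h1, h12, h21, hl, ← Algebra.commutes, ← Algebra.commutes]
        noncomm_ring
    _ = _ := by rw [lv.hs, mul_one]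

theorem Free2_one [Nontrivial A] (hP : PI A) (lv : Lv A) (hC : Cen k A) {ι : Type} [Fintype ι]
    [DecidableEq ι] {b c : ι → A} {x b0 : A}
    (hx : ∀ i l, x * b i * c l = if i = l then 1 else 0)
    (hb : b0 ∉ Submodule.span k (Set.range b)) :
    ∃ y d, y * b0 * d = 1 ∧ ∀ i, y * b i * d = 0 := by
  by_cases H : ∀ v d, (∀ i, v * b i * d = 0) → v * b0 * d = 0
  swap
  · push Not at H
    obtain ⟨v, d, h1, h2⟩ := H
    obtain ⟨p, q, h3⟩ := hP.one h2
    refine ⟨p * v, d * q, by rw [← h3]; noncomm_ring, fun i => ?_⟩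
    calc _ = p * (v * b i * d) * q := by noncomm_ring
      _ = 0 := by rw [h1, mul_zero, zero_mul]
  exfalso
  have h1 : ∀ l, ∃ m : k, x * b0 * c l = algebraMap k A m := fun l =>
    scalar_of lv hC fun v d hv => by
      have := H (v * x) (c l * d) fun i => by
        calc _ = v * (x * b i * c l) * d := by noncomm_ring
          _ = 0 := by rw [hx]; split_ifs <;> simp [hv]
      rw [← this]; noncomm_ring
  choose m hm using h1
  set b1 := b0 - ∑ l, m l • b l with hb1
  have h2 : b1 ≠ 0 := fun h => hb (by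
    rw [hb1, sub_eq_zero] at h
    rw [h]
    exact Submodule.sum_mem _ fun l _ => Submodule.smul_mem _ _ (Submodule.subset_span ⟨l, rfl⟩))
  have H1 : ∀ v d, (∀ i, v * b i * d = 0) → v * b1 * d = 0 := fun v d hv => by
    simp only [hb1, mul_sub, sub_mul, Finset.mul_sum, Finset.sum_mul, mul_smul_comm,
      smul_mul_assoc, hv, H v d hv, smul_zero, Finset.sum_const_zero, sub_zero]
  have h3 : ∀ l, x * b1 * c l = 0 := fun l => by
    simp only [hb1, mul_sub, sub_mul, Finset.mul_sum, Finset.sum_mul, mul_smul_comm,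
      smul_mul_assoc, hx, hm, smul_ite, smul_zero, Finset.sum_ite_eq', Finset.mem_univ, if_true,
      Algebra.algebraMap_eq_smul_one, sub_self]
  have key : ∀ (y : A) (d : ι → A), (∀ i l, y * b i * d l = if i = l then 1 else 0) →
      (∀ l, y * b1 * d l = 0) → y * b1 = 0 := fun y d h4 h5 => by
    have h6 := H1 y (1 - ∑ l, d l * (y * b l)) fun i => by
      simp only [mul_sub, mul_one, Finset.mul_sum, ← mul_assoc _ (d _), h4, ite_mul, one_mul,
        zero_mul, Finset.sum_ite_eq, Finset.mem_univ, if_true, sub_self]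
    simpa only [mul_sub, mul_one, Finset.mul_sum, ← mul_assoc _ (d _), h5, zero_mul,
      Finset.sum_const_zero, sub_zero] using h6
  obtain ⟨p, q, hpq⟩ := hP.one h2
  obtain ⟨u, u', ω, ω', h4, h5, h6⟩ :=
    sm hP lv (fun j : Option ι × ι => p * j.1.elim b1 b * c j.2)
  have h7 := key (ω' * x + u * p) (fun l => c l * ω) (fun i l => by
    calc _ = ω' * (x * b i * c l) * ω + u * (p * b i * c l) * ω := by noncomm_ring
      _ = _ := by
        rw [show u * (p * b i * c l) * ω = 0 from h6 (some i, l), hx]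
        split_ifs <;> simp [h5]) fun l => by
    calc _ = ω' * (x * b1 * c l) * ω + u * (p * b1 * c l) * ω := by noncomm_ring
      _ = _ := by
        rw [show u * (p * b1 * c l) * ω = 0 from h6 (none, l), h3]
        simp
  rw [add_mul, mul_assoc ω', key x c hx h3, mul_zero, zero_add] at h7
  have h8 : u = 0 := by
    calc u = u * (p * b1 * q) := by rw [hpq, mul_one]
      _ = u * p * b1 * q := by noncomm_ring
      _ = 0 := by rw [h7, zero_mul]
  rw [h8, zero_mul] at h4
  exact zero_ne_one h4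

theorem Free2_fr [Nontrivial A] (hP : PI A) (lv : Lv A) (hC : Cen k A) (ι : Type) [Finite ι] :
    ∀ b : ι → A, LinearIndependent k b → ∃ (x : A) (c : ι → A),
      (∀ i, x * b i * c i = 1) ∧ ∀ i l, i ≠ l → x * b i * c l = 0 := by
  classical
  induction ι using Finite.induction_empty_option with
  | of_equiv e ih =>
    intro b hb
    obtain ⟨x, c, h1, h2⟩ := ih (b ∘ e) (hb.comp e e.injective)
    refine ⟨x, c ∘ e.symm, fun i => ?_, fun i l h => ?_⟩
    · simpa using h1 (e.symm i)
    · simpa using h2 (e.symm i) (e.symm l) (e.symm.injective.ne h)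
  | h_empty => exact fun b _ => ⟨1, fun i => i.elim, fun i => i.elim, fun i => i.elim⟩
  | @h_option ι _ ih =>
    intro b hb
    rw [linearIndependent_option] at hb
    obtain ⟨x, c, h1, h2⟩ := ih _ hb.1
    obtain ⟨y, d, h3, h4⟩ := Free2_one hP lv hC (x := x) (c := c) (fun i l => by
      split_ifs with h
      · rw [← h]; exact h1 i
      · exact h2 i l h) hb.2
    simp only [Function.comp_apply] at h1 h2 h4
    obtain ⟨u1, u1', ω2, ω2', e1, e2, e3⟩ := sm hP lv (fun i => x * b i * d)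
    obtain ⟨u, u', ω, ω', e4, e5, e6⟩ :=
      sm hP lv (fun j : Option ι × ι => ω2' * y * b j.1 * c j.2 * u1')
    set X := ω' * u1 * x + u * ω2' * y with hX
    have f1 : ∀ i l, X * b i * (c l * u1' * ω) = ω' * u1 * (x * b i * c l) * u1' * ω :=
      fun i l => by
        calc _ = ω' * u1 * (x * b i * c l) * u1' * ω + u * (ω2' * y * b i * c l * u1') * ω := by
              rw [hX]; noncomm_ring
          _ = _ := by rw [e6 (i, l), add_zero]
    have f2 : ∀ i, X * b i * (d * ω2 * u') = u * ω2' * (y * b i * d) * ω2 * u' := fun i => by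
      calc _ = ω' * (u1 * (x * b i * d) * ω2) * u' + u * ω2' * (y * b i * d) * ω2 * u' := by
            rw [hX]; noncomm_ring
        _ = _ := by rw [e3, mul_zero, zero_mul, zero_add]
    have f3 : X * b none * (d * ω2 * u') = 1 := by
      rw [f2, h3, mul_one, mul_assoc u, e2, mul_one, e4]
    have f4 : ∀ i, X * b (some i) * (d * ω2 * u') = 0 := fun i => by
      rw [f2, h4, mul_zero, zero_mul, zero_mul]
    refine ⟨X, fun o => o.elim (d * ω2 * u') fun l =>
      c l * u1' * ω - d * ω2 * u' * (X * b none * (c l * u1' * ω)), ?_, ?_⟩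
    · rintro (_ | i)
      · exact f3
      · simp only [Option.elim]
        rw [mul_sub, ← mul_assoc _ (d * ω2 * u'), f4, zero_mul, sub_zero, f1, h1, mul_one,
          mul_assoc ω', e1, mul_one, e5]
    · rintro (_ | i) (_ | l) h
      · exact absurd rfl h
      · simp only [Option.elim]
        rw [mul_sub, ← mul_assoc _ (d * ω2 * u'), f3, one_mul, sub_self]
      · exact f4 i
      · simp only [Option.elim]
        rw [mul_sub, ← mul_assoc _ (d * ω2 * u'), f4, zero_mul, sub_zero, f1,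
          h2 i l (fun e => h (congrArg some e)), mul_zero, zero_mul, zero_mul]

theorem Free2_span {ι : Type} {g : ι → A} {N : Submodule k A} {x c w : A}
    (h : ∀ i, x * g i * c ∈ N) (hw : w ∈ Submodule.span k (Set.range g)) : x * w * c ∈ N := by
  induction hw using Submodule.span_induction with
  | mem w hw => obtain ⟨i, rfl⟩ := hw; exact h i
  | zero => simp
  | add a b _ _ ha hb => rw [mul_add, add_mul]; exact N.add_mem ha hb
  | smul l a _ ha => rw [mul_smul_comm, smul_mul_assoc]; exact N.smul_mem l ha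

theorem fr [Nontrivial A] (hP : PI A) (lv : Lv A) (hC : Cen k A) {ι : Type} [Finite ι]
    [DecidableEq ι] {b : ι → A} (hb : LinearIndependent k b) :
    ∃ (x x' : A) (c : ι → A), x * x' = 1 ∧ ∀ i l, x * b i * c l = if i = l then 1 else 0 := by
  obtain ⟨x, c, h1, h2⟩ := Free2_fr hP lv hC ι b hb
  rcases isEmpty_or_nonempty ι with h | ⟨⟨i0⟩⟩
  · exact ⟨1, 1, c, mul_one _, fun i => isEmptyElim i⟩
  refine ⟨x, b i0 * c i0, c, by rw [← mul_assoc, h1], fun i l => ?_⟩
  split_ifs with h
  · rw [← h]; exact h1 i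
  · exact h2 i l h

theorem frspan [Nontrivial A] (hP : PI A) (lv : Lv A) (hC : Cen k A) {ι : Type} [Finite ι]
    (g : ι → A) {d : A} (hd : d ∉ Submodule.span k (Set.range g)) :
    ∃ x c, x * d * c = 1 ∧ ∀ i, x * g i * c = 0 := by
  classical
  obtain ⟨κ, a, ha, hs, hl⟩ := exists_linearIndependent' k g
  have := Finite.of_injective a ha
  have := Fintype.ofFinite κ
  obtain ⟨x, -, c, -, h⟩ := fr hP lv hC hl
  obtain ⟨y, e, h1, h2⟩ := Free2_one hP lv hC h (hs ▸ hd)
  refine ⟨y, e, h1, fun i => ?_⟩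
  exact Free2_span (k := k) (N := ⊥) (g := g ∘ a) h2
    (hs ▸ Submodule.subset_span (Set.mem_range_self i))

theorem Free2_prod {ι : Type} [Fintype ι] [DecidableEq ι] {q c : ι → A}
    (h : ∀ i l, q i * c l = if i = l then 1 else 0) (a b : ι → A) :
    (∑ l, a l * q l) * ∑ l, c l * b l = ∑ l, a l * b l := by
  rw [Finset.sum_mul]
  refine Finset.sum_congr rfl fun i _ => ?_
  simp only [Finset.mul_sum, mul_assoc, ← mul_assoc (q i), h, ite_mul, one_mul, zero_mul,
    mul_ite, mul_zero, Finset.sum_ite_eq, Finset.mem_univ, if_true]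

theorem Free2_room (hP : PI A) {ι : Type} [Fintype ι] [DecidableEq ι] {q c : ι → A}
    (h : ∀ i l, q i * c l = if i = l then 1 else 0) (hr : ∑ l, c l * q l ≠ 1) :
    ∃ α α', α' * α = 1 ∧ ∑ l, c l * q l + α * α' = 1 ∧ (∀ i, q i * α = 0) ∧
      ∀ l, α' * c l = 0 := by
  obtain ⟨α, α', h1, h2⟩ := hP.idem (e := 1 - ∑ l, c l * q l) (by
    rw [sub_mul, one_mul, mul_sub, mul_one, Free2_prod h, sub_self, sub_zero])
    (sub_ne_zero.2 hr.symm)
  refine ⟨α, α', h1, by rw [h2]; abel, fun i => ?_, fun l => ?_⟩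
  · have : q i * (α * α') = 0 := by
      simp only [h2, mul_sub, mul_one, Finset.mul_sum, ← mul_assoc, h, ite_mul, one_mul,
        zero_mul, Finset.sum_ite_eq, Finset.mem_univ, if_true, sub_self]
    rw [← mul_one (q i * α), ← h1, ← mul_assoc, mul_assoc (q i), this, zero_mul]
  · have : α * α' * c l = 0 := by
      simp only [h2, sub_mul, one_mul, Finset.sum_mul, mul_assoc, h, mul_ite, mul_one,
        mul_zero, Finset.sum_ite_eq', Finset.mem_univ, if_true, sub_self]
    rw [← one_mul (α' * c l), ← h1, mul_assoc, ← mul_assoc α, this, mul_zero]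

theorem Free2_ne {ι : Type} [Fintype ι] {q c : ι → A} {t : A} (ht : t ≠ 0)
    (h : ∀ l, q l * t = 0) : ∑ l, c l * q l ≠ 1 := fun h1 => ht (by
  rw [← one_mul t, ← h1]
  simp only [Finset.sum_mul, mul_assoc, h, mul_zero, Finset.sum_const_zero])

theorem ue (hP : PI A) {ι : Type} [Fintype ι] [DecidableEq ι] (q c q' c' : ι → A)
    (h : ∀ i l, q i * c l = if i = l then 1 else 0)
    (h' : ∀ i l, q' i * c' l = if i = l then 1 else 0)
    (hr : ∑ l, c l * q l ≠ 1) (hr' : ∑ l, c' l * q' l ≠ 1) :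
    ∃ U U' : A, U * U' = 1 ∧ U' * U = 1 ∧ ∀ i, q i * U = q' i := by
  obtain ⟨α, α', a1, a2, a3, a4⟩ := Free2_room hP h hr
  obtain ⟨β, β', b1, b2, b3, b4⟩ := Free2_room hP h' hr'
  refine ⟨∑ l, c l * q' l + α * β', ∑ l, c' l * q l + β * α', ?_, ?_, fun i => ?_⟩
  · rw [add_mul, mul_add, mul_add, Free2_prod h', ← a2, mul_assoc α β' (β * α'), ← mul_assoc β',
      b1, one_mul]
    simp only [Finset.sum_mul, Finset.mul_sum, mul_assoc, ← mul_assoc (q' _), ← mul_assoc β', b3,
      b4, zero_mul, mul_zero, Finset.sum_const_zero, add_zero, zero_add]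
  · rw [add_mul, mul_add, mul_add, Free2_prod h, ← b2, mul_assoc β α' (α * β'), ← mul_assoc α',
      a1, one_mul]
    simp only [Finset.sum_mul, Finset.mul_sum, mul_assoc, ← mul_assoc (q _), ← mul_assoc α', a3,
      a4, zero_mul, mul_zero, Finset.sum_const_zero, add_zero, zero_add]
  · simp only [mul_add, Finset.mul_sum, ← mul_assoc, h, a3, ite_mul, one_mul, zero_mul,
      Finset.sum_ite_eq, Finset.mem_univ, if_true, add_zero]

theorem letters [Nontrivial A] (hP : PI A) (B : Base k A) (hC : Cen k A) {ι : Type} [Finite ι]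
    (s : ι → A) : ∃ x x' U U' : A, x * x' = 1 ∧ U * U' = 1 ∧ U' * U = 1 ∧
      ∀ j, x * s j * U ∈ Submodule.span k (Set.range B.n) := by
  classical
  obtain ⟨κ, a, ha, hs, hl⟩ := exists_linearIndependent' k s
  have := Finite.of_injective a ha
  have := Fintype.ofFinite κ
  obtain ⟨x, x', c, hx, h⟩ := fr hP B.lv hC hl
  obtain ⟨e, he⟩ := exists_injective_nat (Option κ)
  have h1 : ∀ i l (y z : A), y * x * (s ∘ a) i * (c l * z) = if i = l then y * z else 0 :=
    fun i l y z => by
      calc _ = y * (x * (s ∘ a) i * c l) * z := by noncomm_ring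
        _ = _ := by rw [h]; split_ifs <;> simp
  obtain ⟨U, U', u1, u2, u3⟩ := ue hP (fun i => B.lv.y1 * x * (s ∘ a) i) (fun l => c l * B.lv.x1)
    (fun i => B.n (e (some i))) (fun l => B.c (e (some l)))
    (fun i l => by rw [h1, B.lv.h11]) (fun i l => by simp [B.hnc, he.eq_iff])
    (by
      rcases isEmpty_or_nonempty κ with h0 | ⟨⟨i0⟩⟩
      · simp
      refine Free2_ne (t := c i0 * B.lv.x2) (fun h2 => ?_) fun l => by
        rw [h1, B.lv.h12, ite_self]
      have h3 := h1 i0 i0 B.lv.y2 B.lv.x2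
      rw [h2, mul_zero, if_pos rfl, B.lv.h22] at h3
      exact zero_ne_one h3)
    (by
      refine Free2_ne (t := B.c (e none)) (fun h2 => ?_) fun l => by simp [B.hnc, he.eq_iff]
      have h3 := B.hnc (e none) (e none)
      rw [h2, mul_zero, if_pos rfl] at h3
      exact zero_ne_one h3)
  refine ⟨B.lv.y1 * x, x' * B.lv.x1, U, U', ?_, u1, u2, fun j => ?_⟩
  · rw [mul_assoc, ← mul_assoc x, hx, one_mul, B.lv.h11]
  · refine Free2_span (g := s ∘ a) (fun i => ?_) (hs ▸ Submodule.subset_span ⟨j, rfl⟩)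
    rw [u3]
    exact Submodule.subset_span ⟨_, rfl⟩

theorem av2 [Nontrivial A] (hP : PI A) (lv : Lv A) (hC : Cen k A) {ι : Type} [Finite ι]
    (s : ι → A) : ∃ u1 u2 π : A,
      (∀ w ∈ Submodule.span k (Set.range s), u1 * w = 0 → w = 0) ∧
      (∀ w ∈ Submodule.span k (Set.range s), u2 * w = 0 → w = 0) ∧
      ∀ j, u1 * s j * π = u1 * s j ∧ u2 * s j * π = 0 := by
  classical
  obtain ⟨κ, a, ha, hs, hl⟩ := exists_linearIndependent' k s
  have := Finite.of_injective a ha
  have := Fintype.ofFinite κ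
  obtain ⟨x, -, c, -, h⟩ := fr hP lv hC hl
  set b := s ∘ a with hb
  have h1 : ∀ i l (y z : A), y * x * b i * (c l * z) = if i = l then y * z else 0 :=
    fun i l y z => by
      calc _ = y * (x * b i * c l) * z := by noncomm_ring
        _ = _ := by rw [h]; split_ifs <;> simp
  have h2 : ∀ y z : A, y * z = 1 → ∀ w ∈ Submodule.span k (Set.range s), y * x * w = 0 → w = 0 := by
    intro y z hy w hw h0
    rw [← hs, Submodule.mem_span_range_iff_exists_fun] at hw
    obtain ⟨m, rfl⟩ := hw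
    refine Finset.sum_eq_zero fun l _ => ?_
    have h3 := congrArg (· * (c l * z)) h0
    simp only [Finset.mul_sum, Finset.sum_mul, mul_smul_comm, smul_mul_assoc, h1, hy, smul_ite,
      smul_zero, Finset.sum_ite_eq', Finset.mem_univ, if_true, zero_mul] at h3
    rw [← one_mul (b l), ← smul_mul_assoc, h3, zero_mul]
  have h3 : ∀ (y : A) i, y * x * b i * ∑ l, c l * (lv.x1 * (lv.y1 * x * b l)) =
      y * (lv.x1 * (lv.y1 * x * b i)) := fun y i => by
    simp only [Finset.mul_sum, h1, Finset.sum_ite_eq, Finset.mem_univ, if_true]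
  refine ⟨lv.y1 * x, lv.y2 * x, ∑ l, c l * (lv.x1 * (lv.y1 * x * b l)), h2 _ _ lv.h11,
    h2 _ _ lv.h22, fun j => ⟨?_, ?_⟩⟩
  · have h4 := Free2_span (k := k) (N := ⊥) (g := b) (x := lv.y1 * x)
      (c := ∑ l, c l * (lv.x1 * (lv.y1 * x * b l)) - 1) (w := s j) (fun i => by
        rw [mul_sub, h3, ← mul_assoc lv.y1, lv.h11, one_mul, mul_one, sub_self]
        exact Submodule.zero_mem _) (hs ▸ Submodule.subset_span ⟨j, rfl⟩)
    rwa [Submodule.mem_bot, mul_sub, mul_one, sub_eq_zero] at h4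
  · refine Free2_span (k := k) (N := ⊥) (g := b) (fun i => ?_)
      (hs ▸ Submodule.subset_span ⟨j, rfl⟩)
    rw [h3, ← mul_assoc lv.y2, lv.h21, zero_mul]
    exact Submodule.zero_mem _

end Pool.Agent.Work.MP_c4093f_al
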