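import Pool.Agent.Work.MP_c4093f_al.Free1

/-!
Density, and relations in a module pinned by an endomorphism.

* `span_aux` (Jacobson density by hand), induction on `s`, for all `q0`.  Let
  `N = {x | ∀ j ∈ s, q j * x ∈ Ij j}`.  Step `insert t s`: if `N ≤ lq (Ij t) (q t)` use the
  hypothesis for `s`.  Else pick `n ∈ N` with `q t * n - 1 ∈ Ij t`, `b = q0 n`; for `h ∈ Ij t`,
  `n h` lies in the smaller intersection, so `b h ∈ I0`.  If `Ij t = I0` then `b - λ ∈ I0`, else
  `b ∈ I0` and `λ = 0`.  For `m ∈ N`, `m - n (q t) m` lies in the smaller intersection, so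
  `(q0 - λ • q t) m ∈ I0`; apply the hypothesis for `s` to `q0 - λ • q t`.
* `span`: contrapose `span_aux` with `s = univ`, then use maximality of `I0`.
* `sub`.  The right ideal `K' + ∑ a^l y A` is stable under `a` and larger than `K'`, so
  `1 = ∑ l ≤ N0, a^l y d l + κ`.  Fix a Leavitt family `xs, ys`.  For `N` let
  `I N = lq K' (∑ l ≤ N, a^l y (ys l))` and `ν' (b, l) = ν b * ys l`.  If the hypothesis of `comb`
  holds for some `N`, take `c l = ys l * ω`.  Otherwise for every `N ≥ N0` there is `λ ≠ 0` with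
  `∑ l, v l * c l ∈ K` whenever `∑ a^l y (c l) ∈ K'` (`v l = ∑ b, λ (b, l) • ν b`, use
  `ω = ∑ xs l * c l`).  Put `h = ∑ v l * d l` (`d l = 0` for `l > N0`).  Then `h K' ⊆ K`
  (`c l = d l x`), `h a^j y - v j ∈ K` for `j ≤ N` (`c l = d l a^j y - δ`), and `h ∉ K`.
  Work in the `k`-space `Q = A ⧸ K`: `H N = {h | h K' ⊆ K, h a^l y ∈ span ν + K for l ≤ N}` has
  a nonzero finite dimensional image for `N ≥ N0` (`h ↦ (h a^l y) l ≤ N0` has kernel `K`), the
  images decrease, so they stabilise; `h ↦ h a` maps `H (N + 1)` to `H N`; an eigenvector gives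
  `h (a - m) ∈ K`, `h ∉ K`, and `(a - m) w - 1 ∈ K'` gives `h ∈ K`.
* `bfree`: if `y I ⊆ K'`, `y ∉ K'`, apply `sub` with `K = I`, `ν = fun _ : Unit => 1`, then
  `span` to find `e` with `c 0 e - 1 ∈ I`, `c l e ∈ I` for `l ≠ 0`; conclude `y ∈ K'`.
-/

namespace Pool.Agent.Work.MP_c4093f_al

variable {k A : Type} [Field k] [Ring A] [Algebra k A]

theorem span_aux {ι : Type} {I0 : RI A} (h0 : SimpK k I0) (Ij : ι → RI A) (hM : ∀ j, MaxR (Ij j))
    (hT : ∀ j, Ij j = I0 ∨ SFree (Ij j) I0) (q : ι → A) (s : Finset ι) (q0 : A)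
    (h : ∀ x, (∀ j ∈ s, q j * x ∈ Ij j) → q0 * x ∈ I0) :
    ∃ l : ι → k, (∀ j, Ij j ≠ I0 → l j = 0) ∧ q0 - ∑ j ∈ s, l j • q j ∈ I0 := by
  classical
  induction s using Finset.induction_on generalizing q0 with
  | empty =>
    refine ⟨0, fun _ _ => rfl, ?_⟩
    simpa using h 1 (by simp)
  | insert t s ht ih =>
    have key : ∀ (lam : k), (Ij t ≠ I0 → lam = 0) →
        (∀ x, (∀ j ∈ s, q j * x ∈ Ij j) → (q0 - lam • q t) * x ∈ I0) →
        ∃ l : ι → k, (∀ j, Ij j ≠ I0 → l j = 0) ∧ q0 - ∑ j ∈ insert t s, l j • q j ∈ I0 := by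
      intro lam hlam hx
      obtain ⟨l, hl0, hl⟩ := ih (q0 - lam • q t) hx
      refine ⟨Function.update l t lam, fun j hj => ?_, ?_⟩
      · by_cases hjt : j = t
        · subst hjt
          rw [Function.update_self]
          exact hlam hj
        · rw [Function.update_of_ne hjt]
          exact hl0 j hj
      · rw [Finset.sum_insert ht, Function.update_self]
        have e : ∑ j ∈ s, Function.update l t lam j • q j = ∑ j ∈ s, l j • q j := by
          refine Finset.sum_congr rfl fun j hj => ?_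
          rw [Function.update_of_ne (by rintro rfl; exact ht hj)]
        rw [e, ← sub_sub]
        exact hl
    by_cases hN : ∀ x, (∀ j ∈ s, q j * x ∈ Ij j) → q t * x ∈ Ij t
    · refine key 0 (fun _ => rfl) fun x hx => ?_
      rw [zero_smul, sub_zero]
      refine h x fun j hj => ?_
      rcases Finset.mem_insert.1 hj with rfl | hj
      · exact hN x hx
      · exact hx j hj
    · push Not at hN
      obtain ⟨n0, hn0, hn0t⟩ := hN
      obtain ⟨d, hd⟩ := (hM t).2 _ hn0t
      have hn : ∀ j ∈ s, q j * (n0 * d) ∈ Ij j := fun j hj => by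
        rw [← mul_assoc]
        exact rmul _ (hn0 j hj) d
      rw [mul_assoc] at hd
      generalize n0 * d = n at hn hd
      have hb : ∀ p ∈ Ij t, q0 * n * p ∈ I0 := fun p hp => by
        rw [mul_assoc]
        refine h _ fun j hj => ?_
        rcases Finset.mem_insert.1 hj with rfl | hj
        · have e : q j * (n * p) = (q j * n - 1) * p + p := by noncomm_ring
          rw [e]
          exact (Ij j).add_mem (rmul _ hd p) hp
        · rw [← mul_assoc]
          exact rmul _ (hn j hj) p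
      obtain ⟨lam, hlam0, hlam⟩ : ∃ lam : k, (Ij t ≠ I0 → lam = 0) ∧
          q0 * n - algebraMap k A lam ∈ I0 := by
        by_cases hI : Ij t = I0
        · obtain ⟨lam, hlam⟩ := h0.2 (q0 * n) (fun p hp => hb p (hI ▸ hp))
          exact ⟨lam, fun h' => absurd hI h', hlam⟩
        · refine ⟨0, fun _ => rfl, ?_⟩
          rw [map_zero, sub_zero]
          exact ((hT t).resolve_left hI) _ hb
      refine key lam hlam0 fun m hm => ?_
      have h1 : q0 * (m - n * (q t * m)) ∈ I0 := by
        refine h _ fun j hj => ?_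
        rcases Finset.mem_insert.1 hj with rfl | hj
        · have e : q j * (m - n * (q j * m)) = -((q j * n - 1) * (q j * m)) := by noncomm_ring
          rw [e]
          exact (Ij j).neg_mem (rmul _ hd _)
        · rw [mul_sub, ← mul_assoc]
          exact (Ij j).sub_mem (hm j hj) (rmul _ (hn j hj) _)
      have h2 := rmul _ hlam (q t * m)
      have e : (q0 - lam • q t) * m =
          q0 * (m - n * (q t * m)) + (q0 * n - algebraMap k A lam) * (q t * m) := by
        rw [Algebra.smul_def]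
        noncomm_ring
      rw [e]
      exact I0.add_mem h1 h2

theorem span {ι : Type} [Fintype ι] {I0 : RI A} (h0 : SimpK k I0) (Ij : ι → RI A)
    (hM : ∀ j, MaxR (Ij j)) (hT : ∀ j, Ij j = I0 ∨ SFree (Ij j) I0) (q : ι → A) (q0 : A)
    (h : ∀ l : ι → k, (∀ j, Ij j ≠ I0 → l j = 0) → q0 - ∑ j, l j • q j ∉ I0) :
    ∃ e, q0 * e - 1 ∈ I0 ∧ ∀ j, q j * e ∈ Ij j := by
  have h1 : ¬ ∀ x, (∀ j ∈ (Finset.univ : Finset ι), q j * x ∈ Ij j) → q0 * x ∈ I0 := by
    intro hx
    obtain ⟨l, hl0, hl⟩ := span_aux h0 Ij hM hT q Finset.univ q0 hx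
    exact h l hl0 hl
  push Not at h1
  obtain ⟨x, hx, hx0⟩ := h1
  obtain ⟨d, hd⟩ := h0.1.2 _ hx0
  refine ⟨x * d, by rwa [← mul_assoc], fun j => ?_⟩
  rw [← mul_assoc]
  exact rmul _ (hx j (Finset.mem_univ j)) d

/-- powers of the pinning element preserve the pinned ideal -/
theorem Sub_pow {K' : RI A} {a : A} (hB : BPin k K' a) (n : ℕ) {x : A} (hx : x ∈ K') :
    a ^ n * x ∈ K' := by
  induction n with
  | zero => simpa using hx
  | succ n ih =>
    rw [pow_succ', mul_assoc]
    exact hB.2.1 _ ih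

/-- a nonzero polynomial in the pinning element acts injectively on homomorphisms -/
theorem Sub_poly [IsAlgClosed k] {K' : RI A} {a : A} (hB : BPin k K' a) {K : RI A} (n : ℕ) :
    ∀ p : Polynomial k, p ≠ 0 → p.natDegree = n → ∀ h : A, (∀ x ∈ K', h * x ∈ K) →
      h * Polynomial.aeval a p ∈ K → h ∈ K := by
  induction n with
  | zero =>
    intro p hp hn h _ hK
    rw [Polynomial.eq_C_of_natDegree_eq_zero hn] at hK hp
    have hc : p.coeff 0 ≠ 0 := fun h0 => hp (by rw [h0, map_zero])
    have h2 := rmul _ hK (algebraMap k A (p.coeff 0)⁻¹)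
    rwa [Polynomial.aeval_C, mul_assoc, ← map_mul, mul_inv_cancel₀ hc, map_one, mul_one] at h2
  | succ n ih =>
    intro p hp hn h hh hK
    have hdeg : p.degree ≠ 0 := by
      intro h0
      rw [Polynomial.natDegree_eq_of_degree_eq_some (n := 0) h0] at hn
      omega
    obtain ⟨m, hm⟩ := IsAlgClosed.exists_root p hdeg
    obtain ⟨r, hr⟩ := Polynomial.dvd_iff_isRoot.2 hm
    have hr0 : r ≠ 0 := by
      rintro rfl
      exact hp (by rw [hr, mul_zero])
    have hrn : r.natDegree = n := by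
      rw [hr, Polynomial.natDegree_mul (Polynomial.X_sub_C_ne_zero m) hr0,
        Polynomial.natDegree_X_sub_C] at hn
      omega
    have h1 : h * (a - algebraMap k A m) ∈ K := by
      refine ih r hr0 hrn _ (fun x hx => ?_) ?_
      · rw [mul_assoc]
        refine hh _ ?_
        rw [sub_mul, ← Algebra.smul_def]
        exact K'.sub_mem (hB.2.1 x hx) (ksmul _ hx m)
      · rw [hr, map_mul, map_sub, Polynomial.aeval_X, Polynomial.aeval_C, ← mul_assoc] at hK
        exact hK
    obtain ⟨w, hw⟩ := hB.2.2.1 m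
    have e : h = h * (a - algebraMap k A m) * w - h * ((a - algebraMap k A m) * w - 1) := by
      noncomm_ring
    rw [e]
    exact K.sub_mem (rmul _ h1 w) (hh _ hw)

/-- the orbit of an element outside the pinned ideal generates the quotient -/
theorem Sub_gen {K' : RI A} {a : A} (hB : BPin k K' a) {y : A} (hy : y ∉ K') :
    ∃ (n : ℕ) (d : ℕ → A), (∀ l, n ≤ l → d l = 0) ∧
      1 - ∑ l ∈ Finset.range n, a ^ l * y * d l ∈ K' := by
  have hext : ∀ (n n' : ℕ) (d : ℕ → A), (∀ l, n ≤ l → d l = 0) → n ≤ n' →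
      ∑ l ∈ Finset.range n', a ^ l * y * d l = ∑ l ∈ Finset.range n, a ^ l * y * d l := by
    intro n n' d hd hn
    symm
    refine Finset.sum_subset (Finset.range_mono hn) fun l _ hl => ?_
    rw [hd l (by simpa using hl), mul_zero]
  let N : RI A :=
    { carrier := {x | ∃ (n : ℕ) (d : ℕ → A), (∀ l, n ≤ l → d l = 0) ∧
        x - ∑ l ∈ Finset.range n, a ^ l * y * d l ∈ K'}
      zero_mem' := ⟨0, 0, fun _ _ => rfl, by simp⟩
      add_mem' := by
        rintro x x' ⟨n, d, hd, hx⟩ ⟨n', d', hd', hx'⟩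
        refine ⟨max n n', d + d', fun l hl => ?_, ?_⟩
        · rw [Pi.add_apply, hd l (le_trans (le_max_left _ _) hl),
            hd' l (le_trans (le_max_right _ _) hl), add_zero]
        · rw [← hext n (max n n') d hd (le_max_left _ _)] at hx
          rw [← hext n' (max n n') d' hd' (le_max_right _ _)] at hx'
          simp only [Pi.add_apply, mul_add, Finset.sum_add_distrib]
          rw [add_sub_add_comm]
          exact K'.add_mem hx hx'
      smul_mem' := by
        rintro r x ⟨n, d, hd, hx⟩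
        refine ⟨n, fun l => d l * r.unop, fun l hl => by simp only [hd l hl, zero_mul], ?_⟩
        have h2 := rmul _ hx r.unop
        rw [sub_mul, Finset.sum_mul] at h2
        simp only [MulOpposite.smul_eq_mul_unop, ← mul_assoc]
        exact h2 }
  have hle : K' ≤ N := fun x hx => ⟨0, 0, fun _ _ => rfl, by simpa using hx⟩
  have hst : ∀ x ∈ N, a * x ∈ N := by
    rintro x ⟨n, d, hd, hx⟩
    refine ⟨n + 1, fun l => Nat.casesOn l 0 d, fun l hl => ?_, ?_⟩
    · cases l with
      | zero => rfl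
      | succ l => exact hd l (by omega)
    · have h2 := hB.2.1 _ hx
      rw [mul_sub, Finset.mul_sum] at h2
      rw [Finset.sum_range_succ']
      simp only [Nat.rec_zero, mul_zero, add_zero, pow_succ', mul_assoc] at h2 ⊢
      exact h2
  rcases hB.2.2.2 N hle hst with h | h
  · exfalso
    apply hy
    rw [← h]
    refine ⟨1, fun l => Nat.casesOn l 1 0, fun l hl => ?_, by simp⟩
    cases l with
    | zero => omega
    | succ l => rfl
  · exact h

/-- a homomorphism whose values on a long orbit lie in a small space vanishes -/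
theorem Sub_fin [IsAlgClosed k] {K' : RI A} {a : A} (hB : BPin k K' a) {y : A} {ι : Type}
    [Fintype ι] {K : RI A} {ν : ι → A} (n : ℕ) (d : ℕ → A)
    (hd : 1 - ∑ l ∈ Finset.range n, a ^ l * y * d l ∈ K') (h : A) (hh : ∀ x ∈ K', h * x ∈ K)
    (μ : ℕ → ι → k)
    (hμ : ∀ j ≤ n + Module.finrank k (Fin n × ι → k), h * (a ^ j * y) - ∑ b, μ j b • ν b ∈ K) :
    h ∈ K := by
  classical
  set D := Module.finrank k (Fin n × ι → k) with hD
  have hdep : ¬ LinearIndependent k
      (fun (i : Fin (D + 1)) (lb : Fin n × ι) => μ ((i : ℕ) + (lb.1 : ℕ)) lb.2) := by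
    intro hli
    have := hli.fintype_card_le_finrank
    rw [Fintype.card_fin] at this
    omega
  obtain ⟨g, hg, i0, hi0⟩ := Fintype.not_linearIndependent_iff.1 hdep
  let p : Polynomial k := ∑ i : Fin (D + 1), Polynomial.monomial (i : ℕ) (g i)
  have hp : p ≠ 0 := by
    intro h0
    apply hi0
    have h1 : p.coeff i0 = g i0 := by
      simp only [p, Polynomial.finset_sum_coeff, Polynomial.coeff_monomial]
      rw [Finset.sum_eq_single i0]
      · simp
      · intro b _ hb
        rw [if_neg (fun e => hb (Fin.ext e))]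
      · simp
    rw [← h1, h0, Polynomial.coeff_zero]
  have hev : Polynomial.aeval a p = ∑ i : Fin (D + 1), g i • a ^ (i : ℕ) := by
    simp only [p, map_sum, Polynomial.aeval_monomial, Algebra.smul_def]
  refine Sub_poly hB _ p hp rfl h hh ?_
  have h1 : ∀ x ∈ K', h * Polynomial.aeval a p * x ∈ K := fun x hx => by
    rw [mul_assoc]
    refine hh _ ?_
    rw [hev, Finset.sum_mul]
    refine K'.sum_mem fun i _ => ?_
    rw [smul_mul_assoc]
    exact ksmul _ (Sub_pow hB _ hx) _
  have h2 : ∀ l < n, h * Polynomial.aeval a p * (a ^ l * y) ∈ K := fun l hl => by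
    have h3 : ∑ i : Fin (D + 1), g i • ∑ b, μ ((i : ℕ) + l) b • ν b = 0 := by
      simp only [Finset.smul_sum, smul_smul]
      rw [Finset.sum_comm]
      refine Finset.sum_eq_zero fun b _ => ?_
      rw [← Finset.sum_smul]
      have h4 := congrFun hg (⟨l, hl⟩, b)
      simp only [Finset.sum_apply, Pi.smul_apply, smul_eq_mul, Pi.zero_apply] at h4
      rw [h4, zero_smul]
    have h5 : h * Polynomial.aeval a p * (a ^ l * y) =
        ∑ i : Fin (D + 1), g i • (h * (a ^ ((i : ℕ) + l) * y) - ∑ b, μ ((i : ℕ) + l) b • ν b) := by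
      simp only [smul_sub, Finset.sum_sub_distrib]
      rw [h3, sub_zero, hev, Finset.mul_sum, Finset.sum_mul]
      refine Finset.sum_congr rfl fun i _ => ?_
      rw [mul_smul_comm, smul_mul_assoc, pow_add, mul_assoc, mul_assoc]
    rw [h5]
    refine K.sum_mem fun i _ => ksmul _ (hμ _ ?_) _
    have := i.2
    omega
  generalize h * Polynomial.aeval a p = h' at h1 h2
  have e : h' = h' * (1 - ∑ l ∈ Finset.range n, a ^ l * y * d l) +
      ∑ l ∈ Finset.range n, h' * (a ^ l * y) * d l := by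
    rw [mul_sub, mul_one, Finset.mul_sum]
    simp only [mul_assoc]
    rw [sub_add_cancel]
  rw [e]
  exact K.add_mem (h1 _ hd) (K.sum_mem fun l hl => rmul _ (h2 l (Finset.mem_range.1 hl)) _)

/-- the alternative given by `comb` -/
theorem Sub_alt (lv : Lv A) {K' : RI A} (N : ℕ) (u : Fin (N + 1) → A) {ι : Type} [Fintype ι]
    {K : RI A} (ν : ι → A) :
    (∃ c : Fin (N + 1) → A, ∑ l, u l * c l ∈ K' ∧
      IndK k K (fun bl : ι × Fin (N + 1) => ν bl.1 * c bl.2)) ∨
    ∃ lam : ι × Fin (N + 1) → k, lam ≠ 0 ∧ ∀ c : Fin (N + 1) → A, ∑ l, u l * c l ∈ K' →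
      ∑ l, (∑ b, lam (b, l) • ν b) * c l ∈ K := by
  classical
  obtain ⟨xs, ys, hxy⟩ := lv.fam (Fin (N + 1))
  by_cases hc : ∀ l : ι × Fin (N + 1) → k,
      (∀ x ∈ lq K' (∑ l, u l * ys l), (∑ i, l i • (ν i.1 * ys i.2)) * x ∈ K) → l = 0
  · left
    obtain ⟨ω, hω, hI⟩ := comb (k := k) lv K (lq K' (∑ l, u l * ys l))
      (fun i : ι × Fin (N + 1) => ν i.1 * ys i.2) hc
    refine ⟨fun l => ys l * ω, ?_, ?_⟩
    · rw [mem_lq, Finset.sum_mul] at hω
      simpa only [mul_assoc] using hω
    · simpa only [mul_assoc] using hI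
  · right
    push Not at hc
    obtain ⟨lam, hlam, h0⟩ := hc
    refine ⟨lam, h0, fun c hcK => ?_⟩
    have hy : ∀ l, ys l * ∑ j, xs j * c j = c l := fun l => by
      rw [Finset.mul_sum]
      simp only [← mul_assoc, hxy, ite_mul, one_mul, zero_mul]
      simp
    have h1 := hlam (∑ j, xs j * c j) (by
      rw [mem_lq, Finset.sum_mul]
      simpa only [mul_assoc, hy] using hcK)
    rw [Finset.sum_mul, Fintype.sum_prod_type_right] at h1
    simp only [smul_mul_assoc, mul_assoc, hy] at h1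
    simpa only [Finset.sum_mul, smul_mul_assoc] using h1

theorem sub [IsAlgClosed k] (lv : Lv A) {K' : RI A} {a : A} (hB : BPin k K' a) {y : A}
    (hy : y ∉ K') {ι : Type} [Fintype ι] {K : RI A} {ν : ι → A} (hν : IndK k K ν) :
    ∃ (N : ℕ) (c : Fin (N + 1) → A), ∑ l : Fin (N + 1), a ^ (l : ℕ) * y * c l ∈ K' ∧
      IndK k K (fun bl : ι × Fin (N + 1) => ν bl.1 * c bl.2) := by
  classical
  obtain ⟨n, d, hd0, hd⟩ := Sub_gen hB hy
  set N := n + Module.finrank k (Fin n × ι → k) with hN
  rcases Sub_alt (k := k) (K' := K') (K := K) lv N (fun l => a ^ (l : ℕ) * y) ν with h | h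
  · exact ⟨N, h⟩
  exfalso
  obtain ⟨lam, hlam0, hlam⟩ := h
  have hsum : ∑ l : Fin (N + 1), a ^ (l : ℕ) * y * d l =
      ∑ l ∈ Finset.range n, a ^ l * y * d l := by
    rw [Fin.sum_univ_eq_sum_range (fun l => a ^ l * y * d l)]
    symm
    refine Finset.sum_subset (Finset.range_mono (by omega)) fun l _ hl => ?_
    rw [hd0 l (by simpa using hl), mul_zero]
  set κ := 1 - ∑ l ∈ Finset.range n, a ^ l * y * d l with hκ
  have hκ' : ∑ l : Fin (N + 1), a ^ (l : ℕ) * y * d l = 1 - κ := by
    rw [hsum, hκ, sub_sub_cancel]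
  set v : Fin (N + 1) → A := fun l => ∑ b, lam (b, l) • ν b with hv
  have h1 : ∀ x ∈ K', (∑ l : Fin (N + 1), v l * d l) * x ∈ K := fun x hx => by
    have h2 := hlam (fun l => d l * x) (by
      simp only [← mul_assoc]
      rw [← Finset.sum_mul, hκ', sub_mul, one_mul]
      exact K'.sub_mem hx (rmul _ hd x))
    rw [Finset.sum_mul]
    simpa only [mul_assoc] using h2
  have h3 : ∀ j : Fin (N + 1),
      (∑ l : Fin (N + 1), v l * d l) * (a ^ (j : ℕ) * y) - v j ∈ K := fun j => by
    have h2 := hlam (fun l => d l * (a ^ (j : ℕ) * y) - if l = j then 1 else 0) (by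
      simp only [mul_sub, Finset.sum_sub_distrib, mul_ite, mul_one, mul_zero,
        Finset.sum_ite_eq', Finset.mem_univ, if_true, ← mul_assoc _ (d _)]
      rw [← Finset.sum_mul, hκ', sub_mul, one_mul, sub_sub_cancel_left]
      exact K'.neg_mem (rmul _ hd _))
    simp only [mul_sub, Finset.sum_sub_distrib, mul_ite, mul_one, mul_zero,
      Finset.sum_ite_eq', Finset.mem_univ, if_true, ← mul_assoc _ (d _)] at h2
    rw [← Finset.sum_mul] at h2
    exact h2
  have h4 : (∑ l : Fin (N + 1), v l * d l) ∈ K := by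
    refine Sub_fin (ν := ν) hB n d hd _ h1
      (fun j b => if hj : j < N + 1 then lam (b, ⟨j, hj⟩) else 0) fun j hj => ?_
    have hj' : j < N + 1 := by omega
    simp only [dif_pos hj']
    exact h3 ⟨j, hj'⟩
  apply hlam0
  funext ⟨b, j⟩
  have h5 : v j ∈ K := by
    have h6 := K.sub_mem (rmul _ h4 (a ^ (j : ℕ) * y)) (h3 j)
    rwa [sub_sub_cancel] at h6
  exact congrFun (hν (fun b => lam (b, j)) h5) b

theorem bfree [IsAlgClosed k] (lv : Lv A) {K' : RI A} {a : A} (hB : BPin k K' a) {I : RI A}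
    (hI : SimpK k I) : SFree I K' := by
  intro y hyI
  by_contra hy
  obtain ⟨N, c, hc, hind⟩ := sub lv hB hy (K := I) (ν := fun _ : Unit => (1 : A))
    (indK_one.2 hI.1.1)
  obtain ⟨e, he0, he⟩ := span hI (fun _ : Fin N => I) (fun _ => hI.1) (fun _ => Or.inl rfl)
    (fun j => c j.succ) (c 0) (fun l _ hl => by
      have h1 := hind (fun bl => (Fin.cons 1 (fun j => -l j) : Fin (N + 1) → k) bl.2) (by
        rw [Fintype.sum_prod_type]
        simp only [Finset.univ_unique, Finset.sum_singleton, one_mul, Fin.sum_univ_succ,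
          Fin.cons_zero, Fin.cons_succ, one_smul, neg_smul, Finset.sum_neg_distrib]
        rwa [← sub_eq_add_neg])
      have h2 := congrFun h1 ((), 0)
      simp at h2)
  apply hy
  have h1 := rmul _ hc e
  rw [Finset.sum_mul, Fin.sum_univ_succ] at h1
  have h2 : ∑ j : Fin N, a ^ ((j.succ : Fin (N + 1)) : ℕ) * y * c j.succ * e ∈ K' :=
    K'.sum_mem fun j _ => by
      rw [mul_assoc, mul_assoc]
      exact Sub_pow hB _ (hyI _ (he j))
  have h3 := K'.sub_mem (K'.sub_mem h1 h2) (hyI _ he0)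
  rw [add_sub_cancel_right] at h3
  simpa [mul_sub, mul_assoc] using h3

end Pool.Agent.Work.MP_c4093f_al
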