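import Pool.Agent.Work.MP_c4093f_al.M1a
import Pool.Agent.Work.MP_c4093f_al.Sub

/-!
Perturbation of a move, and the tasks for pins.

* `pert`: let `ε0 = ty j0`.  `span` (on the indices `j ≠ j0`, ideals `I (ty j)`, `VP.ne`) gives
  `e0` with `q j e0 - δ j j0 ∈ I (ty j)`.  Stage one: `mk1` gives `m1` whose rows kill these
  elements and `h0` (type `!ε0`).  Take `a ∈ m1.J ε0`, `a' a = 1` (`MaxR.exists_linv`),
  `e = e0 * m1.α ε0 * a`.  Stage two: a move `m2 : Mo m1.J` with `m2.α' ε0 * a = 0` and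
  `a' * m2.α ε0 = 0` (use `mk0` below the pair `γ γ' = 1 - a a'` from `PI.idem` at `ε0` and
  `(1, 1)` at `!ε0`).  For `m = m1.comp m2` all `m.α' (ty j) * q j * e = 0`, so the value at `e` is
  the constant `z e + ∑ p j (m.c (ty j)) q j e`.  If it is in `K'`, perturb: `θ = m.c (!ε0) * h0`
  (equal to `m1.c (!ε0) * h0`), `w = a' * m1.α' ε0`; `w θ = 0`, `w * m.α ε0 = 0`,
  `m.α' ε0 * θ = 0`; new `c ε0 = c ε0 (1 + θ w)`, `c (!ε0) = (1 - θ w) c (!ε0)`, same `α, α'`.
  The value changes by `p j0 h0`: `c ε0 θ = h0`, `w q j e = δ` for type `ε0`, and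
  `w c (!ε0) q j e = 0` for the other type.
* `gen`: `red`; if all `p j ∈ K'` the function is `z` modulo `K'`; else `SFree.lq_left` gives `h0`
  and `pert` applies.
* `m1_j`: `red` gives `m1` and a pencil.  `PI.dirR` in the right ideal spanned by `z` and the
  `p j` gives an idempotent `g` fixing them.  If `g ∈ K'`, first case.  Else the pin gives
  `(v, c) ∈ J`, `d0` with `g - v d0 ∈ K'`, `φ = c d0 ∉ P`; `φ (1 - g) ∈ P`, so `φ z` or some `φ p j`
  is not in `P`.  If all `φ p j ∈ P` take `E = 1`.  If `φ (p j0) h0 ∉ P` for some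
  `h0 ∈ m1.J (!ty j0)` use `pert` for the pencil times `φ` and `K' := P`.  Otherwise, with
  `ξ' = ξ * m1.α true` (`m1.J true = lq P ξ'`): terms of type `true` have `φ p j ∈ P`
  (`sfree_of_lq_right`), terms of type `false` have `φ p j - λ j • ξ' ∈ P` (write
  `ξ' d - φ p j ∈ P`, `d` normalises `m1.J true`), some `λ j ≠ 0`, so `qλ = ∑ λ j • q j ∉ m1.J false`.
  Choose `e` with `φ z e ∈ P`, `qλ e - 1 ∈ m1.J false`, a move `m2` with `α' false (qλ e - 1) = 0`,
  and `E δ = e * m2.α false * δ.1 true`; the constant is `ξ' * m2.α true ∉ P`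
  (`ξ' * m2.c false ∈ P` by `Mo.c_mem`).
-/

namespace Pool.Agent.Work.MP_c4093f_al

variable {k A : Type} [Field k] [Ring A] [Algebra k A] {I : Bool → RI A}

theorem sfree_of_lq_right {N P : RI A} {ξ : A} (hP : MaxR P) (hξ : ξ ∉ P)
    (h : SFree N (lq P ξ)) : SFree N P := by
  intro v hv
  obtain ⟨d, hd⟩ := hP.2 ξ hξ
  have h1 := mem_lq.1 (h (d * v) fun x hx => by
    have h2 := P.add_mem (rmul _ hd (v * x)) (hv x hx)
    rw [mem_lq]
    convert h2 using 1
    noncomm_ring)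
  have h2 := P.sub_mem h1 (rmul _ hd v)
  convert h2 using 1
  noncomm_ring

theorem M1d_mod (m : Mo I) (ε0 : Bool) {θ w : A} (h1 : w * θ = 0) (h2 : w * m.α ε0 = 0)
    (h3 : m.α' ε0 * θ = 0) : ∃ m' : Mo I, m'.α' = m.α' ∧ m'.c ε0 = m.c ε0 * (1 + θ * w) ∧
      m'.c (!ε0) = (1 - θ * w) * m.c (!ε0) := by
  have hn : ∀ ε, ¬ ε = ε0 → ε0 = !ε := fun ε h => by cases ε <;> cases ε0 <;> simp_all
  have hm : ∀ ε : Bool, ¬ (!ε) = ε := fun ε => by cases ε <;> simp
  refine ⟨⟨m.α, m.α', fun ε => if ε = ε0 then m.c ε * (1 + θ * w) else (1 - θ * w) * m.c ε,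
    m.adm, fun ε => ?_, fun ε => ?_, fun ε => ?_⟩, rfl, if_pos rfl, if_neg (hm _)⟩
  · split_ifs with h
    · subst h
      rw [mul_assoc, add_mul, one_mul, mul_assoc, h2, mul_zero, add_zero, m.h3]
    · rw [mul_assoc, m.h3, mul_zero]
  · split_ifs with h
    · rw [← mul_assoc, m.h4, zero_mul]
    · obtain rfl := hn ε h
      rw [sub_mul, one_mul, mul_sub, m.h4, mul_assoc, ← mul_assoc, h3, zero_mul, sub_zero]
  · by_cases h : ε = ε0
    · subst h
      rw [if_pos rfl, if_neg (hm _), ← m.h5]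
      calc _ = m.c ε * m.c (!ε) - m.c ε * θ * (w * θ) * w * m.c (!ε) := by noncomm_ring
        _ = _ := by rw [h1]; simp
    · obtain rfl := hn ε h
      rw [if_neg h, if_pos rfl]
      calc _ = (1 - θ * w) * (m.c ε * m.c (!ε)) * (1 + θ * w) := by noncomm_ring
        _ = 1 - m.α (!ε) * m.α' (!ε) - θ * (w * θ) * w - m.α (!ε) * (m.α' (!ε) * θ) * w
            + θ * (w * m.α (!ε)) * m.α' (!ε) * (1 + θ * w) := by rw [m.h5]; noncomm_ring
        _ = _ := by rw [h1, h2, h3]; simp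

theorem M1d_kill (hP : PI A) (lv : Lv A) (hI : VP k I) {ι : Type} [Finite ι] (h : ι → A)
    (ty : ι → Bool) (hh : ∀ j, h j ∈ I (ty j)) : ∃ m : Mo I, ∀ j, m.α' (ty j) * h j = 0 := by
  obtain ⟨m, -, hm⟩ := mk1 hP lv (fun ε => (hI.1 ε).1) (fun _ => ⊤)
    (fun ε h => (hI.1 ε).1.1 (h Submodule.mem_top)) h ty hh
  exact ⟨m, hm⟩

theorem M1d_below (hP : PI A) (lv : Lv A) (hI : VP k I) (ε0 : Bool) :
    ∃ (m : Mo I) (a a' : A), a' * a = 1 ∧ m.α' ε0 * a = 0 ∧ a' * m.α ε0 = 0 := by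
  obtain ⟨a, ha, a', h1⟩ := MaxR.exists_linv hP lv (hI.1 ε0).1
  have h2 : (1 - a * a') * (1 - a * a') = 1 - a * a' := by
    calc _ = 1 - a * a' - a * a' + a * (a' * a) * a' := by noncomm_ring
      _ = _ := by rw [h1]; noncomm_ring
  obtain ⟨γ, γ', h3, h4⟩ := hP.idem h2 fun h => (hI.1 ε0).1.1 (by
    rw [sub_eq_zero.1 h]; exact rmul _ ha _)
  obtain ⟨m, β, β', h5, -⟩ := mk0 hP lv (fun ε => (hI.1 ε).1)
    (a := fun ε => if ε = ε0 then γ else 1) (a' := fun ε => if ε = ε0 then γ' else 1)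
    (fun ε => by
      split_ifs with h
      · subst h
        exact ⟨h3, by rw [h4, sub_sub_cancel]; exact rmul _ ha _⟩
      · exact ⟨mul_one 1, by simp⟩) (ι := Empty) (fun j => j.elim) (fun j => j.elim)
      (fun j => j.elim)
  obtain ⟨h6, h7, -⟩ := h5 ε0
  rw [if_pos rfl] at h6 h7
  refine ⟨m, a, a', h1, ?_, ?_⟩
  · calc m.α' ε0 * a = β' ε0 * (γ' * γ) * γ' * a := by rw [h7, h3, mul_one]
      _ = β' ε0 * γ' * (γ * γ') * a := by noncomm_ring
      _ = β' ε0 * γ' * (a - a * (a' * a)) := by rw [h4]; noncomm_ring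
      _ = 0 := by rw [h1]; simp
  · calc a' * m.α ε0 = a' * (γ * (γ' * γ) * β ε0) := by rw [h6, h3, mul_one]
      _ = a' * (γ * γ') * γ * β ε0 := by noncomm_ring
      _ = (a' - a' * a * a') * γ * β ε0 := by rw [h4]; noncomm_ring
      _ = 0 := by rw [h1]; simp

theorem M1d_dual (hI : VP k I) {ι : Type} [Fintype ι] [DecidableEq ι] (q : ι → A)
    (ty : ι → Bool) (hq : IndT k I q ty) (j0 : ι) :
    ∃ e, ∀ j, q j * e - (if j = j0 then 1 else 0) ∈ I (ty j) := by
  have hn : ∀ j, ty j ≠ ty j0 → ty j0 = !ty j := fun j h => by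
    cases h1 : ty j <;> cases h2 : ty j0 <;> simp_all
  obtain ⟨e, h1, h2⟩ := span (hI.1 (ty j0)) (fun j => I (ty j)) (fun j => (hI.1 _).1)
    (fun j => by
      by_cases h : ty j = ty j0
      · exact Or.inl (by rw [h])
      · exact Or.inr (by rw [hn j h]; exact hI.2 _))
    (fun j => if j = j0 then 0 else q j) (q j0) fun l hl hm => by
      have h3 := hq (ty j0) (fun j => if j = j0 then 1 else -l j) (fun j hj => by
        rw [if_neg (by rintro rfl; exact hj rfl), hl j (by rw [hn j hj]; exact hI.ne _), neg_zero])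
        (by
          have h4 : ∀ j, (if j = j0 then 1 else -l j) • q j =
              (if j = j0 then q j else 0) - l j • if j = j0 then 0 else q j := fun j => by
            split_ifs <;> simp
          simpa only [h4, Finset.sum_sub_distrib, Finset.sum_ite_eq', Finset.mem_univ, if_true]
            using hm)
      simpa using congrFun h3 j0
  refine ⟨e, fun j => ?_⟩
  split_ifs with h
  · subst h
    exact h1
  · simpa only [if_neg h, sub_zero] using h2 j

theorem pert (hP : PI A) (lv : Lv A) (hI : VP k I) {ι : Type} [Fintype ι] (z : A) (p q : ι → A)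
    (ty : ι → Bool) (hq : IndT k I q ty) (K' : RI A) (j0 : ι) {h0 : A} (hh : h0 ∈ I (!ty j0))
    (hp : p j0 * h0 ∉ K') :
    ∃ (m : Mo I) (e : A), ∃ z' ∉ K', ∀ δ, (z + ∑ j, p j * (m.σ δ).1 (ty j) * q j) * e = z' := by
  classical
  obtain ⟨e0, he⟩ := M1d_dual hI q ty hq j0
  obtain ⟨m1, h1⟩ := M1d_kill hP lv hI
    (fun j : Option ι => j.elim h0 fun j => q j * e0 - if j = j0 then 1 else 0)
    (fun j => j.elim (!ty j0) ty) fun j => by
      cases j
      · exact hh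
      · exact he _
  obtain ⟨m2, a, a', h2, h3, h4⟩ := M1d_below hP lv (m1.vp hI) (ty j0)
  have h5 : m1.α' (!ty j0) * h0 = 0 := h1 none
  obtain ⟨e, hE⟩ : ∃ e, ∀ j, m1.α' (ty j) * (q j * e) = if j = j0 then a else 0 := by
    refine ⟨e0 * m1.α (ty j0) * a, fun j => ?_⟩
    have h6 : m1.α' (ty j) * (q j * e0 - if j = j0 then 1 else 0) = 0 := h1 (some j)
    rw [mul_sub, sub_eq_zero] at h6
    rw [mul_assoc e0, ← mul_assoc (q j), ← mul_assoc, h6]
    split_ifs with h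
    · subst h
      rw [mul_one, ← mul_assoc, (m1.adm _).1, one_mul]
    · simp
  have h6 : ∀ j, (m1.comp m2).α' (ty j) * (q j * e) = 0 := fun j => by
    refine (mul_assoc _ _ _).trans ?_
    rw [hE]
    split_ifs with h
    · subst h
      exact h3
    · exact mul_zero _
  have val : ∀ m : Mo I, m.α' = (m1.comp m2).α' → ∀ δ,
      (z + ∑ j, p j * (m.σ δ).1 (ty j) * q j) * e = z * e + ∑ j, p j * (m.c (ty j) * (q j * e)) := by
    intro m hm δ
    rw [add_mul, Finset.sum_mul]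
    refine congrArg _ (Finset.sum_congr rfl fun j _ => ?_)
    rw [mul_assoc, mul_assoc, Mo.σ_val, add_mul, mul_assoc _ (m.α' _), hm, h6, mul_zero, add_zero]
  by_cases hz : z * e + ∑ j, p j * ((m1.comp m2).c (ty j) * (q j * e)) ∈ K'
  swap
  · exact ⟨_, e, _, hz, val _ rfl⟩
  have hc : a' * m1.α' (ty j0) * (m1.comp m2).c (!ty j0)
      = a' * m2.c (!ty j0) * m1.α' (!ty j0) := by
    simp only [Mo.comp, Bool.not_not]
    calc _ = a' * (m1.α' (ty j0) * m1.c (!ty j0))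
          + a' * (m1.α' (ty j0) * m1.α (ty j0)) * m2.c (!ty j0) * m1.α' (!ty j0) := by noncomm_ring
      _ = _ := by rw [m1.h4', (m1.adm _).1]; simp
  obtain ⟨m, k1, k2, k3⟩ := M1d_mod (m1.comp m2) (ty j0) (θ := (m1.comp m2).c (!ty j0) * h0)
    (w := a' * m1.α' (ty j0))
    (by rw [← mul_assoc, hc, mul_assoc, h5, mul_zero])
    (by
      refine (mul_assoc _ _ _).trans ?_
      rw [show (m1.comp m2).α (ty j0) = m1.α (ty j0) * m2.α (ty j0) from rfl, ← mul_assoc (m1.α' _),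
        (m1.adm _).1, one_mul, h4])
    (by rw [← mul_assoc, Mo.h4', zero_mul])
  refine ⟨m, e, _, fun h => hp ?_, val m k1⟩
  have h7 : ∀ j, p j * (m.c (ty j) * (q j * e)) = p j * ((m1.comp m2).c (ty j) * (q j * e))
      + if j = j0 then p j * h0 else 0 := fun j => by
    have h8 := hE j
    by_cases ht : ty j = ty j0
    · have h9 : (m1.comp m2).c (ty j0) * ((m1.comp m2).c (!ty j0) * h0) = h0 := by
        rw [← mul_assoc, Mo.h5, sub_mul, one_mul, mul_assoc,
          show (m1.comp m2).α' (!ty j0) = m2.α' (!ty j0) * m1.α' (!ty j0) from rfl, mul_assoc, h5]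
        simp
      rw [ht] at h8 ⊢
      rw [k2, mul_add, mul_one, ← mul_assoc ((m1.comp m2).c _), h9, add_mul, mul_add,
        mul_assoc h0, mul_assoc a', h8]
      split_ifs
      · rw [h2, mul_one]
      · simp
    · have ht' : ty j = !ty j0 := by
        cases h1 : ty j <;> cases h2 : ty j0 <;> simp_all
      have hj : ¬ j = j0 := by
        rintro rfl
        exact ht rfl
      rw [ht', if_neg hj] at h8
      rw [ht', k3, if_neg hj, sub_mul, one_mul, mul_assoc _ (a' * _), hc, sub_mul,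
        mul_assoc _ (a' * _ * _), mul_assoc (a' * _), h8]
      simp
  simp only [h7, Finset.sum_add_distrib, Finset.sum_ite_eq', Finset.mem_univ, if_true] at h
  have h8 := K'.sub_mem h hz
  rwa [← add_assoc, add_sub_cancel_left] at h8

theorem M1d_pen (hP : PI A) {K : RI A} {ι : Type} [Fintype ι] {p : ι → A} (hp : ∀ j, p j ∈ K)
    {D : Type} (G : ι → D → A) : InK K fun δ => ∑ j, p j * G j δ :=
  InK.sum hP _ fun j _ => InK.const_mul hP (hp j) _

theorem gen (hP : PI A) (lv : Lv A) (hI : VP k I) {K' : RI A} (hK : ∀ ε, SFree (I ε) K')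
    {F : DU A → A} (hF : F ∈ FnV A) :
    ∃ m : Mo I, InK K' (fun δ => F (m.σ δ)) ∨
      ∃ e, ∃ z ∉ K', InK K' (fun δ => F (m.σ δ) * e - z) := by
  obtain ⟨m1, ι, _, z, p, q, ty, hq, hG⟩ := red hP lv hI hF
  by_cases h : ∀ j, p j ∈ K'
  · have h1 := M1d_pen hP h fun j (δ : DU A) => δ.1 (ty j) * q j
    by_cases hz : z ∈ K'
    · exact ⟨m1, Or.inl (((InK.const hP hz).add hP h1).congr fun δ => by
        simp only [hG, mul_assoc])⟩
    · exact ⟨m1, Or.inr ⟨1, z, hz, h1.congr fun δ => by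
        simp only [hG, mul_assoc, mul_one, add_sub_cancel_left]⟩⟩
  · obtain ⟨j0, hj⟩ := not_forall.1 h
    have h1 : ¬ ∀ x ∈ m1.J (!ty j0), p j0 * x ∈ K' := fun h2 =>
      hj ((hK _).lq_left (hI.1 _).1 _ _ h2)
    push Not at h1
    obtain ⟨h0, hh, hp⟩ := h1
    obtain ⟨m2, e, z', hz, h2⟩ := pert hP lv (m1.vp hI) z p q ty hq K' j0 hh hp
    exact ⟨m1.comp m2, Or.inr ⟨e, z', hz, (InK.zero _).congr fun δ => by
      rw [Mo.comp_σ, hG, h2, sub_self]⟩⟩

theorem M1d_last (hP : PI A) (lv : Lv A) (hI : VP k I) {P : RI A} (hM : MaxR P) {ξ : A}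
    (hξ : ξ ∉ P) (hT : I true = lq P ξ) {ι : Type} [Fintype ι] (z : A) (p q : ι → A)
    (ty : ι → Bool) (hq : IndT k I q ty) (hp : ∀ j, ∀ h ∈ I (!ty j), p j * h ∈ P) {j0 : ι}
    (hj : p j0 ∉ P) : ∃ m : Mo I, ∃ E ∈ FnV A, ∃ z' ∉ P,
      InK P fun δ => (z + ∑ j, p j * (m.σ δ).1 (ty j) * q j) * E δ - z' := by
  have hF : SFree (I false) P := sfree_of_lq_right hM hξ (hT ▸ hI.2 false)
  have h1 : ∀ j, ∃ l : k, (ty j ≠ false → l = 0) ∧ p j - l • ξ ∈ P := fun j => by
    have h2 := hp j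
    cases h : ty j
    · rw [h, Bool.not_false, hT] at h2
      obtain ⟨d, hd⟩ := hM.2 ξ hξ
      have h3 := rmul _ hd (p j)
      obtain ⟨l, hl⟩ := (hT ▸ hI.1 true : SimpK k (lq P ξ)).2 (d * p j) fun x hx => by
        have h4 := P.add_mem (rmul _ h3 x) (h2 x hx)
        rw [mem_lq]
        convert h4 using 1
        noncomm_ring
      refine ⟨l, fun h5 => absurd rfl h5, ?_⟩
      have h4 := P.sub_mem (mem_lq.1 hl) h3
      rw [Algebra.smul_def, Algebra.commutes]
      convert h4 using 1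
      noncomm_ring
    · rw [h] at h2
      exact ⟨0, fun _ => rfl, by simpa using hF _ h2⟩
  choose l hl0 hl using h1
  have h2 : ∑ j, l j • q j ∉ I false := fun h => hj (by
    have h3 := hl j0
    rwa [hq false l hl0 h, Pi.zero_apply, zero_smul, sub_zero] at h3)
  obtain ⟨e, h3, h4⟩ := span (hI.1 false) (fun _ : Unit => P) (fun _ => hM)
    (fun _ => Or.inr (hF.symm (hI.1 false).1 hM)) (fun _ => z) (∑ j, l j • q j) fun l' hl' => by
      have h5 : l' () = 0 := hl' () fun h => hM.1 (hF 1 fun x hx => by rw [one_mul, h]; exact hx)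
      simpa [h5] using h2
  obtain ⟨m, hm⟩ := M1d_kill hP lv hI (fun _ : Unit => (∑ j, l j • q j) * e - 1)
    (fun _ => false) fun _ => h3
  have h5 : m.α' false * ((∑ j, l j • q j) * e) = m.α' false := by
    have h6 := hm ()
    rwa [mul_sub, mul_one, sub_eq_zero] at h6
  have h6 : ξ * m.c false ∈ P := mem_lq.1 (hT ▸ m.c_mem false)
  refine ⟨m, fun δ => e * m.α false * δ.1 true,
    Subring.mul_mem _ (const_mem_Fn (e * m.α false)) (var_mem_Fn (X := XV A) true),
    ξ * m.α true, fun h => m.not_mem hI true (hT ▸ mem_lq.2 h), ?_⟩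
  refine (((InK.const_mul hP (h4 ()) fun δ : DU A => m.α false * δ.1 true).add hP
    (M1d_pen hP hl fun j δ => (m.σ δ).1 (ty j) * q j * (e * m.α false * δ.1 true))).add hP
    (InK.const_mul hP h6 fun δ => (∑ j, l j • q j) * (e * m.α false * δ.1 true))).congr
    fun δ => ?_
  have h7 : ∀ j, p j * (m.σ δ).1 (ty j) * q j = (p j - l j • ξ) * ((m.σ δ).1 (ty j) * q j)
      + ξ * (m.σ δ).1 false * (l j • q j) := fun j => by
    cases h : ty j
    · simp only [sub_mul, smul_mul_assoc, mul_smul_comm, mul_assoc, sub_add_cancel]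
    · simp only [hl0 j (by simp [h]), zero_smul, sub_zero, mul_zero, add_zero, mul_assoc]
  have h8 : ξ * (m.σ δ).1 false * (∑ j, l j • q j) * (e * m.α false * δ.1 true) =
      ξ * m.c false * ((∑ j, l j • q j) * (e * m.α false * δ.1 true)) + ξ * m.α true := by
    have h9 : δ.1 false * δ.1 true = 1 := δ.2 false
    generalize ∑ j, l j • q j = Q at h5 ⊢
    calc _ = ξ * m.c false * (Q * (e * m.α false * δ.1 true))
          + ξ * m.α true * (δ.1 false * (m.α' false * (Q * e) * m.α false) * δ.1 true) := by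
          rw [Mo.σ_val, Bool.not_false]; noncomm_ring
      _ = _ := by rw [h5, (m.adm false).1, mul_one, h9, mul_one]
  simp only [h7, Finset.sum_add_distrib, ← Finset.mul_sum]
  rw [add_mul, add_mul, h8, Finset.sum_mul]
  simp only [mul_assoc]
  abel

theorem m1_j (hP : PI A) (lv : Lv A) (hI : VP k I) {P : RI A} (hM : MaxR P) {ξ : A} (hξ : ξ ∉ P)
    (hT : I true = lq P ξ) {K' : RI A} {J : Set (A × A)} (hJ : JPin P K' J)
    {F : DU A → A} (hF : F ∈ FnV A) :
    ∃ m : Mo I, InK K' (fun δ => F (m.σ δ)) ∨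
      ∃ vc ∈ J, ∃ d0, ∃ E ∈ FnV A, ∃ z ∉ P,
        InK K' (fun δ => F (m.σ δ) - vc.1 * (d0 * F (m.σ δ))) ∧
        InK P (fun δ => vc.2 * (d0 * F (m.σ δ)) * E δ - z) := by
  obtain ⟨m1, ι, _, z, p, q, ty, hq, hG⟩ := red hP lv hI hF
  obtain ⟨g, hg, h1, h2⟩ := hP.dirR
    (Submodule.span Aᵐᵒᵖ (Set.range fun j : Option ι => j.elim z p)) _
    fun j => Submodule.subset_span ⟨j, rfl⟩
  have h3 : ∀ δ, g * F (m1.σ δ) = F (m1.σ δ) := fun δ => by
    have h4 : g * z = z := h2 none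
    have h5 : ∀ j, g * p j = p j := fun j => h2 (some j)
    simp only [hG, mul_add, Finset.mul_sum, ← mul_assoc, h4, h5]
  by_cases hK : g ∈ K'
  · exact ⟨m1, Or.inl ⟨g, hK, h3⟩⟩
  obtain ⟨⟨v, c⟩, hvc, d0, h4, h5⟩ := hJ.2 g hK
  have h6 : c * d0 * g ∉ P := fun h => h5 (by
    have h7 := hJ.1 _ hvc (d0 * (1 - g)) (by
      have h8 := K'.neg_mem (rmul _ h4 (1 - g))
      convert h8 using 1
      rw [sub_mul, mul_sub g, h1]
      noncomm_ring)
    have h8 := P.add_mem h7 h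
    convert h8 using 1
    noncomm_ring)
  have h7 : ∀ δ, c * (d0 * F (m1.σ δ)) = c * d0 * z + ∑ j, c * d0 * p j * δ.1 (ty j) * q j :=
    fun δ => by simp only [hG, mul_add, Finset.mul_sum, mul_assoc]
  suffices H : ∃ m : Mo m1.J, ∃ E ∈ FnV A, ∃ z' ∉ P, InK P fun δ =>
      (c * d0 * z + ∑ j, c * d0 * p j * (m.σ δ).1 (ty j) * q j) * E δ - z' by
    obtain ⟨m, E, hE, z', hz, H⟩ := H
    refine ⟨m1.comp m, Or.inr ⟨(v, c), hvc, d0, E, hE, z', hz,
      (InK.const_mul hP h4 fun δ => F ((m1.comp m).σ δ)).congr fun δ => ?_,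
      H.congr fun δ => by rw [Mo.comp_σ, h7]⟩⟩
    rw [sub_mul, Mo.comp_σ, h3, mul_assoc]
  by_cases hA : ∀ j, c * d0 * p j ∈ P
  · refine ⟨Mo.id _, fun _ => 1, const_mem_Fn 1, c * d0 * z, fun h => h6 ?_,
      (M1d_pen hP hA fun j δ => ((Mo.id m1.J).σ δ).1 (ty j) * q j).congr fun δ => by
        simp only [mul_assoc, mul_one, add_sub_cancel_left]⟩
    refine mem_lq.1 (Submodule.span_le.2 ?_ hg)
    rintro _ ⟨j, rfl⟩
    cases j
    · exact h
    · exact hA _
  obtain ⟨j0, hj⟩ := not_forall.1 hA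
  by_cases hB : ∀ j, ∀ h ∈ m1.J (!ty j), c * d0 * p j * h ∈ P
  · exact M1d_last hP lv (m1.vp hI) hM (ξ := ξ * m1.α true)
      (fun h => m1.not_mem hI true (hT ▸ mem_lq.2 h)) (by rw [← lq_lq, ← hT]; rfl) _ _ q ty hq hB hj
  · push Not at hB
    obtain ⟨j1, h0, hh, hp⟩ := hB
    obtain ⟨m2, e, z', hz, h8⟩ := pert hP lv (m1.vp hI) (c * d0 * z) (fun j => c * d0 * p j) q ty hq
      P j1 hh hp
    exact ⟨m2, fun _ => e, const_mem_Fn e, z', hz, (InK.zero _).congr fun δ => by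
      rw [h8, sub_self]⟩

end Pool.Agent.Work.MP_c4093f_al
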