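import Pool.Agent.Work.MP_c4093f_al.M1c
import Pool.Agent.Work.MP_c4093f_al.M1d
import Pool.Agent.Work.MP_c4093f_al.Ext
import Pool.Agent.Work.MP_c4093f_al.Engine

/-!
The extension that makes the simple module `A / K` meet `A / P`.

Let `I true = P`, `I false = K` (`VP` by `SFree.symm`).  Apply `engine` with `D = DU A`,
`S = FnV A`, `Inv τ = ∃ m : Mo I, τ = m.σ` (start `Mo.id`, step `Mo.comp`), tasks
`T = Fin 3 ⊕ ι ⊕ A`: `m1_sl`; nonzero (`gen` with `K' = ⊥`, `sfree_bot`, `PI.one`); `m1_perp`;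
pin `i` by `m1_j` (with `ξ = m0.α true`) or `gen` (with `bfree`); constants by `m1_n`, where
`Done z τ _ = ∃ m : Mo I, τ = m.σ ∧ ...`.  In `A'` put `r ε = χ0 (XV ε)`.  For `τ = m.σ`,
`r ε = f (c ε) + f (α (!ε)) * χ (XV ε) * f (α' ε)`, and `χ (XV ε) = f (α' (!ε)) * r ε * f (α ε)`.
This gives the hypotheses of `simpK_ext2` (`hgen` by `Fn_gen`, `hkill` by `Mo.c_mem`).  Then
`pi_of_tasks`, `perp_ext`, `jpin_ext`, `bpin_ext`, `inK_ext`.
-/

namespace Pool.Agent.Work.MP_c4093f_al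

variable {k A : Type} [Field k] [Ring A] [Algebra k A]

/-- constants -/
def M1c (a : A) : FnV A := ⟨fun _ => a, const_mem_Fn a⟩

/-- variables -/
def M1x (A : Type) [Ring A] (ε : Bool) : FnV A := ⟨XV A ε, var_mem_Fn ε⟩

/-- the function is zero or generates a constant modulo `K` -/
def M1G (K : RI A) (F : DU A → A) : Prop :=
  InK K F ∨ ∃ e, ∃ z ∉ K, InK K (fun δ => F δ * e - z)

/-- the task of a pin by jumps -/
def M1J (P K : RI A) (J : Set (A × A)) (F : DU A → A) : Prop :=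
  InK K F ∨ ∃ vc ∈ J, ∃ d0, ∃ E ∈ FnV A, ∃ z ∉ P,
    InK K (fun δ => F δ - vc.1 * (d0 * F δ)) ∧ InK P (fun δ => vc.2 * (d0 * F δ) * E δ - z)

variable (k) in
/-- the task of a constant -/
def M1N (I : Bool → RI A) (z : A) (τ : DU A → DU A) : Prop :=
  ∃ m : Mo I, τ = m.σ ∧ ∀ ε, z * m.α (!ε) ∈ I ε ∧
    (∃ l : k, (z - algebraMap k A l) * m.α ε ∈ I ε) ∧ (z ∈ I ε → m.α' ε * z = 0)

variable (k) in
/-- all tasks -/
def M1D (lv : Lv A) (I : Bool → RI A) (L1 : Ideal A) {ι : Type} (pins : ι → Pin A) :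
    Option Bool ⊕ ι ⊕ A → (DU A → DU A) → (DU A → A) → Prop
  | .inl none, _, F => ∃ a, EqvIn (FnV A) (fun δ => lv.pl (F δ)) (fun _ => a)
  | .inl (some false), _, F => M1G ⊥ F
  | .inl (some true), _, F => ∃ l ∈ L1, ∃ a, ∀ δ, (1 - l) * F δ = a
  | .inr (.inl i), _, F => ((pins i).tJ = true → M1J (I true) (pins i).K (pins i).J F) ∧
      ((pins i).tJ = false → M1G (pins i).K F)
  | .inr (.inr z), τ, _ => M1N k I z τ

theorem M1_step [IsAlgClosed k] (hP : PI A) (B : Base k A) {I : Bool → RI A} (hI : VP k I)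
    {L1 L2 : Ideal A} (hL : Perp L1 L2) {ι : Type} (pins : ι → Pin A)
    (hpins : ∀ i, (pins i).ok k (I true)) (m0 : Mo I) (t : Option Bool ⊕ ι ⊕ A) {F : DU A → A}
    (hF : F ∈ FnV A) :
    ∃ m : Mo m0.J, M1D k B.lv I L1 pins t (m0.comp m).σ fun δ => F (m.σ δ) := by
  have hJ := m0.vp hI
  rcases t with (_ | _ | _) | i | z
  · exact m1_sl hP B hJ hF
  · exact gen hP B.lv hJ (fun ε => sfree_bot hP B.lv (hJ.1 ε).1) hF
  · exact m1_perp hP B.lv hJ hL hF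
  · cases h : (pins i).tJ
    · obtain ⟨m, hm⟩ := gen hP B.lv hJ (fun ε => bfree B.lv ((hpins i).2 h) (hJ.1 ε)) hF
      exact ⟨m, fun h' => absurd (h.symm.trans h') Bool.false_ne_true, fun _ => hm⟩
    · obtain ⟨m, hm⟩ := m1_j hP B.lv hJ (hI.1 true).1 (m0.not_mem hI true) rfl ((hpins i).1 h) hF
      exact ⟨m, fun _ => hm, fun h' => absurd (h'.symm.trans h) Bool.false_ne_true⟩
  · obtain ⟨m, hm⟩ := m1_n hP B.lv hI m0 z
    exact ⟨m, m0.comp m, rfl, hm⟩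

section
variable {A' : Type} [Ring A'] {f : A →+* A'} {χ : FnV A →+* A'}

theorem M1_inK (hχ : ∀ a, χ (M1c a) = f a) {K : RI A} (G : FnV A) (h : InK K G.1) :
    χ G ∈ ext f K := inK_ext f const_mem_Fn χ hχ G.2 h

theorem M1_G (hχ : ∀ a, χ (M1c a) = f a) {K : RI A} {F : FnV A} (h : M1G K F.1) :
    χ F ∈ ext f K ∨ ∃ e, ∃ z ∉ K, χ F * f e - f z ∈ ext f K := by
  rcases h with h | ⟨e, z, hz, h⟩
  · exact .inl (M1_inK hχ F h)
  · have h1 := M1_inK hχ (F * M1c e - M1c z) h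
    rw [map_sub, map_mul, hχ, hχ] at h1
    exact .inr ⟨e, z, hz, h1⟩

theorem M1_J (hχ : ∀ a, χ (M1c a) = f a) {P K : RI A} {J : Set (A × A)} {F : FnV A}
    (h : M1J P K J F.1) : χ F ∈ ext f K ∨ ∃ vc ∈ J, ∃ d e, ∃ z ∉ P,
      χ F - f vc.1 * d ∈ ext f K ∧ f vc.2 * d * e - f z ∈ ext f P := by
  rcases h with h | ⟨vc, hvc, d0, E, hE, z, hz, h, h'⟩
  · exact .inl (M1_inK hχ F h)
  · have h1 := M1_inK hχ (F - M1c vc.1 * (M1c d0 * F)) h
    have h2 := M1_inK hχ (M1c vc.2 * (M1c d0 * F) * ⟨E, hE⟩ - M1c z) h'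
    rw [map_sub, map_mul, hχ] at h1
    rw [map_sub, map_mul, map_mul, hχ, hχ] at h2
    exact .inr ⟨vc, hvc, _, _, z, hz, h1, h2⟩

theorem M1_pl (hχ : ∀ a, χ (M1c a) = f a) (lv : Lv A) {F : FnV A} {a : A}
    (h : EqvIn (FnV A) (fun δ => lv.pl (F.1 δ)) fun _ => a) :
    EqvIn ⊤ ((lv.map f).pl (χ F)) (f a) := by
  have h1 : EqvIn ⊤ (χ (M1c lv.x1 * F * M1c lv.y1 + M1c lv.x2 * M1c lv.y2)) (χ (M1c a)) :=
    EqvIn.mapSub χ (M1c lv.x1 * F * M1c lv.y1 + M1c lv.x2 * M1c lv.y2).2 (M1c a).2 h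
  rw [map_add, map_mul, map_mul, map_mul, hχ, hχ, hχ, hχ, hχ] at h1
  exact h1

theorem M1_perp (hχ : ∀ a, χ (M1c a) = f a) {F : FnV A} {l a : A}
    (h : ∀ δ, (1 - l) * F.1 δ = a) : (1 - f l) * χ F = f a := by
  have h1 : (1 - M1c l) * F = M1c a := Subtype.ext (funext h)
  rw [← hχ, ← hχ, ← h1, map_mul, map_sub, map_one]

theorem M1_bot (hP : PI A) {b : A'} (h : b ∈ ext f ⊥) : b = 0 := by
  obtain ⟨κ, hκ, d, rfl⟩ := (mem_ext hP f).1 h
  rw [(Submodule.mem_bot _).1 hκ, map_zero, zero_mul]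

end

theorem M1_fin (hP : PI A) (lv : Lv A) {I : Bool → RI A} (hI : VP k I) {L1 L2 : Ideal A}
    (hL : Perp L1 L2) {ι : Type} (pins : ι → Pin A) (hpins : ∀ i, (pins i).ok k (I true))
    {A' : Type} [Ring A'] [Algebra k A'] [Nontrivial A'] (f : A →ₐ[k] A') (r : Bool → A')
    (hr : ∀ ε, r ε * r (!ε) = 1)
    (H : ∀ t b, ∃ (χ : FnV A →+* A') (τ : DU A → DU A), (∀ a, χ (M1c a) = f.toRingHom a) ∧
      (∃ m : Mo I, τ = m.σ) ∧ (∀ m : Mo I, τ = m.σ → ∀ ε,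
        r ε = f (m.c ε) + f (m.α (!ε)) * χ (M1x A ε) * f (m.α' ε)) ∧
      ∃ F : FnV A, χ F = b ∧ M1D k lv I L1 pins t τ F.1) :
    Concl k (I true) L1 L2 pins A' f ∧
      ∀ p ∈ I true, r true * f p ∈ ext f.toRingHom (I false) := by
  have HN : ∀ z, ∃ (m : Mo I) (x : Bool → A'),
      (∀ ε, r ε = f (m.c ε) + f (m.α (!ε)) * x ε * f (m.α' ε)) ∧ ∀ ε, z * m.α (!ε) ∈ I ε ∧
        (∃ l : k, (z - algebraMap k A l) * m.α ε ∈ I ε) ∧ (z ∈ I ε → m.α' ε * z = 0) := by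
    intro z
    obtain ⟨χ, τ, -, -, h1, F, -, m, h2, h3⟩ := H (.inr (.inr z)) 0
    exact ⟨m, _, h1 m h2, h3⟩
  have hkill : ∀ ε, ∀ h ∈ I ε, r ε * f h ∈ ext f.toRingHom (I (!ε)) := by
    intro ε h hh
    obtain ⟨m, x, h1, h2⟩ := HN h
    rw [h1, add_mul, mul_assoc, ← map_mul f (m.α' ε), (h2 ε).2.2 hh, map_zero, mul_zero, add_zero]
    exact rmul _ (mem_ext_of f.toRingHom (m.c_mem ε)) _
  refine ⟨⟨⟨pi_of_tasks hP lv f.toRingHom (fun b => ?_) fun b => ?_,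
    simpK_ext2 hP f hI.1 hI.2 r hr hkill (fun z ε => ?_) (fun z ε => ?_) fun S h1 h2 b => ?_,
    perp_ext hP f.toRingHom hL fun b => ?_⟩, fun i => ⟨fun h => ?_, fun h => ?_⟩⟩, hkill true⟩
  · obtain ⟨χ, τ, hχ, -, -, F, rfl, a, h⟩ := H (.inl none) b
    exact ⟨a, M1_pl hχ lv h⟩
  · obtain ⟨χ, τ, hχ, -, -, F, rfl, h⟩ := H (.inl (some false)) b
    rcases M1_G hχ h with h | ⟨e, z, hz, h⟩
    · exact .inl (M1_bot hP h)
    · obtain ⟨p, q, h1⟩ := hP.one (b := z) fun h0 => hz (h0 ▸ Submodule.zero_mem _)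
      refine .inr ⟨f.toRingHom p, f.toRingHom e * f.toRingHom q, ?_⟩
      rw [← mul_assoc, mul_assoc (f.toRingHom p), sub_eq_zero.1 (M1_bot hP h), ← map_mul,
        ← map_mul, h1, map_one]
  · obtain ⟨m, x, h1, h2⟩ := HN z
    refine ⟨z * m.c ε, ?_⟩
    have h3 : f z * r ε - f (z * m.c ε) = f (z * m.α (!ε)) * (x ε * f (m.α' ε)) := by
      rw [h1, map_mul, map_mul]
      noncomm_ring
    rw [h3]
    exact rmul _ (mem_ext_of f.toRingHom (h2 ε).1) _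
  · obtain ⟨m, x, h1, h2⟩ := HN z
    obtain ⟨l, hl⟩ := (h2 ε).2.1
    refine ⟨(z - algebraMap k A l) * m.c (!ε), l, ?_⟩
    have h3 : f z * r (!ε) - f ((z - algebraMap k A l) * m.c (!ε)) - l • r (!ε) =
        f ((z - algebraMap k A l) * m.α ε) * (x (!ε) * f (m.α' (!ε))) := by
      rw [h1, Bool.not_not, map_mul, map_mul, map_sub, f.commutes, Algebra.smul_def]
      noncomm_ring
    rw [h3]
    exact rmul _ (mem_ext_of f.toRingHom hl) _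
  · obtain ⟨χ, τ, hχ, ⟨m, hm⟩, h3, F, rfl, -⟩ := H (.inl none) b
    refine Fn_gen χ S (fun a => (hχ a).symm ▸ h1 a) (fun ε => ?_) F
    have h4 : χ (M1x A ε) = f (m.α' (!ε)) * r ε * f (m.α ε) := by
      rw [h3 m hm ε]
      calc χ (M1x A ε) = f (m.α' (!ε) * m.c ε) * f (m.α ε) +
            f (m.α' (!ε) * m.α (!ε)) * χ (M1x A ε) * f (m.α' ε * m.α ε) := by
            rw [m.h4, (m.adm _).1, (m.adm _).1, map_zero, map_one, zero_mul, zero_add, one_mul,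
              mul_one]
        _ = _ := by
            simp only [map_mul]
            noncomm_ring
    exact h4.symm ▸ S.mul_mem (S.mul_mem (h1 _) (h2 ε)) (h1 _)
  · obtain ⟨χ, τ, hχ, -, -, F, rfl, l, hl, a, h⟩ := H (.inl (some true)) b
    exact ⟨l, hl, a, M1_perp hχ h⟩
  · refine jpin_ext hP f.toRingHom ((hpins i).1 h) fun b => ?_
    obtain ⟨χ, τ, hχ, -, -, F, rfl, h1, -⟩ := H (.inr (.inl i)) b
    exact M1_J hχ (h1 h)
  · refine bpin_ext hP f ((hpins i).2 h) fun b => ?_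
    obtain ⟨χ, τ, hχ, -, -, F, rfl, -, h1⟩ := H (.inr (.inl i)) b
    refine (M1_G hχ (h1 h)).imp id ?_
    rintro ⟨e, z, hz, h2⟩
    refine ⟨z, hz, fun N hN _ hb => ?_⟩
    have h3 := N.sub_mem (rmul N hb (f.toRingHom e)) (hN h2)
    rwa [sub_sub_cancel] at h3

theorem m1 [IsAlgClosed k] [Countable A] (B : Base k A) {P : RI A} {L1 L2 : Ideal A}
    (hG : Good k P L1 L2) {ι : Type} [Countable ι] (pins : ι → Pin A)
    (hpins : ∀ i, (pins i).ok k P) {K : RI A} (hK : SimpK k K) (hS : SFree P K) :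
    Ach k A fun A' _ _ f => Concl k P L1 L2 pins A' f ∧
      ∃ r r' : A', r * r' = 1 ∧ ∀ p ∈ P, r * f p ∈ ext f.toRingHom K := by
  obtain ⟨hP, hS', hL⟩ := hG
  let I : Bool → RI A := fun ε => cond ε P K
  have hI : VP k I := ⟨fun ε => by cases ε; exacts [hK, hS'],
    fun ε => by cases ε; exacts [hS.symm hS'.1 hK.1, hS]⟩
  have := countable_Fn (X := XV A)
  obtain ⟨C, hC, hc, H⟩ := engine (FnV A) const_mem_Fn (fun τ => ∃ m : Mo I, τ = m.σ)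
    (M1D k B.lv I L1 pins) ⟨Mo.id I, funext fun δ => (Mo.id_σ δ).symm⟩ (by
      rintro _ ⟨m0, rfl⟩ t F hF
      obtain ⟨m, hm⟩ := M1_step hP B hI hL pins hpins m0 t hF
      have e : (fun δ => m0.σ (m.σ δ)) = (m0.comp m).σ := funext fun δ => (m0.comp_σ m δ).symm
      exact ⟨m.σ, fun G hG => m.mem_Fn hG, ⟨_, e⟩, e ▸ hm⟩)
  refine ⟨C, hC, hc, fun A' _ _ _ f q hq hf => ?_⟩
  obtain ⟨χ0, h0, H⟩ := H A' q hq
  have hr : ∀ ε, χ0 (M1x A ε) * χ0 (M1x A (!ε)) = 1 := fun ε => by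
    have h1 : M1x A ε * M1x A (!ε) = 1 := Subtype.ext (funext fun δ => δ.2 ε)
    rw [← map_mul, h1, map_one]
  obtain ⟨h1, h2⟩ := M1_fin hP B.lv hI hL pins hpins f (fun ε => χ0 (M1x A ε)) hr fun t b => by
    obtain ⟨χ, τ, hτ, hm, h1, h2⟩ := H t b
    have hχ : ∀ a, χ (M1c a) = f a := fun a => (h1 (M1c a)).trans ((h0 a).trans (hf a))
    refine ⟨χ, τ, hχ, hm, ?_, h2⟩
    rintro m rfl ε
    rw [← hχ, ← hχ, ← hχ, ← map_mul, ← map_mul, ← map_add]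
    exact (h1 (M1x A ε)).symm
  exact ⟨h1, _, _, hr true, h2⟩

end Pool.Agent.Work.MP_c4093f_al
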