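import Pool.Agent.Work.MP_c4093f_al.Poly

/-!
Moves for the extension that makes two simple modules isomorphic.  The variable is a unit
`υ true` with inverse `υ false`; the aim is `υ ε * I ε ⊆ I (!ε)`.
-/

namespace Pool.Agent.Work.MP_c4093f_al

variable {k A : Type} [Field k] [Ring A] [Algebra k A]

/-- units with their inverses -/
def DU (A : Type) [Ring A] : Type := {υ : Bool → A // ∀ ε, υ ε * υ (!ε) = 1}

instance : Nonempty (DU A) := ⟨⟨fun _ => 1, fun _ => mul_one 1⟩⟩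

/-- the unit whose two components are `1` -/
def DU.one (A : Type) [Ring A] : DU A := ⟨fun _ => 1, fun _ => mul_one 1⟩

/-- the two variables -/
def XV (A : Type) [Ring A] : Bool → DU A → A := fun ε δ => δ.1 ε

/-- polynomial functions of a unit and its inverse -/
abbrev FnV (A : Type) [Ring A] : Subring (DU A → A) := Fn (XV A)

variable (k) in
/-- two non isomorphic simple modules with scalar endomorphisms -/
def VP (I : Bool → RI A) : Prop := (∀ ε, SimpK k (I ε)) ∧ ∀ ε, SFree (I ε) (I (!ε))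

/-- a move -/
structure Mo (I : Bool → RI A) where
  α : Bool → A
  α' : Bool → A
  c : Bool → A
  adm : ∀ ε, Adm (I ε) (α ε) (α' ε)
  h3 : ∀ ε, c ε * α ε = 0
  h4 : ∀ ε, α' (!ε) * c ε = 0
  h5 : ∀ ε, c ε * c (!ε) = 1 - α (!ε) * α' (!ε)

variable {I : Bool → RI A}

theorem Mo.h4' (m : Mo I) (ε : Bool) : m.α' ε * m.c (!ε) = 0 := by
  simpa using m.h4 (!ε)

theorem Mo.h5' (m : Mo I) (ε : Bool) : m.c (!ε) * m.c ε = 1 - m.α ε * m.α' ε := by
  simpa using m.h5 (!ε)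

/-- the substitution of a move -/
def Mo.σ (m : Mo I) (δ : DU A) : DU A :=
  ⟨fun ε => m.c ε + m.α (!ε) * δ.1 ε * m.α' ε, fun ε => by
    have h1 := (m.adm ε).1
    have h2 := δ.2 ε
    simp only [Bool.not_not]
    calc (m.c ε + m.α (!ε) * δ.1 ε * m.α' ε) * (m.c (!ε) + m.α ε * δ.1 (!ε) * m.α' (!ε))
        = m.c ε * m.c (!ε) + (m.c ε * m.α ε) * δ.1 (!ε) * m.α' (!ε)
          + m.α (!ε) * δ.1 ε * (m.α' ε * m.c (!ε))
          + m.α (!ε) * (δ.1 ε * (m.α' ε * m.α ε) * δ.1 (!ε)) * m.α' (!ε) := by noncomm_ring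
      _ = 1 := by rw [m.h5, m.h3, m.h4', h1, mul_one, h2]; noncomm_ring⟩

@[simp] theorem Mo.σ_val (m : Mo I) (δ : DU A) (ε : Bool) :
    (m.σ δ).1 ε = m.c ε + m.α (!ε) * δ.1 ε * m.α' ε := rfl

/-- the ideals after the move -/
def Mo.J (m : Mo I) : Bool → RI A := fun ε => lq (I ε) (m.α ε)

/-- the trivial move -/
def Mo.id (I : Bool → RI A) : Mo I where
  α := fun _ => 1
  α' := fun _ => 1
  c := fun _ => 0
  adm := fun ε => ⟨mul_one 1, by simp⟩
  h3 := by simp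
  h4 := by simp
  h5 := by simp

theorem Mo.id_σ (δ : DU A) : (Mo.id I).σ δ = δ := Subtype.ext (by funext ε; simp [Mo.id])

/-- composition of moves -/
def Mo.comp (m : Mo I) (m' : Mo m.J) : Mo I where
  α := fun ε => m.α ε * m'.α ε
  α' := fun ε => m'.α' ε * m.α' ε
  c := fun ε => m.c ε + m.α (!ε) * m'.c ε * m.α' ε
  adm := fun ε => (m.adm ε).comp (m'.adm ε)
  h3 := fun ε => by
    calc (m.c ε + m.α (!ε) * m'.c ε * m.α' ε) * (m.α ε * m'.α ε)
        = m.c ε * m.α ε * m'.α ε + m.α (!ε) * (m'.c ε * (m.α' ε * m.α ε) * m'.α ε) := by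
          noncomm_ring
      _ = 0 := by rw [m.h3, (m.adm ε).1, mul_one, m'.h3]; simp
  h4 := fun ε => by
    calc m'.α' (!ε) * m.α' (!ε) * (m.c ε + m.α (!ε) * m'.c ε * m.α' ε)
        = m'.α' (!ε) * (m.α' (!ε) * m.c ε)
          + (m'.α' (!ε) * (m.α' (!ε) * m.α (!ε)) * m'.c ε) * m.α' ε := by noncomm_ring
      _ = 0 := by rw [m.h4, (m.adm _).1, mul_one, m'.h4]; simp
  h5 := fun ε => by
    simp only [Bool.not_not]
    calc (m.c ε + m.α (!ε) * m'.c ε * m.α' ε) * (m.c (!ε) + m.α ε * m'.c (!ε) * m.α' (!ε))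
        = m.c ε * m.c (!ε) + (m.c ε * m.α ε) * m'.c (!ε) * m.α' (!ε)
          + m.α (!ε) * m'.c ε * (m.α' ε * m.c (!ε))
          + m.α (!ε) * (m'.c ε * (m.α' ε * m.α ε) * m'.c (!ε)) * m.α' (!ε) := by noncomm_ring
      _ = _ := by rw [m.h5, m.h3, m.h4', (m.adm ε).1, mul_one, m'.h5]; noncomm_ring

theorem Mo.comp_σ (m : Mo I) (m' : Mo m.J) (δ : DU A) : (m.comp m').σ δ = m.σ (m'.σ δ) :=
  Subtype.ext (by funext ε; simp only [Mo.σ_val, Mo.comp]; noncomm_ring)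

theorem Mo.comp_J (m : Mo I) (m' : Mo m.J) : (m.comp m').J = m'.J := by
  funext ε; simp only [Mo.J, Mo.comp, lq_lq]

theorem Mo.not_mem (m : Mo I) (hI : VP k I) (ε : Bool) : m.α ε ∉ I ε :=
  (m.adm ε).not_mem (hI.1 ε).1.1

theorem Mo.vp (m : Mo I) (hI : VP k I) : VP k m.J :=
  ⟨fun ε => (hI.1 ε).lq (m.not_mem hI ε),
    fun ε => ((hI.2 ε).lq_left (hI.1 ε).1 _).lq_right _⟩

theorem Mo.c_mem (m : Mo I) (ε : Bool) : m.c ε ∈ I (!ε) := by
  have := rmul _ (m.adm (!ε)).2 (m.c ε)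
  rwa [sub_mul, one_mul, mul_assoc, m.h4, mul_zero, sub_zero] at this

theorem Mo.deg (m : Mo I) (ε : Bool) : Deg (XV A) 1 (fun δ => XV A ε (m.σ δ)) :=
  Deg.step 0 _ (m.α (!ε)) ε _ (Deg.const 1 (m.c ε)) (Deg.const 0 (m.α' ε))

theorem Mo.mem_Fn (m : Mo I) {F : DU A → A} (hF : F ∈ FnV A) :
    (fun δ => F (m.σ δ)) ∈ FnV A := comp_mem_Fn (X := XV A) m.deg hF

theorem VP.ne (hI : VP k I) (ε : Bool) : I ε ≠ I (!ε) := fun h =>
  (hI.1 (!ε)).1.1 (hI.2 ε 1 fun p hp => by rw [one_mul, ← h]; exact hp)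

/-- two nonzero idempotents are connected by a partial isomorphism -/
theorem PI.iso (hP : PI A) (e : Bool → A) (he : ∀ ε, e ε * e ε = e ε) (h0 : ∀ ε, e ε ≠ 0) :
    ∃ c : Bool → A, ∀ ε, c ε * e ε = c ε ∧ e (!ε) * c ε = c ε ∧ c ε * c (!ε) = e (!ε) := by
  choose φ φ' h1 h2 using fun ε => hP.idem (he ε) (h0 ε)
  refine ⟨fun ε => φ (!ε) * φ' ε, fun ε => ⟨?_, ?_, ?_⟩⟩
  · rw [← h2, mul_assoc, ← mul_assoc (φ' ε), h1, one_mul]
  · rw [← h2, mul_assoc, ← mul_assoc (φ' _), h1, one_mul]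
  · simp only [Bool.not_not]
    rw [mul_assoc, ← mul_assoc (φ' ε), h1, one_mul, h2]

/-- a move below given admissible pairs whose rows kill given elements -/
theorem mk0 (hP : PI A) (lv : Lv A) (hI : ∀ ε, MaxR (I ε)) {a a' : Bool → A}
    (ha : ∀ ε, Adm (I ε) (a ε) (a' ε)) {ι : Type} [Finite ι] (h : ι → A) (ty : ι → Bool)
    (hh : ∀ j, h j ∈ I (ty j)) :
    ∃ (m : Mo I) (β β' : Bool → A), (∀ ε, m.α ε = a ε * β ε ∧ m.α' ε = β' ε * a' ε ∧
      β' ε * β ε = 1) ∧ ∀ j, m.α' (ty j) * h j = 0 := by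
  have key := fun ε => exists_adm_kill hP lv ((hI ε).lq ((ha ε).not_mem (hI ε).1))
    (fun j : {j // ty j = ε} => a' ε * h j.1) fun j => (ha ε).mem_lq.2 (by
      have := hh j.1; rwa [j.2] at this)
  choose β β' h1 h2 h3 using key
  have hadm := fun ε => (ha ε).comp (h1 ε)
  have hid : ∀ ε, (1 - a ε * β ε * (β' ε * a' ε)) * (1 - a ε * β ε * (β' ε * a' ε))
      = 1 - a ε * β ε * (β' ε * a' ε) := fun ε => by
    have := (hadm ε).1
    calc _ = 1 - a ε * β ε * (β' ε * a' ε) - a ε * β ε * (β' ε * a' ε)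
          + a ε * β ε * (β' ε * a' ε * (a ε * β ε)) * (β' ε * a' ε) := by noncomm_ring
      _ = _ := by rw [this]; noncomm_ring
  obtain ⟨c, hc⟩ := hP.iso _ hid fun ε h0 => h2 ε (by
    rw [sub_eq_zero] at h0
    calc β ε * β' ε = a' ε * a ε * (β ε * β' ε) * (a' ε * a ε) := by rw [(ha ε).1]; simp
      _ = a' ε * (a ε * β ε * (β' ε * a' ε)) * a ε := by noncomm_ring
      _ = 1 := by rw [← h0, mul_one, (ha ε).1])
  refine ⟨⟨fun ε => a ε * β ε, fun ε => β' ε * a' ε, c, hadm, fun ε => ?_, fun ε => ?_,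
    fun ε => (hc ε).2.2⟩, β, β', fun ε => ⟨rfl, rfl, (h1 ε).1⟩, fun j => ?_⟩
  · rw [← (hc ε).1, mul_assoc, sub_mul, one_mul, mul_assoc (a ε * β ε), (hadm ε).1, mul_one,
      sub_self, mul_zero]
  · rw [← (hc ε).2.1, ← mul_assoc, mul_sub, mul_one, ← mul_assoc (β' _ * a' _), (hadm _).1,
      one_mul, sub_self, zero_mul]
  · exact (mul_assoc _ _ _).trans (h3 (ty j) ⟨j, rfl⟩)

/-- a move with columns in given right ideals whose rows kill given elements -/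
theorem mk1 (hP : PI A) (lv : Lv A) (hI : ∀ ε, MaxR (I ε)) (N : Bool → RI A)
    (hN : ∀ ε, ¬ N ε ≤ I ε) {ι : Type} [Finite ι] (h : ι → A) (ty : ι → Bool)
    (hh : ∀ j, h j ∈ I (ty j)) :
    ∃ m : Mo I, (∀ ε, m.α ε ∈ N ε) ∧ ∀ j, m.α' (ty j) * h j = 0 := by
  choose a h1 a' h2 using fun ε => exists_adm hP (hI ε) (hN ε)
  obtain ⟨m, β, β', h3, h4⟩ := mk0 hP lv hI h2 h ty hh
  exact ⟨m, fun ε => by rw [(h3 ε).1]; exact rmul _ (h1 ε) _, h4⟩

variable (k) in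
/-- the `q j` of each type are independent modulo the ideal of that type -/
def IndT (I : Bool → RI A) {ι : Type} [Fintype ι] (q : ι → A) (ty : ι → Bool) : Prop :=
  ∀ ε (l : ι → k), (∀ j, ty j ≠ ε → l j = 0) → ∑ j, l j • q j ∈ I ε → l = 0

end Pool.Agent.Work.MP_c4093f_al
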