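import Pool.Agent.Work.MP_c4093f_al.M1Defs
import Pool.Agent.Work.MP_c4093f_al.Free1

/-!
Localisation: a move makes every polynomial linear, with independent rows.

* `adm_scal1`: one ideal, one element: if `lq I0 p ≤ I0` then `p ∉ I0`, `lq I0 p = I0`
  (`MaxR.eq_of_le`), `p` is a scalar modulo `I0`, take `α = 1`; else `exists_adm` in `lq I0 p`,
  scalar `0`.
* `adm_scal`: induct on the family; with `(a, a')` found so far apply `adm_scal1` to
  `lq I0 a` and `a' * s j * a`, use `Adm.comp` and `1 - a a' ∈ I0`.  To get `t j * a ∈ I1` use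
  `exists_adm` with `N = lq I1 (t j * a)`: it is not inside `lq I0 a`, since
  `SFree (lq I1 (t j * a)) (lq I0 a)` (`SFree.lq_left`, `SFree.lq_right`) and `1 ∉ lq I0 a`.
* `loc_mo`: `adm_scal` for both `ε`, then `mk0` killing `(s j - l) * a ε ∈ I ε` and
  `s j * a ε ∈ I (!ε)`.
* `loc_step`: call a move good for a finite list of constants if it has the property of `loc_mo`.
  By induction on `Deg`: for `G` of degree `n + 1` there is a list such that for good moves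
  `fun δ => δ.1 ε * m.α' ε * G (m.σ δ)` has degree `n + 1` for both `ε` (the top term is
  `δ.1 ε * (α' ε * p * α (!ε')) * δ.1 ε' * ...`, which is `0` if `ε' = ε` and a scalar times a term
  of degree `n` if `ε' = !ε`).  Then the same induction for `F` of degree `n + 2`.
* `loc`: iterate with `Mo.comp`, `Mo.comp_σ`, `Mo.vp`.
* `red`: `loc`, `Deg.rep1`, then induction on the card of a finset `s` of terms, for all
  `I z p q`: if some nontrivial combination `q0 = ∑ l j • q j` of type `ε` lies in `I ε`, with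
  `l j0 ≠ 0`, take a move with `α' ε * q0 = 0` (`mk1` with `N = ⊤`) and eliminate the term `j0`.
* `m1_n`: for each `ε`, `adm_scal` with `I0 = m0.J ε`, `I1 = I (!ε)`, `s = m0.α' ε * z * m0.α ε`,
  `t = z * m0.α ε`; then `mk0` killing `m0.α' ε * z` when `z ∈ I ε` (`Adm.mem_lq`).
* `m1_perp`: `loc`, `Deg.rep1`; `kill` with `ν = fun _ : Unit => 1`, `K = J true` for the `p j`,
  then with `K = J false` for the `(1 - l) * p j`; `mk1` with `N ε` the right annihilator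
  `⨅ j, lq ⊥ ((1 - l) * p j)` (or the span of `ω ε`).
-/

namespace Pool.Agent.Work.MP_c4093f_al

variable {k A : Type} [Field k] [Ring A] [Algebra k A] {I : Bool → RI A}

theorem adm_scal1 (hP : PI A) {I0 : RI A} (h0 : SimpK k I0) (p : A) :
    ∃ α α', Adm I0 α α' ∧ ∃ l : k, (p - algebraMap k A l) * α ∈ I0 := by
  by_cases h : lq I0 p ≤ I0
  · have hp : p ∉ I0 := fun hp => h0.1.1 (h (by simpa using hp))
    obtain ⟨l, hl⟩ := h0.2 p fun x hx => ((h0.1.lq hp).eq_of_le h h0.1.1).le hx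
    exact ⟨1, 1, ⟨mul_one 1, by simp⟩, l, by rwa [mul_one]⟩
  · obtain ⟨α, h1, α', h2⟩ := exists_adm hP h0.1 h
    exact ⟨α, α', h2, 0, by rwa [map_zero, sub_zero]⟩

theorem M1a_sc {K : RI A} {a a' s β : A} {l : k} (h : Adm K a a')
    (h1 : (a' * s * a - algebraMap k A l) * β ∈ lq K a) :
    (s - algebraMap k A l) * (a * β) ∈ K := by
  convert K.add_mem h1 (rmul K h.2 (s * a * β)) using 1
  rw [← mul_assoc a, mul_sub a, ← Algebra.commutes l a]
  noncomm_ring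

theorem M1a_free (hI : VP k I) (ε : Bool) : SFree (I (!ε)) (I ε) := by
  simpa using hI.2 (!ε)

theorem adm_scal (hP : PI A) {I0 I1 : RI A} (h0 : SimpK k I0) (h1 : MaxR I1) (hF : SFree I1 I0)
    {ι : Type} [Finite ι] (s t : ι → A) :
    ∃ α α', Adm I0 α α' ∧ ∀ j, (∃ l : k, (s j - algebraMap k A l) * α ∈ I0) ∧ t j * α ∈ I1 := by
  classical
  have key : ∀ S : Finset ι, ∃ α α', Adm I0 α α' ∧
      ∀ j ∈ S, (∃ l : k, (s j - algebraMap k A l) * α ∈ I0) ∧ t j * α ∈ I1 := fun S => by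
    induction S using Finset.induction_on with
    | empty => exact ⟨1, 1, ⟨mul_one 1, by simp⟩, by simp⟩
    | insert j S _ ih =>
      obtain ⟨a, a', ha, h2⟩ := ih
      obtain ⟨β, β', hβ, l, hl⟩ := adm_scal1 hP (h0.lq (ha.not_mem h0.1.1)) (a' * s j * a)
      have hb := ha.comp hβ
      have hb' := hb.not_mem h0.1.1
      obtain ⟨γ, h3, γ', hγ⟩ := exists_adm hP (h0.1.lq hb') (N := lq I1 (t j * (a * β))) fun hle =>
        hb' (by
          simpa using (hF.lq_left h1 _).lq_right (a * β) 1 fun p hp => by simpa using hle hp)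
      refine ⟨_, _, hb.comp hγ, Finset.forall_mem_insert _ _ _ |>.2 ⟨⟨⟨l, ?_⟩, ?_⟩, fun i hi => ?_⟩⟩
      · rw [← mul_assoc]
        exact rmul _ (M1a_sc ha hl) _
      · rw [← mul_assoc]
        exact h3
      · obtain ⟨⟨l, h4⟩, h5⟩ := h2 i hi
        rw [mul_assoc a, ← mul_assoc (t i)]
        exact ⟨⟨l, by rw [← mul_assoc]; exact rmul _ h4 _⟩, rmul _ h5 _⟩
  have := Fintype.ofFinite ι
  obtain ⟨α, α', h2, h3⟩ := key Finset.univ
  exact ⟨α, α', h2, fun j => h3 j (Finset.mem_univ j)⟩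

theorem loc_mo (hP : PI A) (lv : Lv A) (hI : VP k I) {ι : Type} [Finite ι] (s : ι → A) :
    ∃ m : Mo I, ∀ j ε, (∃ l : k, m.α' ε * s j * m.α ε = algebraMap k A l) ∧
      m.α' (!ε) * s j * m.α ε = 0 := by
  choose a a' ha h using fun ε => adm_scal hP (hI.1 ε) (hI.1 (!ε)).1 (M1a_free hI ε) s s
  choose l hl using fun ε j => (h ε j).1
  obtain ⟨m, β, β', h1, h2⟩ := mk0 hP lv (fun ε => (hI.1 ε).1) ha
    (Sum.elim (fun x : ι × Bool => (s x.1 - algebraMap k A (l x.2 x.1)) * a x.2)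
      fun x : ι × Bool => s x.1 * a x.2) (Sum.elim Prod.snd fun x => !x.2) (by
      rintro (x | x)
      · exact hl x.2 x.1
      · exact (h x.2 x.1).2)
  refine ⟨m, fun j ε => ⟨⟨l ε j, ?_⟩, ?_⟩⟩
  · have h3 : m.α' ε * ((s j - algebraMap k A (l ε j)) * a ε) = 0 := h2 (.inl (j, ε))
    rw [← sub_eq_zero, ← mul_one (algebraMap k A _), ← (m.adm ε).1, (h1 ε).1, ← zero_mul (β ε),
      ← h3, ← mul_assoc (algebraMap k A _), Algebra.commutes]
    noncomm_ring
  · have h3 : m.α' (!ε) * (s j * a ε) = 0 := h2 (.inr (j, ε))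
    rw [(h1 ε).1, ← mul_assoc, mul_assoc _ (s j), h3, zero_mul]

theorem M1a_top {n : ℕ} {G : DU A → A} (hG : Deg (XV A) (n + 1) G) :
    ∃ (N : ℕ) (p : Fin N → A), ∀ m : Mo I, (∀ j ε, (∃ l : k, m.α' ε * p j * m.α ε =
      algebraMap k A l) ∧ m.α' (!ε) * p j * m.α ε = 0) →
      ∀ ε, Deg (XV A) (n + 1) fun δ => δ.1 ε * m.α' ε * G (m.σ δ) := by
  obtain ⟨N, z, p, ty, H, hH, e⟩ := hG.rep
  refine ⟨N, p, fun m hm ε => ?_⟩
  have h1 : ∀ a, Deg (XV A) 1 fun δ => δ.1 ε * a := fun a => (Deg.var (X := XV A) ε).rmul a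
  have h2 : ∀ j, Deg (XV A) (n + 1) fun δ =>
      δ.1 ε * (m.α' ε * p j * m.α (!ty j)) * δ.1 (ty j) * (m.α' (ty j) * H j (m.σ δ)) := fun j => by
    by_cases h : ty j = ε
    · have h3 := (hm j (!ε)).2
      rw [Bool.not_not] at h3
      simpa only [h, h3, mul_zero, zero_mul] using Deg.const _ 0
    · obtain ⟨l, hl⟩ := (hm j ε).1
      rw [Bool.eq_not_of_ne h, Bool.not_not, hl]
      refine ((((hH j).comp m.deg).lmul (algebraMap k A l * m.α' (!ε))).mono n.le_succ).congr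
        fun δ => ?_
      rw [← Algebra.commutes, mul_assoc _ (δ.1 ε), δ.2, mul_one, mul_assoc]
  refine ((((h1 (m.α' ε * z)).mono (by omega)).add (Deg.sum Finset.univ fun j _ =>
    (((h1 (m.α' ε * p j * m.c (ty j))).mul ((hH j).comp m.deg)).mono (by omega)).add
      (h2 j)))).congr fun δ => ?_
  rw [e, mul_add, Finset.mul_sum, mul_assoc]
  refine congrArg _ (Finset.sum_congr rfl fun j _ => ?_)
  simp only [XV, Mo.σ_val]
  noncomm_ring

theorem loc_step (hP : PI A) (lv : Lv A) (hI : VP k I) {n : ℕ} {F : DU A → A}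
    (hF : Deg (XV A) (n + 2) F) : ∃ m : Mo I, Deg (XV A) (n + 1) (fun δ => F (m.σ δ)) := by
  obtain ⟨N, z, p, ty, G, hG, e⟩ := hF.rep
  choose M q hq using fun j => M1a_top (k := k) (I := I) (hG j)
  obtain ⟨m, hm⟩ := loc_mo hP lv hI fun x : Σ j, Fin (M j) => q x.1 x.2
  refine ⟨m, ((Deg.const _ z).add (Deg.sum Finset.univ fun j _ =>
    (((hG j).comp m.deg).lmul (p j * m.c (ty j))).add
      ((hq j m (fun i => hm ⟨j, i⟩) (ty j)).lmul (p j * m.α (!ty j))))).congr fun δ => ?_⟩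
  rw [e]
  refine congrArg _ (Finset.sum_congr rfl fun j _ => ?_)
  simp only [XV, Mo.σ_val]
  noncomm_ring

theorem loc (hP : PI A) (lv : Lv A) (hI : VP k I) {F : DU A → A} (hF : F ∈ FnV A) :
    ∃ m : Mo I, Deg (XV A) 1 (fun δ => F (m.σ δ)) := by
  obtain ⟨n, hn⟩ := hF
  replace hn := hn.mono n.le_succ
  induction n generalizing I F with
  | zero => exact ⟨Mo.id I, hn.congr fun δ => by rw [Mo.id_σ]⟩
  | succ n ih =>
    obtain ⟨m, hm⟩ := loc_step hP lv hI hn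
    obtain ⟨m', hm'⟩ := ih (m.vp hI) hm
    exact ⟨m.comp m', hm'.congr fun δ => by rw [Mo.comp_σ]⟩

theorem M1a_red (hP : PI A) (lv : Lv A) (hI : VP k I) (N : ℕ) (z : A) (p q : Fin N → A)
    (ty : Fin N → Bool) : ∃ (m : Mo I) (N' : ℕ) (z' : A) (p' q' : Fin N' → A) (ty' : Fin N' → Bool),
      IndT k m.J q' ty' ∧ ∀ δ, z + ∑ j, p j * (m.σ δ).1 (ty j) * q j =
        z' + ∑ j, p' j * δ.1 (ty' j) * q' j := by
  induction N generalizing I z with
  | zero =>
    exact ⟨Mo.id I, 0, z, p, q, ty, fun _ _ _ _ => Subsingleton.elim _ _, fun δ => by simp⟩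
  | succ N ih =>
    by_cases h : IndT k I q ty
    · refine ⟨Mo.id I, _, z, p, q, ty, ?_, fun δ => by rw [Mo.id_σ]⟩
      rwa [show (Mo.id I).J = I from funext fun ε => lq_one _]
    simp only [IndT, not_forall] at h
    obtain ⟨ε, l, h1, h2, h3⟩ := h
    obtain ⟨i, hi⟩ := Function.ne_iff.1 h3
    obtain ⟨m, -, h4⟩ := mk1 hP lv (fun ε => (hI.1 ε).1) (fun _ => ⊤)
      (fun ε h => (hI.1 ε).1.1 (h trivial)) (fun _ : Unit => ∑ j, l j • q j) (fun _ => ε) fun _ => h2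
    obtain ⟨m', N', z', p', q', ty', h5, h6⟩ := ih (m.vp hI) (z + ∑ j, p j * m.c (ty j) * q j)
      (fun j => (p (i.succAbove j) - (l (i.succAbove j) / l i) • p i) * m.α (!ty (i.succAbove j)))
      (fun j => m.α' (ty (i.succAbove j)) * q (i.succAbove j)) fun j => ty (i.succAbove j)
    refine ⟨m.comp m', N', z', p', q', ty', by rwa [Mo.comp_J], fun δ => Eq.trans ?_ (h6 δ)⟩
    rw [Mo.comp_σ]
    generalize m'.σ δ = d
    have h7 : ∑ j, (l j / l i) • p i * m.α (!ty j) * d.1 (ty j) * (m.α' (ty j) * q j) = 0 := by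
      rw [← mul_zero ((l i)⁻¹ • p i * m.α (!ε) * d.1 ε), ← h4 (), Finset.mul_sum, Finset.mul_sum]
      refine Finset.sum_congr rfl fun j _ => ?_
      by_cases h : ty j = ε
      · simp only [h, smul_mul_assoc, mul_smul_comm, smul_smul, div_eq_mul_inv]
      · simp [h1 j h]
    have h8 := Fin.sum_univ_succAbove (fun j =>
      (p j - (l j / l i) • p i) * m.α (!ty j) * d.1 (ty j) * (m.α' (ty j) * q j)) i
    rw [div_self hi, one_smul, sub_self, zero_mul, zero_mul, zero_mul, zero_add] at h8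
    rw [← h8, add_assoc, ← add_zero (∑ j, p j * m.c (ty j) * q j), ← h7, ← Finset.sum_add_distrib,
      ← Finset.sum_add_distrib]
    refine congrArg _ (Finset.sum_congr rfl fun j _ => ?_)
    simp only [Mo.σ_val, sub_mul, add_mul, mul_add, mul_assoc]
    abel

theorem red (hP : PI A) (lv : Lv A) (hI : VP k I) {F : DU A → A} (hF : F ∈ FnV A) :
    ∃ (m : Mo I) (ι : Type) (_ : Fintype ι) (z : A) (p q : ι → A) (ty : ι → Bool),
      IndT k m.J q ty ∧ ∀ δ, F (m.σ δ) = z + ∑ j, p j * δ.1 (ty j) * q j := by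
  obtain ⟨m, hm⟩ := loc hP lv hI hF
  obtain ⟨N, z, p, ty, q, e⟩ := hm.rep1
  obtain ⟨m', N', z', p', q', ty', h1, h2⟩ := M1a_red hP lv (m.vp hI) N z p q ty
  exact ⟨m.comp m', Fin N', inferInstance, z', p', q', ty', by rwa [Mo.comp_J],
    fun δ => by rw [Mo.comp_σ, e]; exact h2 δ⟩

theorem m1_n (hP : PI A) (lv : Lv A) (hI : VP k I) (m0 : Mo I) (z : A) :
    ∃ m : Mo m0.J, ∀ ε, z * (m0.comp m).α (!ε) ∈ I ε ∧
      (∃ l : k, (z - algebraMap k A l) * (m0.comp m).α ε ∈ I ε) ∧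
      (z ∈ I ε → (m0.comp m).α' ε * z = 0) := by
  have hJ := m0.vp hI
  choose a a' ha h using fun ε => adm_scal hP (hJ.1 ε) (hI.1 (!ε)).1
    ((M1a_free hI ε).lq_right _) (fun _ : Unit => m0.α' ε * z * m0.α ε) fun _ => z * m0.α ε
  obtain ⟨m, β, β', h1, h2⟩ := mk0 hP lv (fun ε => (hJ.1 ε).1) ha
    (fun x : {ε // z ∈ I ε} => m0.α' x * z) Subtype.val fun x => (m0.adm x).mem_lq.2 x.2
  refine ⟨m, fun ε => ⟨?_, ?_, fun hz => (mul_assoc _ _ _).trans (h2 ⟨ε, hz⟩)⟩⟩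
  · have h3 := rmul _ (h (!ε) ()).2 (β (!ε))
    rwa [Bool.not_not, mul_assoc, ← (h1 _).1, mul_assoc] at h3
  · obtain ⟨l, hl⟩ := (h ε ()).1
    have h3 := rmul _ hl (β ε)
    rw [mul_assoc, ← (h1 _).1] at h3
    exact ⟨l, M1a_sc (m0.adm ε) h3⟩

theorem m1_perp (hP : PI A) (lv : Lv A) (hI : VP k I) {L1 L2 : Ideal A} (hL : Perp L1 L2)
    {F : DU A → A} (hF : F ∈ FnV A) :
    ∃ m : Mo I, ∃ l ∈ L1, ∃ a, ∀ δ, (1 - l) * F (m.σ δ) = a := by
  obtain ⟨m0, hm⟩ := loc hP lv hI hF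
  obtain ⟨N, z, p, ty, q, e⟩ := hm.rep1
  have hJ := m0.vp hI
  obtain ⟨l1, hl1, ω1, h1, h2⟩ := kill hP lv hL ((indK_one (k := k)).2 (hJ.1 true).1.1) p
  obtain ⟨l2, hl2, ω2, h3, h4⟩ := kill hP lv hL ((indK_one (k := k)).2 (hJ.1 false).1.1)
    fun j => (1 - l1) * p j
  rw [indK_one, one_mul] at h2 h4
  obtain ⟨m, h5, -⟩ := mk1 hP lv (fun ε => (hJ.1 ε).1)
    (fun _ => ⨅ j, lq ⊥ ((1 - l2) * ((1 - l1) * p j))) (fun ε hle => by
      cases ε
      · exact h4 (hle ((Submodule.mem_iInf _).2 h3))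
      · exact h2 (hle ((Submodule.mem_iInf _).2 fun j =>
          show _ * _ * _ = 0 by rw [mul_assoc, h1, mul_zero])))
    (fun _ : Unit => 0) (fun _ => true) fun _ => zero_mem _
  refine ⟨m0.comp m, l1 + l2 - l2 * l1, sub_mem (add_mem hl1 hl2) (L1.mul_mem_left _ hl1),
    (1 - l2) * (1 - l1) * z + ∑ j, (1 - l2) * (1 - l1) * p j * m.c (ty j) * q j, fun δ => ?_⟩
  rw [Mo.comp_σ, e, show 1 - (l1 + l2 - l2 * l1) = (1 - l2) * (1 - l1) by noncomm_ring, mul_add,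
    Finset.mul_sum]
  refine congrArg _ (Finset.sum_congr rfl fun j _ => ?_)
  have h6 : (1 - l2) * ((1 - l1) * p j) * m.α (!ty j) = 0 := (Submodule.mem_iInf _).1 (h5 _) j
  simp only [XV, Mo.σ_val, mul_add, add_mul, ← mul_assoc] at h6 ⊢
  rw [h6, zero_mul, zero_mul, zero_mul, add_zero]

end Pool.Agent.Work.MP_c4093f_al
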