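import Pool.Agent.Work.MP_c4093f_al.M1a
import Pool.Agent.Work.MP_c4093f_al.Free2

/-!
Left freeness after localisation, and the swap move.

* General fact (prove it first): if `y x = 0 → x ∈ I0` for all `x`, `1 ∉ I0`, `y y' y = y`, then
  `g = y' y` is a nonzero idempotent with `1 - g ∈ I0`, `g = β β'` (`PI.idem`), `Adm I0 β β'` and
  `β' y' y β = 1`.
* `left_aux`: induction on `s`.  Let `a, a', η` work for `s`, new index `n` of type `ε`.  Put
  `J ε' = lq (I ε') (a ε')`, `v' j = v j * a (ty j)`, `s j = η j * v' n`,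
  `π = 1 - ∑ j ∈ s, v' j * η j`, `w = π * v' n = v' n - ∑ v' j * s j`.  New columns are
  `a ε' * B ε'` with `Adm (J ε') (B ε') (B' ε')` (`Adm.comp`).
  Case 1: `w x = 0 → x ∈ J ε`.  The general fact gives `β, β', ζ` with `ζ w β = 1`; `B ε = β`,
  `B (!ε) = 1`, `η n = ζ π`, new `η j = B' η j - (B' η j (v' n) β) η n`.
  Case 2: `exists_adm` gives `Adm (J ε) β1 β1'` with `w β1 = 0`.  `adm_scal` for
  `I0 = lq (J ε) β1`, `I1 = J (!ε)`, the families `β1' (s j) β1` and (`s j β1` if `ty j ≠ ε`, else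
  `0`) gives `β = β1 β2` and scalars `λ j` (reset to `0` if `ty j ≠ ε`) with
  `h j = (s j - λ j) β ∈ J (ty j)`.  Then `y = (v n - ∑ λ j • v j) * a ε * β = ∑ v' j * h j`, and
  `hv` (coefficients `1` at `n`, `-λ j` on `s`) gives `y x = 0 → x ∈ lq (J ε) β`.  The general fact
  gives `β3, ζ` with `ζ y β3 = 1`; `B0 = β β3`, `h' j = h j β3`.  `exists_adm_kill` gives `β4` for
  `lq (J ε) B0` killing the `B0' h' j` of type `ε` (`Adm.mem_lq`) and `B (!ε)` for `J (!ε)` killing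
  the `h' j` of the other type; `B ε = B0 β4`.  Put
  `η n = β4' ζ ∑ j, v' j (1 - B B') η j` (kills the `v' i B`, sends `y β3 β4` to `1`) and new
  `η j = B' η j - λ j • η n`; note `v' n * B ε = y β3 β4 + ∑ λ j • v' j * B ε`.
* `left`: `s = univ`, then shrink once more by `exists_adm_kill` for `a ε * a' ε ≠ 1`.
* `swap`: `1 - a ε a' ε = φ ε φ' ε` (`PI.idem`).  Take `ϑ ε ∈ lq (I ε) (a ε)`, `ϑ' ε ϑ ε = 1`
  (`MaxR.exists_linv`).  `letters` for the finite family of all `ϑ' false ηp i (b j) φ true`,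
  `ϑ' true ηb i (b j) φ true`, `ϑ' false ηp i (p j) φ false`, `ϑ' true ηb i (p j) φ false` gives
  `x x' = 1`, `U`.  Put `θ' ε = x ϑ' ε`, `θ ε = ϑ ε x'`, `1 - θ θ' = γ γ'` (`PI.idem`, nonzero as
  `θ ∈ lq`), `α ε = a ε γ ε`, `α' ε = γ' ε a' ε`,
  `c ε = a (!ε) θ (!ε) U' φ' ε + φ (!ε) U θ' ε a' ε`.  Let `R j = b j + p j c true`, columns
  `C (inl j) = R j φ true U = b j φ true U + p j a false θ false`,
  `C (inr j) = R j a true θ true = b j a true θ true + p j φ false U`, rows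
  `Ψ (inl i) = θ' false ηp i`, `Ψ (inr i) = θ' true ηb i`.  Then `Ψ s C t = δ + N s t` with `N` in
  the span of the letters; `Base.ma'` gives `L`.  Put
  `W i = γ' false ηp i - ∑ s t, γ' false ηp i (C s) (L s t) (Ψ t)`.  It kills all `C t`, hence
  `R j (1 - α true α' true)` (`1 - α α' = φ U U' φ' + a θ θ' a'`), and `R j α true = b j α true`.
-/

namespace Pool.Agent.Work.MP_c4093f_al

variable {k A : Type} [Field k] [Ring A] [Algebra k A] {I : Bool → RI A}

theorem M1b_gen (hP : PI A) {I0 : RI A} (h1 : (1 : A) ∉ I0) {y : A}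
    (hy : ∀ x, y * x = 0 → x ∈ I0) : ∃ β β' ζ, Adm I0 β β' ∧ ζ * y * β = 1 := by
  obtain ⟨y', h2, -⟩ := hP.reg y
  have h3 : 1 - y' * y ∈ I0 := hy _ (by rw [mul_sub, mul_one, ← mul_assoc, h2, sub_self])
  obtain ⟨β, β', h4, h5⟩ := hP.idem (e := y' * y) (by rw [mul_assoc, ← mul_assoc y, h2])
    (fun h0 => h1 (by simpa [h0] using h3))
  refine ⟨β, β', β' * y', ⟨h4, h5 ▸ h3⟩, ?_⟩
  rw [mul_assoc β', ← h5, ← mul_assoc, h4, one_mul, h4]

theorem M1b_sum {ι : Type} [DecidableEq ι] {s : Finset ι} {v η : ι → A}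
    (hη : ∀ i ∈ s, ∀ j ∈ s, η i * v j = if i = j then 1 else 0) (u : ι → A) {i : ι} (hi : i ∈ s) :
    (∑ j ∈ s, u j * η j) * v i = u i := by
  rw [Finset.sum_mul, Finset.sum_congr rfl fun j hj => by rw [mul_assoc, hη j hj i hi]]
  simp [hi]

theorem M1b_row (hP : PI A) (lv : Lv A) (hI : VP k I) {ι : Type} [Fintype ι] [DecidableEq ι]
    (v : ι → A) (ty : ι → Bool)
    (hv : ∀ ε (l : ι → k), (∀ j, ty j ≠ ε → l j = 0) → l ≠ 0 →
      ∀ x, (∑ j, l j • v j) * x = 0 → x ∈ I ε) {s : Finset ι} {n : ι} (hn : n ∉ s) {η : ι → A}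
    (hη : ∀ i ∈ s, ∀ j ∈ s, η i * v j = if i = j then 1 else 0) :
    ∃ B B' : Bool → A, (∀ ε, Adm (I ε) (B ε) (B' ε)) ∧ ∃ ρ : A, ρ * v n * B (ty n) = 1 ∧
      ∀ j ∈ s, ρ * v j * B (ty j) = 0 := by
  have hadm : ∀ {β β' : A}, Adm (I (ty n)) β β' → ∀ ε, Adm (I ε) (if ε = ty n then β else 1)
      (if ε = ty n then β' else 1) := fun h ε => by
    split_ifs with h1
    · exact h1 ▸ h
    · exact ⟨mul_one 1, by simp⟩
  have hM := (hI.1 (ty n)).1
  by_cases hw : lq ⊥ ((1 - ∑ j ∈ s, v j * η j) * v n) ≤ I (ty n)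
  · obtain ⟨β, β', ζ, h1, h2⟩ := M1b_gen hP hM.1 (y := (1 - ∑ j ∈ s, v j * η j) * v n)
      fun x hx => hw hx
    refine ⟨_, _, hadm h1, ζ * (1 - ∑ j ∈ s, v j * η j), by simpa [mul_assoc] using h2,
      fun j hj => ?_⟩
    rw [mul_assoc ζ, sub_mul, one_mul, M1b_sum hη v hj, sub_self, mul_zero, zero_mul]
  obtain ⟨β1, h1, β1', h2⟩ := exists_adm hP hM hw
  have h1' : v n * β1 = ∑ j ∈ s, v j * (η j * v n * β1) := by
    have h : (1 - ∑ j ∈ s, v j * η j) * v n * β1 = 0 := h1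
    rw [sub_mul, one_mul, sub_mul, sub_eq_zero, Finset.sum_mul, Finset.sum_mul] at h
    simpa only [mul_assoc] using h
  obtain ⟨β2, β2', h3, h4⟩ := adm_scal hP ((hI.1 _).lq (h2.not_mem hM.1)) (hI.1 (!ty n)).1
    (by simpa using ((hI.2 (!ty n)).lq_right β1)) (fun j => β1' * (η j * v n) * β1)
    fun j => η j * v n * β1
  choose l0 hl0 using fun j => (h4 j).1
  obtain ⟨l, hl1, hl2⟩ : ∃ l : ι → k, (∀ j, ty j ≠ ty n → l j = 0) ∧
      ∀ j, (η j * v n - algebraMap k A (l j)) * (β1 * β2) ∈ I (ty j) := by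
    refine ⟨fun j => if ty j = ty n then l0 j else 0, fun j hj => if_neg hj, fun j => ?_⟩
    beta_reduce
    by_cases hj : ty j = ty n
    · rw [if_pos hj, hj, ← h2.mem_lq]
      convert hl0 j using 1
      rw [sub_mul, sub_mul, mul_sub, ← mul_assoc β1' (algebraMap k A _), ← Algebra.commutes,
        mul_assoc (algebraMap k A _), ← mul_assoc β1' β1, h2.1, one_mul]
      simp only [mul_assoc]
    · rw [if_neg hj, map_zero, sub_zero, ← mul_assoc, Bool.eq_not_iff.2 hj]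
      exact (h4 j).2
  have h5 := h2.comp h3
  obtain ⟨y, hy⟩ : ∃ y, y = (v n - ∑ j ∈ s, l j • v j) * (β1 * β2) := ⟨_, rfl⟩
  have hy2 : y = ∑ j ∈ s, v j * ((η j * v n - algebraMap k A (l j)) * (β1 * β2)) := by
    rw [hy, sub_mul, ← mul_assoc, h1', Finset.sum_mul, Finset.sum_mul, ← Finset.sum_sub_distrib]
    refine Finset.sum_congr rfl fun j _ => ?_
    rw [Algebra.smul_def, Algebra.commutes]
    noncomm_ring
  obtain ⟨β3, β3', ζ, h6, h7⟩ := M1b_gen hP (I0 := lq (I (ty n)) (β1 * β2))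
    (by simpa using h5.not_mem hM.1) (y := y) fun x hx => by
      refine hv (ty n) (fun j => (if j = n then 1 else 0) - if j ∈ s then l j else 0)
        (fun j hj => ?_) (fun h => ?_) _ ?_
      · rw [if_neg fun h => hj (by rw [h]), hl1 j hj]
        simp
      · simpa [hn] using congrFun h n
      · rw [← hx, hy, ← mul_assoc]
        simp [sub_smul, ite_smul]
  obtain ⟨m, β4, β4', h8, h9⟩ := mk0 hP lv (fun ε => (hI.1 ε).1) (hadm (h5.comp h6))
    (fun j => (η j * v n - algebraMap k A (l j)) * (β1 * β2) * β3) ty fun j => rmul _ (hl2 j) _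
  obtain ⟨ρ, hρ⟩ : ∃ ρ, ρ = ∑ j ∈ s, v j * (1 - m.α (ty j) * m.α' (ty j)) * η j := ⟨_, rfl⟩
  have e1 : ∀ j ∈ s, ρ * v j = v j * (1 - m.α (ty j) * m.α' (ty j)) := fun j hj =>
    hρ ▸ M1b_sum hη _ hj
  have e2 : ∀ j ∈ s, ρ * v j * m.α (ty j) = 0 := fun j hj => by
    rw [e1 j hj, mul_assoc, sub_mul, one_mul, mul_assoc, (m.adm _).1, mul_one, sub_self, mul_zero]
  have e3 : ρ * (y * β3) = y * β3 := by
    rw [hy2, Finset.sum_mul, Finset.mul_sum]
    refine Finset.sum_congr rfl fun j hj => ?_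
    rw [mul_assoc (v j), ← mul_assoc ρ, e1 j hj, mul_assoc (v j), sub_mul 1, one_mul,
      mul_assoc (m.α _), h9, mul_zero, sub_zero]
  have e4 : v n * m.α (ty n) = y * β3 * β4 (ty n) + ∑ j ∈ s, l j • (v j * m.α (ty j)) := by
    have e5 : ∀ j ∈ s, l j • (v j * m.α (ty j)) = l j • v j * m.α (ty n) := fun j _ => by
      by_cases hj : ty j = ty n
      · rw [hj, smul_mul_assoc]
      · simp [hl1 j hj]
    rw [Finset.sum_congr rfl e5, ← Finset.sum_mul, (h8 _).1, if_pos rfl, hy]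
    noncomm_ring
  refine ⟨m.α, m.α', m.adm, β4' (ty n) * ζ * ρ, ?_, fun j hj => ?_⟩
  · rw [mul_assoc, mul_assoc, e4, mul_add, Finset.mul_sum, Finset.sum_eq_zero fun j hj => by
      rw [mul_smul_comm, ← mul_assoc, e2 j hj, smul_zero], add_zero, ← mul_assoc ρ, e3,
      mul_assoc, ← mul_assoc ζ, ← mul_assoc ζ, h7, one_mul, (h8 _).2.2]
  · rw [mul_assoc, mul_assoc, ← mul_assoc ρ, e2 j hj, mul_zero]

theorem left_aux (hP : PI A) (lv : Lv A) (hI : VP k I) {ι : Type} [Fintype ι] [DecidableEq ι]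
    (v : ι → A) (ty : ι → Bool)
    (hv : ∀ ε (l : ι → k), (∀ j, ty j ≠ ε → l j = 0) → l ≠ 0 →
      ∀ x, (∑ j, l j • v j) * x = 0 → x ∈ I ε) (s : Finset ι) :
    ∃ a a' : Bool → A, (∀ ε, Adm (I ε) (a ε) (a' ε)) ∧ ∃ η : ι → A,
      ∀ i ∈ s, ∀ j ∈ s, η i * v j * a (ty j) = if i = j then 1 else 0 := by
  induction s using Finset.induction_on with
  | empty => exact ⟨fun _ => 1, fun _ => 1, fun ε => ⟨mul_one 1, by simp⟩, fun _ => 0, by simp⟩
  | insert n s hn ih =>
    obtain ⟨a, a', ha, η, hη⟩ := ih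
    obtain ⟨B, B', hB, ρ, h1, h2⟩ := M1b_row (I := fun ε => lq (I ε) (a ε)) hP lv
      ⟨fun ε => (hI.1 ε).lq ((ha ε).not_mem (hI.1 ε).1.1),
        fun ε => ((hI.2 ε).lq_left (hI.1 ε).1 _).lq_right _⟩ (fun j => v j * a (ty j)) ty
      (fun ε l hl hl0 x hx => hv ε l hl hl0 _ (by
        rw [← hx, ← mul_assoc, Finset.sum_mul]
        refine congrArg (· * x) (Finset.sum_congr rfl fun j _ => ?_)
        by_cases hj : ty j = ε
        · rw [hj, smul_mul_assoc]
        · simp [hl j hj])) hn (η := η) fun i hi j hj => by rw [← mul_assoc, hη i hi j hj]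
    have h1' : ρ * (v n * (a (ty n) * B (ty n))) = 1 := by simpa only [mul_assoc] using h1
    have h2' : ∀ j ∈ s, ρ * (v j * (a (ty j) * B (ty j))) = 0 := fun j hj => by
      simpa only [mul_assoc] using h2 j hj
    refine ⟨_, _, fun ε => (ha ε).comp (hB ε), fun i => if i = n then ρ else
      B' (ty i) * η i - B' (ty i) * η i * (v n * (a (ty n) * B (ty n))) * ρ, fun i hi j hj => ?_⟩
    beta_reduce
    rw [mul_assoc]
    by_cases h3 : i = n
    · rw [if_pos h3, h3]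
      rcases Finset.mem_insert.1 hj with rfl | hj
      · rw [h1', if_pos rfl]
      · rw [h2' j hj, if_neg fun h : n = j => hn (h ▸ hj)]
    · rw [if_neg h3, sub_mul, mul_assoc _ ρ]
      rcases Finset.mem_insert.1 hj with rfl | hj
      · rw [h1', mul_one, sub_self, if_neg h3]
      · rw [h2' j hj, mul_zero, sub_zero, mul_assoc, ← mul_assoc (v j), ← mul_assoc (η i),
          ← mul_assoc (η i), hη i ((Finset.mem_insert.1 hi).resolve_left h3) j hj]
        split_ifs with h4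
        · rw [one_mul, h4, (hB _).1]
        · rw [zero_mul, mul_zero]

theorem left (hP : PI A) (lv : Lv A) (hI : VP k I) {ι : Type} [Fintype ι] [DecidableEq ι]
    (v : ι → A) (ty : ι → Bool)
    (hv : ∀ ε (l : ι → k), (∀ j, ty j ≠ ε → l j = 0) → l ≠ 0 →
      ∀ x, (∑ j, l j • v j) * x = 0 → x ∈ I ε) :
    ∃ a a' : Bool → A, (∀ ε, Adm (I ε) (a ε) (a' ε) ∧ a ε * a' ε ≠ 1) ∧ ∃ η : ι → A,
      ∀ i j, η i * v j * a (ty j) = if i = j then 1 else 0 := by
  obtain ⟨a, a', ha, η, hη⟩ := left_aux hP lv hI v ty hv Finset.univ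
  choose β β' h1 h2 _ using fun ε => exists_adm_kill hP lv
    ((hI.1 ε).1.lq ((ha ε).not_mem (hI.1 ε).1.1)) (fun _ : Unit => 0) fun _ => zero_mem _
  refine ⟨_, _, fun ε => ⟨(ha ε).comp (h1 ε), fun h0 => h2 ε ?_⟩, fun i => β' (ty i) * η i,
    fun i j => ?_⟩
  · calc β ε * β' ε = a' ε * a ε * (β ε * β' ε) * (a' ε * a ε) := by rw [(ha ε).1]; simp
      _ = a' ε * (a ε * β ε * (β' ε * a' ε)) * a ε := by noncomm_ring
      _ = 1 := by rw [h0, mul_one, (ha ε).1]
  · rw [mul_assoc, mul_assoc, ← mul_assoc (v j), ← mul_assoc (η i), ← mul_assoc (η i),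
      hη i (Finset.mem_univ _) j (Finset.mem_univ _)]
    split_ifs with h4
    · rw [one_mul, h4, (h1 _).1]
    · rw [zero_mul, mul_zero]

theorem M1b_compl (hP : PI A) {a a' : A} (h : a' * a = 1) (h' : a * a' ≠ 1) :
    ∃ φ φ', φ' * φ = 1 ∧ φ * φ' = 1 - a * a' ∧ a' * φ = 0 ∧ φ' * a = 0 := by
  obtain ⟨φ, φ', h1, h2⟩ := hP.idem (e := 1 - a * a') (by
    rw [mul_sub, mul_one, sub_mul, one_mul, mul_assoc, ← mul_assoc a', h, one_mul, sub_self,
      sub_zero]) (sub_ne_zero.2 h'.symm)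
  refine ⟨φ, φ', h1, h2, ?_, ?_⟩
  · rw [← mul_one φ, ← h1, ← mul_assoc φ, h2, ← mul_assoc, mul_sub, mul_one, ← mul_assoc, h,
      one_mul, sub_self, zero_mul]
  · rw [← one_mul φ', ← h1, mul_assoc φ', h2, mul_assoc, sub_mul, one_mul, mul_assoc, h, mul_one,
      sub_self, mul_zero]

theorem swap (hP : PI A) (B : Base k A) (hI : VP k I) {ι : Type} [Fintype ι] [DecidableEq ι]
    (b p ηb ηp : ι → A) {a a' : Bool → A} (ha : ∀ ε, Adm (I ε) (a ε) (a' ε) ∧ a ε * a' ε ≠ 1)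
    (hpp : ∀ i j, ηp i * p j * a false = if i = j then 1 else 0)
    (hpb : ∀ i j, ηp i * b j * a true = 0)
    (hbb : ∀ i j, ηb i * b j * a true = if i = j then 1 else 0)
    (hbp : ∀ i j, ηb i * p j * a false = 0) :
    ∃ (m : Mo I) (W : ι → A), (∀ i j, W i * p j * m.α false = if i = j then 1 else 0) ∧
      ∀ i j, W i * (b j + p j * m.c true) = 0 := by
  have := (hI.1 true).1.nontrivial
  obtain ⟨r, r0, r1⟩ : ∃ r : Bool → ι → A, r false = ηp ∧ r true = ηb :=
    ⟨fun ε => bif ε then ηb else ηp, rfl, rfl⟩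
  obtain ⟨v, v0, v1⟩ : ∃ v : Bool → ι → A, v false = p ∧ v true = b :=
    ⟨fun ε => bif ε then b else p, rfl, rfl⟩
  subst r0 r1 v0 v1
  have hrv : ∀ s t : Bool × ι, r s.1 s.2 * v t.1 t.2 * a t.1 = if s = t then 1 else 0 := by
    rintro ⟨_ | _, i⟩ ⟨_ | _, j⟩ <;> simp [hpp, hpb, hbb, hbp]
  have hnm := fun ε => (ha ε).1.not_mem (hI.1 ε).1.1
  have aa := fun ε => (ha ε).1.1
  choose φ φ' f1 f2 f3 f4 using fun ε => M1b_compl hP (aa ε) (ha ε).2
  choose ϑ hϑ ϑ' hϑ' using fun ε => ((hI.1 ε).1.lq (hnm ε)).exists_linv hP B.lv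
  obtain ⟨x, x', U, U', hx, hU, hU', hN⟩ := letters hP B (cen_of_simpK hP (hI.1 true))
    fun q : (Bool × ι) × Bool × ι => ϑ' q.1.1 * r q.1.1 q.1.2 * v (!q.2.1) q.2.2 * φ (!q.2.1)
  obtain ⟨θ, θ', t1, t2, t3⟩ : ∃ θ θ' : Bool → A, (∀ ε, θ' ε * θ ε = 1) ∧
      (∀ ε, θ ε ∈ lq (I ε) (a ε)) ∧ ∀ s t : Bool × ι,
        θ' s.1 * r s.1 s.2 * (v (!t.1) t.2 * φ (!t.1) * U) ∈ Submodule.span k (Set.range B.n) :=
    ⟨fun ε => ϑ ε * x', fun ε => x * ϑ' ε,
      fun ε => by rw [mul_assoc, ← mul_assoc (ϑ' ε), hϑ', one_mul, hx],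
      fun ε => rmul _ (hϑ ε) _, fun s t => by simpa only [mul_assoc] using hN (s, t)⟩
  choose γ γ' g1 g2 g3 g4 using fun ε => M1b_compl hP (t1 ε) fun h =>
    hnm ε (by simpa [h] using rmul _ (t2 ε) (θ' ε))
  let m : Mo I :=
    { α := fun ε => a ε * γ ε
      α' := fun ε => γ' ε * a' ε
      c := fun ε => a (!ε) * θ (!ε) * U' * φ' ε + φ (!ε) * U * θ' ε * a' ε
      adm := fun ε => (ha ε).1.comp ⟨g1 ε, by
        rw [g2, sub_sub_cancel]
        exact rmul _ (t2 ε) _⟩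
      h3 := fun ε => by
        calc _ = a (!ε) * θ (!ε) * U' * (φ' ε * a ε) * γ ε
              + φ (!ε) * U * (θ' ε * (a' ε * a ε) * γ ε) := by noncomm_ring
          _ = 0 := by rw [f4, aa, mul_one, g3]; simp
      h4 := fun ε => by
        calc _ = γ' (!ε) * (a' (!ε) * a (!ε)) * θ (!ε) * U' * φ' ε
              + γ' (!ε) * (a' (!ε) * φ (!ε)) * U * θ' ε * a' ε := by noncomm_ring
          _ = 0 := by rw [f3, aa, mul_one, g4]; simp
      h5 := fun ε => by
        simp only [Bool.not_not]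
        calc _ = a (!ε) * θ (!ε) * U' * (φ' ε * a ε) * θ ε * U' * φ' (!ε)
              + a (!ε) * (θ (!ε) * (U' * (φ' ε * φ ε) * U) * θ' (!ε)) * a' (!ε)
              + φ (!ε) * (U * (θ' ε * (a' ε * a ε) * θ ε) * U') * φ' (!ε)
              + φ (!ε) * U * θ' ε * (a' ε * φ ε) * U * θ' (!ε) * a' (!ε) := by noncomm_ring
          _ = a (!ε) * (1 - γ (!ε) * γ' (!ε)) * a' (!ε) + φ (!ε) * φ' (!ε) := by
            rw [f4, f1, aa, f3, g2]
            simp [hU, hU', t1]
          _ = _ := by rw [f2]; noncomm_ring }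
  obtain ⟨C, hC⟩ : ∃ C : Bool × ι → A,
      ∀ t, C t = v t.1 t.2 * a t.1 * θ t.1 + v (!t.1) t.2 * φ (!t.1) * U := ⟨_, fun _ => rfl⟩
  obtain ⟨L, hL⟩ := B.ma' _ t3
  have e1 : ∀ s t : Bool × ι, θ' s.1 * r s.1 s.2 * C t = (if s = t then 1 else 0) +
      θ' s.1 * r s.1 s.2 * (v (!t.1) t.2 * φ (!t.1) * U) := fun s t => by
    rw [hC, mul_add, mul_assoc, ← mul_assoc (r _ _), ← mul_assoc (r _ _), hrv]
    split_ifs with h
    · rw [one_mul, h, t1]
    · rw [zero_mul, mul_zero]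
  obtain ⟨W, hW⟩ : ∃ W : ι → A, ∀ i y, W i * y = γ' false * r false i * y - ∑ s,
      γ' false * r false i * C s * ∑ t, L s t * (θ' t.1 * r t.1 t.2 * y) :=
    ⟨fun i => γ' false * r false i - ∑ s,
      γ' false * r false i * C s * ∑ t, L s t * (θ' t.1 * r t.1 t.2), fun i y => by
        simp only [sub_mul, Finset.sum_mul, mul_assoc]⟩
  have e2 : ∀ i t, W i * C t = 0 := fun i t => by
    simp [hW, e1, hL]
  have e3 : ∀ i (t : Bool × ι), W i * (v t.1 t.2 * (a t.1 * γ t.1)) =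
      γ' false * ((if (false, i) = t then 1 else 0) * γ t.1) := fun i t => by
    have e4 : ∀ s : Bool × ι, θ' s.1 * r s.1 s.2 * (v t.1 t.2 * (a t.1 * γ t.1)) = 0 := fun s => by
      rw [mul_assoc, ← mul_assoc (v _ _), ← mul_assoc (r _ _), ← mul_assoc (r _ _), hrv]
      split_ifs with h
      · rw [one_mul, h, g3]
      · rw [zero_mul, mul_zero]
    simp only [hW, e4, mul_zero, Finset.sum_const_zero, sub_zero, ← hrv (false, i) t, mul_assoc]
  refine ⟨m, W, fun i j => ?_, fun i j => ?_⟩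
  · rw [mul_assoc]
    refine (e3 i (false, j)).trans ?_
    by_cases h : i = j <;> simp [h, g1]
  · have e5 : a true * γ true * (γ' true * a' true) + φ true * U * (U' * φ' true) +
        a true * θ true * (θ' true * a' true) = 1 := by
      calc _ = a true * (γ true * γ' true) * a' true + φ true * (U * U') * φ' true +
            a true * θ true * (θ' true * a' true) := by noncomm_ring
        _ = 1 := by rw [g2, hU, mul_one, f2]; noncomm_ring
    have e6 : (v true j + v false j * m.c true) * (a true * γ true) =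
        v true j * (a true * γ true) := by
      rw [add_mul, mul_assoc, show m.c true * (a true * γ true) = 0 from m.h3 true, mul_zero,
        add_zero]
    have e7 : (v true j + v false j * m.c true) * (φ true * U) = C (false, j) := by
      calc _ = v false j * a false * θ false * (U' * (φ' true * φ true) * U) + v true j * φ true * U
            + v false j * φ false * U * θ' true * (a' true * φ true) * U := by
            simp only [m, Bool.not_true]; noncomm_ring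
        _ = _ := by rw [f1, f3, hC]; simp [hU']
    have e8 : (v true j + v false j * m.c true) * (a true * θ true) = C (true, j) := by
      calc _ = v true j * a true * θ true + v false j * φ false * U *
            (θ' true * (a' true * a true) * θ true)
            + v false j * a false * θ false * U' * (φ' true * a true) * θ true := by
            simp only [m, Bool.not_true]; noncomm_ring
        _ = _ := by rw [aa, f4, hC]; simp [t1]
    have e9 : W i * (v true j * (a true * γ true)) = 0 := by simpa using e3 i (true, j)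
    generalize v true j + v false j * m.c true = R at e6 e7 e8
    calc _ = W i * (R * (a true * γ true)) * (γ' true * a' true)
          + W i * (R * (φ true * U)) * (U' * φ' true)
          + W i * (R * (a true * θ true)) * (θ' true * a' true) := by
          rw [← mul_one (W i * R), ← e5]
          noncomm_ring
      _ = 0 := by rw [e6, e7, e8, e9, e2, e2]; simp

end Pool.Agent.Work.MP_c4093f_al
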