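import Pool.Agent.Work.MP_c4093f_al.Poly

/-!
Stable equivalence `EqvIn`, `Lv.pl a = a ⊕ 1`, `Lv.mat`, linearisation.

Plan.  `lv.mat` is a ring map from two by two matrices: prove
`mat a b c d * mat a' b' c' d' = mat (a a' + b c') (a b' + b d') (c a' + d c') (c b' + d d')`,
`mat 1 0 0 1 = 1`, `pl a = mat a 0 0 1`, and membership of `mat` in `S`.
* `eqv_plpl`: `U = x1 y1 y1 + x2 x1 y2 y1 + x2 x2 y2`, `U' = x1 x1 y1 + x1 x2 y1 y2 + x2 y2 y2`,
  `U * pl (pl a) * U' = pl a`.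
* `eqv_higman`: `mat 1 (-g) 0 1 * mat f g (-h) 1 * mat 1 0 h 1 = mat (f + g h) 0 0 1`.
* `eqv_schur`: `mat 1 (p u') 0 1 * mat G p q (-u) * mat 1 0 (u' q) 1 * mat 1 0 0 (-u')`.
* `eqv_pl_self`: put `e1 = b q p`, `e2 = q p b` (idempotents),
  `V = ((1 - e2) + q x1 p b) y1 + q x2 y2`, `V' = x1 ((1 - e2) + q y1 p b) + x2 y2 p b`,
  `U = ((1 - e1) + b q x1 p) y1 + b q x2 y2`, `U' = x1 ((1 - e1) + b q y1 p) + x2 y2 p`;
  then `b V = U (pl b)`.
* `pi_of_tasks`: for `b ≠ 0`, `b ~ pl b ~ f a`, `a ≠ 0` since `y2 (pl b) x2 = 1`, and the shape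
  `x * y` with `x` left and `y` right invertible is invariant under `EqvIn ⊤`.
* `lin`: induction on the degree `n`, statement `Deg X (n + 1) F → ...`.  For `Deg X (n + 2) F`
  take `Deg.rep`, a Leavitt family `x, y` (`Lv.fam`) and write `F = z + g h` with
  `g = ∑ p j X y j` of degree `1`, `h = ∑ x j G j` of degree `n + 1`; then
  `pl F ~ pl (pl F) ~ pl (mat z g (-h) 1)` and the matrix has degree `n + 1`.
-/

namespace Pool.Agent.Work.MP_c4093f_al

variable {A : Type} [Ring A]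

/-- the Leavitt pair lies in `S` -/
def LvIn (lv : Lv A) (S : Subring A) : Prop := lv.x1 ∈ S ∧ lv.x2 ∈ S ∧ lv.y1 ∈ S ∧ lv.y2 ∈ S

/-- the constant Leavitt pair of a function ring -/
def lvF (lv : Lv A) (D : Type) : Lv (D → A) := lv.map (Pi.constRingHom D A)

theorem lvF_pl (lv : Lv A) {D : Type} (F : D → A) : (lvF lv D).pl F = fun δ => lv.pl (F δ) := rfl

theorem lvF_mat (lv : Lv A) {D : Type} (a b c d : D → A) :
    (lvF lv D).mat a b c d = fun δ => lv.mat (a δ) (b δ) (c δ) (d δ) := rfl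

theorem lvIn_Fn (lv : Lv A) {D ι : Type} (X : ι → D → A) : LvIn (lvF lv D) (Fn X) :=
  ⟨const_mem_Fn _, const_mem_Fn _, const_mem_Fn _, const_mem_Fn _⟩

theorem Stable_h11 (lv : Lv A) (z : A) : lv.y1 * (lv.x1 * z) = z := by
  rw [← mul_assoc, lv.h11, one_mul]

theorem Stable_h12 (lv : Lv A) (z : A) : lv.y1 * (lv.x2 * z) = 0 := by
  rw [← mul_assoc, lv.h12, zero_mul]

theorem Stable_h21 (lv : Lv A) (z : A) : lv.y2 * (lv.x1 * z) = 0 := by
  rw [← mul_assoc, lv.h21, zero_mul]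

theorem Stable_h22 (lv : Lv A) (z : A) : lv.y2 * (lv.x2 * z) = z := by
  rw [← mul_assoc, lv.h22, one_mul]

theorem Stable_hs (lv : Lv A) : lv.x2 * lv.y2 = 1 - lv.x1 * lv.y1 := by
  rw [← lv.hs]; abel

theorem Stable_hs' (lv : Lv A) (z : A) : lv.x2 * (lv.y2 * z) = z - lv.x1 * (lv.y1 * z) := by
  rw [← mul_assoc, Stable_hs, sub_mul, one_mul, mul_assoc]

theorem Stable_mat_mul (lv : Lv A) (a b c d a' b' c' d' : A) :
    lv.mat a b c d * lv.mat a' b' c' d' =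
      lv.mat (a * a' + b * c') (a * b' + b * d') (c * a' + d * c') (c * b' + d * d') := by
  simp only [Lv.mat, mul_add, add_mul, mul_assoc, Stable_h11, Stable_h12, Stable_h21, Stable_h22,
    mul_zero, add_zero, zero_add]
  abel

theorem Stable_mat_one (lv : Lv A) : lv.mat 1 0 0 1 = 1 := by
  simp only [Lv.mat, mul_one, mul_zero, zero_mul, add_zero, lv.hs]

theorem Stable_pl_mat (lv : Lv A) (a : A) : lv.pl a = lv.mat a 0 0 1 := by
  simp only [Lv.mat, Lv.pl, mul_one, mul_zero, zero_mul, add_zero]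

theorem Stable_mat_mem {lv : Lv A} {S : Subring A} (hS : LvIn lv S) {a b c d : A} (ha : a ∈ S)
    (hb : b ∈ S) (hc : c ∈ S) (hd : d ∈ S) : lv.mat a b c d ∈ S := by
  obtain ⟨h1, h2, h3, h4⟩ := hS
  exact S.add_mem (S.add_mem (S.add_mem (S.mul_mem (S.mul_mem h1 ha) h3)
    (S.mul_mem (S.mul_mem h1 hb) h4)) (S.mul_mem (S.mul_mem h2 hc) h3))
    (S.mul_mem (S.mul_mem h2 hd) h4)

theorem Stable_pl_mem {lv : Lv A} {S : Subring A} (hS : LvIn lv S) {a : A} (ha : a ∈ S) :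
    lv.pl a ∈ S := by
  rw [Stable_pl_mat]
  exact Stable_mat_mem hS ha S.zero_mem S.zero_mem S.one_mem

theorem Stable_pl_mul (lv : Lv A) (a b : A) : lv.pl a * lv.pl b = lv.pl (a * b) := by
  simp only [Stable_pl_mat, Stable_mat_mul, mul_zero, zero_mul, add_zero, zero_add, mul_one]

theorem Stable_pl_one (lv : Lv A) : lv.pl 1 = 1 := by
  rw [Stable_pl_mat, Stable_mat_one]

theorem Stable_up (lv : Lv A) (g : A) : lv.mat 1 g 0 1 * lv.mat 1 (-g) 0 1 = 1 := by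
  simp only [Stable_mat_mul, mul_zero, zero_mul, add_zero, zero_add, mul_one, one_mul,
    neg_add_cancel, Stable_mat_one]

theorem Stable_up' (lv : Lv A) (g : A) : lv.mat 1 (-g) 0 1 * lv.mat 1 g 0 1 = 1 := by
  simp only [Stable_mat_mul, mul_zero, zero_mul, add_zero, zero_add, mul_one, one_mul,
    add_neg_cancel, Stable_mat_one]

theorem Stable_lo (lv : Lv A) (g : A) : lv.mat 1 0 g 1 * lv.mat 1 0 (-g) 1 = 1 := by
  simp only [Stable_mat_mul, mul_zero, zero_mul, add_zero, zero_add, mul_one, one_mul,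
    add_neg_cancel, Stable_mat_one]

theorem Stable_lo' (lv : Lv A) (g : A) : lv.mat 1 0 (-g) 1 * lv.mat 1 0 g 1 = 1 := by
  simp only [Stable_mat_mul, mul_zero, zero_mul, add_zero, zero_add, mul_one, one_mul,
    neg_add_cancel, Stable_mat_one]

theorem Stable_di (lv : Lv A) {u u' : A} (h : u * u' = 1) :
    lv.mat 1 0 0 u * lv.mat 1 0 0 u' = 1 := by
  simp only [Stable_mat_mul, mul_zero, zero_mul, add_zero, zero_add, mul_one, h, Stable_mat_one]

theorem Stable_W (lv : Lv A) {α α' : A} (h : α' * α = 1) :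
    ((1 - α * α' + α * lv.x1 * α') * lv.y1 + α * lv.x2 * lv.y2) *
      (lv.x1 * (1 - α * α' + α * lv.y1 * α') + lv.x2 * lv.y2 * α') = 1 := by
  have h' : ∀ z, α' * (α * z) = z := fun z => by rw [← mul_assoc, h, one_mul]
  simp only [mul_add, add_mul, mul_sub, sub_mul, mul_assoc, Stable_h11, Stable_h12, Stable_h21,
    Stable_h22, lv.h11, lv.h21, h', mul_zero, add_zero, zero_add, mul_one, one_mul, sub_self]
  simp only [Stable_hs', mul_sub]
  abel

theorem Stable_W' (lv : Lv A) {α α' : A} (h : α' * α = 1) :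
    (lv.x1 * (1 - α * α' + α * lv.y1 * α') + lv.x2 * lv.y2 * α') *
      ((1 - α * α' + α * lv.x1 * α') * lv.y1 + α * lv.x2 * lv.y2) = 1 := by
  have h' : ∀ z, α' * (α * z) = z := fun z => by rw [← mul_assoc, h, one_mul]
  simp only [mul_add, add_mul, mul_sub, sub_mul, mul_assoc, Stable_h11, Stable_h12, Stable_h21,
    Stable_h22, h', mul_zero, add_zero, zero_add, mul_one, one_mul, sub_self]
  simp only [Stable_hs]
  abel

theorem EqvIn.refl (S : Subring A) (a : A) : EqvIn S a a := by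
  exact ⟨1, S.one_mem, 1, S.one_mem, 1, S.one_mem, 1, S.one_mem, mul_one 1, mul_one 1, mul_one 1,
    mul_one 1, by rw [one_mul, mul_one]⟩

theorem EqvIn.symm {S : Subring A} {a b : A} (h : EqvIn S a b) : EqvIn S b a := by
  obtain ⟨U, hU, U', hU', V, hV, V', hV', h1, h2, h3, h4, rfl⟩ := h
  refine ⟨U', hU', U, hU, V', hV', V, hV, h2, h1, h4, h3, ?_⟩
  calc U' * (U * a * V) * V' = (U' * U) * a * (V * V') := by simp only [mul_assoc]
    _ = a := by rw [h2, h3, one_mul, mul_one]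

theorem EqvIn.trans {S : Subring A} {a b c : A} (h : EqvIn S a b) (h' : EqvIn S b c) :
    EqvIn S a c := by
  obtain ⟨U, hU, U', hU', V, hV, V', hV', h1, h2, h3, h4, rfl⟩ := h
  obtain ⟨W, hW, W', hW', Z, hZ, Z', hZ', k1, k2, k3, k4, rfl⟩ := h'
  refine ⟨W * U, S.mul_mem hW hU, U' * W', S.mul_mem hU' hW', V * Z, S.mul_mem hV hZ, Z' * V',
    S.mul_mem hZ' hV', ?_, ?_, ?_, ?_, by simp only [mul_assoc]⟩
  · rw [mul_assoc, ← mul_assoc U, h1, one_mul, k1]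
  · rw [mul_assoc, ← mul_assoc W', k2, one_mul, h2]
  · rw [mul_assoc, ← mul_assoc Z, k3, one_mul, h3]
  · rw [mul_assoc, ← mul_assoc V', h4, one_mul, k4]

theorem EqvIn.of_right {S : Subring A} (a : A) {V V' : A} (hV : V ∈ S) (hV' : V' ∈ S)
    (h1 : V * V' = 1) (h2 : V' * V = 1) : EqvIn S a (a * V) := by
  exact ⟨1, S.one_mem, 1, S.one_mem, V, hV, V', hV', mul_one 1, mul_one 1, h1, h2,
    by rw [one_mul]⟩

theorem EqvIn.of_left {S : Subring A} (a : A) {U U' : A} (hU : U ∈ S) (hU' : U' ∈ S)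
    (h1 : U * U' = 1) (h2 : U' * U = 1) : EqvIn S a (U * a) := by
  exact ⟨U, hU, U', hU', 1, S.one_mem, 1, S.one_mem, h1, h2, mul_one 1, mul_one 1,
    by rw [mul_one]⟩

theorem EqvIn.mapSub {A' : Type} [Ring A'] {S : Subring A} (χ : S →+* A') {a b : A}
    (ha : a ∈ S) (hb : b ∈ S) (h : EqvIn S a b) : EqvIn ⊤ (χ ⟨a, ha⟩) (χ ⟨b, hb⟩) := by
  obtain ⟨U, hU, U', hU', V, hV, V', hV', h1, h2, h3, h4, h5⟩ := h
  have key : ∀ (x y : A) (hx : x ∈ S) (hy : y ∈ S), x * y = 1 → χ ⟨x, hx⟩ * χ ⟨y, hy⟩ = 1 := by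
    intro x y hx hy hxy
    rw [← map_mul, ← map_one χ]
    exact congrArg χ (Subtype.ext hxy)
  refine ⟨χ ⟨U, hU⟩, Subring.mem_top _, χ ⟨U', hU'⟩, Subring.mem_top _, χ ⟨V, hV⟩,
    Subring.mem_top _, χ ⟨V', hV'⟩, Subring.mem_top _, key _ _ _ _ h1, key _ _ _ _ h2,
    key _ _ _ _ h3, key _ _ _ _ h4, ?_⟩
  rw [← map_mul, ← map_mul]
  exact congrArg χ (Subtype.ext h5)

theorem EqvIn.comp {D D' : Type} {S : Subring (D → A)} {S' : Subring (D' → A)} {σ : D' → D}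
    (hσ : ∀ G ∈ S, (fun δ => G (σ δ)) ∈ S') {F G : D → A} (h : EqvIn S F G) :
    EqvIn S' (fun δ => F (σ δ)) (fun δ => G (σ δ)) := by
  obtain ⟨U, hU, U', hU', V, hV, V', hV', h1, h2, h3, h4, h5⟩ := h
  exact ⟨_, hσ U hU, _, hσ U' hU', _, hσ V hV, _, hσ V' hV',
    funext fun δ => congrFun h1 (σ δ), funext fun δ => congrFun h2 (σ δ),
    funext fun δ => congrFun h3 (σ δ), funext fun δ => congrFun h4 (σ δ),
    funext fun δ => congrFun h5 (σ δ)⟩

theorem EqvIn.pl {lv : Lv A} {S : Subring A} (hS : LvIn lv S) {a b : A} (h : EqvIn S a b) :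
    EqvIn S (lv.pl a) (lv.pl b) := by
  obtain ⟨U, hU, U', hU', V, hV, V', hV', h1, h2, h3, h4, h5⟩ := h
  refine ⟨lv.pl U, Stable_pl_mem hS hU, lv.pl U', Stable_pl_mem hS hU', lv.pl V,
    Stable_pl_mem hS hV, lv.pl V', Stable_pl_mem hS hV', ?_, ?_, ?_, ?_, ?_⟩
  · rw [Stable_pl_mul, h1, Stable_pl_one]
  · rw [Stable_pl_mul, h2, Stable_pl_one]
  · rw [Stable_pl_mul, h3, Stable_pl_one]
  · rw [Stable_pl_mul, h4, Stable_pl_one]
  · rw [Stable_pl_mul, Stable_pl_mul, h5]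

theorem eqv_plpl {lv : Lv A} {S : Subring A} (hS : LvIn lv S) (a : A) :
    EqvIn S (lv.pl (lv.pl a)) (lv.pl a) := by
  obtain ⟨h1, h2, h3, h4⟩ := hS
  have hU : lv.x1 * lv.y1 * lv.y1 + lv.x2 * lv.x1 * lv.y2 * lv.y1 + lv.x2 * lv.x2 * lv.y2 ∈ S :=
    S.add_mem (S.add_mem (S.mul_mem (S.mul_mem h1 h3) h3)
      (S.mul_mem (S.mul_mem (S.mul_mem h2 h1) h4) h3)) (S.mul_mem (S.mul_mem h2 h2) h4)
  have hU' : lv.x1 * lv.x1 * lv.y1 + lv.x1 * lv.x2 * lv.y1 * lv.y2 + lv.x2 * lv.y2 * lv.y2 ∈ S :=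
    S.add_mem (S.add_mem (S.mul_mem (S.mul_mem h1 h1) h3)
      (S.mul_mem (S.mul_mem (S.mul_mem h1 h2) h3) h4)) (S.mul_mem (S.mul_mem h2 h4) h4)
  have e1 : (lv.x1 * lv.y1 * lv.y1 + lv.x2 * lv.x1 * lv.y2 * lv.y1 + lv.x2 * lv.x2 * lv.y2) *
      (lv.x1 * lv.x1 * lv.y1 + lv.x1 * lv.x2 * lv.y1 * lv.y2 + lv.x2 * lv.y2 * lv.y2) = 1 := by
    simp only [mul_add, add_mul, mul_assoc, Stable_h11, Stable_h12, Stable_h21, Stable_h22,
      mul_zero, add_zero, zero_add]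
    rw [Stable_hs' lv lv.y2, mul_sub, Stable_hs]
    abel
  have e2 : (lv.x1 * lv.x1 * lv.y1 + lv.x1 * lv.x2 * lv.y1 * lv.y2 + lv.x2 * lv.y2 * lv.y2) *
      (lv.x1 * lv.y1 * lv.y1 + lv.x2 * lv.x1 * lv.y2 * lv.y1 + lv.x2 * lv.x2 * lv.y2) = 1 := by
    simp only [mul_add, add_mul, mul_assoc, Stable_h11, Stable_h12, Stable_h21, Stable_h22,
      mul_zero, add_zero, zero_add]
    rw [Stable_hs' lv lv.y1, mul_sub, Stable_hs]
    abel
  refine ⟨_, hU, _, hU', _, hU', _, hU, e1, e2, e2, e1, ?_⟩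
  simp only [Lv.pl, mul_add, add_mul, mul_assoc, Stable_h11, Stable_h12, Stable_h21, Stable_h22,
    mul_zero, add_zero, zero_add]
  rw [Stable_hs' lv lv.y2, mul_sub]
  abel

theorem eqv_higman {lv : Lv A} {S : Subring A} (hS : LvIn lv S) (f : A) {g h : A} (hg : g ∈ S)
    (hh : h ∈ S) : EqvIn S (lv.pl (f + g * h)) (lv.mat f g (-h) 1) := by
  refine EqvIn.symm ⟨lv.mat 1 (-g) 0 1,
    Stable_mat_mem hS S.one_mem (S.neg_mem hg) S.zero_mem S.one_mem,
    lv.mat 1 g 0 1, Stable_mat_mem hS S.one_mem hg S.zero_mem S.one_mem,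
    lv.mat 1 0 h 1, Stable_mat_mem hS S.one_mem S.zero_mem hh S.one_mem,
    lv.mat 1 0 (-h) 1, Stable_mat_mem hS S.one_mem S.zero_mem (S.neg_mem hh) S.one_mem,
    Stable_up' lv g, Stable_up lv g, Stable_lo lv h, Stable_lo' lv h, ?_⟩
  rw [Stable_mat_mul, Stable_mat_mul, Stable_pl_mat]
  congr 1 <;> noncomm_ring

theorem eqv_schur {lv : Lv A} {S : Subring A} (hS : LvIn lv S) (G : A) {p q u u' : A}
    (hp : p ∈ S) (hq : q ∈ S) (hu : u ∈ S) (hu' : u' ∈ S) (h1 : u * u' = 1) (h2 : u' * u = 1) :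
    EqvIn S (lv.pl (G + p * u' * q)) (lv.mat G p q (-u)) := by
  have hpu : p * u' ∈ S := S.mul_mem hp hu'
  have huq : u' * q ∈ S := S.mul_mem hu' hq
  have e : EqvIn S (lv.mat G p q (-u)) (lv.mat (G + p * u' * q) 0 0 (-u)) := by
    refine ⟨lv.mat 1 (p * u') 0 1, Stable_mat_mem hS S.one_mem hpu S.zero_mem S.one_mem,
      lv.mat 1 (-(p * u')) 0 1, Stable_mat_mem hS S.one_mem (S.neg_mem hpu) S.zero_mem S.one_mem,
      lv.mat 1 0 (u' * q) 1, Stable_mat_mem hS S.one_mem S.zero_mem huq S.one_mem,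
      lv.mat 1 0 (-(u' * q)) 1, Stable_mat_mem hS S.one_mem S.zero_mem (S.neg_mem huq) S.one_mem,
      Stable_up lv _, Stable_up' lv _, Stable_lo lv _, Stable_lo' lv _, ?_⟩
    have k1 : p * u' * -u = -p := by rw [mul_neg, mul_assoc, h2, mul_one]
    have k2 : -u * (u' * q) = -q := by rw [neg_mul, ← mul_assoc, h1, one_mul]
    rw [Stable_mat_mul, Stable_mat_mul, k1]
    simp only [one_mul, mul_one, zero_mul, mul_zero, zero_add, add_zero, add_neg_cancel, k2]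
  have k3 : -u' * -u = 1 := by rw [neg_mul_neg, h2]
  have k4 : -u * -u' = 1 := by rw [neg_mul_neg, h1]
  have e' := EqvIn.of_right (lv.mat (G + p * u' * q) 0 0 (-u))
    (Stable_mat_mem hS S.one_mem S.zero_mem S.zero_mem (S.neg_mem hu'))
    (Stable_mat_mem hS S.one_mem S.zero_mem S.zero_mem (S.neg_mem hu))
    (Stable_di lv k3) (Stable_di lv k4)
  rw [Stable_mat_mul] at e'
  simp only [mul_one, zero_mul, mul_zero, zero_add, add_zero, k4] at e'
  rw [Stable_pl_mat]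
  exact (e.trans e').symm

theorem eqv_pl_self (lv : Lv A) {p b q : A} (h : p * b * q = 1) : EqvIn ⊤ b (lv.pl b) := by
  have ha : p * (b * q) = 1 := by rw [← mul_assoc, h]
  refine ⟨_, Subring.mem_top _, _, Subring.mem_top _, _, Subring.mem_top _, _, Subring.mem_top _,
    Stable_W' lv ha, Stable_W lv ha, Stable_W lv h, Stable_W' lv h, ?_⟩
  have e : b * ((1 - q * (p * b) + q * lv.x1 * (p * b)) * lv.y1 + q * lv.x2 * lv.y2) =
      ((1 - b * q * p + b * q * lv.x1 * p) * lv.y1 + b * q * lv.x2 * lv.y2) * lv.pl b := by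
    simp only [Lv.pl, mul_add, add_mul, mul_sub, sub_mul, mul_assoc, Stable_h11, Stable_h12,
      Stable_h21, Stable_h22, mul_zero, add_zero, zero_add, one_mul, sub_self]
  rw [mul_assoc, e, ← mul_assoc, Stable_W' lv ha, one_mul]

theorem pi_of_tasks {A' : Type} [Ring A'] [Nontrivial A'] (hP : PI A) (lv : Lv A) (f : A →+* A')
    (h1 : ∀ b, ∃ a, EqvIn ⊤ ((lv.map f).pl b) (f a))
    (h2 : ∀ b : A', b = 0 ∨ ∃ p q, p * b * q = 1) : PI A' := by
  intro b hb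
  obtain ⟨p, q, hpq⟩ := (h2 b).resolve_left hb
  obtain ⟨a, ha⟩ := h1 b
  obtain ⟨U, -, U', -, V, -, V', -, k1, k2, k3, k4, k5⟩ :=
    ((eqv_pl_self (lv.map f) hpq).trans ha).symm
  have ha0 : a ≠ 0 := by
    rintro rfl
    rw [map_zero, mul_zero, zero_mul] at k5
    exact hb k5.symm
  obtain ⟨x, y, x', y', rfl, hx, hy⟩ := hP a ha0
  refine ⟨U * f x, f y * V, f x' * U', V' * f y', ?_, ?_, ?_⟩
  · rw [← k5, map_mul]; simp only [mul_assoc]
  · rw [mul_assoc, ← mul_assoc U', k2, one_mul, ← map_mul, hx, map_one]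
  · rw [mul_assoc, ← mul_assoc V, k3, one_mul, ← map_mul, hy, map_one]

theorem lin (lv : Lv A) {D ι : Type} (X : ι → D → A) {F : D → A} (hF : F ∈ Fn X) :
    ∃ G, Deg X 1 G ∧ EqvIn (Fn X) (fun δ => lv.pl (F δ)) G := by
  obtain ⟨n, hn⟩ := hF
  have hn' : Deg X (n + 1) F := hn.mono (Nat.le_succ n)
  clear hn
  induction n generalizing F with
  | zero =>
    exact ⟨_, ((hn'.lmul lv.x1).rmul lv.y1).add (Deg.const 1 (lv.x2 * lv.y2)), EqvIn.refl _ _⟩
  | succ n ih =>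
    obtain ⟨m, z, p, ty, G, hG, hFe⟩ := hn'.rep
    obtain ⟨x, y, hxy⟩ := lv.fam (Fin m)
    have hg : Deg X 1 (fun δ => ∑ j, p j * X (ty j) δ * y j) :=
      Deg.sum Finset.univ fun j _ => ((Deg.var (ty j)).lmul (p j)).rmul (y j)
    have hh : Deg X (n + 1) (fun δ => ∑ j, x j * G j δ) :=
      Deg.sum Finset.univ fun j _ => (hG j).lmul (x j)
    have hF : F = (fun _ => z) + (fun δ => ∑ j, p j * X (ty j) δ * y j) *
        (fun δ => ∑ j, x j * G j δ) := by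
      funext δ
      rw [hFe δ, Pi.add_apply, Pi.mul_apply, Finset.sum_mul_sum]
      congr 1
      refine Finset.sum_congr rfl fun i _ => ?_
      rw [Finset.sum_eq_single i]
      · rw [mul_assoc _ (y i), ← mul_assoc (y i), hxy, if_pos rfl, one_mul]
      · intro j _ hj
        rw [mul_assoc _ (y i), ← mul_assoc (y i), hxy, if_neg (Ne.symm hj), zero_mul, mul_zero]
      · intro hi
        exact absurd (Finset.mem_univ i) hi
    have hM : Deg X (n + 1) ((lvF lv D).mat (fun _ => z) (fun δ => ∑ j, p j * X (ty j) δ * y j)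
        (-(fun δ => ∑ j, x j * G j δ)) 1) :=
      (((((Deg.const (n + 1) z).lmul lv.x1).rmul lv.y1).add
        (((hg.mono (Nat.le_add_left 1 n)).lmul lv.x1).rmul lv.y2)).add
        ((hh.neg.lmul lv.x2).rmul lv.y1)).add
        (((Deg.const (n + 1) (1 : A)).lmul lv.x2).rmul lv.y2)
    obtain ⟨G', hG', he⟩ := ih hM
    refine ⟨G', hG', ?_⟩
    have e1 := eqv_higman (lvIn_Fn lv X) (fun _ => z) hg.mem hh.mem
    rw [← hF] at e1
    exact ((eqv_plpl (lvIn_Fn lv X) F).symm.trans (e1.pl (lvIn_Fn lv X))).trans he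

end Pool.Agent.Work.MP_c4093f_al
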