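import Pool.Agent.Work.MP_c4093f_al.M1b
import Pool.Agent.Work.MP_c4093f_al.Stable
import Pool.Agent.Work.MP_c4093f_al.Sub

/-!
Every polynomial in the generic unit becomes stably equivalent to a constant.

* `tp_aux`: induction on the derivation of `Deg (XV A) 1 G`, for all `H0 s t`.  A step adds
  `p * δ.1 ε * q` (`Deg.zero_iff`).  If `ε = true` move it into `H0`.  If `ε = false` use
  `eqv_schur` in the ring of functions with `u = XV true`, `u' = XV false`: the matrix is
  `H0' + (x1 s) G (t y1)` with `H0'` linear in `XV true`; combine `eqv_plpl`, `EqvIn.pl`.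
* `pen`: strong induction on `s.card`, for all `I z p q`.  After a move `m` the pencil is
  `z' + ∑ (p j α false) υ (α' true q j)` with `z' = z + ∑ p j (c true) q j`; finish with
  `Mo.comp`, `Mo.comp_σ`, `EqvIn.comp`, `Mo.mem_Fn`.
  (0) Some `q0 = ∑ j ∈ s, l j • q j ∈ I true` with `l j0 ≠ 0`: `mk1` with `α' true q0 = 0`, drop `j0`.
  Otherwise `span` gives `x l` with `q j x l - δ ∈ I true`; `mk1` kills these, so after the move
  `q j x l = δ` on `s` exactly (new `q j = α' q j`, new `x l = x l α`): this is `pen_free`.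
  In `pen_free` let `f0 = 1 - ∑ x l q l` (so `q j f0 = 0`), `z f0 t (z f0) = z f0`,
  `f = 1 - z f0 t`, so `f z f0 = 0`.
  (A) `f (∑ l j • p j) y = 0` with `y ∉ I false`, `l j0 ≠ 0`: `mk1` with `α false` in the
  annihilator; scale `l j0 = 1`, `pλ α false = z f0 t'`; the unipotent
  `V = 1 - f0 t' υ α' (q j0)` removes the term: `T V = z' + ∑ j ≠ j0, p j α υ α' (q j - l j • q j0)`.
  (B) `f z (∑ l j • x j) y = 0` with `y ∉ I true`, `l j0 = 1`: `mk1` with `α true` in the
  annihilator, `z xλ α true = z f0 t'`, `g = xλ α true - f0 t'`, `r = α' true (q j0)`, `r g = 1`,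
  `T g = pλ α false υ`; the unit `V = 1 + g (υ⁻¹ - 1) r` (inverse `1 + g (υ - 1) r`) gives
  `T V = z' + pλ α false r + ∑ j ≠ j0, p j α υ α' (q j - l j • q j0)`.
  (C) neither: `left` on `s ⊕ s` for `f p j` (type `false`) and `b j = f z x j` (type `true`), then
  `swap`.  With `W' i = W i f`, `f z = ∑ b j q j` and `T1` the value of the pencil at `DU.one`:
  `W' i T1 = α' true q i`, so `U = 1 + ∑ p j α false (υ - 1) W' j` (inverse with `υ⁻¹`) has
  `U T1 = T`.
* `m1_sl`: `lin`, `tp`, `Deg.rep1`, `pen`.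
-/

namespace Pool.Agent.Work.MP_c4093f_al

variable {k A : Type} [Field k] [Ring A] [Algebra k A]

/-- the variable `υ true` alone -/
def XT (A : Type) [Ring A] : Unit → DU A → A := fun _ δ => δ.1 true

theorem M1c_tp (lv : Lv A) {κ : Type} (s0 : Finset κ) (z : A) (p : κ → A) (ty : κ → Bool)
    (q : κ → A) : ∀ (H0 : DU A → A) (s t : A), Deg (XT A) 1 H0 → ∃ H, Deg (XT A) 1 H ∧
      EqvIn (FnV A)
        (fun δ => lv.pl (H0 δ + s * (z + ∑ j ∈ s0, p j * δ.1 (ty j) * q j) * t)) H := by
  classical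
  induction s0 using Finset.induction_on with
  | empty =>
    intro H0 s t h0
    refine ⟨_, ?_, EqvIn.refl _ _⟩
    exact ((((h0.add (Deg.const 1 (s * z * t))).lmul lv.x1).rmul lv.y1).add
      (Deg.const 1 (lv.x2 * lv.y2))).congr fun δ => by simp [Lv.pl]
  | insert n s0 hn ih =>
    intro H0 s t h0
    have hv : Deg (XT A) 1 (fun δ : DU A => δ.1 true) := Deg.var (X := XT A) ()
    cases hty : ty n with
    | true =>
      obtain ⟨H, h1, h2⟩ := ih (fun δ => H0 δ + s * p n * δ.1 true * (q n * t)) s t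
        (h0.add ((hv.lmul (s * p n)).rmul (q n * t)))
      refine ⟨H, h1, ?_⟩
      convert h2 using 3 with δ
      rw [Finset.sum_insert hn, hty]
      noncomm_ring
    | false =>
      obtain ⟨H, h1, h2⟩ := ih (fun δ => lv.x1 * H0 δ * lv.y1 + (lv.x1 * (s * p n) * lv.y2
          + lv.x2 * (q n * t) * lv.y1) + (-lv.x2) * δ.1 true * lv.y2) (lv.x1 * s) (t * lv.y1)
        ((((h0.lmul lv.x1).rmul lv.y1).add (Deg.const 1 _)).add ((hv.lmul _).rmul _))
      refine ⟨H, h1, ?_⟩
      have hS := lvIn_Fn lv (XV A)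
      have h3 := eqv_schur hS
        (fun δ : DU A => H0 δ + s * (z + ∑ j ∈ s0, p j * δ.1 (ty j) * q j) * t)
        (p := fun _ => s * p n) (q := fun _ => q n * t) (u := XV A true) (u' := XV A false)
        (const_mem_Fn _) (const_mem_Fn _) (var_mem_Fn true) (var_mem_Fn false)
        (funext fun δ => δ.2 true) (funext fun δ => δ.2 false)
      have h4 := ((eqv_plpl hS _).symm.trans (h3.pl hS))
      have e1 : (fun δ : DU A => lv.pl (H0 δ + s * (z + ∑ j ∈ insert n s0,
          p j * δ.1 (ty j) * q j) * t)) = (lvF lv (DU A)).pl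
          ((fun δ : DU A => H0 δ + s * (z + ∑ j ∈ s0, p j * δ.1 (ty j) * q j) * t)
            + (fun _ => s * p n) * XV A false * fun _ => q n * t) := by
        rw [lvF_pl]
        funext δ
        congr 1
        rw [Finset.sum_insert hn, hty]
        simp only [Pi.add_apply, Pi.mul_apply, XV]
        noncomm_ring
      rw [e1]
      refine h4.trans ?_
      convert h2 using 1
      rw [lvF_pl, lvF_mat]
      funext δ
      congr 1
      simp only [Lv.mat, Pi.neg_apply, XV]
      noncomm_ring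

theorem tp_aux (lv : Lv A) {G : DU A → A} (hG : Deg (XV A) 1 G) :
    ∀ (H0 : DU A → A) (s t : A), Deg (XT A) 1 H0 → ∃ H, Deg (XT A) 1 H ∧
      EqvIn (FnV A) (fun δ => lv.pl (H0 δ + s * G δ * t)) H := by
  obtain ⟨m, z, p, ty, q, h⟩ := hG.rep1
  intro H0 s t h0
  obtain ⟨H, h1, h2⟩ := M1c_tp lv Finset.univ z p ty q H0 s t h0
  refine ⟨H, h1, ?_⟩
  simpa only [h, XV] using h2

theorem M1c_red {I : Bool → RI A} (m : Mo I) (F G : DU A → A)
    (hE : EqvIn (FnV A) (fun δ => F (m.σ δ)) G)
    (h : ∃ (m' : Mo m.J) (a : A), EqvIn (FnV A) (fun δ => G (m'.σ δ)) (fun _ => a)) :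
    ∃ (m : Mo I) (a : A), EqvIn (FnV A) (fun δ => F (m.σ δ)) (fun _ => a) := by
  obtain ⟨m', a, h⟩ := h
  refine ⟨m.comp m', a, ?_⟩
  simp only [Mo.comp_σ]
  exact (hE.comp (σ := m'.σ) fun G hG => m'.mem_Fn hG).trans h

theorem M1c_exp {I : Bool → RI A} (m : Mo I) {ι : Type} (s : Finset ι) (z : A) (p q : ι → A)
    (δ : DU A) : z + ∑ j ∈ s, p j * (m.σ δ).1 true * q j
      = (z + ∑ j ∈ s, p j * m.c true * q j)
        + ∑ j ∈ s, p j * m.α false * δ.1 true * (m.α' true * q j) := by
  rw [add_assoc, ← Finset.sum_add_distrib]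
  congr 1
  refine Finset.sum_congr rfl fun j _ => ?_
  simp only [Mo.σ_val, Bool.not_true]
  noncomm_ring

theorem M1c_split {ι : Type} [DecidableEq ι] {s : Finset ι} {j0 : ι} (hj : j0 ∈ s) (l : ι → k)
    (hl : l j0 = 1) (p q : ι → A) (w : A) :
    ∑ j ∈ s, p j * w * q j = (∑ j ∈ s, l j • p j) * w * q j0
      + ∑ j ∈ s.erase j0, p j * w * (q j - l j • q j0) := by
  rw [← Finset.add_sum_erase s _ hj, ← Finset.add_sum_erase s _ hj, hl, one_smul, add_mul, add_mul,
    add_assoc, Finset.sum_mul, Finset.sum_mul, ← Finset.sum_add_distrib]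
  congr 1
  refine Finset.sum_congr rfl fun j _ => ?_
  simp only [mul_sub, smul_mul_assoc, mul_smul_comm]
  abel

theorem M1c_split' {ι : Type} [DecidableEq ι] {s : Finset ι} {j0 : ι} (hj : j0 ∈ s) (l : ι → k)
    (hl : l j0 = 1) (p q : ι → A) (w : A) :
    ∑ j ∈ s, p j * w * q j = p j0 * w * (∑ j ∈ s, l j • q j)
      + ∑ j ∈ s.erase j0, (p j - l j • p j0) * w * q j := by
  rw [← Finset.add_sum_erase s _ hj, ← Finset.add_sum_erase s _ hj, hl, one_smul, mul_add,
    add_assoc, Finset.mul_sum, ← Finset.sum_add_distrib]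
  congr 1
  refine Finset.sum_congr rfl fun j _ => ?_
  simp only [sub_mul, smul_mul_assoc, mul_smul_comm]
  abel

theorem M1c_unit {ι : Type} [DecidableEq ι] (s : Finset ι) (P W : ι → A)
    (h : ∀ i ∈ s, ∀ j ∈ s, W i * P j = if i = j then 1 else 0) {u u' : A} (hu : u * u' = 1) :
    (1 + ∑ j ∈ s, P j * (u - 1) * W j) * (1 + ∑ j ∈ s, P j * (u' - 1) * W j) = 1 := by
  have h1 : (∑ j ∈ s, P j * (u - 1) * W j) * (∑ j ∈ s, P j * (u' - 1) * W j)
      = ∑ j ∈ s, P j * ((u - 1) * (u' - 1)) * W j := by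
    rw [Finset.sum_mul]
    refine Finset.sum_congr rfl fun i hi => ?_
    rw [Finset.mul_sum, Finset.sum_eq_single i]
    · calc P i * (u - 1) * W i * (P i * (u' - 1) * W i)
          = P i * (u - 1) * (W i * P i) * (u' - 1) * W i := by simp only [mul_assoc]
        _ = _ := by rw [h i hi i hi, if_pos rfl]; simp only [mul_assoc, one_mul]
    · intro j hj hji
      calc P i * (u - 1) * W i * (P j * (u' - 1) * W j)
          = P i * (u - 1) * (W i * P j) * (u' - 1) * W j := by simp only [mul_assoc]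
        _ = 0 := by rw [h i hi j hj, if_neg (Ne.symm hji)]; simp
    · intro h'; exact absurd hi h'
  rw [add_mul, one_mul, mul_add, mul_one, h1, add_assoc, ← Finset.sum_add_distrib,
    ← Finset.sum_add_distrib, Finset.sum_eq_zero, add_zero]
  intro j _
  have : (u' - 1) + ((u - 1) + (u - 1) * (u' - 1)) = 0 := by
    rw [sub_mul, mul_sub, hu]; noncomm_ring
  calc _ = P j * ((u' - 1) + ((u - 1) + (u - 1) * (u' - 1))) * W j := by noncomm_ring
    _ = 0 := by rw [this]; simp

theorem M1c_mem {ι : Type} (s : Finset ι) (P W : ι → A) (ε : Bool) :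
    (fun δ : DU A => 1 + ∑ j ∈ s, P j * (δ.1 ε - 1) * W j) ∈ FnV A := by
  have := (Deg.pencil (X := XV A) s (1 - ∑ j ∈ s, P j * W j) P (fun _ => ε) W).mem
  convert this using 2 with δ
  simp only [XV, mul_sub, sub_mul, mul_one, Finset.sum_sub_distrib]
  abel

theorem M1c_ntop {I : Bool → RI A} (hI : VP k I) (ε : Bool) : ¬ (⊤ : RI A) ≤ I ε :=
  fun h => (hI.1 ε).1.1 (h Submodule.mem_top)

/-- a move whose column of type `ε` is killed by `w` -/
theorem M1c_ann (hP : PI A) (lv : Lv A) {I : Bool → RI A} (hI : VP k I) (ε : Bool) {w y : A}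
    (hy : y ∉ I ε) (h : w * y = 0) : ∃ m : Mo I, w * m.α ε = 0 := by
  obtain ⟨m, h1, -⟩ := mk1 hP lv (fun ε => (hI.1 ε).1)
    (fun ε' => if ε' = ε then lq ⊥ w else ⊤) (fun ε' => by
      by_cases he : ε' = ε
      · subst he
        rw [if_pos rfl]
        exact fun hle => hy (hle (by rw [mem_lq, h]; exact Submodule.zero_mem _))
      · rw [if_neg he]; exact M1c_ntop hI ε')
    (ι := Empty) (fun j => j.elim) (fun j => j.elim) (fun j => j.elim)
  refine ⟨m, ?_⟩
  have := h1 ε
  simp only [if_true] at this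
  exact (Submodule.mem_bot _).1 (mem_lq.1 this)

theorem M1c_ext {ι : Type} [DecidableEq ι] (s : Finset ι) (l : s → k) (v : ι → A) :
    ∑ j ∈ s, (if h : j ∈ s then l ⟨j, h⟩ else 0) • v j = ∑ j : s, l j • v j := by
  rw [← Finset.sum_coe_sort s]
  exact Finset.sum_congr rfl fun j _ => by rw [dif_pos j.2]

theorem pen_free (hP : PI A) (B : Base k A) {ι : Type} [DecidableEq ι] (s : Finset ι)
    (ih : ∀ s' : Finset ι, s'.card < s.card → ∀ (I : Bool → RI A), VP k I → ∀ (z : A) (p q : ι → A),
      ∃ (m : Mo I) (a : A), EqvIn (FnV A)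
        (fun δ => z + ∑ j ∈ s', p j * (m.σ δ).1 true * q j) (fun _ => a))
    {I : Bool → RI A} (hI : VP k I) (z : A) (p q x : ι → A)
    (hx : ∀ i ∈ s, ∀ l ∈ s, q i * x l = if i = l then 1 else 0) :
    ∃ (m : Mo I) (a : A), EqvIn (FnV A)
      (fun δ => z + ∑ j ∈ s, p j * (m.σ δ).1 true * q j) (fun _ => a) := by
  set f0 : A := 1 - ∑ l ∈ s, x l * q l with hf0
  have hq0 : ∀ j ∈ s, q j * f0 = 0 := fun j hj => by
    rw [hf0, mul_sub, mul_one, Finset.mul_sum, Finset.sum_eq_single j]
    · rw [← mul_assoc, hx j hj j hj, if_pos rfl, one_mul, sub_self]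
    · intro l hl hlj
      rw [← mul_assoc, hx j hj l hl, if_neg (Ne.symm hlj), zero_mul]
    · intro h; exact absurd hj h
  obtain ⟨t, ht, -⟩ := hP.reg (z * f0)
  set f : A := 1 - z * f0 * t with hf
  have hfz : f * z * f0 = 0 := by rw [mul_assoc, hf, sub_mul, one_mul, ht, sub_self]
  have hT0 : ∀ w : A, (z + ∑ j ∈ s, p j * w * q j) * f0 = z * f0 := fun w => by
    rw [add_mul, Finset.sum_mul, Finset.sum_eq_zero, add_zero]
    intro j hj
    rw [mul_assoc, hq0 j hj, mul_zero]
  by_cases hA : ∃ (l : ι → k) (j0 : ι), j0 ∈ s ∧ l j0 = 1 ∧ ∃ y, y ∉ I false ∧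
      f * (∑ j ∈ s, l j • p j) * y = 0
  · obtain ⟨l, j0, hj0, hl, y, hy, h0⟩ := hA
    obtain ⟨m, hm⟩ := M1c_ann hP B.lv hI false hy h0
    set pl : A := ∑ j ∈ s, l j • p j with hpl
    have h1 : pl * m.α false = z * f0 * (t * pl * m.α false) := by
      rw [hf, mul_assoc, sub_mul, one_mul, sub_eq_zero] at hm
      rw [mul_assoc t, ← mul_assoc]
      exact hm
    refine M1c_red m (fun δ => z + ∑ j ∈ s, p j * δ.1 true * q j)
      (fun δ => (z + ∑ j ∈ s, p j * m.c true * q j) + ∑ j ∈ s.erase j0,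
        p j * m.α false * δ.1 true * (m.α' true * (q j - l j • q j0))) ?_
      (ih _ (Finset.card_erase_lt_of_mem hj0) _ (m.vp hI) _ _ _)
    set u : A := f0 * (t * pl * m.α false) with hu
    set r : A := m.α' true * q j0 with hr
    have hru : r * u = 0 := by
      rw [hr, hu, mul_assoc, ← mul_assoc (q j0), hq0 j0 hj0, zero_mul, mul_zero]
    have hV : ∀ c : A, (fun δ : DU A => 1 + c * u * δ.1 true * r) ∈ FnV A := fun c =>
      (Deg.step 0 _ (c * u) true _ (Deg.const 1 (1 : A)) (Deg.const 0 r) :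
        Deg (XV A) 1 _).mem
    have hE := EqvIn.of_right (S := FnV A)
      (fun δ => z + ∑ j ∈ s, p j * (m.σ δ).1 true * q j) (hV (-1)) (hV 1)
      (funext fun δ => by
        simp only [Pi.mul_apply, Pi.one_apply]
        calc _ = 1 - u * δ.1 true * (r * u) * δ.1 true * r := by noncomm_ring
          _ = 1 := by rw [hru]; simp)
      (funext fun δ => by
        simp only [Pi.mul_apply, Pi.one_apply]
        calc _ = 1 - u * δ.1 true * (r * u) * δ.1 true * r := by noncomm_ring
          _ = 1 := by rw [hru]; simp)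
    convert hE using 1
    funext δ
    simp only [Pi.mul_apply]
    have h2 : (z + ∑ j ∈ s, p j * (m.σ δ).1 true * q j) * u = pl * m.α false := by
      rw [hu, ← mul_assoc, hT0, ← h1]
    have h3 := M1c_split hj0 l hl p q (m.α false * δ.1 true * m.α' true)
    calc _ = (z + ∑ j ∈ s, p j * (m.σ δ).1 true * q j)
          - pl * m.α false * δ.1 true * r := by
          rw [M1c_exp, hr, hpl]
          simp only [mul_assoc] at h3 ⊢
          rw [h3]
          abel
      _ = _ := by rw [← h2]; noncomm_ring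
  by_cases hB : ∃ (l : ι → k) (j0 : ι), j0 ∈ s ∧ l j0 = 1 ∧ ∃ y, y ∉ I true ∧
      f * z * (∑ j ∈ s, l j • x j) * y = 0
  · obtain ⟨l, j0, hj0, hl, y, hy, h0⟩ := hB
    obtain ⟨m, hm⟩ := M1c_ann hP B.lv hI true hy h0
    set pl : A := ∑ j ∈ s, l j • p j with hpl
    set xl : A := ∑ j ∈ s, l j • x j with hxl
    have h1 : z * xl * m.α true = z * f0 * (t * (z * xl * m.α true)) := by
      rw [hf, mul_assoc, mul_assoc, sub_mul, one_mul, sub_eq_zero] at hm
      rw [← mul_assoc (z * f0), mul_assoc z xl]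
      exact hm
    have hqx : ∀ j ∈ s, q j * xl = l j • (1 : A) := fun j hj => by
      rw [hxl, Finset.mul_sum, Finset.sum_eq_single j]
      · rw [mul_smul_comm, hx j hj j hj, if_pos rfl]
      · intro i hi hij
        rw [mul_smul_comm, hx j hj i hi, if_neg (Ne.symm hij), smul_zero]
      · intro h; exact absurd hj h
    set g : A := xl * m.α true - f0 * (t * (z * xl * m.α true)) with hg
    set r : A := m.α' true * q j0 with hr
    have hqg : ∀ j ∈ s, q j * g = l j • m.α true := fun j hj => by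
      rw [hg, mul_sub, ← mul_assoc, ← mul_assoc, hqx j hj, hq0 j hj, zero_mul, sub_zero,
        smul_mul_assoc, one_mul]
    have hzg : z * g = 0 := by
      rw [hg, mul_sub, ← mul_assoc, ← mul_assoc z f0, ← h1, sub_self]
    have hrg : r * g = 1 := by
      rw [hr, mul_assoc, hqg j0 hj0, hl, one_smul, (m.adm true).1]
    refine M1c_red m (fun δ => z + ∑ j ∈ s, p j * δ.1 true * q j)
      (fun δ => (z + ∑ j ∈ s, p j * m.c true * q j + pl * m.α false * r) + ∑ j ∈ s.erase j0,
        p j * m.α false * δ.1 true * (m.α' true * (q j - l j • q j0))) ?_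
      (ih _ (Finset.card_erase_lt_of_mem hj0) _ (m.vp hI) _ _ _)
    have hU := fun (u u' : A) (hu : u * u' = 1) => M1c_unit (Finset.univ : Finset Unit)
      (fun _ => g) (fun _ => r) (fun _ _ _ _ => by simpa using hrg) hu
    have hE := EqvIn.of_right (S := FnV A)
      (fun δ => z + ∑ j ∈ s, p j * (m.σ δ).1 true * q j)
      (M1c_mem (Finset.univ : Finset Unit) (fun _ => g) (fun _ => r) false)
      (M1c_mem (Finset.univ : Finset Unit) (fun _ => g) (fun _ => r) true)
      (funext fun δ => hU _ _ (δ.2 false)) (funext fun δ => hU _ _ (δ.2 true))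
    convert hE using 1
    funext δ
    simp only [Pi.mul_apply, Finset.univ_unique, Finset.sum_singleton]
    have h2 : (z + ∑ j ∈ s, p j * (m.σ δ).1 true * q j) * g = pl * m.α false * δ.1 true := by
      rw [add_mul, hzg, zero_add, hpl, Finset.sum_mul, Finset.sum_mul, Finset.sum_mul]
      refine Finset.sum_congr rfl fun j hj => ?_
      rw [mul_assoc, hqg j hj, mul_smul_comm, smul_mul_assoc, smul_mul_assoc]
      congr 1
      simp only [Mo.σ_val, Bool.not_true]
      calc _ = p j * (m.c true * m.α true)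
            + p j * m.α false * δ.1 true * (m.α' true * m.α true) := by noncomm_ring
        _ = _ := by rw [m.h3, (m.adm true).1]; simp
    have h3 := M1c_split hj0 l hl p q (m.α false * δ.1 true * m.α' true)
    have h4 : δ.1 true * δ.1 false = 1 := δ.2 true
    calc _ = (z + ∑ j ∈ s, p j * (m.σ δ).1 true * q j)
          + (pl * m.α false * (δ.1 true * δ.1 false) * r - pl * m.α false * δ.1 true * r) := by
          rw [M1c_exp, h4, hr, hpl]
          simp only [mul_assoc, one_mul] at h3 ⊢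
          rw [h3]
          abel
      _ = (z + ∑ j ∈ s, p j * (m.σ δ).1 true * q j)
          + (pl * m.α false * δ.1 true) * (δ.1 false - 1) * r := by noncomm_ring
      _ = _ := by rw [← h2]; noncomm_ring
  obtain ⟨a, a', ha, η, hη⟩ := left hP B.lv hI (ι := s ⊕ s)
    (Sum.elim (fun j => f * p j) (fun j => f * z * x j))
    (Sum.elim (fun _ => false) (fun _ => true)) (by
      intro ε l hl hl0 y hy
      by_contra hyI
      obtain ⟨j0, hj0⟩ := Function.ne_iff.1 hl0
      rw [Fintype.sum_sum_type] at hy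
      simp only [Sum.elim_inl, Sum.elim_inr] at hy
      cases ε with
      | false =>
        have h1 : ∀ j : s, l (Sum.inr j) = 0 := fun j => hl _ (by simp)
        rcases j0 with j0 | j0
        · refine hA ⟨fun j => (l (Sum.inl j0))⁻¹ *
            if h : j ∈ s then l (Sum.inl ⟨j, h⟩) else 0, j0, j0.2, ?_, y, hyI, ?_⟩
          · simp only [dif_pos j0.2]
            exact inv_mul_cancel₀ hj0
          · simp only [h1, zero_smul, Finset.sum_const_zero, add_zero] at hy
            simp only [mul_smul]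
            rw [← Finset.smul_sum, M1c_ext s (fun j => l (Sum.inl j)), mul_smul_comm,
              smul_mul_assoc, Finset.mul_sum]
            simp only [mul_smul_comm]
            rw [hy, smul_zero]
        · exact hj0 (h1 j0)
      | true =>
        have h1 : ∀ j : s, l (Sum.inl j) = 0 := fun j => hl _ (by simp)
        rcases j0 with j0 | j0
        · exact hj0 (h1 j0)
        · refine hB ⟨fun j => (l (Sum.inr j0))⁻¹ *
            if h : j ∈ s then l (Sum.inr ⟨j, h⟩) else 0, j0, j0.2, ?_, y, hyI, ?_⟩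
          · simp only [dif_pos j0.2]
            exact inv_mul_cancel₀ hj0
          · simp only [h1, zero_smul, Finset.sum_const_zero, zero_add] at hy
            simp only [mul_smul]
            rw [← Finset.smul_sum, M1c_ext s (fun j => l (Sum.inr j)), mul_smul_comm,
              smul_mul_assoc, Finset.mul_sum]
            simp only [mul_smul_comm]
            rw [hy, smul_zero])
  obtain ⟨m, W, hW1, hW2⟩ := swap hP B hI (ι := s) (fun j => f * z * x j) (fun j => f * p j)
    (fun j => η (Sum.inr j)) (fun j => η (Sum.inl j)) ha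
    (fun i j => by simpa using hη (Sum.inl i) (Sum.inl j))
    (fun i j => by simpa using hη (Sum.inl i) (Sum.inr j))
    (fun i j => by simpa using hη (Sum.inr i) (Sum.inr j))
    (fun i j => by simpa using hη (Sum.inr i) (Sum.inl j))
  set T1 : A := z + ∑ j ∈ s, p j * (m.c true + m.α false * m.α' true) * q j with hT1
  have hWP : ∀ i ∈ (Finset.univ : Finset s), ∀ j ∈ (Finset.univ : Finset s),
      W i * f * (p j * m.α false) = if i = j then 1 else 0 := fun i _ j _ => by
    rw [← hW1 i j]; simp only [mul_assoc]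
  have hfz' : f * z = ∑ j : s, f * z * x j * q j := by
    rw [hf0, mul_sub, mul_one, sub_eq_zero, Finset.mul_sum, ← Finset.sum_coe_sort s] at hfz
    simpa only [mul_assoc] using hfz
  have hWT : ∀ i : s, W i * f * T1 = m.α' true * q i := fun i => by
    have h1 : f * T1 = ∑ j : s, ((f * z * x j + f * p j * m.c true) * q j
        + f * (p j * m.α false) * (m.α' true * q j)) := by
      rw [hT1, mul_add, Finset.mul_sum, ← Finset.sum_coe_sort s]
      conv_lhs => rw [hfz']
      rw [← Finset.sum_add_distrib]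
      exact Finset.sum_congr rfl fun j _ => by noncomm_ring
    rw [mul_assoc, h1, Finset.mul_sum, Finset.sum_eq_single i]
    · rw [mul_add, ← mul_assoc, hW2, ← mul_assoc, ← mul_assoc (W i),
        hWP i (Finset.mem_univ _) i (Finset.mem_univ _), if_pos rfl]
      simp
    · intro j _ hj
      rw [mul_add, ← mul_assoc, hW2, ← mul_assoc, ← mul_assoc (W i),
        hWP i (Finset.mem_univ _) j (Finset.mem_univ _), if_neg (Ne.symm hj)]
      simp
    · intro h; exact absurd (Finset.mem_univ i) h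
  refine ⟨m, T1, EqvIn.symm ?_⟩
  have hE := EqvIn.of_left (S := FnV A) (fun _ : DU A => T1)
    (M1c_mem (Finset.univ : Finset s) (fun j => p j * m.α false) (fun j => W j * f) true)
    (M1c_mem (Finset.univ : Finset s) (fun j => p j * m.α false) (fun j => W j * f) false)
    (funext fun δ => M1c_unit _ _ _ hWP (δ.2 true))
    (funext fun δ => M1c_unit _ _ _ hWP (δ.2 false))
  convert hE using 1
  funext δ
  simp only [Pi.mul_apply]
  rw [add_mul, one_mul, Finset.sum_mul]
  simp only [mul_assoc _ (W _ * f), hWT]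
  rw [hT1, add_assoc, ← Finset.sum_coe_sort s, ← Finset.sum_coe_sort s,
    ← Finset.sum_add_distrib]
  congr 1
  refine Finset.sum_congr rfl fun j _ => ?_
  simp only [Mo.σ_val, Bool.not_true]
  noncomm_ring

theorem pen (hP : PI A) (B : Base k A) {ι : Type} [DecidableEq ι] (s : Finset ι)
    {I : Bool → RI A} (hI : VP k I) (z : A) (p q : ι → A) :
    ∃ (m : Mo I) (a : A), EqvIn (FnV A)
      (fun δ => z + ∑ j ∈ s, p j * (m.σ δ).1 true * q j) (fun _ => a) := by
  induction hn : s.card using Nat.strong_induction_on generalizing s I z p q with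
  | _ n ih0 =>
  have ih : ∀ s' : Finset ι, s'.card < s.card → ∀ (I : Bool → RI A), VP k I →
      ∀ (z : A) (p q : ι → A), ∃ (m : Mo I) (a : A), EqvIn (FnV A)
        (fun δ => z + ∑ j ∈ s', p j * (m.σ δ).1 true * q j) (fun _ => a) :=
    fun s' hs' I hI z p q => ih0 _ (hn ▸ hs') s' hI z p q rfl
  by_cases h0 : ∃ (l : ι → k) (j0 : ι), j0 ∈ s ∧ l j0 = 1 ∧ ∑ j ∈ s, l j • q j ∈ I true
  · obtain ⟨l, j0, hj0, hl, h0⟩ := h0
    obtain ⟨m, -, hm⟩ := mk1 hP B.lv (fun ε => (hI.1 ε).1) (fun _ => ⊤) (M1c_ntop hI)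
      (fun _ : Unit => ∑ j ∈ s, l j • q j) (fun _ => true) (fun _ => h0)
    have hm' : m.α' true * ∑ j ∈ s, l j • q j = 0 := hm ()
    refine M1c_red m (fun δ => z + ∑ j ∈ s, p j * δ.1 true * q j)
      (fun δ => (z + ∑ j ∈ s, p j * m.c true * q j) + ∑ j ∈ s.erase j0,
        (p j - l j • p j0) * m.α false * δ.1 true * (m.α' true * q j)) ?_
      (ih _ (Finset.card_erase_lt_of_mem hj0) _ (m.vp hI) _ _ _)
    convert EqvIn.refl (FnV A) _ using 1
    funext δ
    have h3 := M1c_split' hj0 l hl p q (m.α false * δ.1 true * m.α' true)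
    rw [M1c_exp]
    simp only [mul_assoc] at h3 ⊢
    rw [h3, hm']
    simp
  have hx : ∀ l0 : ι, ∃ e, l0 ∈ s → ∀ i ∈ s, q i * e - (if i = l0 then 1 else 0) ∈ I true := by
    intro l0
    by_cases hl0 : l0 ∈ s
    · obtain ⟨e, h1, h2⟩ := span (ι := s.erase l0) (hI.1 true) (fun _ => I true)
        (fun _ => (hI.1 true).1) (fun _ => Or.inl rfl) (fun j => q j) (q l0) (by
          intro l _ hl
          refine h0 ⟨fun j => if j = l0 then 1 else
            -(if h : j ∈ s.erase l0 then l ⟨j, h⟩ else 0), l0, hl0, if_pos rfl, ?_⟩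
          rw [← Finset.add_sum_erase s _ hl0]
          beta_reduce
          rw [if_pos rfl, one_smul]
          rw [← M1c_ext, sub_eq_add_neg, ← Finset.sum_neg_distrib] at hl
          convert hl using 2
          refine Finset.sum_congr rfl fun j hj => ?_
          rw [if_neg (Finset.ne_of_mem_erase hj), neg_smul])
      refine ⟨e, fun _ i hi => ?_⟩
      by_cases hi0 : i = l0
      · rw [if_pos hi0, hi0]; exact h1
      · rw [if_neg hi0, sub_zero]; exact h2 ⟨i, Finset.mem_erase.2 ⟨hi0, hi⟩⟩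
    · exact ⟨0, fun h => absurd h hl0⟩
  choose x hx using hx
  obtain ⟨m, -, hm⟩ := mk1 hP B.lv (fun ε => (hI.1 ε).1) (fun _ => ⊤) (M1c_ntop hI)
    (fun il : s × s => q il.1 * x il.2 - if (il.1 : ι) = il.2 then 1 else 0) (fun _ => true)
    (fun il => hx _ il.2.2 _ il.1.2)
  refine M1c_red m (fun δ => z + ∑ j ∈ s, p j * δ.1 true * q j)
    (fun δ => (z + ∑ j ∈ s, p j * m.c true * q j) + ∑ j ∈ s,
      p j * m.α false * δ.1 true * (m.α' true * q j)) ?_
    (pen_free hP B s ih (m.vp hI) _ _ _ (fun l => x l * m.α true) fun i hi l hl => ?_)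
  · convert EqvIn.refl (FnV A) _ using 1
    funext δ
    rw [M1c_exp]
  · have h1 : m.α' true * (q i * x l - if i = l then 1 else 0) = 0 := hm (⟨i, hi⟩, ⟨l, hl⟩)
    rw [mul_sub, sub_eq_zero] at h1
    rw [← mul_assoc, mul_assoc (m.α' true), h1]
    split_ifs
    · rw [mul_one, (m.adm true).1]
    · simp

theorem m1_sl (hP : PI A) (B : Base k A) {I : Bool → RI A} (hI : VP k I) {F : DU A → A}
    (hF : F ∈ FnV A) :
    ∃ (m : Mo I) (a : A), EqvIn (FnV A) (fun δ => B.lv.pl (F (m.σ δ))) (fun _ => a) := by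
  obtain ⟨G, hG, h1⟩ := lin B.lv (XV A) hF
  obtain ⟨H, hH, h2⟩ := tp_aux B.lv hG (fun _ => 0) 1 1 (Deg.const 1 0)
  obtain ⟨n, z, p, ty, q, h3⟩ := hH.rep1
  obtain ⟨m, a, h4⟩ := pen hP B (Finset.univ : Finset (Fin n)) hI z p q
  have hS := lvIn_Fn B.lv (XV A)
  have h5 : EqvIn (FnV A) (fun δ => B.lv.pl (F δ)) H := by
    refine ((eqv_plpl hS F).symm.trans (h1.pl hS)).trans ?_
    simp only [zero_add, one_mul, mul_one] at h2
    exact h2
  refine ⟨m, a, (h5.comp (σ := m.σ) fun G hG => m.mem_Fn hG).trans ?_⟩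
  convert h4 using 2 with δ
  exact h3 _

end Pool.Agent.Work.MP_c4093f_al
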