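import Mathlib

/-! Positive primitive conditions for left modules over a ring `S` (right `A`-modules are left
modules over `Aᵐᵒᵖ`), their solution sets, elementary duality and pure embeddings. -/

namespace Pool.Agent.Work.MP_c4093f_al

/-- The pp condition `∃ y, x a + y b = 0` in `n` free variables, with `m` bound variables and `l`
equations. -/
structure PP (S : Type) [Ring S] (n : ℕ) where
  m : ℕ
  l : ℕ
  a : Fin n → Fin l → S
  b : Fin m → Fin l → S

/-- The solution set of a pp condition in the module `N`. -/
def PP.ev {S : Type} [Ring S] {n : ℕ} (φ : PP S n) (N : Type) [AddCommGroup N] [Module S N] :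
    Set (Fin n → N) :=
  {x | ∃ y : Fin φ.m → N, ∀ t, ∑ i, φ.a i t • x i + ∑ j, φ.b j t • y j = 0}

/-- The elementary dual `∃ z, x = a z ∧ b z = 0` of a right pp condition. -/
def PP.dual {A : Type} [Ring A] {n : ℕ} (φ : PP Aᵐᵒᵖ n) : PP A n where
  m := φ.l
  l := n + φ.m
  a := fun i => Fin.addCases (fun i' => if i = i' then 1 else 0) (fun _ => 0)
  b := fun t => Fin.addCases (fun i => - (φ.a i t).unop) (fun j => (φ.b j t).unop)

/-- Pure embeddings: injective maps that reflect all pp conditions. -/
def Pure {S N N' : Type} [Ring S] [AddCommGroup N] [Module S N] [AddCommGroup N'] [Module S N']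
    (f : N →ₗ[S] N') : Prop :=
  Function.Injective f ∧ ∀ (n : ℕ) (φ : PP S n) (x : Fin n → N),
    (fun i => f (x i)) ∈ φ.ev N' → x ∈ φ.ev N

end Pool.Agent.Work.MP_c4093f_al
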