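import Pool.Agent.Work.MP_c4093f_al.Basic
import Pool.Agent.Work.MP_c4093f_al.PPDefs

/-!
pp conditions over a purely infinite ring with a Leavitt pair are kernels of one row.

* `pp_ker`: take Leavitt families `x t, y t` on `Fin φ.l` and `x' j, y' j` on `Fin φ.m`
  (`Lv.fam`).  Put `A i = ∑ t, x t * φ.a i t`, `B = ∑ t j, x t * φ.b j t * y' j`, `B g B = B`,
  `c i = (1 - B g) * A i`.  A tuple solves `φ` iff `∑ A i • x i ∈ B • N` iff `∑ c i • x i = 0`.
* `pp_dual`: same `c` for `S = Aᵐᵒᵖ`.  From `w` take `z t = (unop ((1 - B g) * x t)) • w`;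
  conversely `w = ∑ t, unop (y t) • z t`, which is killed by `unop B`.
* `ker_le`: `C = ∑ c i * y i`, `C g C = C`; for all `r`, `n` the tuple
  `(y i * (1 - g C) * r) • n` is in the kernel of `c`, so `C' (1 - g C)` kills `N`; a nontrivial
  module is faithful (`PI.one`), so `C' = C' g C`, and `c' i = C' * x i`.
* `pp_split`: with rows `c` for `φ`, `c'` for `ψ`; `¬ ∃ h, c' = h c`, so `C' (1 - g C) ≠ 0`, and
  `s C' (1 - g C) t = 1`; `v i = y i (1 - g C) t` has `∑ c i v i = 0`, `s ∑ c' i v i = 1`.  Let `θ`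
  have no bound variable and the two equations `c` and `y1 s c'`.  Test with `(v i * x2) • n` and
  `(v i * x1) • n` for `n ≠ 0`.
-/

namespace Pool.Agent.Work.MP_c4093f_al

variable {S : Type} [Ring S]

theorem PPa_data (hP : PI S) (lv : Lv S) {m l : ℕ} (b : Fin m → Fin l → S) :
    ∃ (e y : Fin l → S) (h : Fin m → Fin l → S), (∀ j, ∑ t, e t * b j t = 0) ∧
      ∀ t s, y t * e s = (if t = s then 1 else 0) - ∑ j, b j t * h j s := by
  obtain ⟨x, y, hxy⟩ := lv.fam (Fin l)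
  obtain ⟨x', y', hxy'⟩ := lv.fam (Fin m)
  obtain ⟨B, hB⟩ : ∃ B, B = ∑ t, ∑ j, x t * b j t * y' j := ⟨_, rfl⟩
  obtain ⟨g, hg, -⟩ := hP.reg B
  have h1 : ∀ j, B * x' j = ∑ t, x t * b j t := fun j => by
    simp only [hB, Finset.sum_mul, mul_assoc, hxy', mul_ite, mul_one, mul_zero,
      Finset.sum_ite_eq', Finset.mem_univ, if_true]
  have h2 : ∀ t, y t * B = ∑ j, b j t * y' j := fun t => by
    rw [hB, Finset.sum_comm]
    simp only [Finset.mul_sum, ← mul_assoc, hxy, ite_mul, one_mul, zero_mul,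
      Finset.sum_ite_eq, Finset.mem_univ, if_true]
  refine ⟨fun t => (1 - B * g) * x t, y, fun j s => y' j * g * x s, fun j => ?_, fun t s => ?_⟩
  · simp only [mul_assoc, ← Finset.mul_sum]
    rw [← h1, ← mul_assoc, sub_mul, one_mul, hg, sub_self, zero_mul]
  · beta_reduce
    rw [sub_mul, one_mul, mul_sub, hxy, ← mul_assoc, ← mul_assoc, h2, Finset.sum_mul,
      Finset.sum_mul]
    simp only [mul_assoc]

theorem PPa_comb {N : Type} [AddCommGroup N] [Module S N] {n l : ℕ} (e : Fin l → S)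
    (a : Fin n → Fin l → S) (x : Fin n → N) :
    ∑ i, (∑ t, e t * a i t) • x i = ∑ t, e t • ∑ i, a i t • x i := by
  simp only [Finset.sum_smul, Finset.smul_sum, mul_smul]
  exact Finset.sum_comm

theorem PPa_ker {n : ℕ} (φ : PP S n) {e y : Fin φ.l → S} {h : Fin φ.m → Fin φ.l → S}
    (h1 : ∀ j, ∑ t, e t * φ.b j t = 0)
    (h2 : ∀ t s, y t * e s = (if t = s then 1 else 0) - ∑ j, φ.b j t * h j s)
    (N : Type) [AddCommGroup N] [Module S N] :
    φ.ev N = {x | ∑ i, (∑ t, e t * φ.a i t) • x i = 0} := by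
  ext x
  rw [Set.mem_ofPred_eq, PPa_comb]
  constructor
  · rintro ⟨Y, hY⟩
    have h3 := PPa_comb e φ.b Y
    simp only [h1, zero_smul, Finset.sum_const_zero] at h3
    refine (add_zero _).symm.trans ((congrArg _ h3).trans ?_)
    rw [← Finset.sum_add_distrib]
    exact Finset.sum_eq_zero fun t _ => by rw [← smul_add, hY, smul_zero]
  · intro hx
    refine ⟨fun j => -∑ s, h j s • ∑ i, φ.a i s • x i, fun t => ?_⟩
    have h3 := congrArg (y t • ·) hx
    simp only [smul_zero] at h3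
    rw [Finset.smul_sum] at h3
    simp only [← mul_smul, h2, sub_smul, Finset.sum_sub_distrib, ite_smul, one_smul, zero_smul,
      Finset.sum_ite_eq, Finset.mem_univ, if_true] at h3
    rw [PPa_comb (fun j => φ.b j t) fun s j => h j s] at h3
    simp only [smul_neg, Finset.sum_neg_distrib]
    rw [← sub_eq_add_neg, h3]

theorem PPa_dual_ev {A : Type} [Ring A] {n : ℕ} (φ : PP Aᵐᵒᵖ n) (L : Type) [AddCommGroup L]
    [Module A L] (x : Fin n → L) : x ∈ φ.dual.ev L ↔ ∃ z : Fin φ.l → L,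
      (∀ i, x i = ∑ t, (φ.a i t).unop • z t) ∧ ∀ j, ∑ t, (φ.b j t).unop • z t = 0 := by
  refine exists_congr fun z => ?_
  refine (Fin.forall_fin_add _).trans
    (and_congr (forall_congr' fun i => ?_) (forall_congr' fun j => ?_))
  · simp [PP.dual, add_neg_eq_zero]
    rfl
  · simp [PP.dual]
    rfl

theorem PPa_row (hP : PI S) (lv : Lv S) {n : ℕ} (c c' : Fin n → S) :
    (∃ r, ∀ i, c' i = r * c i) ∨
      ∃ (s : S) (v : Fin n → S), ∑ i, c i * v i = 0 ∧ s * ∑ i, c' i * v i = 1 := by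
  obtain ⟨x, y, hxy⟩ := lv.fam (Fin n)
  have h1 : ∀ (d : Fin n → S) j, (∑ i, d i * y i) * x j = d j := fun d j => by
    simp only [Finset.sum_mul, mul_assoc, hxy, mul_ite, mul_one, mul_zero,
      Finset.sum_ite_eq', Finset.mem_univ, if_true]
  have h2 : ∀ (d : Fin n → S) r, ∑ i, d i * (y i * r) = (∑ i, d i * y i) * r := fun d r => by
    simp only [Finset.sum_mul, mul_assoc]
  obtain ⟨g, hg, -⟩ := hP.reg (∑ i, c i * y i)
  by_cases h : (∑ i, c' i * y i) * (1 - g * ∑ i, c i * y i) = 0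
  · refine Or.inl ⟨(∑ i, c' i * y i) * g, fun i => ?_⟩
    rw [mul_sub, mul_one, sub_eq_zero] at h
    rw [← h1 c' i, ← h1 c i, ← mul_assoc, mul_assoc _ g, ← h]
  · obtain ⟨s, t, h3⟩ := hP.one h
    refine Or.inr ⟨s, fun i => y i * ((1 - g * ∑ i, c i * y i) * t), ?_, ?_⟩
    · rw [h2, ← mul_assoc, mul_sub, mul_one, ← mul_assoc, hg, sub_self, zero_mul]
    · rw [h2, ← mul_assoc (∑ i, _), ← mul_assoc, h3]

theorem PPa_test {N : Type} [AddCommGroup N] [Module S N] {n : ℕ} (c v : Fin n → S) (r : S)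
    (m : N) : ∑ i, c i • (v i * r) • m = ((∑ i, c i * v i) * r) • m := by
  simp only [Finset.sum_mul, Finset.sum_smul, mul_smul]

theorem PPa_mul {N : Type} [AddCommGroup N] [Module S N] {n : ℕ} (c : Fin n → S) (r : S)
    (x : Fin n → N) : ∑ i, (r * c i) • x i = r • ∑ i, c i • x i := by
  simp only [Finset.smul_sum, mul_smul]

theorem pp_ker (hP : PI S) (lv : Lv S) {n : ℕ} (φ : PP S n) :
    ∃ c : Fin n → S, ∀ (N : Type) [AddCommGroup N] [Module S N],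
      φ.ev N = {x | ∑ i, c i • x i = 0} := by
  obtain ⟨e, y, h, h1, h2⟩ := PPa_data hP lv φ.b
  exact ⟨_, PPa_ker φ h1 h2⟩

theorem pp_dual {A : Type} [Ring A] (hP : PI A) (lv : Lv A) {n : ℕ} (φ : PP Aᵐᵒᵖ n) :
    ∃ c : Fin n → Aᵐᵒᵖ, (∀ (N : Type) [AddCommGroup N] [Module Aᵐᵒᵖ N],
      φ.ev N = {x | ∑ i, c i • x i = 0}) ∧ ∀ (L : Type) [AddCommGroup L] [Module A L],
      φ.dual.ev L = {x | ∃ w : L, ∀ i, x i = (c i).unop • w} := by
  obtain ⟨e, y, h, h1, h2⟩ := PPa_data hP.op lv.op φ.b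
  refine ⟨_, PPa_ker φ h1 h2, fun L _ _ => Set.ext fun x => (PPa_dual_ev φ L x).trans ?_⟩
  have h3 : ∀ (a : Fin φ.l → Aᵐᵒᵖ) (w : L),
      (∑ t, e t * a t).unop • w = ∑ t, (a t).unop • (e t).unop • w := fun a w => by
    simp only [Finset.unop_sum, MulOpposite.unop_mul, Finset.sum_smul, mul_smul]
  constructor
  · rintro ⟨z, hz, hz'⟩
    refine ⟨∑ t, (y t).unop • z t, fun i => ?_⟩
    rw [h3, hz]
    refine Finset.sum_congr rfl fun s _ => congrArg _ ?_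
    have h4 : ∑ t, (∑ j, φ.b j t * h j s).unop • z t = 0 := by
      simp only [Finset.unop_sum, MulOpposite.unop_mul]
      rw [PPa_comb (fun j => (h j s).unop) fun t j => (φ.b j t).unop]
      simp only [hz', smul_zero, Finset.sum_const_zero]
    rw [Finset.smul_sum]
    simp only [← mul_smul, ← MulOpposite.unop_mul, h2, MulOpposite.unop_sub, sub_smul,
      Finset.sum_sub_distrib, h4, sub_zero, apply_ite MulOpposite.unop, MulOpposite.unop_one,
      MulOpposite.unop_zero, ite_smul, one_smul, zero_smul, Finset.sum_ite_eq', Finset.mem_univ,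
      if_true]
  · rintro ⟨w, hw⟩
    exact ⟨fun t => (e t).unop • w, fun i => by rw [hw, h3], fun j => by
      rw [← h3, h1, MulOpposite.unop_zero, zero_smul]⟩

theorem ker_le (hP : PI S) (lv : Lv S) {n : ℕ} (c c' : Fin n → S) (N : Type) [AddCommGroup N]
    [Module S N] [Nontrivial N]
    (h : ∀ x : Fin n → N, ∑ i, c i • x i = 0 → ∑ i, c' i • x i = 0) :
    ∃ r, ∀ i, c' i = r * c i := by
  refine (PPa_row hP lv c c').resolve_right fun ⟨s, v, h1, h2⟩ => ?_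
  obtain ⟨m, hm⟩ := exists_ne (0 : N)
  have h3 := h (fun i => (v i * 1) • m) (by rw [PPa_test, h1, zero_mul, zero_smul])
  rw [PPa_test, mul_one] at h3
  exact hm (by rw [← one_smul S m, ← h2, mul_smul, h3, smul_zero])

theorem pp_le_all (hP : PI S) (lv : Lv S) {n : ℕ} (φ ψ : PP S n) (N : Type) [AddCommGroup N]
    [Module S N] [Nontrivial N] (h : φ.ev N ⊆ ψ.ev N) (N' : Type) [AddCommGroup N']
    [Module S N'] : φ.ev N' ⊆ ψ.ev N' := by
  obtain ⟨c, hc⟩ := pp_ker hP lv φ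
  obtain ⟨c', hc'⟩ := pp_ker hP lv ψ
  rw [hc, hc'] at h ⊢
  obtain ⟨r, hr⟩ := ker_le hP lv c c' N h
  intro x hx
  simp only [Set.mem_ofPred_eq] at hx ⊢
  simp only [hr, PPa_mul, hx, smul_zero]

theorem pp_dual_eq {A : Type} [Ring A] (hP : PI A) (lv : Lv A) {n : ℕ} (φ ψ : PP Aᵐᵒᵖ n)
    (N : Type) [AddCommGroup N] [Module Aᵐᵒᵖ N] [Nontrivial N] (h : φ.ev N = ψ.ev N)
    (L : Type) [AddCommGroup L] [Module A L] : ψ.dual.ev L = φ.dual.ev L := by
  obtain ⟨c, hc, hd⟩ := pp_dual hP lv φ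
  obtain ⟨c', hc', hd'⟩ := pp_dual hP lv ψ
  rw [hc, hc'] at h
  obtain ⟨r, hr⟩ := ker_le hP.op lv.op c c' N h.subset
  obtain ⟨r', hr'⟩ := ker_le hP.op lv.op c' c N h.symm.subset
  rw [hd, hd']
  ext x
  exact ⟨fun ⟨w, hw⟩ => ⟨r.unop • w, fun i => by rw [hw, hr, MulOpposite.unop_mul, mul_smul]⟩,
    fun ⟨w, hw⟩ => ⟨r'.unop • w, fun i => by rw [hw, hr', MulOpposite.unop_mul, mul_smul]⟩⟩

theorem pp_split (hP : PI S) (lv : Lv S) {n : ℕ} (φ ψ : PP S n) (N : Type) [AddCommGroup N]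
    [Module S N] (h : ¬ φ.ev N ⊆ ψ.ev N) :
    ∃ θ : PP S n, (∀ (N' : Type) [AddCommGroup N'] [Module S N'], θ.ev N' ⊆ φ.ev N' ∧
      (ψ.ev N' ⊆ φ.ev N' → ψ.ev N' ⊆ θ.ev N')) ∧ θ.ev N ≠ φ.ev N ∧ θ.ev N ≠ ψ.ev N := by
  obtain ⟨c, hc⟩ := pp_ker hP lv φ
  obtain ⟨c', hc'⟩ := pp_ker hP lv ψ
  rw [hc, hc'] at h
  obtain ⟨m, hm⟩ : ∃ m : N, m ≠ 0 := by
    obtain ⟨x, -, hx⟩ := Set.not_subset.1 h
    exact ⟨_, hx⟩
  obtain ⟨s, v, h1, h2⟩ := (PPa_row hP lv c c').resolve_left fun ⟨r, hr⟩ => h fun x hx => by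
    simp only [Set.mem_ofPred_eq] at hx ⊢
    simp only [hr, PPa_mul, hx, smul_zero]
  let θ : PP S n := ⟨0, 2, fun i => ![c i, lv.y1 * s * c' i], Fin.elim0⟩
  have hθ : ∀ (N' : Type) [AddCommGroup N'] [Module S N'] (x : Fin n → N'), x ∈ θ.ev N' ↔
      ∑ i, c i • x i = 0 ∧ (lv.y1 * s) • ∑ i, c' i • x i = 0 := by
    intro N' _ _ x
    rw [← PPa_mul]
    simp [θ, PP.ev, Fin.forall_fin_two]
  have h3 : ∀ r, ∑ i, c i • (v i * r) • m = 0 := fun r => by
    rw [PPa_test, h1, zero_mul, zero_smul]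
  have h4 : ∀ r r', (r' * s) • ∑ i, c' i • (v i * r) • m = (r' * r) • m := fun r r' => by
    rw [PPa_test, ← mul_smul, mul_assoc, ← mul_assoc s, h2, one_mul]
  refine ⟨θ, fun N' _ _ => ⟨fun x hx => ?_, fun h5 x hx => ?_⟩, fun e => hm ?_, fun e => hm ?_⟩
  · rw [hc]
    exact ((hθ N' x).1 hx).1
  · have h6 := h5 hx
    rw [hc] at h6
    rw [hc'] at hx
    exact (hθ N' x).2 ⟨h6, by rw [show ∑ i, c' i • x i = 0 from hx, smul_zero]⟩
  · have h5 : (fun i => (v i * lv.x1) • m) ∈ θ.ev N := by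
      rw [e, hc]
      exact h3 _
    have h6 := ((hθ N _).1 h5).2
    rwa [h4, lv.h11, one_smul] at h6
  · have h5 : (fun i => (v i * lv.x2) • m) ∈ θ.ev N :=
      (hθ N _).2 ⟨h3 _, by rw [h4, lv.h12, zero_smul]⟩
    rw [e, hc'] at h5
    have h6 := h4 lv.x2 lv.y2
    rw [show ∑ i, c' i • (v i * lv.x2) • m = 0 from h5, smul_zero, lv.h22, one_smul] at h6
    exact h6.symm

theorem pure_of_inj (hP : PI S) (lv : Lv S) {N N' : Type} [AddCommGroup N] [Module S N]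
    [AddCommGroup N'] [Module S N'] {f : N →ₗ[S] N'} (hf : Function.Injective f) : Pure f := by
  refine ⟨hf, fun n φ x hx => ?_⟩
  obtain ⟨c, hc⟩ := pp_ker hP lv φ
  rw [hc] at hx ⊢
  refine hf ?_
  simpa only [map_sum, map_smul, map_zero, Set.mem_ofPred_eq] using hx

/-- the pair `x = x` over `x = 0` -/
theorem pp_top_bot : ∃ φ ψ : PP S 1, ∀ (N : Type) [AddCommGroup N] [Module S N],
    φ.ev N = Set.univ ∧ ψ.ev N = {0} := by
  refine ⟨⟨0, 0, fun _ => Fin.elim0, Fin.elim0⟩, ⟨0, 1, fun _ _ => 1, Fin.elim0⟩,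
    fun N _ _ => ⟨Set.eq_univ_of_forall fun x => ⟨Fin.elim0, fun t => t.elim0⟩, ?_⟩⟩
  ext x
  simp [PP.ev, funext_iff, Fin.forall_fin_one]

end Pool.Agent.Work.MP_c4093f_al
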