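import Pool.Agent.Work.MP_c4093f_al.MZorn
import Pool.Agent.Work.MP_c4093f_al.PPa

/-!
Injective modules of `M`.  Read MCalc first (instance search finds coded predicates; `CF.of_rel`,
`CF.toSub`, `MMod.of`, `cMap_iff`, `cSub_iff`).

* `exists_compl`: `zorn_avoid` gives `C ≥ C0` maximal missing `X \ {0}`, then `U ≥ X` maximal
  missing `C \ {0}`.  The projection `π : U ⊔ C → N` onto `U` along `C` is coded (its graph is
  `y ∈ U ∧ x - y ∈ C`); extend it along `(U ⊔ C).subtype` to `h : N → N`.  `ker h = C` by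
  maximality of `C`.  If `0 ≠ h w ∈ C` then `w ∉ C`, so `C ⊔ span {w}` meets `X`:
  `c + r w = x ≠ 0`, and `r • h w = x ∈ C ⊓ X`, absurd.  So `range h = U` by maximality of `U`,
  `h` is idempotent, and `U, C` are complementary.  For `0 ≠ u ∈ U`, `C ⊔ span {u}` meets `X`.
* `pt_unif`: otherwise `span {x}` and `span {y}` are disjoint; `exists_compl` contradicts `Indec`.
* `injM_summand`: compose with the inclusion and the coded projection.
* `pt_iso`: `f : span {s} → N'`, `r • s ↦ r • s'` is well defined and coded; extend to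
  `h : N → N'`.  It is injective by `pt_unif` (`span {s}` is simple).  Extend the identity of `N`
  along `h` to `g : N' → N`; `range h` and `ker g` are complementary, so `ker g = ⊥`.
* `pt_not_iso`: for an isomorphism `h`, `pt_unif` gives `r • h s1 = r' • s2 ≠ 0`; by maximality
  of `L1'`, `h s1 = b • s2`; `Perp` gives `l ∈ L1` with `b - l b ∈ L2`, so `h s1 = 0`.
* `max_ext`: `zorn_avoid` with `T0 = {1}`; compare with `L' ⊔ span {b}`.
-/

namespace Pool.Agent.Work.MP_c4093f_al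
open Pool.Agent.Lib.ZFModel

set_option synthInstance.maxSize 100000

variable {M : Type 1} {E : M → M → Prop} [hE : Fact (IsZFC E)]
variable {S : Type} [Ring S] [CT E S]

section inst
variable {N N' : Type} [AddCommGroup N] [Module S N] [CT E N] [AddCommGroup N'] [Module S N']
  [CT E N']

omit [CT E S] in
instance CM.bot : CM E (T := N) (⊥ : Submodule S N) :=
  ⟨(inferInstance : CS E fun t : N => t = 0).congr fun _ => Submodule.mem_bot S⟩

omit [CT E S] in
instance CM.sup [CAdd E N] (U V : Submodule S N) [CM E (T := N) U] [CM E (T := N) V] :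
    CM E (T := N) (U ⊔ V) :=
  ⟨(inferInstance : CS E fun t : N => ∃ u ∈ U, ∃ v ∈ V, u + v = t).congr fun _ =>
    Submodule.mem_sup⟩

instance CM.span [CSm E S N] (x : N) : CM E (T := N) (Submodule.span S {x}) :=
  ⟨(inferInstance : CS E fun t : N => ∃ r : S, r • x = t).congr fun _ =>
    Submodule.mem_span_singleton⟩

omit [CT E S] in
instance CM.ker (f : N →ₗ[S] N') [CG E f] : CM E (T := N) (LinearMap.ker f) :=
  ⟨(inferInstance : CS E fun t : N => f t = 0)⟩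

omit [CT E S] in
instance CM.range (f : N →ₗ[S] N') [CG E f] : CM E (T := N') (LinearMap.range f) :=
  ⟨(inferInstance : CS E fun t : N' => ∃ x, f x = t)⟩

end inst

/-- injective in `M` -/
def InjM (N : MMod E (CT.code E : S → M)) : Prop :=
  ∀ (B C : MMod E (CT.code E : S → M)) (i : B.N →ₗ[S] C.N) (f : B.N →ₗ[S] N.N),
    CG E i → Function.Injective i → CG E f → ∃ g : C.N →ₗ[S] N.N, CG E g ∧ g ∘ₗ i = f

theorem pinj_iff (hP : PI S) (lv : Lv S) {N : MMod E (CT.code E : S → M)} : PInj N ↔ InjM N :=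
  ⟨fun h B C i f hi hj hf => by
      obtain ⟨g, h1, h2⟩ := h B C i f (cMap_iff.2 hi.out) (pure_of_inj hP lv hj) (cMap_iff.2 hf.out)
      exact ⟨g, ⟨cMap_iff.1 h1⟩, h2⟩,
    fun h B C i f hi hj hf => by
      obtain ⟨g, h1, h2⟩ := h B C i f ⟨cMap_iff.1 hi⟩ hj.1 ⟨cMap_iff.1 hf⟩
      exact ⟨g, cMap_iff.2 h1.out, h2⟩⟩

section aux
variable {B C : Type} [AddCommGroup B] [Module S B] [CT E B] [CAdd E B] [CSm E S B]
  [AddCommGroup C] [Module S C] [CT E C] [CAdd E C] [CSm E S C]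

theorem MHull1_ext {N : MMod E (CT.code E : S → M)} (hN : InjM N) (i : B →ₗ[S] C)
    (f : B →ₗ[S] N.N) (h1 : CG E i) (h2 : CG E f) (hi : Function.Injective i) :
    ∃ g : C →ₗ[S] N.N, CG E g ∧ ∀ x, g (i x) = f x := by
  obtain ⟨g, h3, h4⟩ := hN (MMod.of E S B) (MMod.of E S C) i f h1 hi h2
  exact ⟨g, h3, fun x => LinearMap.congr_fun h4 x⟩

/-- a coded functional submodule of the product lies in the graph of a coded linear map -/
theorem MHull1_graph {N : MMod E (CT.code E : S → M)} (hN : InjM N) (Γ : Submodule S (C × N.N))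
    [CM E (T := C × N.N) Γ] (hΓ : ∀ y, ((0 : C), y) ∈ Γ → y = 0) :
    ∃ g : C →ₗ[S] N.N, CG E g ∧ ∀ x y, (x, y) ∈ Γ → g x = y := by
  obtain ⟨g, h1, h2⟩ := MHull1_ext hN ((LinearMap.fst S C N.N) ∘ₗ Γ.subtype)
    ((LinearMap.snd S C N.N) ∘ₗ Γ.subtype) ⟨(inferInstance : CF E fun t : Γ => t.1.1)⟩
    ⟨(inferInstance : CF E fun t : Γ => t.1.2)⟩ (by
      refine (injective_iff_map_eq_zero _).2 ?_
      rintro ⟨⟨x, y⟩, h⟩ (rfl : x = 0)
      obtain rfl := hΓ y h
      rfl)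
  exact ⟨g, h1, fun x y h => h2 ⟨(x, y), h⟩⟩

theorem MHull1_max (X C0 : Submodule S B) [hX : CM E (T := B) X] [CM E (T := B) C0]
    (h : Disjoint X C0) : ∃ C : Submodule S B, CM E (T := B) C ∧ C0 ≤ C ∧ Disjoint X C ∧
      (∀ V : Submodule S B, CM E (T := B) V → C ≤ V → Disjoint X V → V = C) ∧
      ∀ w ∉ C, ∃ c ∈ C, ∃ r : S, c + r • w ∈ X ∧ c + r • w ≠ 0 := by
  have := hX.out
  have : CM E (T := B) {x : B | x ∈ X ∧ x ≠ 0} :=
    ⟨(inferInstance : CS E fun x : B => x ∈ X ∧ x ≠ 0)⟩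
  have e : ∀ V : Submodule S B, (∀ x ∈ {x : B | x ∈ X ∧ x ≠ 0}, x ∉ V) ↔ Disjoint X V :=
    fun V => by
      rw [Submodule.disjoint_def]
      exact ⟨fun h x hx hv => by_contra fun h0 => h x ⟨hx, h0⟩ hv,
        fun h x hx hv => hx.2 (h x hx.1 hv)⟩
  obtain ⟨C, h1, h2, h3, h4⟩ := zorn_avoid (E := E) {x : B | x ∈ X ∧ x ≠ 0} C0 ((e _).2 h)
  refine ⟨C, h1, h2, (e _).1 h3, fun V h5 h6 h7 => h4 V h5 h6 ((e _).2 h7), fun w hw => ?_⟩
  by_contra h5
  refine hw ?_
  rw [← h4 (C ⊔ Submodule.span S {w}) inferInstance le_sup_left ?_]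
  · exact Submodule.mem_sup_right (Submodule.mem_span_singleton_self w)
  · intro x hx hx'
    obtain ⟨c, hc, v, hv, rfl⟩ := Submodule.mem_sup.1 hx'
    obtain ⟨r, rfl⟩ := Submodule.mem_span_singleton.1 hv
    exact h5 ⟨c, hc, r, hx.1, hx.2⟩

end aux

theorem exists_compl {N : MMod E (CT.code E : S → M)} (hN : InjM N) (X C0 : Submodule S N.N)
    [CM E (T := N.N) X] [CM E (T := N.N) C0] (h : Disjoint X C0) :
    ∃ U C : Submodule S N.N, CM E (T := N.N) U ∧ CM E (T := N.N) C ∧ X ≤ U ∧ C0 ≤ C ∧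
      IsCompl U C ∧ ∀ u ∈ U, u ≠ 0 → ∃ r : S, r • u ∈ X ∧ r • u ≠ 0 := by
  obtain ⟨C, hC, h1, h2, h3, h4⟩ := MHull1_max (E := E) X C0 h
  obtain ⟨U, hU, h5, h6, h7, -⟩ := MHull1_max (E := E) C X h2.symm
  have : CM E (T := N.N × N.N) (U.comap (LinearMap.snd S N.N N.N) ⊓
      C.comap (LinearMap.fst S N.N N.N - LinearMap.snd S N.N N.N)) :=
    ⟨(inferInstance : CS E fun p : N.N × N.N => p.2 ∈ U ∧ p.1 - p.2 ∈ C)⟩
  obtain ⟨g, hg, h8⟩ := MHull1_graph hN (U.comap (LinearMap.snd S N.N N.N) ⊓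
      C.comap (LinearMap.fst S N.N N.N - LinearMap.snd S N.N N.N)) fun y hy => by
    have h9 : (0 : N.N) - y ∈ C := hy.2
    rw [zero_sub, neg_mem_iff] at h9
    exact Submodule.disjoint_def.1 h6 y h9 hy.1
  have hgU : ∀ u ∈ U, g u = u := fun u hu =>
    h8 u u ⟨hu, show u - u ∈ C by rw [sub_self]; exact C.zero_mem⟩
  have hgC : ∀ c ∈ C, g c = 0 := fun c hc =>
    h8 c 0 ⟨U.zero_mem, show c - 0 ∈ C by rwa [sub_zero]⟩
  have hker : LinearMap.ker g = C := h3 _ inferInstance hgC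
    (Submodule.disjoint_def.2 fun x hx h0 => (hgU x (h5 hx)).symm.trans h0)
  have hran : LinearMap.range g = U := h7 _ inferInstance (fun u hu => ⟨u, hgU u hu⟩)
    (Submodule.disjoint_def.2 (by
      rintro _ hc ⟨w, rfl⟩
      by_contra h0
      obtain ⟨c, hc', r, h9, h10⟩ := h4 w fun hw => h0 (hgC w hw)
      refine h10 (Submodule.disjoint_def.1 h2 _ h9 ?_)
      rw [← hgU _ (h5 h9), map_add, hgC c hc', zero_add, map_smul]
      exact C.smul_mem r hc))
  refine ⟨U, C, hU, hC, h5, h1, ⟨h6.symm, Submodule.codisjoint_iff_exists_add_eq.2 fun x => ?_⟩,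
    fun u hu h0 => ?_⟩
  · have h9 : g x ∈ U := hran ▸ LinearMap.mem_range_self g x
    refine ⟨g x, x - g x, h9, ?_, add_sub_cancel _ _⟩
    rw [← hker, LinearMap.mem_ker, map_sub, hgU _ h9, sub_self]
  · obtain ⟨c, hc, r, h9, h10⟩ := h4 u fun hc => h0 (Submodule.disjoint_def.1 h6 u hc hu)
    have h11 : c = 0 := Submodule.disjoint_def.1 h6 c hc
      ((U.add_mem_iff_left (U.smul_mem r hu)).1 (h5 h9))
    rw [h11, zero_add] at h9 h10
    exact ⟨r, h9, h10⟩

theorem pt_unif (hP : PI S) (lv : Lv S) (N : Pt E (CT.code E : S → M)) {x y : N.1.N}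
    (hx : x ≠ 0) (hy : y ≠ 0) : ∃ r r' : S, r • x = r' • y ∧ r • x ≠ 0 := by
  by_contra h
  obtain ⟨U, C, hU, hC, h1, h2, h3, -⟩ := exists_compl ((pinj_iff hP lv).1 N.2.1)
    (Submodule.span S {x}) (Submodule.span S {y}) (Submodule.disjoint_def.2 fun z hx hy => by
      obtain ⟨r, rfl⟩ := Submodule.mem_span_singleton.1 hx
      obtain ⟨r', hr⟩ := Submodule.mem_span_singleton.1 hy
      by_contra h0
      exact h ⟨r, r', hr.symm, h0⟩)
  rcases N.2.2.2 U C (cSub_iff.2 hU) (cSub_iff.2 hC) h3 with rfl | rfl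
  · exact hx (h1 (Submodule.mem_span_singleton_self x))
  · exact hy (h2 (Submodule.mem_span_singleton_self y))

theorem injM_summand {N : MMod E (CT.code E : S → M)} (hN : InjM N) (U C : Submodule S N.N)
    [CM E (T := N.N) U] [CM E (T := N.N) C] (h : IsCompl U C) : InjM (MMod.of E S U) := by
  intro B D i f h1 h2 h3
  obtain ⟨g, h4, h5⟩ := hN B D i (U.subtype ∘ₗ f) h1 h2
    ⟨(inferInstance : CF E fun t : B.N => ((f t : U) : N.N))⟩
  have h6 : CG E (U.projectionOnto C h) :=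
    ⟨CF.of_rel (fun (x : N.N) (y : U) => x - y.1 ∈ C) fun x y => by
      constructor
      · rintro rfl
        rw [← Submodule.projectionOnto_apply_eq_zero_iff h, map_sub,
          Submodule.projectionOnto_apply_left, sub_self]
      · intro hx
        rw [← Submodule.projectionOnto_apply_eq_zero_iff h, map_sub,
          Submodule.projectionOnto_apply_left, sub_eq_zero] at hx
        exact hx.symm⟩
  refine ⟨U.projectionOnto C h ∘ₗ g,
    ⟨(inferInstance : CF E fun t : D.N => U.projectionOnto C h (g t))⟩, ?_⟩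
  refine LinearMap.ext fun x => ?_
  have h7 : g (i x) = ((f x : U) : N.N) := LinearMap.congr_fun h5 x
  show U.projectionOnto C h (g (i x)) = f x
  rw [h7, Submodule.projectionOnto_apply_left]

theorem pt_iso (hP : PI S) (lv : Lv S) [CSm E S S] {L : Ideal S} (h1 : (1 : S) ∉ L)
    (hL : ∀ b ∉ L, ∃ d, d * b - 1 ∈ L) (N N' : Pt E (CT.code E : S → M)) (s : N.1.N)
    (s' : N'.1.N) (hs : ∀ r : S, r • s = 0 ↔ r ∈ L) (hs' : ∀ r : S, r • s' = 0 ↔ r ∈ L) :
    Iso N N' := by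
  have h2 : s ≠ 0 := fun h => h1 ((hs 1).1 (by rw [h, smul_zero]))
  have h3 : s' ≠ 0 := fun h => h1 ((hs' 1).1 (by rw [h, smul_zero]))
  obtain ⟨f, hf, h4⟩ := MHull1_graph ((pinj_iff hP lv).1 N'.2.1)
    (Submodule.span S {(s, s')}) fun y hy => by
      obtain ⟨r, hr⟩ := Submodule.mem_span_singleton.1 hy
      obtain ⟨h5, h6⟩ := Prod.ext_iff.1 hr
      exact h6.symm.trans ((hs' r).2 ((hs r).1 h5))
  have h5 : f s = s' := h4 _ _ (Submodule.mem_span_singleton_self _)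
  have h6 : Function.Injective f := (injective_iff_map_eq_zero _).2 fun x hx => by
    by_contra h0
    obtain ⟨r, r', h7, h8⟩ := pt_unif hP lv N h0 h2
    refine h8 (h7.trans ((hs r').2 ((hs' r').1 ?_)))
    rw [← h5, ← map_smul, ← h7, map_smul, hx, smul_zero]
  obtain ⟨g, -, h7⟩ := MHull1_ext ((pinj_iff hP lv).1 N.2.1) f LinearMap.id hf ⟨CF.id⟩ h6
  have h8 : Function.Surjective f := fun y => by
    refine ⟨g y, by_contra fun h0 => ?_⟩
    obtain ⟨r, r', h9, h10⟩ := pt_unif hP lv N' (sub_ne_zero.2 h0) h3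
    refine h10 (h9.trans ((hs' r').2 ((hs r').1 ?_)))
    have h11 := congrArg g h9
    rw [← h5, map_smul, map_smul, map_sub, h7, h7, LinearMap.id_apply, LinearMap.id_apply,
      sub_self, smul_zero] at h11
    exact h11.symm
  exact ⟨LinearEquiv.ofBijective f ⟨h6, h8⟩, cMap_iff.2 hf.out⟩

theorem pt_not_iso (hP : PI S) (lv : Lv S) {L1 L2 L1' L2' : Ideal S} (hL : Perp L1 L2)
    (h1 : L1 ≤ L1') (h2 : L2 ≤ L2') (h3 : (1 : S) ∉ L1') (h4 : (1 : S) ∉ L2')
    (h5 : ∀ b ∉ L1', ∃ d, d * b - 1 ∈ L1') (N N' : Pt E (CT.code E : S → M)) (s : N.1.N)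
    (s' : N'.1.N) (hs : ∀ r : S, r • s = 0 ↔ r ∈ L1') (hs' : ∀ r : S, r • s' = 0 ↔ r ∈ L2') :
    ¬ Iso N N' := by
  rintro ⟨f, -⟩
  have h6 : f s ≠ 0 := fun h => h3 ((hs 1).1 (by rw [f.map_eq_zero_iff.1 h, smul_zero]))
  have h7 : s' ≠ 0 := fun h => h4 ((hs' 1).1 (by rw [h, smul_zero]))
  obtain ⟨r, r', h8, h9⟩ := pt_unif hP lv N' h6 h7
  obtain ⟨d, hd⟩ := h5 r fun h => h9 (by rw [← map_smul, (hs r).2 h, map_zero])
  have h10 : f s = (d * r') • s' := by
    have := (hs _).2 hd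
    rw [sub_smul, one_smul, sub_eq_zero] at this
    rw [mul_smul, ← h8, ← map_smul, ← map_smul, ← mul_smul, this]
  obtain ⟨l, hl, h11⟩ := hL.2.2 (d * r')
  have h12 := (hs' _).2 (h2 h11)
  rw [sub_smul, mul_smul l, ← h10, ← map_smul, (hs l).2 (h1 hl), map_zero, sub_zero] at h12
  exact h6 h12

theorem Iso.symm {N N' : Pt E (CT.code E : S → M)} (h : Iso N N') : Iso N' N := by
  obtain ⟨f, hf⟩ := h
  have : CG E f := ⟨cMap_iff.1 hf⟩
  exact ⟨f.symm, cMap_iff.2 (CF.of_rel (fun (y : N'.1.N) (x : N.1.N) => f x = y)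
    fun y x => f.eq_symm_apply)⟩

theorem Iso.trans {N N' N'' : Pt E (CT.code E : S → M)} (h : Iso N N') (h' : Iso N' N'') :
    Iso N N'' := by
  obtain ⟨f, hf⟩ := h
  obtain ⟨g, hg⟩ := h'
  exact ⟨f.trans g, cMap_iff.2 (CF.comp g f (hg := cMap_iff.1 hg) (hf := cMap_iff.1 hf))⟩

theorem max_ext [CAdd E S] [CSm E S S] (L : Ideal S) [CM E (T := S) L] (h1 : (1 : S) ∉ L) :
    ∃ L' : Ideal S, CM E (T := S) L' ∧ L ≤ L' ∧ (1 : S) ∉ L' ∧ ∀ b ∉ L', ∃ d, d * b - 1 ∈ L' := by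
  have : CM E (T := S) ({1} : Set S) := ⟨(inferInstance : CS E fun x : S => x = 1)⟩
  obtain ⟨L', h2, h3, h4, h5⟩ := zorn_avoid (E := E) ({1} : Set S) L (by rintro _ rfl; exact h1)
  refine ⟨L', h2, h3, h4 1 rfl, fun b hb => ?_⟩
  by_contra h6
  refine hb ?_
  rw [← h5 (L' ⊔ Submodule.span S {b}) inferInstance le_sup_left ?_]
  · exact Submodule.mem_sup_right (Submodule.mem_span_singleton_self b)
  · rintro _ rfl hv
    obtain ⟨c, hc, v, hv, h7⟩ := Submodule.mem_sup.1 hv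
    obtain ⟨r, rfl⟩ := Submodule.mem_span_singleton.1 hv
    refine h6 ⟨r, ?_⟩
    rw [← h7, smul_eq_mul, sub_add_cancel_right]
    exact L'.neg_mem hc

end Pool.Agent.Work.MP_c4093f_al
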