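import Pool.Agent.Work.MP_c4093f_al.MHull1

/-!
Existence of points.  `R0` is a coded division subring of `S`.

* `ext_div`: `zorn_avoid` over the ring `R0` in `B × D` with `T0 = {p | p.1 = 0 ∧ p.2 ≠ 0}` gives a
  maximal graph `G ≥ G0`.  If `b` is not in its domain, `G ⊔ span {(b, 0)}` is still a graph
  (nonzero scalars are invertible).  So `G` is the graph of a linear map, coded by `CF.of_rel`.
* The module `Q`: the `R0`-linear maps `f : S → S` with `CG E f`, with `(s • f) x = f (x * s)`.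
  Make it a type (a structure or subtype), give `AddCommGroup`, `Module S`, and `CT` with the code of
  the graph in `PW E (S × S)` (the set of such graphs is coded by instance search, use
  `cs_iff_coded`).  Evaluation `(f, x) ↦ f x` is coded, and `h : T → Q` is coded as soon as
  `(t, x) ↦ h t x` is (`CF.curry`); hence `CAdd`, `CSm`.
* `Q` is injective: for `i : B → C` injective and `f : B → Q` apply `ext_div` to
  `G0 = {(i b, f b 1)}` in `C × S`, get `g0 : C → S`, and put `g c = fun x => g0 (x • c)`.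
* An element `s0 ∈ Q` with `s0 L = 0`, `s0 1 = 1`: `ext_div` for `G0 = {(l + λ, λ)}`; its
  annihilator is `L`.
* `point_of_max`: `exists_compl` with `X = span {s0}`, `C0 = ⊥`; `U` is injective
  (`injM_summand`, `pinj_iff`), and indecomposable since every nonzero submodule contains `s0`.
-/

namespace Pool.Agent.Work.MP_c4093f_al
open Pool.Agent.Lib.ZFModel

set_option synthInstance.maxSize 100000

variable {M : Type 1} {E : M → M → Prop} [hE : Fact (IsZFC E)]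

theorem MHull2_graph {R B D : Type} [Ring R] [AddCommGroup B] [Module R B] [AddCommGroup D]
    [Module R D] (G : Submodule R (B × D)) (h1 : ∀ b, ∃ d, (b, d) ∈ G)
    (h2 : ∀ d, (0, d) ∈ G → d = 0) : ∃ g : B →ₗ[R] D, ∀ b d, d = g b ↔ (b, d) ∈ G := by
  choose g hg using h1
  have h3 : ∀ b d, (b, d) ∈ G → g b = d := fun b d h =>
    sub_eq_zero.1 (h2 _ (by simpa using G.sub_mem (hg b) h))
  exact ⟨⟨⟨g, fun a b => h3 _ _ (G.add_mem (hg a) (hg b))⟩,
    fun r a => h3 _ _ (G.smul_mem r (hg a))⟩, fun b d => ⟨fun e => e ▸ hg b, fun e => (h3 b d e).symm⟩⟩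

theorem ext_div {R B D : Type} [Ring R] [CT E R] (hR : ∀ x : R, x ≠ 0 → ∃ y, y * x = 1)
    [AddCommGroup B] [Module R B] [CT E B] [CAdd E B] [CSm E R B]
    [AddCommGroup D] [Module R D] [CT E D] [CAdd E D] [CSm E R D]
    (G0 : Submodule R (B × D)) [CM E (T := B × D) G0] (h : ∀ d, (0, d) ∈ G0 → d = 0) :
    ∃ g : B →ₗ[R] D, CG E g ∧ ∀ p ∈ G0, g p.1 = p.2 := by
  have : CM E (T := B × D) {p : B × D | p.1 = 0 ∧ p.2 ≠ 0} :=
    ⟨(inferInstance : CS E fun p : B × D => p.1 = 0 ∧ p.2 ≠ 0)⟩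
  obtain ⟨G, hG, h0, h1, h2⟩ := zorn_avoid (E := E) {p : B × D | p.1 = 0 ∧ p.2 ≠ 0} G0 (by
    rintro ⟨b, d⟩ ⟨rfl : b = 0, h3⟩ h4
    exact h3 (h d h4))
  obtain ⟨g, hg⟩ := MHull2_graph G (fun b => by
    by_contra hb
    have h3 := h2 (G ⊔ Submodule.span R {(b, 0)}) inferInstance le_sup_left (by
      rintro p ⟨h3, h4⟩ h5
      obtain ⟨q, h6, _, h7, rfl⟩ := Submodule.mem_sup.1 h5
      obtain ⟨r, rfl⟩ := Submodule.mem_span_singleton.1 h7
      by_cases hr : r = 0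
      · subst hr
        exact h1 q ⟨by simpa using h3, by simpa using h4⟩ h6
      · obtain ⟨y, hy⟩ := hR r hr
        have h8 : q.1 = -(r • b) := eq_neg_of_add_eq_zero_left h3
        have h9 : (-y) • q.1 = b := by rw [h8, neg_smul_neg, smul_smul, hy, one_smul]
        exact hb ⟨(-y) • q.2, h9 ▸ G.smul_mem (-y) h6⟩)
    exact hb ⟨0, h3 ▸ Submodule.mem_sup_right (Submodule.mem_span_singleton_self _)⟩)
    fun d hd => by_contra fun h3 => h1 (0, d) ⟨rfl, h3⟩ hd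
  exact ⟨g, ⟨CF.of_rel (fun b d => (b, d) ∈ G) hg⟩, fun p hp => ((hg _ _).2 (h0 hp)).symm⟩

variable {S : Type} [Ring S] [CT E S] [CAdd E S] [CSm E S S]

section hull
variable (R0 : Subring S) [CM E (T := S) R0]

instance MHull2_csm {N : Type} [AddCommGroup N] [Module S N] [CT E N] [CSm E S N] : CSm E R0 N :=
  ⟨(inferInstance : CF E fun p : R0 × N => p.1.1 • p.2)⟩

variable (E) in
/-- the coded linear maps -/
def MHull2Q : AddSubgroup (S →ₗ[R0] S) where
  carrier := {f | CG E f}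
  add_mem' := fun {f g} (_ : CG E f) (_ : CG E g) => ⟨(inferInstance : CF E fun t => f t + g t)⟩
  zero_mem' := ⟨(inferInstance : CF E fun _ : S => (0 : S))⟩
  neg_mem' := fun {f} (_ : CG E f) => ⟨(inferInstance : CF E fun t => - f t)⟩

/-- a coded map out of a module gives coded maps out of the ring -/
def MHull2_mk {N : Type} [AddCommGroup N] [Module S N] [CT E N] [CSm E S N] (g : N →ₗ[R0] S)
    (_ : CG E g) (c : N) : MHull2Q E R0 :=
  ⟨g ∘ₗ (LinearMap.toSpanSingleton S N c).restrictScalars R0,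
    ⟨(inferInstance : CF E fun x : S => g (x • c))⟩⟩

instance : SMul S (MHull2Q E R0) := ⟨fun s f => MHull2_mk R0 f.1 f.2 s⟩

omit [CM E (T := S) R0] in
theorem MHull2_smul (s : S) (f : MHull2Q E R0) (x : S) : (s • f).1 x = f.1 (x * s) := rfl

omit [CSm E S S] [CM E (T := S) R0] in
theorem MHull2_ext {f g : MHull2Q E R0} (h : ∀ x, f.1 x = g.1 x) : f = g :=
  Subtype.ext (LinearMap.ext h)

instance : Module S (MHull2Q E R0) := Module.ofMinimalAxioms
  (fun _ _ _ => rfl)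
  (fun r s f => MHull2_ext R0 fun x => by
    change f.1 (x * (r + s)) = f.1 (x * r) + f.1 (x * s)
    rw [mul_add, map_add])
  (fun r s f => MHull2_ext R0 fun x => by simp only [MHull2_smul, mul_assoc])
  fun f => MHull2_ext R0 fun x => by rw [MHull2_smul, mul_one]

/-- the graph -/
def MHull2_gr (f : MHull2Q E R0) : PW E (S × S) := ⟨{p | p.2 = f.1 p.1}, (show CG E f.1 from f.2).out.out⟩

noncomputable instance : CT E (MHull2Q E R0) where
  code f := CT.code E (MHull2_gr R0 f)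
  inj := fun f g h => MHull2_ext R0 fun x => by
    have h1 : (x, f.1 x) ∈ (MHull2_gr R0 f).1 := rfl
    rw [CT.inj h] at h1
    exact h1
  set := by
    have h1 : CS E fun U : PW E (S × S) => ∃ f, MHull2_gr R0 f = U :=
      (inferInstance : CS E fun U : PW E (S × S) => (0 : S × S) ∈ U.1 ∧
        (∀ p q, p ∈ U.1 → q ∈ U.1 → p + q ∈ U.1) ∧ (∀ (r : R0) p, p ∈ U.1 → r • p ∈ U.1) ∧
        (∀ b, ∃ d, (b, d) ∈ U.1) ∧ ∀ d, (0, d) ∈ U.1 → d = 0).congr fun U => ⟨by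
          rintro ⟨f, rfl⟩
          refine ⟨(map_zero f.1).symm, fun p q (hp : _ = _) (hq : _ = _) => ?_,
            fun r p (hp : _ = _) => ?_, fun b => ⟨f.1 b, rfl⟩, fun d hd => hd.trans (map_zero f.1)⟩
          · change p.2 + q.2 = f.1 (p.1 + q.1)
            rw [map_add, hp, hq]
          · change r • p.2 = f.1 (r • p.1)
            rw [map_smul, hp], fun ⟨h1, h2, h3, h4, h5⟩ => by
          obtain ⟨g, hg⟩ := MHull2_graph (R := R0)
            ⟨⟨⟨U.1, fun {p q} => h2 p q⟩, h1⟩, fun r {p} => h3 r p⟩ h4 h5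
          exact ⟨⟨g, ⟨CF.of_rel (fun b d => (b, d) ∈ U.1) hg⟩⟩,
            Subtype.ext (Set.ext fun p => hg p.1 p.2)⟩⟩
    obtain ⟨a, ha⟩ := cs_iff_coded.1 h1
    refine ⟨a, fun x => (ha x).trans ⟨?_, ?_⟩⟩
    · rintro ⟨_, ⟨f, rfl⟩, rfl⟩
      exact ⟨f, rfl⟩
    · rintro ⟨f, rfl⟩
      exact ⟨_, ⟨f, rfl⟩, rfl⟩

theorem MHull2_cgr : CF E (MHull2_gr (E := E) R0) := by
  have := (zf' E).nonempty
  refine ⟨CS.of_dfn (fun q => ∃ x, MP_63c7e0_lc.IsPair E q x x) fun p => ⟨?_, ?_⟩⟩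
  · obtain ⟨s, t⟩ := p
    rintro (rfl : t = MHull2_gr R0 s)
    exact ⟨_, isPair_pr _ _⟩
  · obtain ⟨s, t⟩ := p
    rintro ⟨x, hx⟩
    obtain ⟨h1, h2⟩ := pr_inj.1 (isPair_iff.1 hx)
    exact CT.inj (h2.trans h1.symm)

instance MHull2_ev {T : Type} [CT E T] (f : T → MHull2Q E R0) (x : T → S) [CF E f] [CF E x] :
    CF E fun t => (f t).1 (x t) := by
  have h1 : CF E fun p : T × S => MHull2_gr R0 (f p.1) :=
    CF.comp _ _ (hg := MHull2_cgr R0) (hf := CF.comp f fun p : T × S => p.1)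
  have h2 : CF E fun p : T × S => x p.1 := CF.comp x fun p : T × S => p.1
  exact CF.of_rel (fun t y => (x t, y) ∈ (MHull2_gr R0 (f t)).1) fun _ _ => Iff.rfl

theorem MHull2_cf {T : Type} [CT E T] (f : T → MHull2Q E R0)
    (h : CF E fun p : T × S => (f p.1).1 p.2) : CF E f := by
  have h1 : CF E fun q : (T × MHull2Q E R0) × S => (f q.1.1).1 q.2 :=
    CF.comp _ (fun q : (T × MHull2Q E R0) × S => (q.1.1, q.2)) (hg := h)
  exact CF.of_rel (fun t g => ∀ x, g.1 x = (f t).1 x) fun t g =>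
    ⟨fun e _ => e ▸ rfl, MHull2_ext R0⟩

instance : CAdd E (MHull2Q E R0) := ⟨MHull2_cf R0 _ (inferInstance :
  CF E fun p : (MHull2Q E R0 × MHull2Q E R0) × S => p.1.1.1 p.2 + p.1.2.1 p.2)⟩

instance : CSm E S (MHull2Q E R0) := ⟨MHull2_cf R0 _ (inferInstance :
  CF E fun p : (S × MHull2Q E R0) × S => p.1.2.1 (p.2 * p.1.1))⟩

theorem MHull2_inj (hR : ∀ x : R0, x ≠ 0 → ∃ y, y * x = 1) :
    InjM (MMod.of E S (MHull2Q E R0)) := by
  intro B C i f hi hj hf
  let φ : B.N →ₗ[R0] C.N × S :=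
    { toFun := fun b => (i b, (f b).1 1)
      map_add' := fun a b => by rw [map_add, map_add]; rfl
      map_smul' := fun r b => by
        change (i (r.1 • b), (f (r.1 • b)).1 1) = (r.1 • i b, r • (f b).1 1)
        rw [map_smul i, map_smul f, MHull2_smul, ← map_smul (f b).1, one_mul, Subring.smul_def,
          smul_eq_mul, mul_one] }
  have h1 : CF E fun b : B.N => (f b).1 1 := MHull2_ev R0 (fun b => f b) fun _ => 1
  have : CG E φ := ⟨(inferInstance : CF E fun b : B.N => (i b, (f b).1 1))⟩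
  obtain ⟨g, hg, h2⟩ := ext_div (E := E) hR (LinearMap.range φ) (by
    rintro d ⟨b, hb⟩
    obtain ⟨h2, h3⟩ := Prod.ext_iff.1 hb
    obtain rfl : b = 0 := hj (h2.trans (map_zero i).symm)
    exact h3.symm.trans (congrArg Prod.snd (map_zero φ)))
  refine ⟨⟨⟨MHull2_mk R0 g hg, fun a b => MHull2_ext R0 fun x => ?_⟩,
    fun r a => MHull2_ext R0 fun x => ?_⟩, ⟨MHull2_cf R0 _ (inferInstance :
      CF E fun p : C.N × S => g (p.2 • p.1))⟩, LinearMap.ext fun b => MHull2_ext R0 fun x => ?_⟩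
  · change g (x • (a + b)) = g (x • a) + g (x • b)
    rw [smul_add, map_add]
  · change g (x • r • a) = g ((x * r) • a)
    rw [mul_smul]
  · change g (x • i b) = (f b).1 x
    rw [← map_smul, show g (i (x • b)) = (f (x • b)).1 1 from h2 _ ⟨x • b, rfl⟩, map_smul,
      MHull2_smul, one_mul]

end hull

theorem exists_injM (R0 : Subring S) [CM E (T := S) R0]
    (hR : ∀ x ∈ R0, x ≠ 0 → ∃ y ∈ R0, y * x = 1) (L : Ideal S) [CM E (T := S) L]
    (h1 : (1 : S) ∉ L) (hL : ∀ b ∉ L, ∃ d, d * b - 1 ∈ L) :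
    ∃ Q : MMod E (CT.code E : S → M), InjM Q ∧ ∃ s : Q.N, ∀ r : S, r • s = 0 ↔ r ∈ L := by
  have hR' : ∀ x : R0, x ≠ 0 → ∃ y, y * x = 1 := fun x hx => by
    obtain ⟨y, hy, h⟩ := hR x x.2 fun e => hx (Subtype.ext e)
    exact ⟨⟨y, hy⟩, Subtype.ext h⟩
  let G0 : Submodule R0 (S × S) :=
    { carrier := {p | p.2 ∈ R0 ∧ p.1 - p.2 ∈ L}
      add_mem' := fun {p q} hp hq => ⟨R0.add_mem hp.1 hq.1, by
        simpa only [Prod.fst_add, Prod.snd_add, add_sub_add_comm] using L.add_mem hp.2 hq.2⟩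
      zero_mem' := ⟨R0.zero_mem, by simp⟩
      smul_mem' := fun r p hp => ⟨R0.mul_mem r.2 hp.1, by
        change r.1 * p.1 - r.1 * p.2 ∈ L
        simpa only [mul_sub] using L.mul_mem_left r.1 hp.2⟩ }
  have : CM E (T := S × S) G0 :=
    ⟨(inferInstance : CS E fun p : S × S => p.2 ∈ R0 ∧ p.1 - p.2 ∈ L)⟩
  obtain ⟨g, hg, h2⟩ := ext_div (E := E) hR' G0 fun d hd => by_contra fun h0 => by
    obtain ⟨y, -, hy⟩ := hR d hd.1 h0
    exact h1 (by simpa [hy] using L.mul_mem_left (-y) hd.2)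
  have h3 : ∀ l ∈ L, g l = 0 := fun l hl => h2 (l, 0) ⟨R0.zero_mem, by simpa using hl⟩
  have h4 : g 1 = 1 := h2 (1, 1) ⟨R0.one_mem, by simp⟩
  refine ⟨_, MHull2_inj R0 hR', ⟨g, hg⟩, fun r => ⟨fun h => by_contra fun hr => ?_,
    fun h => MHull2_ext R0 fun x => h3 _ (L.mul_mem_left x h)⟩⟩
  obtain ⟨d, hd⟩ := hL r hr
  have h5 : g (d * r) = 0 := congrArg (fun f : MHull2Q E R0 => f.1 d) h
  have h6 := h3 _ hd
  rw [map_sub, h5, h4, zero_sub, neg_eq_zero] at h6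
  exact h1 (h6 ▸ L.zero_mem)

theorem point_of_max (hP : PI S) (lv : Lv S) (R0 : Subring S) [CM E (T := S) R0]
    (hR : ∀ x ∈ R0, x ≠ 0 → ∃ y ∈ R0, y * x = 1) (L : Ideal S) [CM E (T := S) L]
    (h1 : (1 : S) ∉ L) (hL : ∀ b ∉ L, ∃ d, d * b - 1 ∈ L) :
    ∃ N : Pt E (CT.code E : S → M), ∃ s : N.1.N, ∀ r : S, r • s = 0 ↔ r ∈ L := by
  obtain ⟨Q, hQ, s, hs⟩ := exists_injM (E := E) R0 hR L h1 hL
  obtain ⟨U, C, hU, hC, h2, -, h3, h4⟩ :=
    exists_compl hQ (Submodule.span S {s}) ⊥ disjoint_bot_right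
  have h5 : s ∈ U := h2 (Submodule.mem_span_singleton_self s)
  have h6 : (⟨s, h5⟩ : U) ≠ 0 := fun e =>
    h1 ((hs 1).1 ((one_smul S s).trans (congrArg Subtype.val e)))
  have h7 : ∀ V : Submodule S U, V ≠ ⊥ → (⟨s, h5⟩ : U) ∈ V := fun V hV => by
    obtain ⟨u, hu, h0⟩ := V.exists_mem_ne_zero_of_ne_bot hV
    obtain ⟨r, h8, h9⟩ := h4 u u.2 fun e => h0 (Subtype.ext e)
    obtain ⟨a, ha⟩ := Submodule.mem_span_singleton.1 h8
    obtain ⟨d, hd⟩ := hL a fun e => h9 (ha ▸ (hs a).2 e)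
    have h10 := (hs _).2 hd
    rw [sub_smul, one_smul, mul_smul, ha, sub_eq_zero] at h10
    exact (Subtype.ext h10 : d • r • u = ⟨s, h5⟩) ▸ V.smul_mem d (V.smul_mem r hu)
  refine ⟨⟨MMod.of E S U, (pinj_iff hP lv).2 (injM_summand hQ U C h3), ⟨_, _, h6⟩,
    fun V W _ _ h => by_contra fun h0 => h6 ?_⟩, ⟨s, h5⟩,
    fun r => Subtype.ext_iff.trans (hs r)⟩
  exact (Submodule.disjoint_def.1 h.disjoint) _ (h7 V fun e => h0 (Or.inl e))
    (h7 W fun e => h0 (Or.inr e))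

end Pool.Agent.Work.MP_c4093f_al
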