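import Pool.Agent.Work.MP_c4093f_al.PolyInd
import Pool.Agent.Work.MP_c4093f_al.Sub

/-!
The state of the construction that destroys uniformity, and the two tasks that use it.

* `MUInv.lmove`: new data `w b + ν b * δ0`, `ν b * π`, same `Y`.
* `mu_b`: `poly_ind` on `F`.  Constants: `σ = id`, and either `InK.const` or `N = 1`, `G = 1`.
  Step with `p ∈ K'`: same `σ` as for `F'` (all `a ^ l * p ∈ K'`).  Step with `p ∉ K'`:
  `frspan` gives `x (Dd δ0) c = 1`, `x (g i) c = 0`.  Let `h` run through the `g i` and `Dd δ0`.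
  For each side choose `b ε` with `Y (b ε) ≠ 0` and `s ε * Y (b ε) * t ε = 1`.  Shrink `c` on the
  right by left invertible factors: with `sm` get `u ε * u' ε = 1` and
  `u ε * s ε * h * c * ω = 0` (both sides), with `ess` get `C b * h * c' ∈ K` for
  `C b = w b + ν b * δ0`, `c' = c * θ`, `θ' θ = 1`.  Put `y0 = θ' x`.  `PI.dirR` in the right ideal
  `{e | ∀ b, C b * e ∈ K} ⊓ {e | ∀ ε, u ε * s ε * e = 0}` gives `e` with `e * (h * c') = h * c'`.
  `sub` for `y = p` gives `N`, `cc l`.  With a Leavitt family `xs l, ys l` and `β ∈ {0, 1}` put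
  `σ ρ = δ0 + β * ys 0 * y0 + ∑ l, cc l * y2 * ρ * (ys l * y0) + y1 * ρ * (1 - e)`,
  `G l = c' * xs l`.  Then `F (σ ρ) * G l = F δ0 * G l + p * ((if l = 0 then β else 0) + cc l y2 ρ)`,
  so `∑ a^l F (σ ρ) G l = z0 + p β + (∑ a^l p cc l) y2 ρ`; choose `β` with `z0 + p β ∉ K'`.
  New state on `ι × Option (Fin (N + 1))`: at `(b, none)` take `w = C b`, `ν b * y1`,
  `(1 - e) * Y b`; at `(b, some l)` take `w = if l = 0 then ν b * β else 0`, `ν b * cc l * y2`,
  `ys l * y0 * Y b`.  The error terms are `C b * e * Y b`.  Independence: multiply by `x1`, `x2`.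
  `(1 - e) * Y (b ε) ≠ 0` since `u s (1 - e) Y t = u`.
* `mu_t6`: take `g ∈ K` idempotent fixing `κ` and the two elements of `K` that come from `InK`.
  The `(1 - g) * ν b` are linearly independent; `fr` gives `x (1 - g) ν b c l = δ`, `sh` gives
  `u x (1 - g) ν b π = 0`.  Put `ξ = u x (1 - g)`, `δ0 = ∑ c l u' (xs l - ξ w l)`, so
  `ξ (w b + ν b (δ0 + π ρ)) = xs b`.  `Z ρ = ∑ b on side true, (w b + ν b (δ0 + π ρ)) * ys b * ξ`,
  `y = ξ`, `a ε = ∑ b on side ε, xs b * Y b`.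
-/

namespace Pool.Agent.Work.MP_c4093f_al

variable {k A : Type} [Field k] [Ring A] [Algebra k A]

variable (k) in
/-- the two generic elements have independent linear parts modulo `K` -/
def MUInv (K : RI A) (X : Bool → A → A) : Prop :=
  ∃ (ι : Type) (_ : Fintype ι) (side : ι → Bool) (w ν Y : ι → A), IndK k K ν ∧
    (∀ ε, ∃ b, side b = ε ∧ Y b ≠ 0) ∧
    ∀ ε, InK K (fun ρ => X ε ρ - ∑ b, if side b = ε then (w b + ν b * ρ) * Y b else 0)

theorem MUInv.lmove {K : RI A} {X : Bool → A → A} (h : MUInv k K X) :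
    ∃ (ι : Type) (_ : Fintype ι) (ν : ι → A), IndK k K ν ∧
      ∀ δ0 π, IndK k K (fun i => ν i * π) → MUInv k K (fun ε ρ => X ε (δ0 + π * ρ)) := by
    obtain ⟨ι, hι, side, w, ν, Y, hν, hY, hX⟩ := h
    refine ⟨ι, hι, ν, hν, fun δ0 π hπ => ⟨ι, hι, side, fun b => w b + ν b * δ0, fun b => ν b * π, Y,
      hπ, hY, fun ε => ((hX ε).comp fun ρ => δ0 + π * ρ).congr fun ρ => ?_⟩⟩
    simp only [mul_add, add_assoc, mul_assoc]

theorem MU2_ind (lv : Lv A) {K : RI A} {ι κ : Type} [Fintype ι] [Fintype κ] {ν : ι → A}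
    {cc : κ → A} (hν : IndK k K ν) (hcc : IndK k K fun bl : ι × κ => ν bl.1 * cc bl.2) :
    IndK k K fun bo : ι × Option κ =>
      bo.2.elim (ν bo.1 * lv.y1) fun l => ν bo.1 * cc l * lv.y2 := by
  intro l hl
  have h1 := rmul K hl lv.x1
  have h2 := rmul K hl lv.x2
  simp only [Fintype.sum_prod_type, Fintype.sum_option, Option.elim_none, Option.elim_some,
    Finset.sum_mul, add_mul, smul_mul_assoc, mul_assoc, lv.h11, lv.h12, lv.h21, lv.h22, mul_one,
    mul_zero, smul_zero, Finset.sum_const_zero, add_zero, zero_add] at h1 h2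
  have h3 := hν _ h1
  have h4 := hcc (fun bl => l (bl.1, some bl.2)) (by rwa [Fintype.sum_prod_type])
  funext ⟨b, o⟩
  cases o with
  | none => exact congrFun h3 b
  | some j => exact congrFun h4 (b, j)

theorem MU2_move (hP : PI A) (lv : Lv A) {K : RI A} {X : Bool → A → A} {ι : Type} [Fintype ι]
    {side : ι → Bool} {w ν Y : ι → A} (hν : IndK k K ν)
    (hX : ∀ ε, InK K fun ρ => X ε ρ - ∑ b, if side b = ε then (w b + ν b * ρ) * Y b else 0)
    {N : ℕ} {cc : Fin (N + 1) → A} (r : Fin (N + 1) → A) {δ0 e : A} (β : A)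
    (hcc : IndK k K fun bl : ι × Fin (N + 1) => ν bl.1 * cc bl.2)
    (he : ∀ b, (w b + ν b * δ0) * e ∈ K) (hY : ∀ ε, ∃ b, side b = ε ∧ (1 - e) * Y b ≠ 0) :
    MUInv k K fun ε ρ =>
      X ε (δ0 + (β * r 0 + ∑ l, cc l * lv.y2 * ρ * r l + lv.y1 * ρ * (1 - e))) := by
  refine ⟨ι × Option (Fin (N + 1)), inferInstance, fun bo => side bo.1,
    fun bo => bo.2.elim (w bo.1 + ν bo.1 * δ0) fun l => if l = 0 then ν bo.1 * β else 0, _,
    fun bo => bo.2.elim ((1 - e) * Y bo.1) fun l => r l * Y bo.1, MU2_ind lv hν hcc,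
    fun ε => ?_, fun ε => ?_⟩
  · obtain ⟨b, h1, h2⟩ := hY ε
    exact ⟨(b, none), h1, h2⟩
  have h1 : (∑ b, if side b = ε then (w b + ν b * δ0) * e * Y b else 0) ∈ K :=
    K.sum_mem fun b _ => by
      split_ifs
      exacts [rmul K (he b) _, K.zero_mem]
  refine (((hX ε).comp fun ρ => δ0 + (β * r 0 + ∑ l, cc l * lv.y2 * ρ * r l +
    lv.y1 * ρ * (1 - e))).add hP (InK.const hP h1)).congr fun ρ => ?_
  rw [sub_add, ← Finset.sum_sub_distrib, Fintype.sum_prod_type]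
  congr 1
  refine Finset.sum_congr rfl fun b _ => ?_
  by_cases hb : side b = ε
  · simp only [hb, if_true, Fintype.sum_option, Option.elim_none, Option.elim_some, add_mul,
      Finset.sum_add_distrib, ite_mul, zero_mul, Finset.sum_ite_eq', Finset.mem_univ, mul_add,
      Finset.mul_sum, Finset.sum_mul, mul_assoc, sub_mul, one_mul, mul_sub]
    abel
  · simp [hb]

theorem MU2_pow {K : RI A} {a p : A} (ha : ∀ x ∈ K, a * x ∈ K) (hp : p ∈ K) (n : ℕ) :
    a ^ n * p ∈ K := by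
  induction n with
  | zero => simpa using hp
  | succ n ih => rw [pow_succ', mul_assoc]; exact ha _ ih

theorem MU2_shrink [Nontrivial A] (hP : PI A) (lv : Lv A) {K : RI A} (hU : Unif K) {ι κ : Type}
    [Finite ι] [Finite κ] (C : ι → A) (h : κ → A) (c : A) {Y : Bool → A} (hY : ∀ ε, Y ε ≠ 0) :
    ∃ θ θ' e, θ' * θ = 1 ∧ (∀ b, C b * e ∈ K) ∧ (∀ ε, (1 - e) * Y ε ≠ 0) ∧
      ∀ o, (1 - e) * (h o * (c * θ)) = 0 := by
  choose s t hst using fun ε => hP.one (hY ε)
  obtain ⟨u, u', ω, ω', hu, hω, h1⟩ := sm hP lv fun z : Bool × κ => s z.1 * h z.2 * c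
  obtain ⟨θ, θ', hθ, h2⟩ := ess hP lv hU fun z : ι × κ => C z.1 * h z.2 * c * ω
  obtain ⟨e, he, -, h3⟩ := hP.dirR ((⨅ b, lq K (C b)) ⊓ ⨅ ε, lq ⊥ (u * s ε))
    (fun o => h o * (c * (ω * θ))) fun o => by
      refine ⟨(Submodule.mem_iInf _).2 fun b => ?_, (Submodule.mem_iInf _).2 fun ε => ?_⟩
      · simpa only [mem_lq, mul_assoc] using h2 (b, o)
      · have h4 := congrArg (· * θ) (h1 (ε, o))
        simpa only [mem_lq, mul_assoc, zero_mul, Submodule.mem_bot] using h4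
  refine ⟨ω * θ, θ' * ω', e, ?_, fun b => (Submodule.mem_iInf _).1 he.1 b, fun ε h0 => ?_,
    fun o => by rw [sub_mul, one_mul, h3, sub_self]⟩
  · rw [mul_assoc, ← mul_assoc ω', hω, one_mul, hθ]
  · have h4 : u * s ε * e = 0 := (Submodule.mem_iInf _).1 he.2 ε
    have h5 : u * s ε * ((1 - e) * Y ε) * t ε * u' = 1 := by
      rw [← mul_assoc, mul_sub, mul_one, h4, sub_zero, mul_assoc u, mul_assoc u, hst, mul_one, hu]
    rw [h0, mul_zero, zero_mul, zero_mul] at h5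
    exact zero_ne_one h5

theorem mu_b [IsAlgClosed k] [Nontrivial A] (hP : PI A) (lv : Lv A) (hC : Cen k A) {K : RI A}
    (hU : Unif K) {X : Bool → A → A} (hX : MUInv k K X) {K' : RI A} {a : A} (hB : BPin k K' a)
    {F : A → A} (hF : F ∈ FnU A) :
    ∃ σ : A → A, Deg (XU A) 1 σ ∧ MUInv k K (fun ε ρ => X ε (σ ρ)) ∧
      (InK K' (fun ρ => F (σ ρ)) ∨ ∃ (N : ℕ) (G : Fin N → A), ∃ z ∉ K',
        InK K' (fun ρ => ∑ l : Fin N, a ^ (l : ℕ) * F (σ ρ) * G l - z)) := by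
    refine poly_ind hP lv hC (fun F => ∃ σ : A → A, Deg (XU A) 1 σ ∧
      MUInv k K (fun ε ρ => X ε (σ ρ)) ∧ (InK K' (fun ρ => F (σ ρ)) ∨ ∃ (N : ℕ) (G : Fin N → A),
        ∃ z ∉ K', InK K' (fun ρ => ∑ l : Fin N, a ^ (l : ℕ) * F (σ ρ) * G l - z))) (fun z => ?_)
      (fun F' p Dd δ0 m g _ _ hd hs ih => ?_) F hF
    · refine ⟨fun ρ => ρ, Deg.var (X := XU A) (), hX, ?_⟩
      by_cases hz : z ∈ K'
      · exact Or.inl (InK.const hP hz)
      · exact Or.inr ⟨1, fun _ => 1, z, hz, (InK.zero K').congr fun ρ => by simp⟩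
    by_cases hp : p ∈ K'
    · obtain ⟨σ, h1, h2, h3⟩ := ih
      refine ⟨σ, h1, h2, h3.imp (fun h4 => ?_) fun ⟨N, G, z, hz, h4⟩ => ⟨N, G, z, hz, ?_⟩⟩
      · exact (h4.add hP (InK.const_mul hP hp fun ρ => σ ρ * Dd (σ ρ))).congr fun ρ => by
          simp only [mul_assoc]
      · refine (h4.add hP (InK.sum hP Finset.univ fun (l : Fin N) _ => InK.const_mul hP
          (MU2_pow hB.2.1 hp l) fun ρ => σ ρ * Dd (σ ρ) * G l)).congr fun ρ => ?_
        simp only [mul_add, add_mul, Finset.sum_add_distrib, mul_assoc]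
        abel
    obtain ⟨x, c, hx1, hx0⟩ := frspan hP lv hC g hd
    obtain ⟨ι, hι, side, w, ν, Y, hν, hY, hX⟩ := hX
    choose b hb hb' using hY
    obtain ⟨θ, θ', e, hθ, he, heY, h0⟩ := MU2_shrink hP lv hU (fun b => w b + ν b * δ0)
      (fun o : Option (Fin m) => o.elim (Dd δ0) g) c hb'
    obtain ⟨N, cc, hcc, hcc'⟩ := sub lv hB hp hν
    obtain ⟨xs, ys, hxy⟩ := lv.fam (Fin (N + 1))
    obtain ⟨β, hβ⟩ : ∃ β, ∑ l : Fin (N + 1), a ^ (l : ℕ) * ((F' δ0 + p * δ0 * Dd δ0) *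
        (c * θ * xs l)) + p * β ∉ K' := by
      by_contra h1
      have h2 := K'.sub_mem (not_not.1 (not_exists.1 h1 1)) (not_not.1 (not_exists.1 h1 0))
      exact hp (by simpa using h2)
    have key : ∀ (v d : A), x * v * c = d → (1 - e) * (v * (c * θ)) = 0 → ∀ ρ l,
        (β * (ys 0 * (θ' * x)) + ∑ l, cc l * lv.y2 * ρ * (ys l * (θ' * x)) + lv.y1 * ρ * (1 - e)) *
          v * (c * θ * xs l) = β * (ys 0 * (θ' * d * θ) * xs l) +
            ∑ j, cc j * lv.y2 * ρ * (ys j * (θ' * d * θ) * xs l) := by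
      intro v d h1 h2 ρ l
      have h3 : lv.y1 * ρ * (1 - e) * v * (c * θ * xs l) = 0 := by
        have := congrArg (fun t => lv.y1 * ρ * t * xs l) h2
        simpa only [mul_assoc, mul_zero, zero_mul] using this
      rw [add_mul, add_mul, h3, add_zero, ← h1]
      simp only [add_mul, Finset.sum_mul, mul_assoc]
    refine ⟨fun ρ => δ0 + (β * (ys 0 * (θ' * x)) + ∑ l, cc l * lv.y2 * ρ * (ys l * (θ' * x)) +
      lv.y1 * ρ * (1 - e)), ?_, MU2_move hP lv hν hX (fun l => ys l * (θ' * x)) β hcc' he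
        fun ε => ⟨b ε, hb ε, heY ε⟩, Or.inr ⟨N + 1, fun l => c * θ * xs l, _, hβ, ?_⟩⟩
    · exact (Deg.const 1 δ0).add ((Deg.pencil (X := XU A) Finset.univ _ (fun l => cc l * lv.y2)
        (fun _ => ()) fun l => ys l * (θ' * x)).add
          (((Deg.var (X := XU A) ()).lmul lv.y1).rmul (1 - e)))
    · refine (InK.const_mul hP hcc fun ρ => lv.y2 * ρ).congr fun ρ => ?_
      have h1 := fun l => hs _ (c * θ * xs l) fun i => (key (g i) 0 (hx0 i) (h0 (some i)) ρ l).trans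
        (by simp)
      have h2 := fun l => key (Dd δ0) 1 hx1 (h0 none) ρ l
      simp only [mul_one, hθ, hxy, mul_ite, mul_zero, Finset.sum_ite_eq', Finset.mem_univ,
        if_true] at h2
      simp only [mul_assoc (a ^ _), h1]
      simp only [mul_assoc p, h2]
      simp only [mul_add, Finset.sum_add_distrib, mul_ite, mul_zero, Finset.sum_ite_eq,
        Finset.mem_univ, if_true, Fin.val_zero, pow_zero, one_mul, Finset.sum_mul, mul_assoc]
      abel

theorem mu_t6 [Nontrivial A] (hP : PI A) (lv : Lv A) (hC : Cen k A) {K : RI A}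
    {X : Bool → A → A} (hX : MUInv k K X) {κ : A} (hκ : κ ∈ K) :
    ∃ δ0 π, MUInv k K (fun ε ρ => X ε (δ0 + π * ρ)) ∧
      (∃ Z ∈ FnU A, (∀ ρ, Z ρ * κ = 0) ∧ (∀ ρ, Z ρ * X false (δ0 + π * ρ) = 0) ∧
        InK K (fun ρ => X true (δ0 + π * ρ) - Z ρ * X true (δ0 + π * ρ))) ∧
      ∃ y, ∃ a : Bool → A, y * κ = 0 ∧ ∀ ε, a ε ≠ 0 ∧ ∀ ρ, y * X ε (δ0 + π * ρ) = a ε := by
    classical
    obtain ⟨ι, hι, side, w, ν, Y, hν, hY, hX⟩ := hX
    choose γ hγ hγ' using id hX
    obtain ⟨g, hg, -, h1⟩ := hP.dirR K (fun o : Option Bool => o.elim κ γ) (by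
      rintro (_ | ε)
      exacts [hκ, hγ ε])
    have h2 : LinearIndependent k fun b => (1 - g) * ν b := by
      refine Fintype.linearIndependent_iff.2 fun l hl b => congrFun (hν l ?_) b
      simp only [← mul_smul_comm, ← Finset.mul_sum] at hl
      rw [sub_mul, one_mul, sub_eq_zero] at hl
      rw [hl]
      exact rmul K hg _
    obtain ⟨x, -, c, -, hx⟩ := fr hP lv hC h2
    obtain ⟨u, u', π, hu, h3, hπ⟩ := sh hP lv hν fun b => x * ((1 - g) * ν b)
    obtain ⟨xs, ys, hxy⟩ := lv.fam ι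
    obtain ⟨ξ, hξ⟩ : ∃ ξ, ξ = u * (x * (1 - g)) := ⟨_, rfl⟩
    obtain ⟨δ0, hδ⟩ : ∃ δ0, δ0 = ∑ l, c l * (u' * (xs l - ξ * w l)) := ⟨_, rfl⟩
    have h4 : ∀ b ρ, ξ * (w b + ν b * (δ0 + π * ρ)) = xs b := by
      intro b ρ
      have e1 : ξ * ν b = u * (x * ((1 - g) * ν b)) := by simp only [hξ, mul_assoc]
      have e2 : x * ((1 - g) * ν b) * δ0 = u' * (xs b - ξ * w b) := by
        simp only [hδ, Finset.mul_sum, ← mul_assoc _ (c _), hx, ite_mul, one_mul, zero_mul,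
          Finset.sum_ite_eq, Finset.mem_univ, if_true]
      rw [mul_add, ← mul_assoc, e1, mul_add, ← mul_assoc _ π, h3, zero_mul, add_zero, mul_assoc, e2,
        ← mul_assoc, hu, one_mul, add_sub_cancel]
    have h5 : ∀ v, g * v = v → ξ * v = 0 := fun v hv => by
      rw [hξ, mul_assoc, mul_assoc, sub_mul, one_mul, hv, sub_self, mul_zero, mul_zero]
    have h6 : ∀ ε ρ, ξ * X ε (δ0 + π * ρ) = ∑ b, if side b = ε then xs b * Y b else 0 := by
      intro ε ρ
      have e1 : ξ * γ ε = 0 := h5 _ (h1 (some ε))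
      have e2 := congrArg (ξ * ·) (hγ' ε (δ0 + π * ρ))
      simp only [← mul_assoc, e1, zero_mul] at e2
      rw [mul_sub, eq_comm, sub_eq_zero] at e2
      simp only [e2, Finset.mul_sum, mul_ite, mul_zero, ← mul_assoc, h4]
    have h7 : ∀ ε b, ys b * (∑ b, if side b = ε then xs b * Y b else 0) =
        if side b = ε then Y b else 0 := by
      intro ε b
      rw [Finset.mul_sum, Finset.sum_eq_single b]
      · rw [mul_ite, ← mul_assoc, hxy, if_pos rfl, one_mul, mul_zero]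
      · intro j _ hj
        rw [mul_ite, ← mul_assoc, hxy, if_neg hj.symm, zero_mul, mul_zero, ite_self]
      · exact fun h => absurd (Finset.mem_univ b) h
    have h8 : ∀ ε ρ, (∑ b, (w b + ν b * (δ0 + π * ρ)) * if side b = true then ys b * ξ else 0) *
        X ε (δ0 + π * ρ) = ∑ b, if side b = true then (w b + ν b * (δ0 + π * ρ)) *
          if side b = ε then Y b else 0 else 0 := by
      intro ε ρ
      simp only [Finset.sum_mul, mul_ite _ (w _ + _) (ys _ * ξ), ite_mul, mul_zero, zero_mul,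
        mul_assoc, h6, h7]
    refine ⟨δ0, π, ⟨ι, hι, side, fun b => w b + ν b * δ0, fun b => ν b * π, Y, hπ, hY, fun ε =>
      ((hX ε).comp fun ρ => δ0 + π * ρ).congr fun ρ => by simp only [mul_add, add_assoc, mul_assoc]⟩,
      ⟨fun ρ => ∑ b, (w b + ν b * (δ0 + π * ρ)) * if side b = true then ys b * ξ else 0,
        (Deg.sum _ fun b _ => ((Deg.const 1 (w b)).add ((deg_L δ0 π).lmul (ν b))).rmul _).mem,
        fun ρ => ?_, fun ρ => ?_, ((hX true).comp fun ρ => δ0 + π * ρ).congr fun ρ => ?_⟩,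
      ξ, _, h5 κ (h1 none), fun ε => ⟨fun h0 => ?_, h6 ε⟩⟩
    · have e1 : ξ * κ = 0 := h5 κ (h1 none)
      simp only [Finset.sum_mul, mul_assoc, ite_mul, e1, mul_zero, zero_mul, ite_self,
        Finset.sum_const_zero]
    · rw [h8]
      refine Finset.sum_eq_zero fun b _ => ?_
      cases side b <;> simp
    · rw [h8]
      congr 1
      refine Finset.sum_congr rfl fun b _ => ?_
      cases side b <;> simp
    · obtain ⟨b, hb, hb'⟩ := hY ε
      have e1 := h7 ε b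
      rw [h0, mul_zero, if_pos hb] at e1
      exact hb' e1.symm

end Pool.Agent.Work.MP_c4093f_al
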