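import Pool.Agent.Work.MP_c4093f_al.MU1
import Pool.Agent.Work.MP_c4093f_al.MU2
import Pool.Agent.Work.MP_c4093f_al.Ext
import Pool.Agent.Work.MP_c4093f_al.Engine

/-!
The extension that makes `A / K` non uniform.

Apply `engine` with `D = A`, `S = FnU A` (`countable_Fn`),
`Inv τ = MUInv k K (fun ε ρ => y ε * τ ρ)` where `y true = lv.y1`, `y false = lv.y2`, and task
type `T = Fin 4 ⊕ ι ⊕ K` (linearise `mu_sl`, nonzero `mu_nz`, simple `mu_s` at `0`, `mu_perp`;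
pin `i` by `mu_j` or `mu_b` according to `tJ`; certificate `mu_t6`).  Initial state: `ι = Bool`,
`side = id`, `w = 0`, `ν = y`, `Y = 1`.  `Cen` comes from `cen_of_simpK`.  In `A'` note
`χ (const a) = f a` for every `χ` given by the engine (apply the compatibility to a constant), and
use `pi_of_tasks` (with `EqvIn.mapSub`), `simpK_ext`, `perp_ext`, `jpin_ext`, `bpin_ext`,
`inK_ext`.  The two elements are `x ε = χ0 (fun ρ => y ε * ρ)`.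
-/

namespace Pool.Agent.Work.MP_c4093f_al

variable {k A : Type} [Field k] [Ring A] [Algebra k A]

/-- the two rows of the Leavitt pair -/
def MUy (lv : Lv A) (ε : Bool) : A := cond ε lv.y1 lv.y2

/-- constants as polynomial functions -/
def MUc (a : A) : FnU A := ⟨fun _ => a, const_mem_Fn a⟩

/-- the tasks -/
def MUDone (lv : Lv A) (P : RI A) (L1 : Ideal A) {ι : Type} (pins : ι → Pin A) (K : RI A) :
    Fin 4 ⊕ ι ⊕ K → (A → A) → (A → A) → Prop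
  | .inl 0, _, F => ∃ a, EqvIn (FnU A) (fun ρ => lv.pl (F ρ)) (fun _ => a)
  | .inl 1, _, F => (∀ ρ, F ρ = 0) ∨ ∃ p q, ∀ ρ, p * F ρ * q = 1
  | .inl 2, _, F => ∃ a, InK P fun ρ => F ρ - a
  | .inl 3, _, F => ∃ l ∈ L1, ∃ a, ∀ ρ, (1 - l) * F ρ = a
  | .inr (.inl i), _, F =>
    ((pins i).tJ = true → InK (pins i).K F ∨ ∃ vc ∈ (pins i).J, ∃ d0, ∃ z ∉ P,
      InK (pins i).K (fun ρ => F ρ - vc.1 * (d0 * F ρ)) ∧ InK P fun ρ => vc.2 * (d0 * F ρ) - z) ∧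
    ((pins i).tJ = false → InK (pins i).K F ∨ ∃ (N : ℕ) (G : Fin N → A), ∃ z ∉ (pins i).K,
      InK (pins i).K fun ρ => ∑ l : Fin N, (pins i).a ^ (l : ℕ) * F ρ * G l - z)
  | .inr (.inr κ), τ, _ =>
    (∃ Z ∈ FnU A, (∀ ρ, Z ρ * κ.1 = 0) ∧ (∀ ρ, Z ρ * (MUy lv false * τ ρ) = 0) ∧
      InK K fun ρ => MUy lv true * τ ρ - Z ρ * (MUy lv true * τ ρ)) ∧
    ∃ y, ∃ a : Bool → A, y * κ.1 = 0 ∧ ∀ ε, a ε ≠ 0 ∧ ∀ ρ, y * (MUy lv ε * τ ρ) = a ε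

theorem MU_init (lv : Lv A) {K : RI A} (h1 : (1 : A) ∉ K) :
    MUInv k K fun ε ρ => MUy lv ε * ρ := by
  have h2 : ∀ l : k, l • (1 : A) ∈ K → l = 0 := fun l hl => by
    by_contra h
    exact h1 (by simpa [smul_smul, h] using ksmul K hl l⁻¹)
  refine ⟨Bool, inferInstance, id, 0, MUy lv, 1, fun l hl => ?_,
    fun ε => ⟨ε, rfl, fun h => h1 ((show (1 : A) = 0 from h) ▸ K.zero_mem)⟩,
    fun ε => (InK.zero K).congr fun ρ => by simp⟩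
  funext b
  cases b
  · exact h2 _ (by simpa [MUy, add_mul, lv.h12, lv.h22] using rmul K hl lv.x2)
  · exact h2 _ (by simpa [MUy, add_mul, lv.h11, lv.h21] using rmul K hl lv.x1)

theorem MU_step [IsAlgClosed k] (lv : Lv A) {P : RI A} {L1 L2 : Ideal A}
    (hG : Good k P L1 L2) {ι : Type} (pins : ι → Pin A)
    (hpins : ∀ i, (pins i).ok k P) {K : RI A} (hU : Unif K) (hS : SFree P K) (τ : A → A)
    (hτ : MUInv k K fun ε ρ => MUy lv ε * τ ρ) (t : Fin 4 ⊕ ι ⊕ K) (F : A → A) (hF : F ∈ FnU A) :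
    ∃ σ : A → A, (∀ G ∈ FnU A, (fun δ => G (σ δ)) ∈ FnU A) ∧
      MUInv k K (fun ε ρ => MUy lv ε * τ (σ ρ)) ∧
      MUDone lv P L1 pins K t (fun δ => τ (σ δ)) fun δ => F (σ δ) := by
  obtain ⟨hP, hSi, hL⟩ := hG
  have := hSi.1.nontrivial
  have hC := cen_of_simpK hP hSi
  obtain ⟨ι', _, ν, hν, hm⟩ := hτ.lmove
  have key : ∀ δ0 π, IndK k K (fun i => ν i * π) →
      MUDone lv P L1 pins K t (fun δ => τ (δ0 + π * δ)) (fun δ => F (δ0 + π * δ)) →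
      ∃ σ : A → A, (∀ G ∈ FnU A, (fun δ => G (σ δ)) ∈ FnU A) ∧
        MUInv k K (fun ε ρ => MUy lv ε * τ (σ ρ)) ∧
        MUDone lv P L1 pins K t (fun δ => τ (σ δ)) fun δ => F (σ δ) := fun δ0 π h h' =>
    ⟨fun δ => δ0 + π * δ, fun _ => comp_mem_FnU (deg_L δ0 π), hm δ0 π h, h'⟩
  match t with
  | .inl 0 =>
    obtain ⟨δ0, π, a, h, h'⟩ := mu_sl hP lv hC hν hF
    exact key δ0 π h ⟨a, h'⟩
  | .inl 1 =>
    obtain ⟨δ0, π, h, h'⟩ := mu_nz hP lv hν hF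
    exact key δ0 π h h'
  | .inl 2 =>
    obtain ⟨π, h, h'⟩ := mu_s hP lv hSi.1 hS hν hF 0
    exact key 0 π h ⟨_, h'⟩
  | .inl 3 =>
    obtain ⟨π, h, h'⟩ := mu_perp hP lv hL hν hF
    exact key 0 π h h'
  | .inr (.inl i) =>
    cases hi : (pins i).tJ
    · obtain ⟨σ, h, h', h''⟩ := mu_b hP lv hC hU hτ ((hpins i).2 hi) hF
      exact ⟨σ, fun _ => comp_mem_FnU h, h', fun h => absurd (hi.symm.trans h) Bool.false_ne_true,
        fun _ => h''⟩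
    · obtain ⟨δ0, π, h, h'⟩ := mu_j hP lv hC hSi.1 hS hν ((hpins i).1 hi) hF
      exact key δ0 π h ⟨fun _ => h', fun h => absurd (h.symm.trans hi) Bool.false_ne_true⟩
  | .inr (.inr κ) =>
    obtain ⟨δ0, π, h, h'⟩ := mu_t6 hP lv hC hτ κ.2
    exact ⟨fun δ => δ0 + π * δ, fun _ => comp_mem_FnU (deg_L δ0 π), h, h'⟩

theorem MU_in {A' : Type} [Ring A'] {f : A →+* A'} {χ : FnU A →+* A'}
    (hχ : ∀ a, χ (MUc a) = f a) {K : RI A} (H : FnU A) (h : InK K H.1) : χ H ∈ ext f K :=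
  inK_ext f const_mem_Fn χ hχ H.2 h

theorem MU_eq {A' : Type} [Ring A'] (χ : FnU A →+* A') (H H' : FnU A) (h : ∀ ρ, H.1 ρ = H'.1 ρ) :
    χ H = χ H' := congrArg χ (Subtype.ext (funext h))

theorem mu [IsAlgClosed k] [Countable A] (lv : Lv A) {P : RI A} {L1 L2 : Ideal A}
    (hG : Good k P L1 L2) {ι : Type} [Countable ι] (pins : ι → Pin A)
    (hpins : ∀ i, (pins i).ok k P) {K : RI A} (h1 : (1 : A) ∉ K) (hU : Unif K)
    (hS : SFree P K) :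
    Ach k A fun A' _ _ f => Concl k P L1 L2 pins A' f ∧
      ∃ x1 x2, NUc (f '' K) (ext f.toRingHom K) x1 x2 := by
  have := countable_Fn (X := XU A)
  obtain ⟨C, hC, hc, H⟩ := engine (FnU A) const_mem_Fn
    (fun τ => MUInv k K fun ε ρ => MUy lv ε * τ ρ) (MUDone lv P L1 pins K) (MU_init lv h1)
    (MU_step lv hG pins hpins hU hS)
  refine ⟨C, hC, hc, fun A' _ _ _ f q hq hf => ?_⟩
  obtain ⟨χ0, h0, H⟩ := H A' q hq
  obtain ⟨hP, hSi, hL⟩ := hG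
  have hX : ∀ ε, (fun ρ => MUy lv ε * ρ) ∈ FnU A := fun ε =>
    (FnU A).mul_mem (const_mem_Fn _) (var_mem_Fn ())
  replace H : ∀ (t : Fin 4 ⊕ ι ⊕ K) (b : A'), ∃ (χ : FnU A →+* A') (τ : A → A)
      (X : Bool → FnU A), (∀ a, χ (MUc a) = f.toRingHom a) ∧ (∀ ε, χ (X ε) = χ0 ⟨_, hX ε⟩) ∧
      (∀ ε ρ, (X ε).1 ρ = MUy lv ε * τ ρ) ∧ ∃ F, χ F = b ∧ MUDone lv P L1 pins K t τ F.1 := by
    intro t b
    obtain ⟨χ, τ, hτ, -, h2, h3⟩ := H t b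
    exact ⟨χ, τ, fun ε => ⟨_, hτ _ (hX ε)⟩, fun a => (h2 (MUc a)).trans ((h0 a).trans (hf a)),
      fun ε => h2 ⟨_, hX ε⟩, fun _ _ => rfl, h3⟩
  refine ⟨⟨⟨pi_of_tasks hP lv f.toRingHom (fun b => ?_) fun b => ?_,
    simpK_ext hP f hSi fun b => ?_, perp_ext hP _ hL fun b => ?_⟩, fun i =>
    ⟨fun hi => jpin_ext hP _ ((hpins i).1 hi) fun b => ?_,
      fun hi => bpin_ext hP f ((hpins i).2 hi) fun b => ?_⟩⟩, χ0 ⟨_, hX true⟩, χ0 ⟨_, hX false⟩, ?_⟩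
  · obtain ⟨χ, -, -, hχ, -, -, F, rfl, a, h⟩ := H (.inl 0) b
    have h2 : EqvIn ⊤ (χ (MUc lv.x1 * F * MUc lv.y1 + MUc lv.x2 * MUc lv.y2)) (χ (MUc a)) :=
      EqvIn.mapSub χ _ _ h
    rw [map_add, map_mul, map_mul, map_mul, hχ, hχ, hχ, hχ, hχ] at h2
    exact ⟨a, h2⟩
  · obtain ⟨χ, -, -, hχ, -, -, F, rfl, h | ⟨p, q, h⟩⟩ := H (.inl 1) b
    · exact Or.inl ((MU_eq χ F 0 h).trans (map_zero χ))
    · have h2 := MU_eq χ (MUc p * F * MUc q) 1 h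
      rw [map_mul, map_mul, map_one] at h2
      exact Or.inr ⟨_, _, h2⟩
  · obtain ⟨χ, -, -, hχ, -, -, F, rfl, a, h⟩ := H (.inl 2) b
    have h2 := MU_in hχ (F - MUc a) h
    rw [map_sub, hχ] at h2
    exact ⟨a, h2⟩
  · obtain ⟨χ, -, -, hχ, -, -, F, rfl, l, hl, a, h⟩ := H (.inl 3) b
    have h2 := MU_eq χ ((1 - MUc l) * F) (MUc a) h
    rw [map_mul, map_sub, map_one, hχ, hχ] at h2
    exact ⟨l, hl, a, h2⟩
  · obtain ⟨χ, -, -, hχ, -, -, F, rfl, h, -⟩ := H (.inr (.inl i)) b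
    rcases h hi with h | ⟨vc, hvc, d0, z, hz, h2, h3⟩
    · exact Or.inl (MU_in hχ F h)
    · have h4 := MU_in hχ (F - MUc vc.1 * (MUc d0 * F)) h2
      have h5 := MU_in hχ (MUc vc.2 * (MUc d0 * F) - MUc z) h3
      rw [map_sub, map_mul, hχ] at h4
      rw [map_sub, map_mul, hχ, hχ] at h5
      exact Or.inr ⟨vc, hvc, _, 1, z, hz, h4, by rwa [mul_one]⟩
  · obtain ⟨χ, -, -, hχ, -, -, F, rfl, -, h⟩ := H (.inr (.inl i)) b
    rcases h hi with h | ⟨N, G, z, hz, h2⟩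
    · exact Or.inl (MU_in hχ F h)
    · refine Or.inr ⟨z, hz, fun N' h3 h4 h5 => ?_⟩
      have h6 := h3 (MU_in hχ (∑ l : Fin N, MUc (pins i).a ^ (l : ℕ) * F * MUc (G l) - MUc z)
        (h2.congr fun ρ => by simp [MUc]))
      have h7 : ∀ l : ℕ, f (pins i).a ^ l * χ F ∈ N' := fun l => by
        induction l with
        | zero => rwa [pow_zero, one_mul]
        | succ l ih => rw [pow_succ', mul_assoc]; exact h4 _ ih
      simp only [map_sub, map_sum, map_mul, map_pow, hχ] at h6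
      exact (N'.sub_mem_iff_right (N'.sum_mem fun (l : Fin N) _ => rmul N' (h7 l) _)).1 h6
  · rintro _ ⟨κ, hκ, rfl⟩
    obtain ⟨χ, τ, X, hχ, h2, h3, -, -, ⟨Z, hZ, h4, h5, h6⟩, y, a, h7, h8⟩ :=
      H (.inr (.inr ⟨κ, hκ⟩)) 0
    have h9 : ∀ ε, f y * χ (X ε) ≠ 0 := fun ε h => (h8 ε).1 (hP.inj f.toRingHom <| by
      have h9 := MU_eq χ (MUc y * X ε) (MUc (a ε)) fun ρ => (congrArg (y * ·) (h3 ε ρ)).trans
        ((h8 ε).2 ρ)
      rw [map_mul, hχ, hχ] at h9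
      rw [← h9, map_zero]
      exact h)
    have h10 := MU_eq χ (⟨Z, hZ⟩ * MUc κ) 0 h4
    have h11 := MU_eq χ (⟨Z, hZ⟩ * X false) 0 fun ρ => (congrArg (Z ρ * ·) (h3 false ρ)).trans (h5 ρ)
    have h12 := MU_in hχ (X true - ⟨Z, hZ⟩ * X true) (h6.congr fun ρ => by simp [h3])
    rw [map_mul, hχ, map_zero] at h10
    rw [map_mul, map_zero] at h11
    rw [map_sub, map_mul] at h12
    rw [← h2, ← h2]
    exact ⟨⟨_, h10, h11, h12⟩, f y, by rw [← map_mul, show y * κ = 0 from h7, map_zero], h9 _, h9 _⟩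

end Pool.Agent.Work.MP_c4093f_al
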