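import Pool.Agent.Work.MP_c4093f_al.PolyInd
import Pool.Agent.Work.MP_c4093f_al.Stable

/-!
Tasks solved by a substitution `ρ ↦ δ0 + π * ρ` that keeps `ν` independent modulo `K`.

* `mu_pen`: induction on the card of `s`, for all `z p q`.  Let `1 - f` be an idempotent generating
  the left ideal of the `q j` (`PI.dirL` in the span: `q j * f = 0`, and every element of
  `A (1 - f)` is `∑ s j q j`).  Let `z f t (z f) = z f`, `e0 = z f t`.  The unit
  `V = 1 - ∑ (f t p j) ρ q j` (unipotent since `q j f = 0`) turns the pencil into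
  `z + ∑ p' j ρ q j` with `p' j = (1 - e0) p j`.  If the `p' j` (`j ∈ s`) are linearly dependent,
  regroup to fewer terms.  Otherwise `fr` gives `x p' i c l = δ`; put `x1 = x (1 - e0)`, so
  `x1 z f = 0` and `x1 p' = x p'`.  `sh` gives `u0 x1 p' j π = 0`; `u = u0 x1`,
  `u z = ∑ s j q j`; with a Leavitt family `xs, ys` put `δ0 = ∑ c l u0' (xs l - s l)`.  Then
  `u T(δ0 + π ρ) = ∑ xs j q j`, so `q j = ys j u T`, and the unipotent
  `U = 1 - ∑ p' j π ρ (ys j) u` has `U T(δ0 + π ρ) = T δ0`, a constant.  Pull the first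
  equivalence back with `EqvIn.comp`, `comp_mem_FnU (deg_L _ _)`.
* `mu_sl`: `lin`, `Deg.rep1`, `mu_pen`.
* `mu_nz`: if `F δ0 ≠ 0` take `s (F δ0) t = 1`, `freeze`, and `sh` for the family `s * g j`.
* `mu_s`: `freeze` and `sf`; `InK.sum`, `InK.const_mul`.
* `mu_perp`: `freeze` at `0` and `kill`.
* `mu_j`: let `N` be the right ideal spanned by the values of `F`; `cl` gives `g ∈ N` with
  `g F = F`.  If `g ∈ K'` we are in the first case.  Else the pin gives `(v, c) ∈ J`, `d0` with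
  `g - v d0 ∈ K'`, `c d0 ∉ P`.  Replace `g` first by an idempotent (`PI.reg`; or note
  `v d0 (1 - g) ∈ K'` when `g g = g`), so `c d0 g ∉ P`, so some `c d0 (F δ0) ∉ P`.  Apply `mu_s` to
  `c d0 F` at `δ0`.
-/

namespace Pool.Agent.Work.MP_c4093f_al

variable {k A : Type} [Field k] [Ring A] [Algebra k A]
variable {ι : Type} [Fintype ι] {K : RI A} {ν : ι → A}

theorem MU1_unip {R : Type} [Ring R] {N : R} (h : N * N = 0) :
    (1 - N) * (1 + N) = 1 ∧ (1 + N) * (1 - N) = 1 := by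
  constructor
  · rw [mul_add, mul_one, sub_mul, one_mul, h, sub_zero, sub_add_cancel]
  · rw [mul_sub, mul_one, add_mul, one_mul, h, add_zero, add_sub_cancel_right]

theorem MU1_mem {κ : Type} [Fintype κ] (p q : κ → A) :
    (fun ρ => ∑ j, p j * ρ * q j) ∈ FnU A :=
  ((Deg.pencil (X := XU A) Finset.univ 0 p (fun _ => ()) q).congr fun ρ => by simp [XU]).mem

theorem MU1_red (hP : PI A) {κ : Type} [Fintype κ] (z : A) (p q : κ → A) :
    ∃ (e : A) (b : κ → A), e * e = e ∧ e * z = ∑ j, b j * q j ∧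
      EqvIn (FnU A) (fun ρ => z + ∑ j, p j * ρ * q j) fun ρ => z + ∑ j, e * p j * ρ * q j := by
  obtain ⟨g, hg, -, h1⟩ := hP.dirL (Ideal.span (Set.range q)) q fun j =>
    Ideal.subset_span ⟨j, rfl⟩
  obtain ⟨a, ha⟩ := Ideal.mem_span_range_iff_exists_fun.1 hg
  obtain ⟨t, ht, -⟩ := hP.reg (z * (1 - g))
  have h2 : ∀ j, q j * (1 - g) = 0 := fun j => by rw [mul_sub, mul_one, h1, sub_self]
  obtain ⟨f, hf⟩ : ∃ f, f = 1 - g := ⟨_, rfl⟩
  rw [← hf] at ht h2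
  have h3 : (1 - z * f * t) * (z * f) = 0 := by rw [sub_mul, one_mul, ht, sub_self]
  refine ⟨1 - z * f * t, fun j => (1 - z * f * t) * z * a j, ?_, ?_, ?_⟩
  · rw [mul_sub, mul_one, ← mul_assoc, h3, zero_mul, sub_zero]
  · simp only [mul_assoc _ (a _)]
    rw [← Finset.mul_sum, ha]
    have h4 : g = 1 - f := by rw [hf, sub_sub_cancel]
    rw [h4, mul_sub, mul_one, mul_assoc _ z f, h3, sub_zero]
  · obtain ⟨N, hN⟩ : ∃ N : A → A, N = fun ρ => ∑ j, f * t * p j * ρ * q j := ⟨_, rfl⟩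
    have hm : N ∈ FnU A := hN ▸ MU1_mem _ q
    have h4 : ∀ j ρ, q j * N ρ = 0 := fun j ρ => by
      simp only [hN, Finset.mul_sum, ← mul_assoc, h2, zero_mul, Finset.sum_const_zero]
    have h5 : ∀ (r : κ → A) ρ, (∑ j, r j * ρ * q j) * N ρ = 0 := fun r ρ => by
      simp only [Finset.sum_mul, mul_assoc, h4, mul_zero, Finset.sum_const_zero]
    have h6 := MU1_unip (N := N) (funext fun ρ => by
      have := h5 (fun j => f * t * p j) ρ
      rwa [← congrFun hN ρ] at this)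
    convert EqvIn.of_right (S := FnU A) (fun ρ => z + ∑ j, p j * ρ * q j)
      (sub_mem (one_mem _) hm) (add_mem (one_mem _) hm) h6.1 h6.2 using 1
    funext ρ
    change _ = (z + ∑ j, p j * ρ * q j) * (1 - N ρ)
    rw [mul_sub, mul_one, add_mul, h5, add_zero]
    simp only [hN, sub_mul, one_mul, Finset.sum_sub_distrib, Finset.mul_sum, mul_assoc]
    abel

theorem MU1_ind [Nontrivial A] (hP : PI A) (lv : Lv A) (hC : Cen k A) (hν : IndK k K ν)
    {κ : Type} [Fintype κ] {z e : A} {b p q : κ → A} (hp : ∀ j, e * p j = p j)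
    (hz : e * z = ∑ j, b j * q j) (hl : LinearIndependent k p) :
    ∃ δ0 π a, IndK k K (fun i => ν i * π) ∧
      EqvIn (FnU A) (fun ρ => z + ∑ j, p j * (δ0 + π * ρ) * q j) (fun _ => a) := by
  classical
  obtain ⟨x, -, c, -, hx⟩ := fr hP lv hC hl
  obtain ⟨u0, u0', π, h0, h1, h2⟩ := sh hP lv hν fun j => x * p j
  obtain ⟨xs, ys, h3⟩ := lv.fam κ
  set u := u0 * x * e with hu
  set δ0 := ∑ l, c l * (u0' * (xs l - u0 * x * b l)) with hδ
  have h4 : ∀ j, u * p j = u0 * (x * p j) := fun j => by rw [hu, mul_assoc, hp, mul_assoc]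
  have h5 : ∀ j, u * p j * δ0 = xs j - u0 * x * b j := fun j => by
    rw [h4, mul_assoc, hδ, Finset.mul_sum]
    simp only [← mul_assoc _ (c _), hx, ite_mul, one_mul, zero_mul, Finset.sum_ite_eq,
      Finset.mem_univ, if_true]
    rw [← mul_assoc, h0, one_mul]
  have h6 : ∀ j, u * p j * π = 0 := fun j => by rw [h4, h1]
  have h7 : ∀ ρ, u * (z + ∑ j, p j * (δ0 + π * ρ) * q j) = ∑ j, xs j * q j := fun ρ => by
    have e1 : u * z = ∑ j, u0 * x * b j * q j := by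
      rw [hu, mul_assoc, hz, Finset.mul_sum]
      simp only [mul_assoc]
    have e2 : ∀ j, u * (p j * (δ0 + π * ρ) * q j) = xs j * q j - u0 * x * b j * q j := fun j => by
      rw [← mul_assoc, ← mul_assoc, mul_add, h5, ← mul_assoc, h6, zero_mul, add_zero, sub_mul]
    rw [mul_add, Finset.mul_sum, e1]
    simp only [e2, Finset.sum_sub_distrib]
    abel
  have h8 : ∀ j ρ, ys j * u * (z + ∑ j, p j * (δ0 + π * ρ) * q j) = q j := fun j ρ => by
    rw [mul_assoc, h7, Finset.mul_sum]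
    simp only [← mul_assoc, h3, ite_mul, one_mul, zero_mul, Finset.sum_ite_eq, Finset.mem_univ,
      if_true]
  refine ⟨δ0, π, z + ∑ j, p j * δ0 * q j, h2, ?_⟩
  set M : A → A := fun ρ => ∑ j, p j * π * ρ * (ys j * u) with hM
  have hm : M ∈ FnU A := MU1_mem _ _
  have h9 : ∀ ρ, u * M ρ = 0 := fun ρ => by
    simp only [hM, Finset.mul_sum, ← mul_assoc _ _ (ys _ * u), ← mul_assoc _ _ ρ,
      ← mul_assoc _ _ π, h6, zero_mul, Finset.sum_const_zero]
  have h10 := MU1_unip (N := M) (funext fun ρ => by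
    change (∑ j, p j * π * ρ * (ys j * u)) * M ρ = 0
    simp only [Finset.sum_mul, mul_assoc, h9, mul_zero, Finset.sum_const_zero])
  convert EqvIn.of_left (S := FnU A) (fun ρ => z + ∑ j, p j * (δ0 + π * ρ) * q j)
    (sub_mem (one_mem _) hm) (add_mem (one_mem _) hm) h10.1 h10.2 using 1
  funext ρ
  change _ = (1 - ∑ j, p j * π * ρ * (ys j * u)) * (z + ∑ j, p j * (δ0 + π * ρ) * q j)
  rw [sub_mul, one_mul, Finset.sum_mul]
  simp only [mul_assoc _ (ys _ * u), h8]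
  simp only [mul_add, add_mul, Finset.sum_add_distrib, mul_assoc]
  abel

theorem MU1_pen [Nontrivial A] (hP : PI A) (lv : Lv A) (hC : Cen k A) (hν : IndK k K ν)
    (n : ℕ) (z : A) (p q : Fin n → A) :
    ∃ δ0 π a, IndK k K (fun i => ν i * π) ∧
      EqvIn (FnU A) (fun ρ => z + ∑ j, p j * (δ0 + π * ρ) * q j) (fun _ => a) := by
  induction n generalizing z with
  | zero => exact ⟨0, 1, z, by simpa using hν, by simpa using EqvIn.refl _ _⟩
  | succ n ih =>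
    obtain ⟨e, b, he, hz, h1⟩ := MU1_red hP z p q
    suffices h : ∃ δ0 π a, IndK k K (fun i => ν i * π) ∧
        EqvIn (FnU A) (fun ρ => z + ∑ j, e * p j * (δ0 + π * ρ) * q j) (fun _ => a) by
      obtain ⟨δ0, π, a, h2, h3⟩ := h
      exact ⟨δ0, π, a, h2, (h1.comp fun _ => comp_mem_FnU (deg_L δ0 π)).trans h3⟩
    by_cases hl : LinearIndependent k fun j => e * p j
    · exact MU1_ind hP lv hC hν (fun j => by rw [← mul_assoc, he]) hz hl
    obtain ⟨l, h2, j0, h3⟩ := Fintype.not_linearIndependent_iff.1 hl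
    rw [Fin.sum_univ_succAbove _ j0] at h2
    have h4 : e * p j0 = ∑ j, (-(l j0)⁻¹ * l (j0.succAbove j)) • (e * p (j0.succAbove j)) := by
      simp only [mul_smul, ← Finset.smul_sum]
      rw [← neg_eq_of_add_eq_zero_right h2, smul_neg, neg_smul, neg_neg, inv_smul_smul₀ h3]
    obtain ⟨δ0, π, a, h5, h6⟩ := ih z (fun j => e * p (j0.succAbove j)) fun j =>
      q (j0.succAbove j) + (-(l j0)⁻¹ * l (j0.succAbove j)) • q j0
    refine ⟨δ0, π, a, h5, ?_⟩
    convert h6 using 3 with ρ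
    rw [Fin.sum_univ_succAbove _ j0, h4]
    simp only [mul_add _ (q _), Finset.sum_add_distrib, Finset.sum_mul, smul_mul_assoc,
      mul_smul_comm]
    rw [add_comm]

theorem mu_pen [Nontrivial A] (hP : PI A) (lv : Lv A) (hC : Cen k A) (hν : IndK k K ν)
    {κ : Type} (s : Finset κ) (z : A) (p q : κ → A) :
    ∃ δ0 π a, IndK k K (fun i => ν i * π) ∧
      EqvIn (FnU A) (fun ρ => z + ∑ j ∈ s, p j * (δ0 + π * ρ) * q j) (fun _ => a) := by
  obtain ⟨δ0, π, a, h1, h2⟩ := MU1_pen hP lv hC hν s.card z (fun j => p (s.equivFin.symm j))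
    fun j => q (s.equivFin.symm j)
  refine ⟨δ0, π, a, h1, ?_⟩
  convert h2 using 3 with ρ
  rw [← Finset.sum_coe_sort, ← s.equivFin.symm.sum_comp]

theorem mu_sl [Nontrivial A] (hP : PI A) (lv : Lv A) (hC : Cen k A) (hν : IndK k K ν)
    {F : A → A} (hF : F ∈ FnU A) :
    ∃ δ0 π a, IndK k K (fun i => ν i * π) ∧
      EqvIn (FnU A) (fun ρ => lv.pl (F (δ0 + π * ρ))) (fun _ => a) := by
  obtain ⟨G, h1, h2⟩ := lin lv (XU A) hF
  obtain ⟨m, z, p, ty, q, h3⟩ := h1.rep1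
  obtain ⟨δ0, π, a, h4, h5⟩ := mu_pen hP lv hC hν Finset.univ z p q
  refine ⟨δ0, π, a, h4, (h2.comp fun _ => comp_mem_FnU (deg_L δ0 π)).trans ?_⟩
  simpa only [h3, XU] using h5

theorem mu_nz (hP : PI A) (lv : Lv A) (hν : IndK k K ν) {F : A → A} (hF : F ∈ FnU A) :
    ∃ δ0 π, IndK k K (fun i => ν i * π) ∧
      ((∀ ρ, F (δ0 + π * ρ) = 0) ∨ ∃ p q, ∀ ρ, p * F (δ0 + π * ρ) * q = 1) := by
  by_cases h : ∀ δ, F δ = 0
  · exact ⟨0, 1, by simpa using hν, Or.inl fun _ => h _⟩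
  obtain ⟨δ0, h0⟩ := not_forall.1 h
  obtain ⟨s, t, h1⟩ := hP.one h0
  obtain ⟨m, g, G, -, h2⟩ := freeze hF δ0
  obtain ⟨u, u', π, h3, h4, h5⟩ := sh hP lv hν fun j => s * g j
  refine ⟨δ0, π, h5, Or.inr ⟨u * s, t * u', fun ρ => ?_⟩⟩
  have h6 : ∀ j, u * s * (g j * (π * ρ) * G j (π * ρ)) = 0 := fun j => by
    calc _ = u * (s * g j) * π * (ρ * G j (π * ρ)) := by simp only [mul_assoc]
      _ = 0 := by rw [h4, zero_mul]
  rw [h2, mul_add, Finset.mul_sum]
  simp only [h6, Finset.sum_const_zero, add_zero]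
  calc _ = u * (s * F δ0 * t) * u' := by simp only [mul_assoc]
    _ = 1 := by rw [h1, mul_one, h3]

theorem mu_s (hP : PI A) (lv : Lv A) {P : RI A} (hM : MaxR P) (hS : SFree P K) (hν : IndK k K ν)
    {F : A → A} (hF : F ∈ FnU A) (δ0 : A) :
    ∃ π, IndK k K (fun i => ν i * π) ∧ InK P (fun ρ => F (δ0 + π * ρ) - F δ0) := by
  obtain ⟨m, g, G, -, h2⟩ := freeze hF δ0
  obtain ⟨π, h3, h4⟩ := sf lv hM hS hν g
  refine ⟨π, h4, (InK.sum hP Finset.univ fun j _ =>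
    InK.const_mul hP (h3 j) fun ρ => ρ * G j (π * ρ)).congr fun ρ => ?_⟩
  rw [h2, add_sub_cancel_left]
  simp only [mul_assoc]

theorem mu_perp (hP : PI A) (lv : Lv A) {L1 L2 : Ideal A} (hL : Perp L1 L2) (hν : IndK k K ν)
    {F : A → A} (hF : F ∈ FnU A) :
    ∃ π, IndK k K (fun i => ν i * π) ∧ ∃ l ∈ L1, ∃ a, ∀ ρ, (1 - l) * F (0 + π * ρ) = a := by
  obtain ⟨m, g, G, -, h2⟩ := freeze hF 0
  obtain ⟨l, hl, π, h3, h4⟩ := kill hP lv hL hν g
  refine ⟨π, h4, l, hl, (1 - l) * F 0, fun ρ => ?_⟩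
  rw [h2, mul_add, Finset.mul_sum]
  simp only [← mul_assoc, h3, zero_mul, Finset.sum_const_zero, add_zero]

theorem mu_j [Nontrivial A] (hP : PI A) (lv : Lv A) (hC : Cen k A) {P : RI A} (hM : MaxR P)
    (hS : SFree P K) (hν : IndK k K ν) {K' : RI A} {J : Set (A × A)} (hJ : JPin P K' J)
    {F : A → A} (hF : F ∈ FnU A) :
    ∃ δ0 π, IndK k K (fun i => ν i * π) ∧ (InK K' (fun ρ => F (δ0 + π * ρ)) ∨
      ∃ vc ∈ J, ∃ d0, ∃ z ∉ P,
        InK K' (fun ρ => F (δ0 + π * ρ) - vc.1 * (d0 * F (δ0 + π * ρ))) ∧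
        InK P (fun ρ => vc.2 * (d0 * F (δ0 + π * ρ)) - z)) := by
  obtain ⟨g0, hg0, h0⟩ := cl hP lv hC hF (K := Submodule.span Aᵐᵒᵖ (Set.range F)) fun δ =>
    Submodule.subset_span ⟨δ, rfl⟩
  obtain ⟨g, hg, h1, h2⟩ := hP.dirR _ (fun _ : Unit => g0) fun _ => hg0
  have h3 : ∀ δ, g * F δ = F δ := fun δ => by rw [← h0 δ, ← mul_assoc, h2 ()]
  by_cases hK : g ∈ K'
  · exact ⟨0, 1, by simpa using hν, Or.inl ⟨g, hK, fun _ => h3 _⟩⟩
  obtain ⟨vc, hv, d, h4, h5⟩ := hJ.2 g hK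
  have h6 : vc.2 * (d * (1 - g)) ∈ P := hJ.1 vc hv _ (by
    have := K'.neg_mem (rmul K' h4 (1 - g))
    rwa [sub_mul, mul_sub g, mul_one, h1, sub_self, zero_sub, neg_neg, mul_assoc] at this)
  obtain ⟨δ0, h7⟩ : ∃ δ0, vc.2 * (d * F δ0) ∉ P := by
    by_contra h
    have h8 : Submodule.span Aᵐᵒᵖ (Set.range F) ≤ lq P (vc.2 * d) := Submodule.span_le.2 (by
      rintro _ ⟨δ, rfl⟩
      exact mem_lq.2 (by rw [mul_assoc]; exact not_not.1 fun t => h ⟨δ, t⟩))
    have h9 := P.add_mem h6 (mem_lq.1 (h8 hg))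
    rw [← mul_assoc, ← mul_add, sub_add_cancel, mul_one] at h9
    exact h5 h9
  obtain ⟨π, h8, h9⟩ := mu_s hP lv hM hS hν (F := fun ρ => vc.2 * (d * F ρ))
    (mul_mem (const_mem_Fn vc.2) (mul_mem (const_mem_Fn d) hF)) δ0
  refine ⟨δ0, π, h8, Or.inr ⟨vc, hv, d, _, h7,
    (InK.const_mul hP h4 fun ρ => F (δ0 + π * ρ)).congr fun ρ => ?_, h9⟩⟩
  rw [sub_mul, h3, mul_assoc]

end Pool.Agent.Work.MP_c4093f_al
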