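import Pool.Agent.Work.MP_c4093f_al.MCalc

/-!
Zorn's lemma for coded families of coded sets.  Read MCalc first: predicates built from `∧ ∨ ¬ → ↔
∀ ∃ = ∈` over coded types are found by `inferInstance` (write inclusions out with `∀`); a function
`g` known to be `CF` is used under binders through `CF.comp g f` (add it as a local hypothesis
`have : ∀ {T0 : Type} [CT E T0] (f : T0 → _) [CF E f], CF E fun t => g (f t)`).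

* `mzorn` (towers).  `CF.choice` gives a coded `g : PW E T → PW E T` with: if `U ∈ F` is not
  maximal in `F` then `g U ∈ F`, `U ⊆ g U`, `g U ≠ U`; otherwise `g U = U`.  A tower is a
  `𝒯 : PW E (PW E T)` with `𝒯 ⊆ F`, `U0 ∈ 𝒯`, closed under `g` and under unions of nonempty coded
  chains inside `𝒯`.  `F` is a tower; the intersection `𝒯0` of all towers is coded and a tower, so
  one has induction on `𝒯0` for coded predicates.  All members contain `U0`.  Call `C ∈ 𝒯0` extreme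
  if `U ∈ 𝒯0`, `U ⊂ C` imply `g U ⊆ C`.  For extreme `C` every `U ∈ 𝒯0` has `U ⊆ C` or
  `g C ⊆ U`; all members are extreme; so `𝒯0` is a chain, its union `W` is in `𝒯0`, `g W ⊆ W`, so
  `W` is maximal.  (This is the Bourbaki-Witt argument.)
* `zorn_avoid`: `F` = coded subsets closed under `0, +, •`, containing `U0`, missing `T0`.
-/

namespace Pool.Agent.Work.MP_c4093f_al
open Pool.Agent.Lib.ZFModel

set_option synthInstance.maxSize 100000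

variable {M : Type 1} {E : M → M → Prop} [hE : Fact (IsZFC E)]

instance CS.subMZorn {T T' : Type} [CT E T] [CT E T'] (f g : T → PW E T') [CF E f] [CF E g] :
    CS E fun t => (f t).1 ⊆ (g t).1 :=
  ((inferInstance : CS E fun p : PW E T' × PW E T' => ∀ x, x ∈ p.1.1 → x ∈ p.2.1).comp
    fun t => (f t, g t)).congr fun _ => ⟨fun h _ hx => h hx, fun h x hx => h x hx⟩

/-- The least tower. -/
theorem towerMZorn {T : Type} [CT E T] (g : PW E T → PW E T) [CF E g] (U0 : PW E T) :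
    ∃ Z : PW E (PW E T), ∀ U, U ∈ Z.1 ↔ ∀ Y : PW E (PW E T), U0 ∈ Y.1 →
      (∀ V, V ∈ Y.1 → g V ∈ Y.1) → (∀ C : PW E (PW E T), C.1 ⊆ Y.1 → (∃ V, V ∈ C.1) →
        (∀ V ∈ C.1, ∀ V' ∈ C.1, V.1 ⊆ V'.1 ∨ V'.1 ⊆ V.1) →
        ∀ W : PW E T, (∀ t, t ∈ W.1 ↔ ∃ V ∈ C.1, t ∈ V.1) → W ∈ Y.1) → U ∈ Y.1 := by
  have : ∀ {T0 : Type} [CT E T0] (f : T0 → PW E T) [CF E f], CF E fun t => g (f t) :=
    fun f => CF.comp g f
  have h : CS E fun U : PW E T => ∀ Y : PW E (PW E T), U0 ∈ Y.1 →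
      (∀ V, V ∈ Y.1 → g V ∈ Y.1) → (∀ C : PW E (PW E T), C.1 ⊆ Y.1 → (∃ V, V ∈ C.1) →
        (∀ V ∈ C.1, ∀ V' ∈ C.1, V.1 ⊆ V'.1 ∨ V'.1 ⊆ V.1) →
        ∀ W : PW E T, (∀ t, t ∈ W.1 ↔ ∃ V ∈ C.1, t ∈ V.1) → W ∈ Y.1) → U ∈ Y.1 := inferInstance
  exact ⟨⟨Set.ofPred _, h⟩, fun _ => Iff.rfl⟩

/-- The Bourbaki-Witt fixed point, with induction up to it. -/
theorem fixMZorn {T : Type} [CT E T] (g : PW E T → PW E T) [CF E g] (hg : ∀ U, U.1 ⊆ (g U).1)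
    (U0 : PW E T) : ∃ W : PW E T, U0.1 ⊆ W.1 ∧ (g W).1 ⊆ W.1 ∧ ∀ Y : PW E (PW E T), U0 ∈ Y.1 →
      (∀ V, V ∈ Y.1 → g V ∈ Y.1) → (∀ C : PW E (PW E T), C.1 ⊆ Y.1 → (∃ V, V ∈ C.1) →
        (∀ V ∈ C.1, ∀ V' ∈ C.1, V.1 ⊆ V'.1 ∨ V'.1 ⊆ V.1) →
        ∀ W : PW E T, (∀ t, t ∈ W.1 ↔ ∃ V ∈ C.1, t ∈ V.1) → W ∈ Y.1) → W ∈ Y.1 := by
  have : ∀ {T0 : Type} [CT E T0] (f : T0 → PW E T) [CF E f], CF E fun t => g (f t) :=
    fun f => CF.comp g f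
  obtain ⟨Z, hZ⟩ := towerMZorn g U0
  have z0 : U0 ∈ Z.1 := (hZ _).2 fun _ h _ _ => h
  have zg : ∀ V, V ∈ Z.1 → g V ∈ Z.1 := fun V h =>
    (hZ _).2 fun Y h1 h2 h3 => h2 _ ((hZ _).1 h Y h1 h2 h3)
  have zu : ∀ C : PW E (PW E T), C.1 ⊆ Z.1 → (∃ V, V ∈ C.1) →
      (∀ V ∈ C.1, ∀ V' ∈ C.1, V.1 ⊆ V'.1 ∨ V'.1 ⊆ V.1) →
      ∀ W : PW E T, (∀ t, t ∈ W.1 ↔ ∃ V ∈ C.1, t ∈ V.1) → W ∈ Z.1 := fun C h hn hc W hW =>
    (hZ _).2 fun Y h1 h2 h3 => h3 C (fun V hV => (hZ _).1 (h hV) Y h1 h2 h3) hn hc W hW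
  have ind : ∀ (Q : PW E T → Prop) [CS E Q], Q U0 → (∀ V ∈ Z.1, Q V → Q (g V)) →
      (∀ C : Set (PW E T), (∀ V ∈ C, V ∈ Z.1 ∧ Q V) → C.Nonempty →
        ∀ W : PW E T, (∀ V ∈ C, V.1 ⊆ W.1) → (∀ U : PW E T, (∀ V ∈ C, V.1 ⊆ U.1) → W.1 ⊆ U.1) →
          Q W) → ∀ U ∈ Z.1, Q U := by
    intro Q _ h0 h1 h2 U hU
    have h : CS E fun V => V ∈ Z.1 ∧ Q V := CS.and _ Q (h := Z.2)
    exact ((hZ U).1 hU ⟨Set.ofPred _, h⟩ ⟨z0, h0⟩ (fun V hV => ⟨zg V hV.1, h1 V hV.1 hV.2⟩)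
      fun C hC hn hc W hW => ⟨zu C (fun V hV => (hC hV).1) hn hc W hW,
        h2 C.1 (fun V hV => hC hV) hn W (fun V hV t ht => (hW t).2 ⟨V, hV, ht⟩)
          fun U hU t ht => ((hW t).1 ht).elim fun V hV => hU V hV.1 hV.2⟩).2
  have ha : ∀ U ∈ Z.1, U0.1 ⊆ U.1 := ind (fun U => U0.1 ⊆ U.1) subset_rfl
    (fun V _ h => h.trans (hg V)) fun C hC ⟨V, hV⟩ W h _ => (hC V hV).2.trans (h V hV)
  have hb : ∀ C ∈ Z.1, (∀ U ∈ Z.1, U.1 ⊆ C.1 → U ≠ C → (g U).1 ⊆ C.1) →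
      ∀ U ∈ Z.1, U.1 ⊆ C.1 ∨ (g C).1 ⊆ U.1 := fun C hC he =>
    ind (fun U => U.1 ⊆ C.1 ∨ (g C).1 ⊆ U.1) (.inl (ha C hC))
      (fun V hV h => h.elim (fun h => (eq_or_ne V C).elim (fun e => .inr (e ▸ subset_rfl))
        fun e => .inl (he V hV h e)) fun h => .inr (h.trans (hg V)))
      fun D hD _ W h1 h2 => or_iff_not_imp_right.2 fun h => h2 C fun V hV =>
        (hD V hV).2.resolve_right fun h' => h (h'.trans (h1 V hV))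
  have hc : ∀ C ∈ Z.1, ∀ U ∈ Z.1, U.1 ⊆ C.1 → U ≠ C → (g U).1 ⊆ C.1 := by
    refine ind (fun C => ∀ U ∈ Z.1, U.1 ⊆ C.1 → U ≠ C → (g U).1 ⊆ C.1)
      (fun U hU h e => (e (Subtype.ext (h.antisymm (ha U hU)))).elim)
      (fun C hC he U hU h e => ?_) fun D hD _ W h1 h2 U hU h e => ?_
    · rcases hb C hC he U hU with h' | h'
      · rcases eq_or_ne U C with rfl | e'
        · exact subset_rfl
        · exact (he U hU h' e').trans (hg C)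
      · exact (e (Subtype.ext (h.antisymm h'))).elim
    · by_contra h'
      refine e (Subtype.ext (h.antisymm (h2 U fun V hV => ?_)))
      rcases hb V (hD V hV).1 (hD V hV).2 U hU with h3 | h3
      · rcases eq_or_ne U V with rfl | e'
        · exact subset_rfl
        · exact (h' (((hD V hV).2 U hU h3 e').trans (h1 V hV))).elim
      · exact (hg V).trans h3
  have hW : CS E fun t : T => ∃ V ∈ Z.1, t ∈ V.1 := inferInstance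
  have h1 := zu Z subset_rfl ⟨U0, z0⟩ (fun V hV V' hV' =>
    (hb V' hV' (hc V' hV') V hV).imp_right (hg V').trans) ⟨Set.ofPred _, hW⟩ fun _ => Iff.rfl
  exact ⟨_, ha _ h1, fun t ht => ⟨_, zg _ h1, ht⟩, (hZ _).1 h1⟩

theorem mzorn {T : Type} [CT E T] (F : Set (PW E T)) [CM E (T := PW E T) F]
    (hc : ∀ C : PW E (PW E T), C.1 ⊆ F → C.1.Nonempty →
      (∀ U ∈ C.1, ∀ V ∈ C.1, U.1 ⊆ V.1 ∨ V.1 ⊆ U.1) →
      ∀ W : PW E T, (∀ t, t ∈ W.1 ↔ ∃ V ∈ C.1, t ∈ V.1) → W ∈ F)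
    {U0 : PW E T} (h0 : U0 ∈ F) : ∃ U ∈ F, U0.1 ⊆ U.1 ∧ ∀ V ∈ F, U.1 ⊆ V.1 → V = U := by
  obtain ⟨g, hg, h⟩ := CF.choice (E := E) (fun U V : PW E T => (U ∈ F → V ∈ F) ∧ U.1 ⊆ V.1 ∧
      (U ∈ F → V.1 ⊆ U.1 → ∀ V' ∈ F, U.1 ⊆ V'.1 → V' = U)) fun U => by
    by_cases h : U ∈ F → ∀ V' ∈ F, U.1 ⊆ V'.1 → V' = U
    · exact ⟨U, id, subset_rfl, fun hU _ => h hU⟩
    · push Not at h
      obtain ⟨-, V, h1, h2, h3⟩ := h
      exact ⟨V, fun _ => h1, h2, fun _ h4 => (h3 (Subtype.ext (h4.antisymm h2))).elim⟩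
  obtain ⟨W, h1, h2, h3⟩ := fixMZorn g (fun U => (h U).2.1) U0
  have h4 : W ∈ F := h3 ⟨F, CM.out⟩ h0 (fun V => (h V).1) hc
  exact ⟨W, h4, h1, (h W).2.2 h4 h2⟩

theorem zorn_avoid {S N : Type} [Ring S] [CT E S] [AddCommGroup N] [Module S N] [CT E N]
    [CAdd E N] [CSm E S N] (T0 : Set N) [CM E (T := N) T0] (U0 : Submodule S N)
    [CM E (T := N) U0] (h0 : ∀ x ∈ T0, x ∉ U0) :
    ∃ U : Submodule S N, CM E (T := N) U ∧ U0 ≤ U ∧ (∀ x ∈ T0, x ∉ U) ∧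
      ∀ V : Submodule S N, CM E (T := N) V → U ≤ V → (∀ x ∈ T0, x ∉ V) → V = U := by
  have hF : CS E fun U : PW E N => (0 : N) ∈ U.1 ∧ (∀ a b, a ∈ U.1 → b ∈ U.1 → a + b ∈ U.1) ∧
      (∀ (r : S) a, a ∈ U.1 → r • a ∈ U.1) ∧ ∀ a ∈ T0, a ∉ U.1 := inferInstance
  let F : Set (PW E N) := {U | (0 : N) ∈ U.1 ∧ (∀ a b, a ∈ U.1 → b ∈ U.1 → a + b ∈ U.1) ∧
      (∀ (r : S) a, a ∈ U.1 → r • a ∈ U.1) ∧ ∀ a ∈ T0, a ∉ U.1}
  have : CM E (T := PW E N) F := ⟨hF⟩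
  have hm : ∀ (V : Submodule S N) (h : CM E (T := N) V), (∀ x ∈ T0, x ∉ V) →
      (⟨V, h.out⟩ : PW E N) ∈ F := fun V _ h =>
    ⟨V.zero_mem, fun _ _ => V.add_mem, fun r _ => V.smul_mem r, h⟩
  obtain ⟨U, ⟨h1, h2, h3, h4⟩, h5, h6⟩ := mzorn F (fun C hC ⟨V, hV⟩ hc W hW => by
    refine ⟨(hW _).2 ⟨V, hV, (hC hV).1⟩, fun a b ha hb => ?_, fun r a ha => ?_, fun a ha h => ?_⟩
    · obtain ⟨A, hA, ha⟩ := (hW _).1 ha
      obtain ⟨B, hB, hb⟩ := (hW _).1 hb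
      rcases hc A hA B hB with h | h
      · exact (hW _).2 ⟨B, hB, (hC hB).2.1 _ _ (h ha) hb⟩
      · exact (hW _).2 ⟨A, hA, (hC hA).2.1 _ _ ha (h hb)⟩
    · obtain ⟨A, hA, ha⟩ := (hW _).1 ha
      exact (hW _).2 ⟨A, hA, (hC hA).2.2.1 _ _ ha⟩
    · obtain ⟨A, hA, h⟩ := (hW _).1 h
      exact (hC hA).2.2.2 a ha h) (hm U0 inferInstance h0)
  exact ⟨⟨⟨⟨U.1, h2 _ _⟩, h1⟩, fun r _ => h3 r _⟩, ⟨U.2⟩, h5, h4, fun V hV h h' =>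
    SetLike.ext' (congrArg Subtype.val (h6 _ (hm V hV h') h))⟩

end Pool.Agent.Work.MP_c4093f_al
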