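import Pool.Agent.Work.MP_c4093f_al.Basic

/-!
Polynomial functions `Deg X n F` (see Defs) and the ring `Fn X`.

Plan: everything is a plain induction on the inductive predicate `Deg`.
* `Deg.add`: induction on the second summand (fix the level; use `Deg.congr`).
* `Deg.mul`: induction on the first factor; `(F + p X G) H = F H + p X (G H)`.
* `Deg.comp`: `p * X i (σ δ) * G (σ δ)` is a product of degree `1` and degree `n`.
* `Deg.rep`: append one term with `Fin.snoc` or `Fin.cons`.
* `countable_Fn`: by induction on `n` the set of `F` with `Deg X n F` is countable (use `Deg.rep`).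
-/

namespace Pool.Agent.Work.MP_c4093f_al

variable {A D ι : Type} [Ring A] {X : ι → D → A}

theorem Deg.congr {n : ℕ} {F G : D → A} (h : Deg X n F) (e : ∀ δ, G δ = F δ) : Deg X n G := by
  rw [funext e]; exact h

theorem Poly_succ {n : ℕ} {F : D → A} (h : Deg X n F) : Deg X (n + 1) F := by
  induction h with
  | const n a => exact Deg.const _ a
  | step n F p i G _ _ ih ih' => exact Deg.step _ F p i G ih ih'

theorem Poly_add_const {n : ℕ} {F : D → A} (h : Deg X n F) (a : A) :
    Deg X n (fun δ => F δ + a) := by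
  induction h with
  | const n b => exact Deg.const n (b + a)
  | step n F p i G _ h2 ih _ =>
    exact (Deg.step n _ p i G ih h2).congr fun δ => add_right_comm _ _ _

theorem Deg.mono {n m : ℕ} {F : D → A} (h : Deg X n F) (hn : n ≤ m) : Deg X m F := by
  induction hn with
  | refl => exact h
  | step _ ih => exact Poly_succ ih

theorem Deg.zero_iff {F : D → A} : Deg X 0 F ↔ ∃ a, F = fun _ => a := by
  refine ⟨fun h => ?_, fun ⟨a, h⟩ => h ▸ Deg.const 0 a⟩
  cases h with
  | const _ a => exact ⟨a, rfl⟩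

theorem Deg.add {n : ℕ} {F G : D → A} (h : Deg X n F) (h' : Deg X n G) :
    Deg X n (fun δ => F δ + G δ) := by
  induction h' generalizing F with
  | const n a => exact Poly_add_const h a
  | step n G p i H _ h2 ih _ =>
    exact (Deg.step n _ p i H (ih h) h2).congr fun δ => (add_assoc _ _ _).symm

theorem Deg.lmul {n : ℕ} {F : D → A} (h : Deg X n F) (a : A) : Deg X n (fun δ => a * F δ) := by
  induction h with
  | const n b => exact Deg.const n (a * b)
  | step n G p i H _ h2 ih _ =>
    exact (Deg.step n _ (a * p) i H ih h2).congr fun δ => by simp only [mul_add, mul_assoc]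

theorem Deg.rmul {n : ℕ} {F : D → A} (h : Deg X n F) (a : A) : Deg X n (fun δ => F δ * a) := by
  induction h with
  | const n b => exact Deg.const n (b * a)
  | step n G p i H _ _ ih ih' =>
    exact (Deg.step n _ p i _ ih ih').congr fun δ => by simp only [add_mul, mul_assoc]

theorem Deg.neg {n : ℕ} {F : D → A} (h : Deg X n F) : Deg X n (fun δ => - F δ) := by
  exact (h.lmul (-1)).congr fun δ => (neg_one_mul _).symm

theorem Deg.sub {n : ℕ} {F G : D → A} (h : Deg X n F) (h' : Deg X n G) :
    Deg X n (fun δ => F δ - G δ) := by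
  exact (h.add h'.neg).congr fun δ => sub_eq_add_neg _ _

theorem Deg.sum {κ : Type} {n : ℕ} (s : Finset κ) {F : κ → D → A} (h : ∀ j ∈ s, Deg X n (F j)) :
    Deg X n (fun δ => ∑ j ∈ s, F j δ) := by
  classical
  induction s using Finset.induction_on with
  | empty => exact (Deg.const n 0).congr fun δ => Finset.sum_empty
  | insert j s hj ih =>
    exact ((h j (Finset.mem_insert_self _ _)).add
      (ih fun i hi => h i (Finset.mem_insert_of_mem hi))).congr fun δ => Finset.sum_insert hj

theorem Deg.var (i : ι) : Deg X 1 (X i) := by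
  exact (Deg.step 0 _ 1 i _ (Deg.const 1 0) (Deg.const 0 1)).congr fun δ => by simp

theorem Deg.mul {n m : ℕ} {F G : D → A} (h : Deg X n F) (h' : Deg X m G) :
    Deg X (n + m) (fun δ => F δ * G δ) := by
  induction h with
  | const n a => exact (h'.lmul a).mono (Nat.le_add_left m n)
  | step n F p i H _ _ ih ih' =>
    rw [Nat.add_right_comm] at ih ⊢
    exact (Deg.step (n + m) _ p i _ ih ih').congr fun δ => by simp only [add_mul, mul_assoc]

theorem Deg.comp {D' ι' : Type} {X' : ι' → D' → A} {σ : D' → D}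
    (hσ : ∀ i, Deg X' 1 (fun δ => X i (σ δ))) {n : ℕ} {F : D → A} (h : Deg X n F) :
    Deg X' n (fun δ => F (σ δ)) := by
  induction h with
  | const n a => exact Deg.const n a
  | step n F p i H _ _ ih ih' =>
    have := ((hσ i).lmul p).mul ih'
    rw [Nat.add_comm] at this
    exact ih.add this

theorem Deg.rep {n : ℕ} {F : D → A} (h : Deg X (n + 1) F) :
    ∃ (m : ℕ) (z : A) (p : Fin m → A) (ty : Fin m → ι) (G : Fin m → D → A),
      (∀ j, Deg X n (G j)) ∧ ∀ δ, F δ = z + ∑ j, p j * X (ty j) δ * G j δ := by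
  generalize hk : n + 1 = k at h
  induction h with
  | const _ a => exact ⟨0, a, Fin.elim0, Fin.elim0, Fin.elim0, fun j => j.elim0, fun δ => by simp⟩
  | step l F q i H _ h2 ih _ =>
    obtain ⟨m, z, p, ty, G, h3, h4⟩ := ih hk
    obtain rfl : n = l := Nat.succ_injective hk
    refine ⟨m + 1, z, Fin.cons q p, Fin.cons i ty, Fin.cons H G, fun j => ?_, fun δ => ?_⟩
    · refine Fin.cases ?_ (fun j => ?_) j
      · exact h2
      · exact h3 j
    · simp only [Fin.sum_univ_succ, Fin.cons_zero, Fin.cons_succ, h4]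
      abel

theorem Deg.rep1 {F : D → A} (h : Deg X 1 F) :
    ∃ (m : ℕ) (z : A) (p : Fin m → A) (ty : Fin m → ι) (q : Fin m → A),
      ∀ δ, F δ = z + ∑ j, p j * X (ty j) δ * q j := by
  obtain ⟨m, z, p, ty, G, h1, h2⟩ := Deg.rep (n := 0) h
  choose q hq using fun j => Deg.zero_iff.1 (h1 j)
  exact ⟨m, z, p, ty, q, fun δ => by simp only [h2, hq]⟩

theorem Deg.pencil {κ : Type} (s : Finset κ) (z : A) (p : κ → A) (ty : κ → ι) (q : κ → A) :
    Deg X 1 (fun δ => z + ∑ j ∈ s, p j * X (ty j) δ * q j) := by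
  exact (Deg.const 1 z).add (Deg.sum s fun j _ => ((Deg.var (ty j)).lmul (p j)).rmul (q j))

/-- the ring of polynomial functions -/
def Fn (X : ι → D → A) : Subring (D → A) where
  carrier := {F | ∃ n, Deg X n F}
  mul_mem' := fun ⟨n, h⟩ ⟨m, h'⟩ => ⟨n + m, h.mul h'⟩
  one_mem' := ⟨0, Deg.const 0 1⟩
  add_mem' := fun ⟨n, h⟩ ⟨m, h'⟩ =>
    ⟨n + m, (h.mono (Nat.le_add_right n m)).add (h'.mono (Nat.le_add_left m n))⟩
  zero_mem' := ⟨0, Deg.const 0 0⟩
  neg_mem' := fun ⟨n, h⟩ => ⟨n, h.neg⟩

theorem mem_Fn {F : D → A} : F ∈ Fn X ↔ ∃ n, Deg X n F := Iff.rfl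

theorem Deg.mem {n : ℕ} {F : D → A} (h : Deg X n F) : F ∈ Fn X := ⟨n, h⟩

theorem const_mem_Fn (a : A) : (fun _ : D => a) ∈ Fn X := ⟨0, Deg.const 0 a⟩

theorem var_mem_Fn (i : ι) : X i ∈ Fn X := ⟨1, Deg.var i⟩

theorem comp_mem_Fn {D' ι' : Type} {X' : ι' → D' → A} {σ : D' → D}
    (hσ : ∀ i, Deg X' 1 (fun δ => X i (σ δ))) {F : D → A} (h : F ∈ Fn X) :
    (fun δ => F (σ δ)) ∈ Fn X' := by
  obtain ⟨n, h⟩ := h
  exact ⟨n, h.comp hσ⟩

theorem countable_Fn [Countable A] [Countable ι] : Countable (Fn X) := by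
  have h : ∀ n, {F | Deg X n F}.Countable := fun n => by
    induction n with
    | zero =>
      exact (Set.countable_range fun (a : A) (_ : D) => a).mono fun F hF =>
        (Deg.zero_iff.1 hF).imp fun _ e => e.symm
    | succ n ih =>
      have := ih.to_subtype
      refine (Set.countable_range
        fun (w : Σ m : ℕ, A × (Fin m → A) × (Fin m → ι) × (Fin m → {F | Deg X n F})) (δ : D) =>
          w.2.1 + ∑ j, w.2.2.1 j * X (w.2.2.2.1 j) δ * (w.2.2.2.2 j).1 δ).mono fun F hF => ?_
      obtain ⟨m, z, p, ty, G, h1, h2⟩ := Deg.rep hF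
      exact ⟨⟨m, z, p, ty, fun j => ⟨G j, h1 j⟩⟩, funext fun δ => (h2 δ).symm⟩
  exact ((Set.countable_iUnion h).mono fun F hF => Set.mem_iUnion.2 hF).to_subtype

/-- a subring that contains the images of the constants and of the variables contains the image
of every polynomial function -/
theorem Fn_gen {A' : Type} [Ring A'] (χ : Fn X →+* A') (S : Subring A')
    (h1 : ∀ a, χ ⟨fun _ => a, const_mem_Fn a⟩ ∈ S) (h2 : ∀ i, χ ⟨X i, var_mem_Fn i⟩ ∈ S)
    (F : Fn X) : χ F ∈ S := by
  obtain ⟨F, n, h⟩ := F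
  induction h with
  | const n a => exact h1 a
  | step n F p i H h3 h4 ih ih' =>
    have := S.add_mem ih (S.mul_mem (S.mul_mem (h1 p) (h2 i)) ih')
    rw [← map_mul, ← map_mul, ← map_add] at this
    exact this

end Pool.Agent.Work.MP_c4093f_al
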