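import Pool.Agent.Work.MP_c4093f_al.Free2
import Pool.Agent.Work.MP_c4093f_al.Poly

/-!
Polynomial functions of one variable `ρ ∈ A`.

* `freeze`: `fun ρ => F (δ0 + ρ)` has a degree (`Deg.comp`), use `Deg.rep` and put `ρ = 0`.
* `ind`: let `W` be the span of `H` and the `G i` (finite dimensional, inside `FnU A`).  For a point
  `δ` let `V δ = {w ∈ W | w δ = 0}`.  For points `δ1 δ2` there is `δ` with `V δ ≤ V δ1 ⊓ V δ2`:
  freeze the finitely many generators at `δ1` and at `δ2`, apply `av2` to all values at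
  `δ1, δ2` and all coefficients, and put `δ = π δ1 + (1 - π) δ2`, so `δ = δ1 + (1 - π) (δ2 - δ1)`
  and `u1 * w δ = u1 * w δ1`, likewise `u2 * w δ = u2 * w δ2`.  A point with `V δ` of minimal
  dimension has `V δ = 0`.
* `tails`: induction on `Deg`; for `F + p X G` take the tails of `F`, the function `G` and the
  tails of `G`.
* `poly_ind`: outer induction on the degree `n`, inner induction on a finset `s` for all
  `F = F0 + ∑ j ∈ s, p j * ρ * D j ρ` with `F0` and `D j` of degree `n` (start from `Deg.rep`).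
  Pick `j0 ∈ s`; let `G` list the `D j` (`j ≠ j0`), the tails of `F0` and of all `D j`.  If
  `D j0 = ∑ λ j • D j + H` with `H` in the span of the tails, then `p j0 * ρ * H ρ` has degree `n`
  (tails have degree `< n`; if `n = 0` there are none): regroup and use the inner hypothesis.
  Otherwise `ind` gives `δ0`, and `hs` applies with `F' = F - p j0 ρ D j0`.
* `cl`: `poly_ind` with `Φ F := (∀ δ, F δ ∈ K) → InK K F`.  `frspan` gives `x (Dd δ0) c = 1`,
  `x (g i) c = 0`, so `p = F (δ0 + x) c - F δ0 c ∈ K`; use `InK.const_mul`, `InK.add`.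
-/

namespace Pool.Agent.Work.MP_c4093f_al

variable {k A : Type} [Field k] [Ring A] [Algebra k A]

/-- the single variable -/
def XU (A : Type) : Unit → A → A := fun _ ρ => ρ

/-- polynomial functions of one variable -/
abbrev FnU (A : Type) [Ring A] : Subring (A → A) := Fn (XU A)

theorem deg_L (δ0 π : A) : Deg (XU A) 1 (fun ρ => δ0 + π * ρ) :=
  (Deg.step 0 _ π () _ (Deg.const 1 δ0) (Deg.const 0 1)).congr fun ρ => by simp [XU]

theorem comp_mem_FnU {σ : A → A} (hσ : Deg (XU A) 1 σ) {F : A → A} (hF : F ∈ FnU A) :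
    (fun ρ => F (σ ρ)) ∈ FnU A := comp_mem_Fn (X := XU A) (fun _ => hσ) hF

theorem freeze {F : A → A} (hF : F ∈ FnU A) (δ0 : A) :
    ∃ (m : ℕ) (g : Fin m → A) (G : Fin m → A → A), (∀ j, G j ∈ FnU A) ∧
      ∀ ρ, F (δ0 + ρ) = F δ0 + ∑ j, g j * ρ * G j ρ := by
  obtain ⟨n, hn⟩ := hF
  obtain ⟨m, z, p, ty, G, h1, h2⟩ := ((hn.comp (X := XU A) (σ := fun ρ => δ0 + 1 * ρ)
    fun _ => deg_L δ0 1).mono n.le_succ).rep
  have h3 := h2 0
  simp only [XU, one_mul, add_zero, mul_zero, zero_mul, Finset.sum_const_zero] at h2 h3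
  exact ⟨m, p, G, fun j => (h1 j).mem, fun ρ => by rw [h2, h3]⟩

theorem PolyInd_two [Nontrivial A] (hP : PI A) (lv : Lv A) (hC : Cen k A) {κ : Type} [Fintype κ]
    (s : κ → A → A) (hs : ∀ o, s o ∈ FnU A) (δ1 δ2 : A) : ∃ δ, ∀ l : κ → k,
      ∑ o, l o • s o δ = 0 → ∑ o, l o • s o δ1 = 0 ∧ ∑ o, l o • s o δ2 = 0 := by
  choose m1 g1 G1 _ h1 using fun o => freeze (hs o) δ1
  choose m2 g2 G2 _ h2 using fun o => freeze (hs o) δ2
  let t : (κ ⊕ κ) ⊕ ((Σ o, Fin (m1 o)) ⊕ (Σ o, Fin (m2 o))) → A :=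
    Sum.elim (Sum.elim (fun o => s o δ1) fun o => s o δ2)
      (Sum.elim (fun x => g1 x.1 x.2) fun x => g2 x.1 x.2)
  obtain ⟨u1, u2, π, a1, a2, a3⟩ := av2 hP lv hC t
  have b1 : ∀ o, u1 * s o (δ1 + (1 - π) * (δ2 - δ1)) = u1 * s o δ1 := fun o => by
    rw [h1, mul_add, Finset.mul_sum, Finset.sum_eq_zero, add_zero]
    intro j _
    have e : u1 * g1 o j * π = u1 * g1 o j := (a3 (Sum.inr (Sum.inl ⟨o, j⟩))).1
    rw [← mul_assoc, ← mul_assoc, ← mul_assoc, mul_sub (u1 * g1 o j), mul_one, e, sub_self,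
      zero_mul, zero_mul]
  have b2 : ∀ o, u2 * s o (δ1 + (1 - π) * (δ2 - δ1)) = u2 * s o δ2 := fun o => by
    rw [show δ1 + (1 - π) * (δ2 - δ1) = δ2 + π * (δ1 - δ2) by noncomm_ring, h2, mul_add,
      Finset.mul_sum, Finset.sum_eq_zero, add_zero]
    intro j _
    have e : u2 * g2 o j * π = 0 := (a3 (Sum.inr (Sum.inr ⟨o, j⟩))).2
    rw [← mul_assoc, ← mul_assoc, ← mul_assoc, e, zero_mul, zero_mul]
  refine ⟨δ1 + (1 - π) * (δ2 - δ1), fun l hl => ⟨a1 _ (Submodule.sum_mem _ fun o _ =>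
    Submodule.smul_mem _ _ (Submodule.subset_span ⟨Sum.inl (Sum.inl o), rfl⟩)) ?_,
    a2 _ (Submodule.sum_mem _ fun o _ =>
    Submodule.smul_mem _ _ (Submodule.subset_span ⟨Sum.inl (Sum.inr o), rfl⟩)) ?_⟩⟩
  · have := congrArg (u1 * ·) hl
    simpa only [Finset.mul_sum, mul_smul_comm, b1, mul_zero] using this
  · have := congrArg (u2 * ·) hl
    simpa only [Finset.mul_sum, mul_smul_comm, b2, mul_zero] using this

theorem PolyInd_gen [Nontrivial A] (hP : PI A) (lv : Lv A) (hC : Cen k A) {κ : Type} [Fintype κ]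
    (s : κ → A → A) (hs : ∀ o, s o ∈ FnU A) : ∃ δ0, ∀ l : κ → k,
      ∑ o, l o • s o δ0 = 0 → ∀ δ, ∑ o, l o • s o δ = 0 := by
  let V : A → Submodule k (κ → k) := fun δ =>
    LinearMap.ker (Fintype.linearCombination k fun o => s o δ)
  have hV : ∀ δ l, l ∈ V δ ↔ ∑ o, l o • s o δ = 0 := fun δ l => Iff.rfl
  obtain ⟨δ0, h0⟩ := exists_minimalFor_of_wellFoundedLT (fun _ : A => True)
    (fun δ => Module.finrank k (V δ)) ⟨0, trivial⟩
  refine ⟨δ0, fun l hl δ1 => ?_⟩
  obtain ⟨δ, h⟩ := PolyInd_two hP lv hC s hs δ0 δ1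
  have h1 : V δ ≤ V δ0 := fun l hl => (h l hl).1
  have h2 : V δ = V δ0 := Submodule.eq_of_le_of_finrank_le h1
    (h0.2 trivial (Submodule.finrank_mono h1))
  exact (h l ((hV δ l).1 (h2 ▸ (hV δ0 l).2 hl))).2

theorem ind [Nontrivial A] (hP : PI A) (lv : Lv A) (hC : Cen k A) {ι : Type} [Finite ι]
    (G : ι → A → A) (hG : ∀ i, G i ∈ FnU A) {H : A → A} (hH : H ∈ FnU A)
    (h : H ∉ Submodule.span k (Set.range G)) :
    ∃ δ0, H δ0 ∉ Submodule.span k (Set.range fun i => G i δ0) := by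
  have := Fintype.ofFinite ι
  obtain ⟨δ0, h0⟩ := PolyInd_gen hP lv hC (fun o : Option ι => o.elim H G) (by
    rintro (_ | i)
    · exact hH
    · exact hG i)
  refine ⟨δ0, fun h1 => h ?_⟩
  obtain ⟨l, hl⟩ := (Submodule.mem_span_range_iff_exists_fun k).1 h1
  refine (Submodule.mem_span_range_iff_exists_fun k).2 ⟨l, funext fun δ => ?_⟩
  have h2 := h0 (fun o => o.elim (-1) l) (by simp [Fintype.sum_option, hl]) δ
  simp only [Fintype.sum_option, Option.elim_none, Option.elim_some, neg_smul, one_smul] at h2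
  rw [Finset.sum_apply]
  exact (neg_add_eq_zero.1 h2).symm

theorem PolyInd_tails {n : ℕ} {F : A → A} (hF : Deg (XU A) n F) :
    ∃ L : List (A → A), (∀ T ∈ L, ∃ r, r < n ∧ Deg (XU A) r T) ∧
      ∀ δ0 ρ c, (∀ T ∈ L, ρ * T δ0 * c = 0) → F (δ0 + ρ) * c = F δ0 * c := by
  induction hF with
  | const n a => exact ⟨[], by simp, fun _ _ _ _ => rfl⟩
  | step n F p i G _ hG ih1 ih2 =>
    obtain ⟨L1, a1, b1⟩ := ih1
    obtain ⟨L2, a2, b2⟩ := ih2
    refine ⟨G :: (L1 ++ L2), fun T hT => ?_, fun δ0 ρ c h => ?_⟩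
    · rcases List.mem_cons.1 hT with rfl | hT
      · exact ⟨n, n.lt_succ_self, hG⟩
      · rcases List.mem_append.1 hT with hT | hT
        · exact a1 T hT
        · exact (a2 T hT).imp fun r hr => ⟨hr.1.trans n.lt_succ_self, hr.2⟩
    · have c1 := b1 δ0 ρ c fun T hT => h T (List.mem_cons_of_mem _ (List.mem_append_left _ hT))
      have c2 := b2 δ0 ρ c fun T hT => h T (List.mem_cons_of_mem _ (List.mem_append_right _ hT))
      have c3 := h G List.mem_cons_self
      simp only [XU]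
      rw [add_mul, add_mul, c1, mul_assoc _ _ c, c2, mul_add, add_mul, mul_assoc p ρ,
        ← mul_assoc ρ, c3, mul_zero, add_zero, ← mul_assoc]

theorem tails {n : ℕ} {F : A → A} (hF : Deg (XU A) n F) :
    ∃ (m : ℕ) (T : Fin m → A → A), (∀ j, ∃ r, r < n ∧ Deg (XU A) r (T j)) ∧
      ∀ δ0 ρ c, (∀ j, ρ * T j δ0 * c = 0) → F (δ0 + ρ) * c = F δ0 * c := by
  obtain ⟨L, h1, h2⟩ := PolyInd_tails hF
  refine ⟨L.length, L.get, fun j => h1 _ (L.get_mem j), fun δ0 ρ c h => h2 δ0 ρ c fun T hT => ?_⟩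
  obtain ⟨j, rfl⟩ := List.mem_iff_get.1 hT
  exact h j

theorem PolyInd_span {κ ι : Type} {n : ℕ} (s : Finset κ) (D : κ → A → A) (G : ι → A → A)
    (hG : ∀ i, (∃ j ∈ s, G i = D j) ∨ ∃ r, r < n ∧ Deg (XU A) r (G i)) (p : A) {H : A → A}
    (hH : H ∈ Submodule.span k (Set.range G)) : ∃ (q : κ → A) (E : A → A), Deg (XU A) n E ∧
      ∀ ρ, p * ρ * H ρ = E ρ + ∑ j ∈ s, q j * ρ * D j ρ := by
  classical
  induction hH using Submodule.span_induction with
  | mem H hH =>
    obtain ⟨i, rfl⟩ := hH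
    rcases hG i with ⟨j, hj, e⟩ | ⟨r, hr, h⟩
    · refine ⟨Pi.single j p, fun _ => 0, Deg.const n 0, fun ρ => ?_⟩
      rw [Finset.sum_eq_single_of_mem j hj fun b _ hb => by
        rw [Pi.single_eq_of_ne hb, zero_mul, zero_mul], Pi.single_eq_same, zero_add, e]
    · exact ⟨0, _, (Deg.step r _ p () _ (Deg.const _ 0) h).mono hr, fun ρ => by simp [XU]⟩
  | zero => exact ⟨0, fun _ => 0, Deg.const n 0, fun ρ => by simp⟩
  | add H H' _ _ h h' =>
    obtain ⟨q, E, h1, h2⟩ := h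
    obtain ⟨q', E', h3, h4⟩ := h'
    refine ⟨q + q', _, h1.add h3, fun ρ => ?_⟩
    simp only [Pi.add_apply, mul_add, add_mul, h2, h4, Finset.sum_add_distrib]
    abel
  | smul a H _ h =>
    obtain ⟨q, E, h1, h2⟩ := h
    refine ⟨a • q, _, h1.lmul (algebraMap k A a), fun ρ => ?_⟩
    simp only [Pi.smul_apply, mul_smul_comm, smul_mul_assoc, h2, ← Algebra.smul_def, smul_add,
      Finset.smul_sum]

theorem poly_ind [Nontrivial A] (hP : PI A) (lv : Lv A) (hC : Cen k A) (Φ : (A → A) → Prop)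
    (hc : ∀ a, Φ (fun _ => a))
    (hs : ∀ (F' : A → A) (p : A) (Dd : A → A) (δ0 : A) (m : ℕ) (g : Fin m → A),
      F' ∈ FnU A → Dd ∈ FnU A → Dd δ0 ∉ Submodule.span k (Set.range g) →
      (∀ ρ c, (∀ i, ρ * g i * c = 0) →
        (F' (δ0 + ρ) + p * (δ0 + ρ) * Dd (δ0 + ρ)) * c =
          (F' δ0 + p * δ0 * Dd δ0) * c + p * ρ * Dd δ0 * c) →
      Φ F' → Φ (fun ρ => F' ρ + p * ρ * Dd ρ)) :
    ∀ F ∈ FnU A, Φ F := by
  classical
  rintro F ⟨n, hn⟩
  induction n generalizing F with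
  | zero =>
    obtain ⟨a, rfl⟩ := Deg.zero_iff.1 hn
    exact hc a
  | succ n ih =>
    obtain ⟨m, z, p, ty, D, hD, hF⟩ := hn.rep
    have key : ∀ (s : Finset (Fin m)) (F0 : A → A) (p : Fin m → A), Deg (XU A) n F0 →
        Φ fun ρ => F0 ρ + ∑ j ∈ s, p j * ρ * D j ρ := by
      intro s
      induction s using Finset.induction_on with
      | empty =>
        intro F0 p h0
        simpa using ih F0 h0
      | insert j0 s hj ih2 =>
        intro F0 p h0
        obtain ⟨m0, T0, a0, b0⟩ := tails h0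
        choose m1 T1 a1 b1 using fun j => tails (hD j)
        let G : s ⊕ (Fin m0 ⊕ Σ j, Fin (m1 j)) → A → A :=
          Sum.elim (fun j => D j) (Sum.elim T0 fun x => T1 x.1 x.2)
        have hG : ∀ i, (∃ j ∈ s, G i = D j) ∨ ∃ r, r < n ∧ Deg (XU A) r (G i) := by
          rintro (j | i | x)
          · exact Or.inl ⟨j, j.2, rfl⟩
          · exact Or.inr (a0 i)
          · exact Or.inr (a1 x.1 x.2)
        simp only [Finset.sum_insert hj]
        by_cases hsp : D j0 ∈ Submodule.span k (Set.range G)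
        · obtain ⟨q, E, h1, h2⟩ := PolyInd_span s D G hG (p j0) hsp
          have h3 := ih2 _ (p + q) (h0.add h1)
          refine (congrArg Φ (funext fun ρ => ?_)).mp h3
          simp only [Pi.add_apply, add_mul, h2, Finset.sum_add_distrib]
          abel
        · obtain ⟨δ0, h1⟩ := ind hP lv hC G (fun i => by
            rcases hG i with ⟨j, -, e⟩ | ⟨r, -, h⟩
            · exact e ▸ (hD j).mem
            · exact h.mem) (hD j0).mem hsp
          obtain ⟨m2, ⟨e⟩⟩ := Finite.exists_equiv_fin (s ⊕ (Fin m0 ⊕ Σ j, Fin (m1 j)))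
          have h2 := hs (fun ρ => F0 ρ + ∑ j ∈ s, p j * ρ * D j ρ) (p j0) (D j0) δ0 m2
            (fun i => G (e.symm i) δ0) ?_ (hD j0).mem ?_ ?_ (ih2 F0 p h0)
          · refine (congrArg Φ (funext fun ρ => ?_)).mp h2
            abel
          · exact ((h0.mono n.le_succ).add (Deg.sum s fun j _ =>
              (Deg.step n _ (p j) () _ (Deg.const _ 0) (hD j)).congr fun ρ => by simp [XU])).mem
          · rwa [e.symm.surjective.range_comp (fun i => G i δ0) |>.symm] at h1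
          · intro ρ c h
            have h3 : ∀ i, ρ * G i δ0 * c = 0 := fun i => by simpa using h (e i)
            have c0 := b0 δ0 ρ c fun i => h3 (Sum.inr (Sum.inl i))
            have c1 := fun j => b1 j δ0 ρ c fun i => h3 (Sum.inr (Sum.inr ⟨j, i⟩))
            have c2 : ∑ j ∈ s, p j * (δ0 + ρ) * D j (δ0 + ρ) * c =
                ∑ j ∈ s, p j * δ0 * D j δ0 * c := Finset.sum_congr rfl fun j hj => by
              have c3 : ρ * D j δ0 * c = 0 := h3 (Sum.inl ⟨j, hj⟩)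
              rw [mul_assoc _ _ c, c1, mul_add, add_mul, mul_assoc (p j) ρ, ← mul_assoc ρ, c3,
                mul_zero, add_zero, ← mul_assoc]
            simp only [add_mul, Finset.sum_mul]
            rw [c0, c2, mul_assoc _ _ c, c1, mul_add, add_mul]
            simp only [mul_assoc, add_assoc]
    exact (congrArg Φ (funext fun ρ => (hF ρ).symm)).mp (key Finset.univ _ p (Deg.const n z))

theorem cl [Nontrivial A] (hP : PI A) (lv : Lv A) (hC : Cen k A) {F : A → A} (hF : F ∈ FnU A)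
    {K : RI A} (h : ∀ δ, F δ ∈ K) : InK K F := by
  refine poly_ind hP lv hC (fun F => (∀ δ, F δ ∈ K) → InK K F) (fun a ha => InK.const hP (ha 0))
    (fun F' p Dd δ0 m g _ _ hd h1 ih h2 => ?_) F hF h
  obtain ⟨x, c, h3, h4⟩ := frspan hP lv hC g hd
  have h5 := h1 x c h4
  rw [mul_assoc p x, mul_assoc p (x * Dd δ0), h3, mul_one] at h5
  have hp : p ∈ K := by
    have := K.sub_mem (rmul K (h2 (δ0 + x)) c) (rmul K (h2 δ0) c)
    rwa [h5, add_sub_cancel_left] at this
  have h6 := ih fun δ => by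
    simpa using K.sub_mem (h2 δ) (rmul K (rmul K hp δ) (Dd δ))
  exact (h6.add hP (InK.const_mul hP hp fun δ => δ * Dd δ)).congr fun δ => by rw [mul_assoc]

end Pool.Agent.Work.MP_c4093f_al
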