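import Pool.Agent.Work.MP_c4093f_al.Defs

/-!
Countable stages inside a fixed ambient algebra `Ω`; ideals and pins are given by subsets of `Ω`.
-/

namespace Pool.Agent.Work.MP_c4093f_al

variable {k Ω : Type} [Field k] [Ring Ω] [Algebra k Ω]

/-- the right ideal of `R` generated by `K0 ∩ R` -/
def genR (R : Subalgebra k Ω) (K0 : Set Ω) : RI R := Submodule.span Rᵐᵒᵖ {x : R | x.1 ∈ K0}

/-- the left ideal of `R` generated by `K0 ∩ R` -/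
def genL (R : Subalgebra k Ω) (K0 : Set Ω) : Ideal R := Ideal.span {x : R | x.1 ∈ K0}

/-- the data of a pin as subsets of `Ω` -/
structure SPin (Ω : Type) where
  K : Set Ω
  J : Set (Ω × Ω)
  a : Ω
  tJ : Bool

/-- the data lie in `R` -/
def SPin.inR (π : SPin Ω) (R : Subalgebra k Ω) : Prop :=
  π.K ⊆ R ∧ (∀ vc ∈ π.J, vc.1 ∈ R ∧ vc.2 ∈ R) ∧ π.a ∈ R

variable (k Ω) in
/-- the ambient algebra with its first stage -/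
structure Amb where
  A0 : Subalgebra k Ω
  P0 : Set Ω
  L1 : Set Ω
  L2 : Set Ω
  hP0 : P0 ⊆ A0
  hL1 : L1 ⊆ A0
  hL2 : L2 ⊆ A0
  base : Base k A0
  cnt : Countable A0
  good : Good k (genR A0 P0) (genL A0 L1) (genL A0 L2)
  sat : ∀ R : Subalgebra k Ω, Sat R.val.toRingHom

namespace Amb
variable (am : Amb k Ω)

/-- good stages -/
def Gd (R : Subalgebra k Ω) : Prop :=
  am.A0 ≤ R ∧ Good k (genR R am.P0) (genL R am.L1) (genL R am.L2)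

/-- membership in the distinguished maximal right ideal, read in `Ω` -/
def InP (w : Ω) : Prop := w ∈ Submodule.span Ωᵐᵒᵖ am.P0

/-- the promise of a pin at the stage `R` -/
def ok (R : Subalgebra k Ω) (π : SPin Ω) : Prop :=
  π.inR R ∧
  (π.tJ = true → JPin (genR R am.P0) (genR R π.K) {vc : R × R | (vc.1.1, vc.2.1) ∈ π.J}) ∧
  (π.tJ = false → ∀ h : π.a ∈ R, BPin k (genR R π.K) ⟨π.a, h⟩)

end Amb

/-- certificate of non uniformity in `R'` for the set `K0` -/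
def NU (R' : Subalgebra k Ω) (K0 : Set Ω) : Prop :=
  ∃ x1 ∈ R', ∃ x2 ∈ R', ∀ κ ∈ K0,
    (∃ Z ∈ R', Z * κ = 0 ∧ Z * x2 = 0 ∧ ∃ κ' ∈ K0, ∃ d ∈ R', x1 - Z * x1 = κ' * d) ∧
    ∃ y ∈ R', y * κ = 0 ∧ y * x1 ≠ 0 ∧ y * x2 ≠ 0

namespace Amb
variable (am : Amb k Ω)

/-- what the step from `R` to `R'` with new pin `π` achieves against the guess `K` -/
def Cert (R : Subalgebra k Ω) (K : Set Ω) (R' : Subalgebra k Ω) (π : SPin Ω) : Prop :=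
  ∀ KR : RI R, (∀ x : R, x ∈ KR ↔ x.1 ∈ K) → (1 : R) ∉ KR → SFree (genR R am.P0) KR →
    (MaxR KR ∨ (Unif KR ∧ JPin (genR R am.P0) KR (allJ (genR R am.P0) KR))) →
    (∃ r ∈ R', ∃ r' ∈ R', r * r' = 1 ∧ ∀ p ∈ am.P0, ∃ κ ∈ K ∩ R, ∃ d ∈ R', r * p = κ * d) ∨
    (π.tJ = false ∧ π.K = K ∩ R ∧ π.a ∈ R ∧ (∀ x ∈ K ∩ R, π.a * x ∈ K) ∧ NU R' (K ∩ R)) ∨
    (π.tJ = true ∧ π.K = K ∩ R ∧ (∀ vc ∈ π.J, vc.1 ∈ R ∧ vc.2 ∈ R ∧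
      ∀ e ∈ R, vc.1 * e ∈ K → am.InP (vc.2 * e)) ∧ NU R' (K ∩ R))

/-- `R` reflects the existential facts about `K` that hold in `T` -/
structure Cl (T : Subalgebra k Ω) (K : Set Ω) (R : Subalgebra k Ω) : Prop where
  max : ∀ b ∈ R, (∃ d ∈ T, b * d - 1 ∈ K) → ∃ d ∈ R, b * d - 1 ∈ K
  unif : ∀ x ∈ R, ∀ y ∈ R, (∃ c ∈ T, ∃ d ∈ T, x * c - y * d ∈ K ∧ x * c ∉ K) →
    ∃ c ∈ R, ∃ d ∈ R, x * c - y * d ∈ K ∧ x * c ∉ K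
  idl : ∀ a ∈ R, (∃ x ∈ T, x ∈ K ∧ a * x ∉ K) → ∃ x ∈ R, x ∈ K ∧ a * x ∉ K
  nj : ∀ v ∈ R, ∀ c ∈ R, (∃ e ∈ T, v * e ∈ K ∧ ¬ am.InP (c * e)) →
    ∃ e ∈ R, v * e ∈ K ∧ ¬ am.InP (c * e)
  jump : ∀ b ∈ R, (∃ c ∈ T, ¬ am.InP c ∧ ∀ e ∈ T, b * e ∈ K → am.InP (c * e)) →
    ∃ c ∈ R, ¬ am.InP c ∧ ∀ e ∈ T, b * e ∈ K → am.InP (c * e)

/-- the set `K` was handled at some stage inside `T` -/
def Hand (T : Subalgebra k Ω) (K : Set Ω) : Prop :=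
  ∃ R R' π, R ≤ R' ∧ R' ≤ T ∧ am.Gd R ∧ am.Cl T K R ∧ am.Cert R K R' π ∧ am.ok T π

end Amb

end Pool.Agent.Work.MP_c4093f_al
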