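import Pool.Agent.Work.MP_c4093f_al.Union
import Pool.Agent.Work.MP_c4093f_al.MU
import Pool.Agent.Work.MP_c4093f_al.M1
import Pool.Agent.Work.MP_c4093f_al.BaseE
import Pool.Agent.Work.MP_c4093f_al.BaseP

/-!
One step of the construction, and existence of the ambient algebra.

* `Amb.realize`: unpack `Ach`, take `Θ` from `am.sat R`; its range contains `R` (so the scalars),
  giving a countable subalgebra `R'` with `q = Θ` corestricted, `f = Subalgebra.inclusion`.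
* `Amb.step`.  The pins form a countable family of `Pin R`
  (`⟨genR R π.K, {vc | (vc.1.1, vc.2.1) ∈ π.J}, ⟨π.a, _⟩, π.tJ⟩`, indexed by the subtype of `pins`,
  plus `Option` for a new one); translate `Concl` back with `ext_genR`, `extL_genL`.  The base data
  of `R` are `am.base.map (inclusion)`.  If no `KR` satisfies the hypotheses of `Cert`, take
  `R' = R` and the trivial pin `⟨{1}, ∅, 0, true⟩`.  Otherwise (`KR` is unique, `genR_self`):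
  if `Unif KR` and `JPin`, add the pin `⟨K ∩ R, image of allJ, 0, true⟩` and use `mu`; else `KR` is
  maximal; if `SimpK k KR` use `m1` and the trivial pin; else pick `a` with `a KR ⊆ KR` not a scalar
  modulo `KR`, add `⟨K ∩ R, ∅, a, false⟩` (`BPin` by maximality, `MaxR.eq_of_le`) and use `mu`
  with `MaxR.unif`.  Use `mem_ext` to unpack membership in `ext`, and `Amb.inP_iff`.
* `exists_amb`: `baseE`, `baseC`, `baseP1`, `baseP2` give a countable good `A0`.  `Ω = Gm A0` with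
  the algebra structure `Algebra.ofModule` (or `RingHom.toAlgebra'` of `cst ∘ algebraMap`),
  `j : A0 →ₐ[k] Ω` the constants, first stage `j.range`, `P0 = j '' P`.  Transport along the
  surjection `A0 → j.range` with `simpK_ext`, `perp_ext` (tasks are trivial), `Base.map`;
  saturation is `sat_germ`.  `#(Gm A0) ≤ #(ℕ → A0) ≤ 𝔠`.
-/

namespace Pool.Agent.Work.MP_c4093f_al

variable {k Ω : Type} [Field k] [Ring Ω] [Algebra k Ω]

theorem Amb.realize [Nontrivial Ω] (am : Amb k Ω) (R : Subalgebra k Ω)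
    {Φ : ∀ (A' : Type) [Ring A'] [Algebra k A'], (R →ₐ[k] A') → Prop} (h : Ach k R Φ) :
    ∃ (R' : Subalgebra k Ω) (hR : R ≤ R'), Countable R' ∧ Φ R' (Subalgebra.inclusion hR) := by
  obtain ⟨C, hC, hc, h⟩ := h
  obtain ⟨Θ, hΘ⟩ := am.sat R C hC
  let R' : Subalgebra k Ω :=
    { Θ.range.toSubsemiring with
      algebraMap_mem' := fun l => ⟨⟨cst (algebraMap k R l), hc _⟩, hΘ _ _⟩ }
  have hR : R ≤ R' := fun x hx => ⟨⟨cst ⟨x, hx⟩, hc _⟩, hΘ _ _⟩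
  have hq : Function.Surjective (Θ.codRestrict R' fun c => ⟨c, rfl⟩) := by
    rintro ⟨_, c, rfl⟩
    exact ⟨c, rfl⟩
  exact ⟨R', hR, hq.countable, h R' _ _ hq fun a => Subtype.ext (hΘ _ _)⟩

/-- a pin inside a stage -/
def Step_pin (R : Subalgebra k Ω) (π : SPin Ω) (h : π.a ∈ R) : Pin R :=
  ⟨genR R π.K, {vc | (vc.1.1, vc.2.1) ∈ π.J}, ⟨π.a, h⟩, π.tJ⟩

/-- the trivial pin -/
def Step_triv (Ω : Type) [Ring Ω] : SPin Ω := ⟨{1}, ∅, 0, true⟩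

theorem Amb.Step_triv_ok (am : Amb k Ω) (R : Subalgebra k Ω) : am.ok R (Step_triv Ω) := by
  refine ⟨⟨Set.singleton_subset_iff.2 R.one_mem, fun _ h => h.elim, R.zero_mem⟩,
    fun _ => ⟨fun _ h => h.elim, fun b hb => (hb ?_).elim⟩, fun h => nomatch h⟩
  have h1 : (1 : R) ∈ genR R {1} := Submodule.subset_span rfl
  exact one_mul b ▸ rmul _ h1 b

theorem Amb.Step_concl (am : Amb k Ω) {R R' : Subalgebra k Ω} (h : R ≤ R') (hR : am.Gd R)
    {pins : Set (SPin Ω)} (hok : ∀ π ∈ pins, am.ok R π)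
    (hc : Concl k (genR R am.P0) (genL R am.L1) (genL R am.L2)
      (fun π : pins => Step_pin R π.1 (hok π.1 π.2).1.2.2) R' (Subalgebra.inclusion h)) :
    am.Gd R' ∧ ∀ π ∈ pins, am.ok R' π := by
  obtain ⟨h1, h2⟩ := hc
  rw [ext_genR h (am.hP0.trans hR.1)] at h1 h2
  rw [extL_genL h (am.hL1.trans hR.1), extL_genL h (am.hL2.trans hR.1)] at h1
  refine ⟨⟨hR.1.trans h, h1⟩, fun π hπ => ?_⟩
  obtain ⟨i1, i2, i3⟩ := (hok π hπ).1
  obtain ⟨h3, h4⟩ := h2 ⟨π, hπ⟩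
  have e1 := ext_genR h i1
  have e2 : Prod.map (Subalgebra.inclusion h).toRingHom (Subalgebra.inclusion h).toRingHom ''
      {vc : R × R | (vc.1.1, vc.2.1) ∈ π.J} = {vc : R' × R' | (vc.1.1, vc.2.1) ∈ π.J} := by
    ext vc
    constructor
    · rintro ⟨w, hw, rfl⟩
      exact hw
    · intro hw
      exact ⟨(⟨vc.1.1, (i2 _ hw).1⟩, ⟨vc.2.1, (i2 _ hw).2⟩), hw, rfl⟩
  refine ⟨⟨i1.trans h, fun vc hvc => ⟨h (i2 vc hvc).1, h (i2 vc hvc).2⟩, h i3⟩, fun t => ?_,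
    fun t _ => ?_⟩
  · rw [← e1, ← e2]
    exact h3 t
  · rw [← e1]
    exact h4 t

theorem Amb.Step_pins (am : Amb k Ω) {R : Subalgebra k Ω} {pins : Set (SPin Ω)}
    (hok : ∀ π ∈ pins, am.ok R π) (π : pins) :
    (Step_pin R π.1 (hok π.1 π.2).1.2.2).ok k (genR R am.P0) :=
  ⟨(hok π.1 π.2).2.1, fun t => (hok π.1 π.2).2.2 t _⟩

theorem Amb.Step_mu [IsAlgClosed k] [Nontrivial Ω] (am : Amb k Ω) {R : Subalgebra k Ω}
    (hc : Countable R) (hR : am.Gd R) {pins : Set (SPin Ω)} (hp : pins.Countable)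
    (hok : ∀ π ∈ pins, am.ok R π) {K : Set Ω} {KR : RI R} (hK : ∀ x : R, x ∈ KR ↔ x.1 ∈ K)
    (h1 : (1 : R) ∉ KR) (hU : Unif KR) (hS : SFree (genR R am.P0) KR) :
    ∃ R', R ≤ R' ∧ Countable R' ∧ am.Gd R' ∧ (∀ π ∈ pins, am.ok R' π) ∧ NU R' (K ∩ R) := by
  have := hp.to_subtype
  obtain ⟨R', h, c', h2, x1, x2, h3⟩ := am.realize R
    (mu (am.base.map (Subalgebra.inclusion hR.1)).lv hR.2 _ (am.Step_pins hok) h1 hU hS)
  obtain ⟨h4, h5⟩ := am.Step_concl h hR hok h2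
  refine ⟨R', h, c', h4, h5, x1.1, x1.2, x2.1, x2.2, fun κ hκ => ?_⟩
  obtain ⟨⟨Z, z1, z2, z3⟩, y, y1, y2, y3⟩ := h3 _ ⟨⟨κ, hκ.2⟩, (hK _).2 hκ.1, rfl⟩
  obtain ⟨κ', k1, d, k2⟩ := (mem_ext hR.2.1 _).1 z3
  exact ⟨⟨Z.1, Z.2, congrArg Subtype.val z1, congrArg Subtype.val z2, κ'.1, ⟨(hK _).1 k1, κ'.2⟩,
    d.1, d.2, congrArg Subtype.val k2⟩, y.1, y.2, congrArg Subtype.val y1,
    fun e => y2 (Subtype.ext e), fun e => y3 (Subtype.ext e)⟩

theorem Amb.Step_m1 [IsAlgClosed k] [Nontrivial Ω] (am : Amb k Ω) {R : Subalgebra k Ω}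
    (hc : Countable R) (hR : am.Gd R) {pins : Set (SPin Ω)} (hp : pins.Countable)
    (hok : ∀ π ∈ pins, am.ok R π) {K : Set Ω} {KR : RI R} (hK : ∀ x : R, x ∈ KR ↔ x.1 ∈ K)
    (h1 : SimpK k KR) (hS : SFree (genR R am.P0) KR) :
    ∃ R', R ≤ R' ∧ Countable R' ∧ am.Gd R' ∧ (∀ π ∈ pins, am.ok R' π) ∧
      ∃ r ∈ R', ∃ r' ∈ R', r * r' = 1 ∧ ∀ p ∈ am.P0, ∃ κ ∈ K ∩ R, ∃ d ∈ R', r * p = κ * d := by
  have := hp.to_subtype
  obtain ⟨R', h, c', h2, r, r', h3, h6⟩ := am.realize R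
    (m1 (am.base.map (Subalgebra.inclusion hR.1)) hR.2 _ (am.Step_pins hok) h1 hS)
  obtain ⟨h4, h5⟩ := am.Step_concl h hR hok h2
  refine ⟨R', h, c', h4, h5, r.1, r.2, r'.1, r'.2, congrArg Subtype.val h3, fun p hp => ?_⟩
  obtain ⟨κ', k1, d, k2⟩ := (mem_ext hR.2.1 _).1
    (h6 ⟨p, hR.1 (am.hP0 hp)⟩ (Submodule.subset_span hp))
  exact ⟨κ'.1, ⟨(hK _).1 k1, κ'.2⟩, d.1, d.2, congrArg Subtype.val k2⟩

theorem Amb.step [IsAlgClosed k] [Nontrivial Ω] (am : Amb k Ω) {R : Subalgebra k Ω}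
    (hc : Countable R) (hR : am.Gd R) {pins : Set (SPin Ω)} (hp : pins.Countable)
    (hok : ∀ π ∈ pins, am.ok R π) (K : Set Ω) :
    ∃ R' π, R ≤ R' ∧ Countable R' ∧ am.Gd R' ∧ (∀ π' ∈ pins, am.ok R' π') ∧ am.ok R' π ∧
      am.Cert R K R' π := by
  by_cases hex : ∃ KR : RI R, (∀ x : R, x ∈ KR ↔ x.1 ∈ K) ∧ (1 : R) ∉ KR ∧
      SFree (genR R am.P0) KR ∧
      (MaxR KR ∨ (Unif KR ∧ JPin (genR R am.P0) KR (allJ (genR R am.P0) KR)))
  swap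
  · exact ⟨R, Step_triv Ω, le_rfl, hc, hR, hok, am.Step_triv_ok R,
      fun KR h1 h2 h3 h4 => (hex ⟨KR, h1, h2, h3, h4⟩).elim⟩
  obtain ⟨KR, h1, h2, h3, h4⟩ := hex
  have key : ∀ π : SPin Ω, am.ok R π → Unif KR → ∃ R', R ≤ R' ∧ Countable R' ∧ am.Gd R' ∧
      (∀ π' ∈ pins, am.ok R' π') ∧ am.ok R' π ∧ NU R' (K ∩ R) := fun π hπ hU => by
    obtain ⟨R', a1, a2, a3, a4, a5⟩ := am.Step_mu hc hR (hp.insert π)
      (Set.forall_mem_insert.2 ⟨hπ, hok⟩) h1 h2 hU h3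
    exact ⟨R', a1, a2, a3, (Set.forall_mem_insert.1 a4).2, (Set.forall_mem_insert.1 a4).1, a5⟩
  rcases h4 with h4 | ⟨h4, h5⟩
  · by_cases hs : SimpK k KR
    · obtain ⟨R', a1, a2, a3, a4, a5⟩ := am.Step_m1 hc hR hp hok h1 hs h3
      exact ⟨R', Step_triv Ω, a1, a2, a3, a4, am.Step_triv_ok R', fun _ _ _ _ _ => Or.inl a5⟩
    · obtain ⟨a, b1, b2⟩ :
          ∃ a : R, (∀ p ∈ KR, a * p ∈ KR) ∧ ∀ l : k, a - algebraMap k R l ∉ KR := by
        by_contra hne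
        refine hs ⟨h4, fun b hb => by_contra fun e => hne ⟨b, hb, fun l hl => e ⟨l, hl⟩⟩⟩
      obtain ⟨R', a1, a2, a3, a4, a5, a6⟩ := key ⟨K ∩ R, ∅, a.1, false⟩
        ⟨⟨Set.inter_subset_right, fun _ h => h.elim, a.2⟩, fun h => (nomatch h), fun _ _ => by
          rw [show genR R (K ∩ R) = KR from genR_self h1]
          exact ⟨h2, b1, fun m => h4.2 _ (b2 m), fun N hN _ =>
            or_iff_not_imp_right.2 (h4.eq_of_le hN)⟩⟩ h4.unif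
      exact ⟨R', _, a1, a2, a3, a4, a5, fun _ _ _ _ _ => Or.inr (Or.inl ⟨rfl, rfl, a.2,
        fun x hx => (h1 (a * ⟨x, hx.2⟩)).1 (b1 _ ((h1 _).2 hx.1)), a6⟩)⟩
  · obtain ⟨R', a1, a2, a3, a4, a5, a6⟩ := key ⟨K ∩ R, {vc | ∃ (i1 : vc.1 ∈ R) (i2 : vc.2 ∈ R),
        ((⟨vc.1, i1⟩ : R), (⟨vc.2, i2⟩ : R)) ∈ allJ (genR R am.P0) KR}, 0, true⟩
      ⟨⟨Set.inter_subset_right, fun _ h => ⟨h.1, h.2.1⟩, R.zero_mem⟩, fun _ => by
        rw [show genR R (K ∩ R) = KR from genR_self h1]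
        exact ⟨fun vc hvc => hvc.2.2, fun b hb => (h5.2 b hb).imp fun vc h =>
          ⟨⟨vc.1.2, vc.2.2, h.1⟩, h.2⟩⟩, fun h => nomatch h⟩ h4
    refine ⟨R', _, a1, a2, a3, a4, a5, fun _ _ _ _ _ => Or.inr (Or.inr ⟨rfl, rfl, ?_, a6⟩)⟩
    rintro vc ⟨i1, i2, i3⟩
    exact ⟨i1, i2, fun e he h => (am.inP_iff hR (⟨vc.2, i2⟩ * ⟨e, he⟩)).2
      (i3 ⟨e, he⟩ ((h1 _).2 h))⟩

theorem Step_amb {A : Type} [Ring A] [Algebra k A] [Countable A] [Nontrivial Ω] (j : A →ₐ[k] Ω)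
    (B : Base k A) {P : RI A} {L1 L2 : Ideal A} (hG : Good k P L1 L2)
    (hs : ∀ R : Subalgebra k Ω, Sat R.val.toRingHom) : Nonempty (Amb k Ω) := by
  have he : Function.Surjective j.rangeRestrict := j.rangeRestrict_surjective
  have e0 : ∀ s : Set A, {x : j.range | x.1 ∈ j '' s} = j.rangeRestrict.toRingHom '' s := fun s =>
    Set.ext fun x => ⟨fun ⟨a, ha, e⟩ => ⟨a, ha, Subtype.ext e⟩,
      fun ⟨a, ha, e⟩ => ⟨a, ha, congrArg Subtype.val e⟩⟩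
  have hsub : ∀ s : Set A, j '' s ⊆ j.range := by
    rintro s _ ⟨a, -, rfl⟩
    exact ⟨a, rfl⟩
  refine ⟨⟨j.range, j '' P, j '' L1, j '' L2, hsub _, hsub _, hsub _, B.map j.rangeRestrict,
    he.countable, ?_, hs⟩⟩
  rw [genR, genL, genL, e0, e0, e0]
  refine ⟨fun b hb => ?_, simpK_ext hG.1 j.rangeRestrict hG.2.1 fun b => ?_,
    perp_ext hG.1 j.rangeRestrict.toRingHom hG.2.2 fun b => ?_⟩
  · obtain ⟨a, rfl⟩ := he b
    obtain ⟨x, y, x', y', h1, h2, h3⟩ := hG.1 a fun e => hb (by rw [e, map_zero])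
    exact ⟨j.rangeRestrict x, j.rangeRestrict y, j.rangeRestrict x', j.rangeRestrict y',
      by rw [h1, map_mul], by rw [← map_mul, h2, map_one], by rw [← map_mul, h3, map_one]⟩
  · obtain ⟨a, rfl⟩ := he b
    exact ⟨a, by rw [sub_self]; exact Submodule.zero_mem _⟩
  · obtain ⟨a, rfl⟩ := he b
    exact ⟨0, L1.zero_mem, a, by rw [map_zero, sub_zero, one_mul]; rfl⟩

theorem exists_amb (k : Type) [Field k] [Countable k] :
    ∃ (Ω : Type) (_ : Ring Ω) (_ : Algebra k Ω),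
      Nontrivial Ω ∧ Cardinal.mk Ω ≤ Cardinal.continuum ∧ Nonempty (Amb k Ω) := by
  obtain ⟨E, _, _, _, e1, e2, ⟨e3⟩⟩ := baseE k
  obtain ⟨A, _, _, _, _, a1, a2, ⟨B⟩⟩ := baseC e1 e2 e3
  obtain ⟨P, hP⟩ := baseP1 a1 B.lv a2
  obtain ⟨L1, L2, hL⟩ := baseP2 a1 B.lv
  let c : A →+* Gm A := (Filter.Germ.coeRingHom Filter.atTop).comp (Pi.constRingHom ℕ A)
  let alg : Algebra k (Gm A) := (c.comp (algebraMap k A)).toAlgebra' fun l x =>
    Filter.Germ.inductionOn x fun f => congrArg (Filter.Germ.ofFun (l := Filter.atTop))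
      (funext fun n => Algebra.commutes l (f n))
  refine ⟨Gm A, inferInstance, alg, inferInstance, ?_,
    Step_amb (⟨c, fun _ => rfl⟩ : A →ₐ[k] Gm A) B ⟨a1, hP, hL⟩ fun R => sat_germ _⟩
  refine (Cardinal.mk_le_of_surjective (f := Filter.Germ.ofFun (l := Filter.atTop))
    fun x => Filter.Germ.inductionOn x fun f => ⟨f, rfl⟩).trans ?_
  rw [← Cardinal.power_def, Cardinal.mk_nat, ← Cardinal.aleph0_power_aleph0]
  exact Cardinal.power_le_power_right Cardinal.mk_le_aleph0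

end Pool.Agent.Work.MP_c4093f_al
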