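import Pool.Agent.Work.MP_c4093f_al.SetDefs
import Pool.Agent.Work.MP_c4093f_al.Ext

/-!
Transfer between stages, and directed unions.

* `ext_genR`: both sides are spans; use `Submodule.span_le` and `ext_stable`-type inductions.
* `genR_contr`: `ext_genR` and `ext_contr` for `Subalgebra.inclusion`; `inP_iff` likewise for
  `R.val` (the span in `Ω` is `ext R.val (genR R P0)`).
* `genR_self`: if `KR` is a right ideal with carrier `K ∩ R`, the span is `KR`.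
* `mem_genR_fin`: an element of a span involves finitely many elements of `T`
  (`Submodule.mem_span_finite_of_mem_span` or span induction).
* `gd_union`, `ok_union`: put the finitely many elements in question into one good `R ≤ T`, use
  the property there, move up by monotonicity and down by `genR_contr`.  For `BPin` contract the
  stable right ideal `N` along the inclusion.
-/

namespace Pool.Agent.Work.MP_c4093f_al

variable {k Ω : Type} [Field k] [Ring Ω] [Algebra k Ω]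

theorem Union_span {A A' : Type} [Ring A] [Ring A'] (f : A →+* A') (S : Set A) :
    ext f (Submodule.span Aᵐᵒᵖ S) = Submodule.span A'ᵐᵒᵖ (f '' S) := by
  refine le_antisymm (Submodule.span_le.2 ?_)
    (Submodule.span_mono (Set.image_mono Submodule.subset_span))
  rintro _ ⟨x, hx, rfl⟩
  induction hx using Submodule.span_induction with
  | mem x hx => exact Submodule.subset_span ⟨x, hx, rfl⟩
  | zero => rw [map_zero]; exact Submodule.zero_mem _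
  | add x y _ _ hx hy => rw [map_add]; exact Submodule.add_mem _ hx hy
  | smul r x _ hx => rw [MulOpposite.smul_eq_mul_unop, map_mul]; exact rmul _ hx _

theorem Union_spanL {A A' : Type} [Ring A] [Ring A'] (f : A →+* A') (S : Set A) :
    extL f (Ideal.span S) = Ideal.span (f '' S) := by
  refine le_antisymm (Ideal.span_le.2 ?_) (Ideal.span_mono (Set.image_mono Ideal.subset_span))
  rintro _ ⟨x, hx, rfl⟩
  induction hx using Submodule.span_induction with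
  | mem x hx => exact Ideal.subset_span ⟨x, hx, rfl⟩
  | zero => rw [map_zero]; exact Submodule.zero_mem _
  | add x y _ _ hx hy => rw [map_add]; exact Submodule.add_mem _ hx hy
  | smul r x _ hx => rw [smul_eq_mul, map_mul]; exact Ideal.mul_mem_left _ _ hx

theorem Union_image {R T : Subalgebra k Ω} (h : R ≤ T) {K0 : Set Ω} (hK : K0 ⊆ R) :
    (Subalgebra.inclusion h).toRingHom '' {x : R | x.1 ∈ K0} = {x : T | x.1 ∈ K0} := by
  ext x
  constructor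
  · rintro ⟨y, hy, rfl⟩
    exact hy
  · exact fun hx => ⟨⟨x.1, hK hx⟩, hx, rfl⟩

theorem Union_image_val {R : Subalgebra k Ω} {K0 : Set Ω} (hK : K0 ⊆ R) :
    R.val.toRingHom '' {x : R | x.1 ∈ K0} = K0 := by
  ext x
  constructor
  · rintro ⟨y, hy, rfl⟩
    exact hy
  · exact fun hx => ⟨⟨x, hK hx⟩, hx, rfl⟩

theorem ext_genR {R T : Subalgebra k Ω} (h : R ≤ T) {K0 : Set Ω} (hK : K0 ⊆ R) :
    ext (Subalgebra.inclusion h).toRingHom (genR R K0) = genR T K0 := by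
  rw [genR, Union_span, Union_image h hK, genR]

theorem extL_genL {R T : Subalgebra k Ω} (h : R ≤ T) {K0 : Set Ω} (hK : K0 ⊆ R) :
    extL (Subalgebra.inclusion h).toRingHom (genL R K0) = genL T K0 := by
  rw [genL, Union_spanL, Union_image h hK, genL]

theorem genR_contr [Nontrivial Ω] {R T : Subalgebra k Ω} (h : R ≤ T) (hP : PI R) {K0 : Set Ω}
    (hK : K0 ⊆ R) (x : R) : (⟨x.1, h x.2⟩ : T) ∈ genR T K0 ↔ x ∈ genR R K0 := by
  rw [← ext_genR h hK]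
  exact ext_contr hP (Subalgebra.inclusion h).toRingHom (a := x)

theorem genL_contr [Nontrivial Ω] {R T : Subalgebra k Ω} (h : R ≤ T) (hP : PI R) {K0 : Set Ω}
    (hK : K0 ⊆ R) (x : R) : (⟨x.1, h x.2⟩ : T) ∈ genL T K0 ↔ x ∈ genL R K0 := by
  rw [← extL_genL h hK]
  exact extL_contr hP (Subalgebra.inclusion h).toRingHom (a := x)

theorem genR_self {R : Subalgebra k Ω} {K : Set Ω} {KR : RI R} (h : ∀ x : R, x ∈ KR ↔ x.1 ∈ K) :
    genR R (K ∩ R) = KR := by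
  have e : {x : R | x.1 ∈ K ∩ R} = KR := by
    ext x
    exact ⟨fun hx => (h x).2 hx.1, fun hx => ⟨(h x).1 hx, x.2⟩⟩
  rw [genR, e, Submodule.span_eq]

theorem mem_genR_up {R T : Subalgebra k Ω} (h : R ≤ T) (hP : PI R) {K : Set Ω} {KR : RI R}
    (hK : ∀ x : R, x ∈ KR ↔ x.1 ∈ K) (b : T) :
    b ∈ genR T (K ∩ R) ↔ ∃ κ ∈ K ∩ R, ∃ d ∈ T, b.1 = κ * d := by
  rw [← ext_genR h Set.inter_subset_right, genR_self hK, mem_ext hP]
  constructor
  · rintro ⟨κ, hκ, d, rfl⟩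
    exact ⟨κ.1, ⟨(hK κ).1 hκ, κ.2⟩, d.1, d.2, rfl⟩
  · rintro ⟨κ, hκ, d, hd, e⟩
    exact ⟨⟨κ, hκ.2⟩, (hK _).2 hκ.1, ⟨d, hd⟩, Subtype.ext e⟩

theorem Amb.inP_iff [Nontrivial Ω] (am : Amb k Ω) {R : Subalgebra k Ω} (h : am.Gd R) (x : R) :
    am.InP x.1 ↔ x ∈ genR R am.P0 := by
  rw [← ext_contr h.2.1 R.val.toRingHom, genR, Union_span, Union_image_val (am.hP0.trans h.1)]
  rfl

theorem Amb.inL1_iff [Nontrivial Ω] (am : Amb k Ω) {R : Subalgebra k Ω} (h : am.Gd R) (x : R) :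
    x.1 ∈ Ideal.span am.L1 ↔ x ∈ genL R am.L1 := by
  rw [← extL_contr h.2.1 R.val.toRingHom, genL, Union_spanL, Union_image_val (am.hL1.trans h.1)]
  rfl

theorem Amb.inL2_iff [Nontrivial Ω] (am : Amb k Ω) {R : Subalgebra k Ω} (h : am.Gd R) (x : R) :
    x.1 ∈ Ideal.span am.L2 ↔ x ∈ genL R am.L2 := by
  rw [← extL_contr h.2.1 R.val.toRingHom, genL, Union_spanL, Union_image_val (am.hL2.trans h.1)]
  rfl

theorem Amb.gd_A0 (am : Amb k Ω) : am.Gd am.A0 := ⟨le_rfl, am.good⟩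

theorem Union_one {T : Subalgebra k Ω} {Φ : Subalgebra k Ω → Prop}
    (h : ∀ s : Finset Ω, (s : Set Ω) ⊆ T → ∃ R ≤ T, (s : Set Ω) ⊆ R ∧ Φ R) (b : T) :
    ∃ (R : Subalgebra k Ω) (hR : R ≤ T) (x : R), Φ R ∧ b = ⟨x.1, hR x.2⟩ := by
  obtain ⟨R, hR, h1, h2⟩ := h {b.1} (by simp)
  exact ⟨R, hR, ⟨b.1, h1 (by simp)⟩, h2, rfl⟩

theorem Amb.gd_union [Nontrivial Ω] (am : Amb k Ω) {T : Subalgebra k Ω}
    (h : ∀ s : Finset Ω, (s : Set Ω) ⊆ T → ∃ R ≤ T, (s : Set Ω) ⊆ R ∧ am.Gd R) : am.Gd T := by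
  obtain ⟨R0, h0, -, g0⟩ := h ∅ (by simp)
  have cP := fun (R : Subalgebra k Ω) (hR : R ≤ T) (g : am.Gd R) =>
    genR_contr hR g.2.1 (am.hP0.trans g.1)
  have c1 := fun (R : Subalgebra k Ω) (hR : R ≤ T) (g : am.Gd R) =>
    genL_contr hR g.2.1 (am.hL1.trans g.1)
  have c2 := fun (R : Subalgebra k Ω) (hR : R ≤ T) (g : am.Gd R) =>
    genL_contr hR g.2.1 (am.hL2.trans g.1)
  refine ⟨g0.1.trans h0, fun b hb => ?_,
    ⟨⟨fun h1 => g0.2.2.1.1.1 ((cP R0 h0 g0 1).1 h1), fun b hb => ?_⟩, fun b hb => ?_⟩,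
    fun h1 => g0.2.2.2.1 ((c1 R0 h0 g0 1).1 h1), fun h1 => g0.2.2.2.2.1 ((c2 R0 h0 g0 1).1 h1),
    fun b => ?_⟩
  · obtain ⟨R, hR, b, g, rfl⟩ := Union_one h b
    obtain ⟨x, y, x', y', e1, e2, e3⟩ := g.2.1 b fun h0 => hb (by subst h0; rfl)
    exact ⟨⟨x.1, hR x.2⟩, ⟨y.1, hR y.2⟩, ⟨x'.1, hR x'.2⟩, ⟨y'.1, hR y'.2⟩,
      Subtype.ext (congrArg Subtype.val e1 :), Subtype.ext (congrArg Subtype.val e2 :),
      Subtype.ext (congrArg Subtype.val e3 :)⟩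
  · obtain ⟨R, hR, b, g, rfl⟩ := Union_one h b
    obtain ⟨d, hd⟩ := g.2.2.1.1.2 b fun h1 => hb ((cP R hR g b).2 h1)
    exact ⟨⟨d.1, hR d.2⟩, (cP R hR g _).2 hd⟩
  · obtain ⟨R, hR, b, g, rfl⟩ := Union_one h b
    obtain ⟨l, hl⟩ := g.2.2.1.2 b fun p hp => (cP R hR g _).1 (hb _ ((cP R hR g p).2 hp))
    exact ⟨l, (cP R hR g _).2 hl⟩
  · obtain ⟨R, hR, b, g, rfl⟩ := Union_one h b
    obtain ⟨l, hl, hl'⟩ := g.2.2.2.2.2 b
    exact ⟨⟨l.1, hR l.2⟩, (c1 R hR g l).2 hl, (c2 R hR g _).2 hl'⟩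

/-- contraction of a right ideal -/
def Union_comap {A A' : Type} [Ring A] [Ring A'] (f : A →+* A') (N : RI A') : RI A where
  carrier := {x | f x ∈ N}
  zero_mem' := by simp
  add_mem' := fun {x y} hx hy => by
    simp only [Set.mem_ofPred_eq, map_add] at *
    exact N.add_mem hx hy
  smul_mem' := fun r x hx => by
    simp only [Set.mem_ofPred_eq, MulOpposite.smul_eq_mul_unop, map_mul] at *
    exact rmul N hx _

theorem Amb.ok_union [Nontrivial Ω] (am : Amb k Ω) {T : Subalgebra k Ω} {π : SPin Ω}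
    (h : ∀ s : Finset Ω, (s : Set Ω) ⊆ T → ∃ R ≤ T, (s : Set Ω) ⊆ R ∧ am.Gd R ∧ am.ok R π) :
    am.ok T π := by
  obtain ⟨R0, h0, -, g0⟩ := h ∅ (by simp)
  have cP := fun (R : Subalgebra k Ω) (hR : R ≤ T) (g : am.Gd R ∧ am.ok R π) =>
    genR_contr hR g.1.2.1 (am.hP0.trans g.1.1)
  have cK := fun (R : Subalgebra k Ω) (hR : R ≤ T) (g : am.Gd R ∧ am.ok R π) =>
    genR_contr hR g.1.2.1 g.2.1.1
  refine ⟨⟨g0.2.1.1.trans h0, fun vc hv => ⟨h0 (g0.2.1.2.1 vc hv).1, h0 (g0.2.1.2.1 vc hv).2⟩,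
    h0 g0.2.1.2.2⟩, fun ht => ⟨fun vc hv e he => ?_, fun b hb => ?_⟩,
    fun ht ha => ⟨fun h1 => (g0.2.2.2 ht g0.2.1.2.2).1 ((cK R0 h0 g0 1).1 h1), fun x hx => ?_,
      fun m => ?_, fun N hN hs => ?_⟩⟩
  · obtain ⟨R, hR, e, g, rfl⟩ := Union_one h e
    obtain ⟨m1, m2⟩ := g.2.1.2.1 _ hv
    exact (cP R hR g _).2 ((g.2.2.1 ht).1 (⟨vc.1.1, m1⟩, ⟨vc.2.1, m2⟩) hv e ((cK R hR g _).1 he))
  · obtain ⟨R, hR, b, g, rfl⟩ := Union_one h b
    obtain ⟨vc, hv, d, h1, h2⟩ := (g.2.2.1 ht).2 b fun h1 => hb ((cK R hR g b).2 h1)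
    exact ⟨(⟨vc.1.1, hR vc.1.2⟩, ⟨vc.2.1, hR vc.2.2⟩), hv, ⟨d.1, hR d.2⟩, (cK R hR g _).2 h1,
      fun h3 => h2 ((cP R hR g _).1 h3)⟩
  · obtain ⟨R, hR, x, g, rfl⟩ := Union_one h x
    exact (cK R hR g _).2 ((g.2.2.2 ht g.2.1.2.2).2.1 x ((cK R hR g x).1 hx))
  · obtain ⟨w, hw⟩ := (g0.2.2.2 ht g0.2.1.2.2).2.2.1 m
    exact ⟨⟨w.1, h0 w.2⟩, (cK R0 h0 g0 _).2 hw⟩
  · refine or_iff_not_imp_right.2 fun h1 => le_antisymm (fun x hx => ?_) hN
    obtain ⟨R, hR, x, g, rfl⟩ := Union_one h x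
    rcases (g.2.2.2 ht g.2.1.2.2).2.2.2 (Union_comap (Subalgebra.inclusion hR).toRingHom N)
      (fun y hy => hN ((cK R hR g y).2 hy)) (fun y hy => hs _ hy) with e | e
    · refine (cK R hR g x).2 ?_
      rw [← e]
      exact hx
    · exact absurd e h1

theorem Amb.Cert.congr {am : Amb k Ω} {R R' : Subalgebra k Ω} {K K' : Set Ω} {π : SPin Ω}
    (h : am.Cert R K R' π) (hK : ∀ x ∈ R, x ∈ K ↔ x ∈ K') : am.Cert R K' R' π := by
  have e : K' ∩ R = K ∩ R := by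
    ext x
    exact ⟨fun hx => ⟨(hK x hx.2).2 hx.1, hx.2⟩, fun hx => ⟨(hK x hx.2).1 hx.1, hx.2⟩⟩
  intro KR h1 h2 h3 h4
  rw [e]
  rcases h KR (fun x => (h1 x).trans (hK x.1 x.2).symm) h2 h3 h4 with h5 | h5 | h5
  · exact Or.inl h5
  · exact Or.inr (Or.inl ⟨h5.1, h5.2.1, h5.2.2.1,
      fun x hx => (hK _ (R.mul_mem h5.2.2.1 hx.2)).1 (h5.2.2.2.1 x hx), h5.2.2.2.2⟩)
  · refine Or.inr (Or.inr ⟨h5.1, h5.2.1, fun vc hv => ?_, h5.2.2.2⟩)
    obtain ⟨a1, a2, a3⟩ := h5.2.2.1 vc hv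
    exact ⟨a1, a2, fun x hx hx' => a3 x hx ((hK _ (R.mul_mem a1 hx)).2 hx')⟩

end Pool.Agent.Work.MP_c4093f_al
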