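import Pool.Agent.Work.MP_c4093f_al.PPDefs
import Pool.Agent.Lib.ZFModel.DefsZFC

/-! The Ziegler spectrum and the isolation condition read inside a structure `(M, E)` for the
language of set theory.  Rings and modules of `M` are presented as rings and modules with an
injection of the underlying set into `M` under which the set and the graphs of the operations are
elements of `M`; maps, submodules and families of pp-pairs range over the elements of `M`. -/

namespace Pool.Agent.Work.MP_c4093f_al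

universe u
variable {M : Type u} (E : M → M → Prop)

/-- `p` is the Kuratowski ordered pair `{{a}, {a, b}}`. -/
def KPair (p a b : M) : Prop :=
  ∀ z, E z p ↔ ((∀ t, E t z ↔ t = a) ∨ ∀ t, E t z ↔ t = a ∨ t = b)

/-- `X` is the set of members of an element of `M`. -/
def Coded (X : Set M) : Prop := ∃ a, ∀ x, E x a ↔ x ∈ X

/-- The binary relation `r` is an element of `M`. -/
def Coded2 (r : M → M → Prop) : Prop := Coded E {p | ∃ x y, KPair E p x y ∧ r x y}

/-- The ternary relation `r` is an element of `M`. -/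
def Coded3 (r : M → M → M → Prop) : Prop :=
  Coded2 E fun p z => ∃ x y, KPair E p x y ∧ r x y z

/-- `t` is the nested pair that codes the list. -/
def IsList : List M → M → Prop
  | [], t => ∀ x, ¬ E x t
  | x :: l, t => ∃ t', IsList l t' ∧ KPair E t x t'

/-- `t` codes the matrix `a` as the list of its rows. -/
def IsMat {n l : ℕ} (a : Fin n → Fin l → M) (t : M) : Prop :=
  ∃ r : Fin n → M, (∀ i, IsList E (List.ofFn (a i)) (r i)) ∧ IsList E (List.ofFn r) t

variable {S : Type} [Ring S] (c : S → M)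

/-- `c` presents the ring `S` as a ring of `M`. -/
def CodedRing : Prop :=
  Function.Injective c ∧ Coded E (Set.range c) ∧
    Coded3 E (fun x y z => ∃ r s, x = c r ∧ y = c s ∧ z = c (r + s)) ∧
    Coded3 E (fun x y z => ∃ r s, x = c r ∧ y = c s ∧ z = c (r * s))

/-- Left `S`-modules of `M`. -/
structure MMod where
  N : Type
  [grp : AddCommGroup N]
  [mod : Module S N]
  code : N → M
  inj : Function.Injective code
  set : Coded E (Set.range code)
  add : Coded3 E (fun x y z => ∃ a b, x = code a ∧ y = code b ∧ z = code (a + b))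
  smul : Coded3 E (fun x y z => ∃ r a, x = c r ∧ y = code a ∧ z = code (r • a))

attribute [instance] MMod.grp MMod.mod

variable {E c}

/-- The map `f` is an element of `M`. -/
def CMap (B C : MMod E c) (f : B.N → C.N) : Prop :=
  Coded2 E fun x y => ∃ a, x = B.code a ∧ y = C.code (f a)

/-- The subset `U` is an element of `M`. -/
def CSub (B : MMod E c) (U : Set B.N) : Prop := Coded E (B.code '' U)

/-- Pure-injective in `M`: injective over the pure embeddings of `M`. -/
def PInj (N : MMod E c) : Prop :=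
  ∀ (B C : MMod E c) (i : B.N →ₗ[S] C.N) (f : B.N →ₗ[S] N.N), CMap B C i → Pure i → CMap B N f →
    ∃ g : C.N →ₗ[S] N.N, CMap C N g ∧ g ∘ₗ i = f

/-- Indecomposable in `M`. -/
def Indec (N : MMod E c) : Prop :=
  Nontrivial N.N ∧ ∀ U V : Submodule S N.N, CSub N U → CSub N V → IsCompl U V → U = ⊥ ∨ V = ⊥

variable (E c) in
/-- Points of the Ziegler spectrum, before identifying isomorphic ones. -/
def Pt := {N : MMod E c // PInj N ∧ Indec N}

/-- Isomorphic in `M`. -/
def Iso (N N' : Pt E c) : Prop := ∃ f : N.1.N ≃ₗ[S] N'.1.N, CMap N.1 N'.1 f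

variable (E c) in
/-- `ψ ≤ φ` in all modules of `M`. -/
def PPLe {n : ℕ} (ψ φ : PP S n) : Prop := ∀ N : MMod E c, ψ.ev N.N ⊆ φ.ev N.N

variable (E c) in
/-- pp-pairs `φ / ψ`. -/
structure Pair where
  n : ℕ
  φ : PP S n
  ψ : PP S n
  le : PPLe E c ψ φ

/-- The basic open set `(φ / ψ)`. -/
def Pair.Opn (π : Pair E c) : Set (Pt E c) := {N | π.φ.ev N.1.N ≠ π.ψ.ev N.1.N}

/-- `t` codes the four matrices of the pair. -/
def Pair.Codes (π : Pair E c) (t : M) : Prop :=
  ∃ t1 t2 t3 t4, IsMat E (fun i j => c (π.φ.a i j)) t1 ∧ IsMat E (fun i j => c (π.φ.b i j)) t2 ∧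
    IsMat E (fun i j => c (π.ψ.a i j)) t3 ∧ IsMat E (fun i j => c (π.ψ.b i j)) t4 ∧
    IsList E [t1, t2, t3, t4] t

/-- Closed sets of `M`: complements of unions of families in `M` of basic open sets. -/
def Closed (X : Set (Pt E c)) : Prop :=
  ∃ O : Set (Pair E c), Coded E {t | ∃ π ∈ O, π.Codes t} ∧ X = (⋃ π ∈ O, π.Opn)ᶜ

/-- `φ / ψ` is `X`-minimal. -/
def Minimal (X : Set (Pt E c)) (π : Pair E c) : Prop :=
  (∃ N ∈ X, N ∈ π.Opn) ∧ ∀ θ : PP S π.n, PPLe E c π.ψ θ → PPLe E c θ π.φ →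
    (∀ N ∈ X, θ.ev N.1.N = π.φ.ev N.1.N) ∨ ∀ N ∈ X, θ.ev N.1.N = π.ψ.ev N.1.N

/-- `(φ / ψ) ∩ Y = {N}`, up to isomorphism. -/
def Isolates (π : Pair E c) (Y : Set (Pt E c)) (N : Pt E c) : Prop :=
  N ∈ Y ∧ N ∈ π.Opn ∧ ∀ N' ∈ Y, N' ∈ π.Opn → Iso N' N

/-- The isolation condition for `X`. -/
def IC (X : Set (Pt E c)) : Prop :=
  ∀ Y, Closed Y → Y ⊆ X → ∀ N, (∃ π, Isolates π Y N) → ∃ π, Minimal Y π ∧ Isolates π Y N

/-- The dual closed set `DX`. -/
def DualSet (X : Set (Pt E fun r : Sᵐᵒᵖ => c r.unop)) : Set (Pt E c) :=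
  {L | ∀ π : Pair E fun r : Sᵐᵒᵖ => c r.unop, π.Opn ∩ X = ∅ →
    π.ψ.dual.ev L.1.N = π.φ.dual.ev L.1.N}

end Pool.Agent.Work.MP_c4093f_al
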